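import Pool.Agent.Work.MP_d95c0d_gt.Inner1

/-! Topology inside the model: the dichotomy. -/

namespace Pool.Agent.Work.MP_d95c0d_gt
open Pool.Agent.Lib.ZFModel Pool.Agent.Work.MP_63c7e0_lc Pool.Agent.Work.MP_58a5a1_lc
  Pool.Agent.Work.MP_ee7661_gt

namespace Inn

variable {M : Type 1} {E : M → M → Prop}

set_option synthInstance.maxSize 100000

variable {X τ B : M} (cx : Cx E X τ B) (wd : WD E)
include cx

theorem Cx.ultra_of_sep (R : M)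
    (symm : ∀ x y k, Val E R x y k → Val E R y x k)
    (tr : ∀ x y z k, E y X → Val E R x z k → Val E R x y k ∨ Val E R y z k)
    (op : ∀ k x, E x X → ∃ c, E c τ ∧ E x c ∧ ∀ y, E y c → ¬ Val E R x y (wd.nat k))
    (bs : ∀ U y, E U τ → E y U → ∃ k, ∀ z, E z X → ¬ Val E R y z (wd.nat k) → E z U) :
    Ultrametrizable E X τ := by
  classical
  have := cx.zf.nonempty
  have zf := cx.zf
  obtain ⟨sw, hsw⟩ := exists_sing zf wd.w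
  obtain ⟨S, hS⟩ := exists_union zf wd.w sw
  have hS' : ∀ n, E n S ↔ E n wd.w ∨ n = wd.w := fun n => by rw [hS, hsw n]
  obtain ⟨W, hW⟩ := exists_prod zf X X
  obtain ⟨ν, h1, hν⟩ := exists_rel3 zf hW S fun x y c =>
    ∀ j, E j c ↔ E j wd.w ∧ ¬ Val E R x y j ∧ ∀ i, E i j → ¬ Val E R x y i
  have hn : ∀ k, E (wd.nat k) wd.w := fun k => (wd.mem_w _).2 ⟨k, rfl⟩
  have key : ∀ {x y c}, Val E ν x y c → ∀ j,
      E j c ↔ ∃ k, j = wd.nat k ∧ ∀ i ≤ k, ¬ Val E R x y (wd.nat i) := by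
    intro x y c h j
    rw [((hν _ _ _).1 h).2.2.2 j]
    constructor
    · rintro ⟨a1, a2, a3⟩
      obtain ⟨k, rfl⟩ := (wd.mem_w _).1 a1
      refine ⟨k, rfl, fun i hi => ?_⟩
      rcases hi.eq_or_lt with rfl | hi
      exacts [a2, a3 _ ((wd.mem_nat _ _).2 ⟨i, hi, rfl⟩)]
    · rintro ⟨k, rfl, a⟩
      refine ⟨hn k, a k le_rfl, fun i hi => ?_⟩
      obtain ⟨m, hm, rfl⟩ := (wd.mem_nat _ _).1 hi
      exact a m hm.le
  have ex : ∀ x y, E x X → E y X → ∃ c, Val E ν x y c := by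
    intro x y hx hy
    obtain ⟨c, hc⟩ := zf.sep wd.w fun j => ¬ Val E R x y j ∧ ∀ i, E i j → ¬ Val E R x y i
    refine ⟨c, (hν _ _ _).2 ⟨hx, hy, (hS' c).2 ?_, hc⟩⟩
    by_cases h : ∃ k, Val E R x y (wd.nat k)
    · refine Or.inl ((wd.mem_w _).2 ⟨Nat.find h, zf.extensionality _ _ fun j => ?_⟩)
      rw [hc, wd.mem_nat]
      constructor
      · rintro ⟨a1, a2, a3⟩
        obtain ⟨k, rfl⟩ := (wd.mem_w _).1 a1
        refine ⟨k, ?_, rfl⟩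
        rcases lt_trichotomy k (Nat.find h) with h' | rfl | h'
        · exact h'
        · exact absurd (Nat.find_spec h) a2
        · exact absurd (Nat.find_spec h) (a3 _ ((wd.mem_nat _ _).2 ⟨_, h', rfl⟩))
      · rintro ⟨k, hk, rfl⟩
        refine ⟨hn k, Nat.find_min h hk, fun i hi => ?_⟩
        obtain ⟨m, hm, rfl⟩ := (wd.mem_nat _ _).1 hi
        exact Nat.find_min h (hm.trans hk)
    · refine Or.inr (zf.extensionality _ _ fun j => (hc j).trans ⟨fun h => h.1, fun hj => ?_⟩)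
      obtain ⟨k, rfl⟩ := (wd.mem_w _).1 hj
      refine ⟨hj, fun h' => h ⟨k, h'⟩, fun i hi h' => ?_⟩
      obtain ⟨m, -, rfl⟩ := (wd.mem_nat _ _).1 hi
      exact h ⟨m, h'⟩
  have uq : ∀ {x y c c'}, Val E ν x y c → Val E ν x y c' → c = c' := fun h h' =>
    zf.extensionality _ _ fun j => (key h j).trans (key h' j).symm
  refine ⟨wd.w, S, W, ν, MP_ee7661_gt.isOmega_w zf wd.toND, hS', hW, ⟨h1, fun p hp => ?_,
    fun p c c' h h' => ?_⟩, fun x y hx hy => ⟨fun h => ?_, ?_⟩, fun x y n h => ?_,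
    fun x y z a b c ha hb hc => ?_, fun U => ⟨fun hU => ⟨cx.sub hU, fun x hx => ?_⟩, ?_⟩⟩
  · obtain ⟨x, y, hx, hy, h⟩ := (hW p).1 hp
    obtain ⟨c, q, hq, hc⟩ := ex x y hx hy
    exact ⟨c, pair_unique zf hq h ▸ hc⟩
  · obtain ⟨q, q1, q2⟩ := id h
    obtain ⟨p', c0, a1, -, a2⟩ := h1 q q1
    obtain ⟨rfl, rfl⟩ := pair_inj zf q2 a2
    obtain ⟨x, y, -, -, e⟩ := (hW p).1 a1
    exact uq ⟨p, e, h⟩ ⟨p, e, h'⟩
  · by_contra hne
    obtain ⟨c, c1, c2, c3⟩ := cx.sepp hy hx hne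
    obtain ⟨k, hk⟩ := bs c x (cx.bτ c1) c2
    obtain ⟨k', e, h'⟩ := (key h _).1 (hn k)
    obtain rfl := MP_ee7661_gt.nat_inj zf wd.toND e
    exact c3 (hk y hy (h' k le_rfl))
  · rintro rfl
    obtain ⟨c, hc⟩ := ex x x hx hx
    have : c = wd.w := zf.extensionality _ _ fun j => (key hc j).trans
      ⟨fun ⟨k, e, _⟩ => e ▸ hn k, fun hj => by
        obtain ⟨k, rfl⟩ := (wd.mem_w _).1 hj
        refine ⟨k, rfl, fun i _ => ?_⟩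
        obtain ⟨V, -, v1, v2⟩ := op i x hx
        exact v2 x v1⟩
    exact this ▸ hc
  · obtain ⟨hx, hy, -⟩ := (hν _ _ _).1 h
    obtain ⟨c, hc⟩ := ex y x hy hx
    have : c = n := zf.extensionality _ _ fun j => by
      rw [key hc, key h]
      exact exists_congr fun k => and_congr_right fun _ => forall₂_congr fun i _ =>
        not_congr ⟨symm _ _ _, symm _ _ _⟩
    exact this ▸ hc
  · refine or_iff_not_imp_left.2 fun h j hj => ?_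
    unfold MP_63c7e0_lc.Sub at h
    push Not at h
    obtain ⟨j', a1, a2⟩ := h
    obtain ⟨k, rfl, b1⟩ := (key hb _).1 hj
    obtain ⟨k', rfl, b2⟩ := (key ha _).1 a1
    have hy := ((hν _ _ _).1 hb).1
    rcases le_total k k' with h | h
    · exact (key hc _).2 ⟨k, rfl, fun i hi h' =>
        (tr x y z _ hy h').elim (b2 i (hi.trans h)) (b1 i hi)⟩
    · exact absurd ((key hc _).2 ⟨k', rfl, fun i hi h' =>
        (tr x y z _ hy h').elim (b2 i hi) (b1 i (hi.trans h))⟩) a2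
  · obtain ⟨k, hk⟩ := bs U x hU hx
    refine ⟨_, hn k, fun y c h h' => ?_⟩
    obtain ⟨k', e, h''⟩ := (key h _).1 h'
    obtain rfl := MP_ee7661_gt.nat_inj zf wd.toND e
    exact hk y ((hν _ _ _).1 h).2.1 (h'' k le_rfl)
  · rintro ⟨a1, a2⟩
    refine cx.opn fun x hx => ?_
    obtain ⟨n, a3, a4⟩ := a2 x hx
    obtain ⟨k, rfl⟩ := (wd.mem_w _).1 a3
    have : ∀ k, ∃ c, E c τ ∧ E x c ∧ ∀ y, E y c → ∀ i ≤ k, ¬ Val E R x y (wd.nat i) := by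
      intro k
      induction k with
      | zero =>
        obtain ⟨c, c1, c2, c3⟩ := op 0 x (a1 x hx)
        exact ⟨c, c1, c2, fun y hy i hi => Nat.le_zero.1 hi ▸ c3 y hy⟩
      | succ k ih =>
        obtain ⟨c, c1, c2, c3⟩ := op (k + 1) x (a1 x hx)
        obtain ⟨d, d1, d2, d3⟩ := ih
        obtain ⟨b, b1, b2, b3, b4⟩ := cx.bas2 c1 d1 c2 d2
        refine ⟨b, cx.bτ b1, b2, fun y hy i hi => ?_⟩
        rcases hi.eq_or_lt with rfl | hi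
        exacts [c3 y (b3 y hy), d3 y (b4 y hy) i (Nat.lt_succ_iff.1 hi)]
    obtain ⟨c, c1, c2, c3⟩ := this k
    refine ⟨c, c1, c2, fun y hy => ?_⟩
    obtain ⟨d, hd⟩ := ex x y (a1 x hx) (cx.sub c1 y hy)
    exact a4 y d hd ((key hd _).2 ⟨k, rfl, c3 y hy⟩)

theorem Cx.ultra (h : Sm E wd.w τ B fun y => E y X) : Ultrametrizable E X τ := by
  have := cx.zf.nonempty
  have zf := cx.zf
  obtain ⟨A, ⟨g1, g2⟩, hb⟩ := h
  obtain ⟨g, hg⟩ := wd.pr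
  have hn : ∀ k, E (wd.nat k) wd.w := fun k => (wd.mem_w _).2 ⟨k, rfl⟩
  obtain ⟨S, -, hS⟩ := exists_rel zf wd.w X fun n x => ¬ ∃ a, App E A n a ∧ E x a
  obtain ⟨f, f1, f2, f3⟩ := cx.gd_seq wd wd.w S fun n hn => by
    obtain ⟨C, hC⟩ := zf.sep X fun x => ¬ ∃ a, App E A n a ∧ E x a
    refine ⟨C, cx.cls (fun x hx => ((hC x).1 hx).1) fun y hy h => ?_, fun x => by
      rw [hC, hS, and_iff_right hn]⟩
    obtain ⟨a, a1, a2⟩ : ∃ a, App E A n a ∧ E y a := by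
      by_contra h'; exact h ((hC y).2 ⟨hy, h'⟩)
    exact ⟨a, (g1 _ _ a1).2.1, a2, fun z hz h' => ((hC z).1 h').2 ⟨a, a1, hz⟩⟩
  obtain ⟨W, hW⟩ := exists_prod zf X X
  obtain ⟨R, -, hR⟩ := exists_rel3 zf hW wd.w fun x y k => ∃ n m u U a, Val E g n m k ∧
    App E f n u ∧ App E u m U ∧ App E A n a ∧ (∃ z, E z a ∧ ¬ E z U) ∧ ¬ (E x a ↔ E y a)
  have key : ∀ {n m u U}, App E f (wd.nat n) u → App E u (wd.nat m) U → ∀ x y,
      Val E R x y (wd.nat (Nat.pair n m)) → ∃ a, App E A (wd.nat n) a ∧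
        (∃ z, E z a ∧ ¬ E z U) ∧ ¬ (E x a ↔ E y a) := by
    intro n m u U h1 h2 x y h
    obtain ⟨-, -, -, n', m', u', U', a, a1, a2, a3, a4⟩ := (hR _ _ _).1 h
    obtain ⟨i, j, rfl, rfl, e⟩ := (hg _ _ _).1 a1
    obtain ⟨rfl, rfl⟩ := Nat.pair_eq_pair.1 (MP_ee7661_gt.nat_inj zf wd.toND e)
    obtain rfl := f2 _ _ _ h1 a2
    obtain rfl := (f1 _ _ h1).1.2.2 _ _ _ h2 a3
    exact ⟨a, a4⟩
  refine cx.ultra_of_sep wd R (fun x y k h => ?_) (fun x y z k hy h => ?_) (fun k x hx => ?_)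
    fun U0 y hU hy => ?_
  · obtain ⟨a1, a2, a3, n, m, u, U, a, b1, b2, b3, b4, b5, b6⟩ := (hR _ _ _).1 h
    exact (hR _ _ _).2 ⟨a2, a1, a3, n, m, u, U, a, b1, b2, b3, b4, b5, fun h => b6 h.symm⟩
  · obtain ⟨a1, a2, a3, n, m, u, U, a, b1, b2, b3, b4, b5, b6⟩ := (hR _ _ _).1 h
    by_cases h' : E x a ↔ E y a
    · exact Or.inr ((hR _ _ _).2 ⟨hy, a2, a3, n, m, u, U, a, b1, b2, b3, b4, b5,
        fun h => b6 (h'.trans h)⟩)
    · exact Or.inl ((hR _ _ _).2 ⟨a1, hy, a3, n, m, u, U, a, b1, b2, b3, b4, b5, h'⟩)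
  · obtain ⟨u, hu⟩ := f3 _ (hn k.unpair.1)
    obtain ⟨U, hU⟩ := (f1 _ _ hu).1.2.1 _ (hn k.unpair.2)
    have key' := key hu hU x
    rw [Nat.pair_unpair] at key'
    by_cases h : ∃ a, App E A (wd.nat k.unpair.1) a ∧ (∃ z, E z a ∧ ¬ E z U) ∧ E x a
    · obtain ⟨a, a1, -, a3⟩ := h
      refine ⟨a, (g1 _ _ a1).2.1, a3, fun y hy h' => ?_⟩
      obtain ⟨a', b1, -, b3⟩ := key' y h'
      exact b3 ⟨fun h => g2 _ _ _ _ a1 b1 a3 h ▸ hy, fun h => g2 _ _ _ _ a1 b1 hy h ▸ a3⟩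
    · have hxU : E x U := by
        by_contra h'
        obtain ⟨a, a1, a2⟩ : ∃ a, App E A (wd.nat k.unpair.1) a ∧ E x a := by
          by_contra h''
          exact h' (((f1 _ _ hu).2 x).1 ((hS _ _).2 ⟨hn _, hx, h''⟩) _ _ hU)
        exact h ⟨a, a1, ⟨x, a2, h'⟩, a2⟩
      obtain ⟨c, c1, c2, c3⟩ := cx.bas ((f1 _ _ hu).1.mem zf hU).2 hxU
      refine ⟨c, cx.bτ c1, c2, fun y hy h' => ?_⟩
      obtain ⟨a, b1, ⟨z, z1, z2⟩, b3⟩ := key' y h'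
      refine b3 ⟨fun h'' => absurd ⟨a, b1, ⟨z, z1, z2⟩, h''⟩ h, fun h'' => ?_⟩
      rcases (g1 _ _ b1).2.2 c y c1 h'' hy with e | e
      exacts [absurd (c3 z (e z z1)) z2, e x c2]
  · have hyX := cx.sub hU y hy
    obtain ⟨n, a, a1, a2, a3⟩ := hb y hyX U0 hU hy
    obtain ⟨u, hu⟩ := f3 _ (g1 _ _ a1).1
    have h1 : ¬ App E S n y := fun h => ((hS _ _).1 h).2.2 ⟨a, a1, a2⟩
    rw [(f1 _ _ hu).2] at h1
    push Not at h1
    obtain ⟨m, U, b1, b2⟩ := h1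
    obtain ⟨i, rfl⟩ := (wd.mem_w _).1 (g1 _ _ a1).1
    obtain ⟨j, rfl⟩ := (wd.mem_w _).1 ((f1 _ _ hu).1.mem zf b1).1
    refine ⟨Nat.pair i j, fun z hz h => a3 z ?_⟩
    by_contra h'
    exact h ((hR _ _ _).2 ⟨hyX, hz, hn _, _, _, u, U, a, (hg _ _ _).2 ⟨i, j, rfl, rfl, rfl⟩, hu, b1,
      a1, ⟨y, a2, b2⟩, fun e => h' (e.1 a2)⟩)

theorem Cx.tree {B0 y0 : M} (h0 : E B0 B) (hy0 : E y0 B0)
    (hns : ∀ d, E d B → Sub E d B0 → (∃ x, E x d) → ¬ Sm E wd.w τ B fun y => E y d) :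
    Nonempty (IT E wd.toND) := by
  have := cx.zf.nonempty
  have zf := cx.zf
  have hn : ∀ k, E (wd.nat k) wd.w := fun k => (wd.mem_w _).2 ⟨k, rfl⟩
  obtain ⟨T, hT⟩ := zf.sep B fun t => Sub E t B0 ∧ ∃ x, E x t
  obtain ⟨R, -, hR⟩ := exists_rel zf T T fun s t => Sub E t s
  have tB : ∀ {t}, E t T → E t B := fun h => ((hT _).1 h).1
  have tX : ∀ {t x}, E t T → E x t → E x X := fun h hx => cx.sub (cx.bτ (tB h)) _ hx
  have mk : ∀ {s c y}, E s T → E c B → E y c → Sub E c s → E c T := fun hs hc hy h =>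
    (hT _).2 ⟨hc, Sub.tr h ((hT _).1 hs).2.1, _, hy⟩
  have two : ∀ {s}, E s T → ∀ y, E y s → ∃ z, E z s ∧ z ≠ y := by
    intro s hs y hy
    by_contra h
    push Not at h
    obtain ⟨A, -, hA⟩ := exists_rel zf wd.w τ fun _ a => a = s
    refine hns s (tB hs) ((hT _).1 hs).2.1 ⟨y, hy⟩ ⟨A, ⟨fun n a ha => ?_,
      fun n a a' x ha ha' _ _ => ((hA _ _).1 ha).2.2.trans ((hA _ _).1 ha').2.2.symm⟩,
      fun z hz U _ hU => ⟨_, s, (hA _ _).2 ⟨hn 0, cx.bτ (tB hs), rfl⟩, hz, fun v hv => ?_⟩⟩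
    · obtain ⟨a1, a2, rfl⟩ := (hA _ _).1 ha
      exact ⟨a1, a2, fun b x hb h1 h2 => cx.cmp (tB hs) hb h1 h2⟩
    · rw [h v hv, ← h z hz]; exact hU
  obtain ⟨yf, y1, y2, y3⟩ := exists_ch cx.zfc T X fun s y => E y s
  have y4 : ∀ {s}, E s T → ∃ y, App E yf s y := fun hs => by
    obtain ⟨x, hx⟩ := ((hT _).1 hs).2.2
    exact y3 _ x hs (tX hs hx) hx
  obtain ⟨f, f1, f2, f3⟩ := cx.gd_seq wd T yf fun s hs => by
    obtain ⟨y, hy⟩ := y4 hs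
    obtain ⟨C, hC⟩ := exists_sing zf y
    exact ⟨C, cx.t1 y C (y1 _ _ hy).2.1 hC, fun x => (hC x).trans
      ⟨fun e => e ▸ hy, fun h => y2 _ _ _ h hy⟩⟩
  obtain ⟨W, hW⟩ := exists_prod zf T wd.w
  obtain ⟨Y, -, hY⟩ := exists_rel3 zf hW T fun s k t => Sub E t s ∧ ∃ y u U, App E yf s y ∧
    App E f s u ∧ App E u k U ∧ E y t ∧ Sub E t U
  have below : ∀ {s y b z}, E s T → App E yf s y → E b B → E y b → E z b → z ≠ y →
      ∃ k, ∀ t, Val E Y s (wd.nat k) t → Sub E t b := by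
    intro s y b z hs hy hb hyb hzb hne
    obtain ⟨u, hu⟩ := f3 s hs
    have h1 : ¬ App E yf s z := fun h => hne (y2 _ _ _ h hy)
    rw [(f1 _ _ hu).2] at h1
    push Not at h1
    obtain ⟨m, U, b1, b2⟩ := h1
    obtain ⟨k, rfl⟩ := (wd.mem_w _).1 ((f1 _ _ hu).1.mem zf b1).1
    refine ⟨k, fun t ht => ?_⟩
    obtain ⟨-, -, a1, -, y', u', U', a2, a3, a4, a5, a6⟩ := (hY _ _ _).1 ht
    obtain rfl := y2 _ _ _ hy a2
    obtain rfl := f2 _ _ _ hu a3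
    obtain rfl := (f1 _ _ hu).1.2.2 _ _ _ b1 a4
    rcases cx.cmp (tB a1) hb a5 hyb with h | h
    exacts [h, absurd (a6 z (h z hzb)) b2]
  refine ⟨⟨T, R, Y, fun h => ⟨((hR _ _).1 h).1, ((hR _ _).1 h).2.1⟩,
    fun h => (hR _ _).2 ⟨h, h, fun _ h => h⟩, fun h h' => (hR _ _).2 ⟨((hR _ _).1 h).1,
      ((hR _ _).1 h').2.1, Sub.tr ((hR _ _).1 h').2.2 ((hR _ _).1 h).2.2⟩, fun h h' => ?_,
    ⟨B0, (hT _).2 ⟨h0, fun _ h => h, y0, hy0⟩⟩, fun {s} hs => ?_, fun D s hs hD => ?_,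
    fun {s} hs k => ?_, fun h => (hR _ _).2 ⟨((hY _ _ _).1 h).1, ((hY _ _ _).1 h).2.2.1,
      ((hY _ _ _).1 h).2.2.2.1⟩, fun N hN => ?_⟩⟩
  · obtain ⟨a1, a2, a3⟩ := (hR _ _).1 h
    obtain ⟨b1, -, b3⟩ := (hR _ _).1 h'
    obtain ⟨x, hx⟩ := ((hT _).1 a2).2.2
    exact (cx.cmp (tB b1) (tB a1) (b3 x hx) (a3 x hx)).imp (fun h => (hR _ _).2 ⟨a1, b1, h⟩)
      fun h => (hR _ _).2 ⟨b1, a1, h⟩
  · obtain ⟨y, hy⟩ := ((hT _).1 hs).2.2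
    obtain ⟨z, hz, hne⟩ := two hs y hy
    obtain ⟨c, c1, c2, c3⟩ := cx.sepp (tX hs hz) (tX hs hy) hne.symm
    obtain ⟨d, d1, d2, d3⟩ := cx.sepp (tX hs hy) (tX hs hz) hne
    have c4 := (cx.cmp c1 (tB hs) c2 hy).resolve_right fun h => c3 (h z hz)
    have d4 := (cx.cmp d1 (tB hs) d2 hz).resolve_right fun h => d3 (h y hy)
    exact ⟨c, d, (hR _ _).2 ⟨hs, mk hs c1 c2 c4, c4⟩, (hR _ _).2 ⟨hs, mk hs d1 d2 d4, d4⟩,
      fun h => c3 (((hR _ _).1 h).2.2 z d2), fun h => d3 (((hR _ _).1 h).2.2 y c2)⟩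
  · obtain ⟨D', -, hD'⟩ := exists_rel zf wd.w T fun n t =>
      Sub E t s ∧ ∃ u, App E R u t ∧ App E D n u
    obtain ⟨Z, hZ⟩ := zf.powerset B
    obtain ⟨φ, p1, p2, p3⟩ := exists_ch cx.zfc wd.w Z fun n A => (∀ a, E a A → App E D' n a) ∧
      (∀ a a' x, E a A → E a' A → E x a → E x a' → a = a') ∧
      ∀ d, App E D' n d → ∃ d' a, App E D' n d' ∧ E a A ∧ Sub E d' d ∧ Sub E d' a
    have p4 : ∀ n, ∃ A, App E φ (wd.nat n) A := fun n => by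
      obtain ⟨Dn, hDn⟩ := zf.sep T fun t => App E D' (wd.nat n) t
      have e : ∀ t, E t Dn ↔ App E D' (wd.nat n) t := fun t =>
        (hDn t).trans ⟨fun h => h.2, fun h => ⟨((hD' _ _).1 h).2.1, h⟩⟩
      obtain ⟨A, a1, a2, a3⟩ := cx.root wd Dn fun t ht => tB ((hDn t).1 ht).1
      exact p3 _ A (hn n) ((hZ A).2 fun a ha => tB ((hDn a).1 (a1 a ha)).1)
        ⟨fun a ha => (e a).1 (a1 a ha), a2, by simpa only [e] using a3⟩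
    have p5 : ∀ {n An a}, App E φ n An → E a An → E a B := fun h ha =>
      (hZ _).1 (p1 _ _ h).2.1 _ ha
    obtain ⟨A, -, hA⟩ := exists_rel zf wd.w τ fun n a => ∃ An, App E φ n An ∧ E a An
    have gA : Gd E wd.w τ B A := by
      refine ⟨fun n a ha => ?_, fun n a a' x ha ha' hx hx' => ?_⟩
      · obtain ⟨a1, a2, An, a3, a4⟩ := (hA _ _).1 ha
        exact ⟨a1, a2, fun b x hb h1 h2 => cx.cmp (p5 a3 a4) hb h1 h2⟩
      · obtain ⟨-, -, An, a3, a4⟩ := (hA _ _).1 ha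
        obtain ⟨-, -, An', b3, b4⟩ := (hA _ _).1 ha'
        obtain rfl := p2 _ _ _ a3 b3
        exact (p1 _ _ a3).2.2.2.1 _ _ _ a4 b4 hx hx'
    obtain ⟨S, -, hS⟩ := exists_rel zf wd.w X fun n y =>
      E y s ∧ ¬ ∃ An a, App E φ n An ∧ E a An ∧ E y a
    have s1 := cx.sm_iUnion wd S fun n => by
      obtain ⟨An, h1⟩ := p4 n
      refine cx.sm_mono (cx.sm_compl wd An s (fun a ha => cx.bτ (p5 h1 ha))
        (fun y hy h => cx.clopen (tB hs) hy h) fun c y hc hy h => ?_) fun y _ h =>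
        ⟨((hS _ _).1 h).2.2.1, fun ⟨a, a1, a2⟩ => ((hS _ _).1 h).2.2.2 ⟨An, a, h1, a1, a2⟩⟩
      obtain ⟨u, u1, u2⟩ := hD n c ((hR _ _).2 ⟨hs, mk hs hc hy h, h⟩)
      obtain ⟨-, u3, u4⟩ := (hR _ _).1 u1
      obtain ⟨d', a, a1, a2, a3, a4⟩ := (p1 _ _ h1).2.2.2.2 u ((hD' _ _).2 ⟨hn n, u3,
        Sub.tr u4 h, u, (hR _ _).2 ⟨u3, u3, fun _ h => h⟩, u2⟩)
      obtain ⟨z, hz⟩ := ((hT _).1 ((hD' _ _).1 a1).2.1).2.2
      exact ⟨z, a, u4 z (a3 z hz), a2, a4 z hz⟩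
    obtain ⟨y, hy, h1, h2⟩ : ∃ y, E y s ∧ ¬ Bas E τ A y ∧ ¬ ∃ n, App E S (wd.nat n) y := by
      by_contra h
      refine hns s (tB hs) ((hT _).1 hs).2.1 ((hT _).1 hs).2.2 (cx.sm_mono
        (cx.sm_union wd (Y := Bas E τ A) ⟨A, gA, fun _ h => h⟩ s1) fun y _ hy => ?_)
      by_contra h'
      exact h ⟨y, hy, not_or.1 h'⟩
    unfold Bas at h1
    push Not at h1
    obtain ⟨U, u1, u2, u3⟩ := h1
    obtain ⟨t, t1, t2, t3, t4⟩ := cx.bas2 u1 (cx.bτ (tB hs)) u2 hy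
    have ht := mk hs t1 t2 t4
    refine ⟨t, (hR _ _).2 ⟨hs, ht, t4⟩, fun n => ?_⟩
    obtain ⟨An, a, a1, a2, a3⟩ : ∃ An a, App E φ (wd.nat n) An ∧ E a An ∧ E y a := by
      by_contra h
      exact h2 ⟨n, (hS _ _).2 ⟨hn n, tX hs hy, hy, h⟩⟩
    have a4 := (cx.cmp (p5 a1 a2) t1 a3 t2).resolve_left fun h =>
      u3 _ a ((hA _ _).2 ⟨hn n, cx.bτ (p5 a1 a2), An, a1, a2⟩) a3 (Sub.tr h t3)
    obtain ⟨-, -, -, u, b1, b2⟩ := (hD' _ _).1 ((p1 _ _ a1).2.2.1 a a2)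
    exact ⟨u, (hR _ _).2 ⟨((hR _ _).1 b1).1, ht, Sub.tr a4 ((hR _ _).1 b1).2.2⟩, b2⟩
  · obtain ⟨y, hy⟩ := y4 hs
    obtain ⟨u, hu⟩ := f3 s hs
    obtain ⟨U, hU⟩ := (f1 _ _ hu).1.2.1 _ (hn k)
    obtain ⟨t, t1, t2, t3, t4⟩ := cx.bas2 ((f1 _ _ hu).1.mem zf hU).2 (cx.bτ (tB hs))
      (((f1 _ _ hu).2 y).1 hy _ _ hU) (y1 _ _ hy).2.2
    exact ⟨t, (hY _ _ _).2 ⟨hs, hn k, mk hs t1 t2 t4, t4, y, u, U, hy, hu, hU, t2, t3⟩⟩
  · obtain ⟨F, hF⟩ := zf.sep X fun x =>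
      E x B0 ∧ ¬ ∃ b, E b T ∧ E x b ∧ ∀ u, E u N → ¬ App E R b u
    obtain ⟨u, u1, u2⟩ := cx.gdw wd (C := F) (cx.cls (fun x hx => ((hF x).1 hx).1) fun y hy h => by
      by_cases h1 : E y B0
      · obtain ⟨b, b1, b2, b3⟩ : ∃ b, E b T ∧ E y b ∧ ∀ u, E u N → ¬ App E R b u := by
          by_contra h2; exact h ((hF y).2 ⟨hy, h1, h2⟩)
        exact ⟨b, cx.bτ (tB b1), b2, fun z hz h' => ((hF z).1 h').2.2 ⟨b, b1, hz, b3⟩⟩
      · obtain ⟨c, c1, c2, c3⟩ := cx.clopen h0 hy h1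
        exact ⟨c, c1, c2, fun z hz h' => c3 z hz ((hF z).1 h').2.1⟩)
    obtain ⟨G, -, hG⟩ := exists_rel zf T wd.w fun t n => ∃ U, App E u n U ∧ Sub E t U
    refine ⟨G, fun t t' n h h' => ?_, fun v _ hv => ?_, fun s hs h n => ?_⟩
    · obtain ⟨-, a1, U, a2, a3⟩ := (hG _ _).1 h
      exact (hG _ _).2 ⟨((hR _ _).1 h').2.1, a1, U, a2, Sub.tr ((hR _ _).1 h').2.2 a3⟩
    · obtain ⟨t, t1, t2⟩ := hN v hv
      obtain ⟨-, t3, t4⟩ := (hR _ _).1 t1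
      obtain ⟨x, hx⟩ := ((hT _).1 t3).2.2
      have h1 : ¬ E x F := fun h => ((hF x).1 h).2.2 ⟨t, t3, hx, t2⟩
      rw [u2] at h1
      push Not at h1
      obtain ⟨m, U, b1, b2⟩ := h1
      obtain ⟨n, rfl⟩ := (wd.mem_w _).1 (u1.mem zf b1).1
      refine ⟨n, fun h => ?_⟩
      obtain ⟨-, -, U', a2, a3⟩ := (hG _ _).1 h
      obtain rfl := u1.2.2 _ _ _ b1 a2
      exact b2 (a3 x (t4 x hx))
    · obtain ⟨y, hy⟩ := y4 hs
      have hys := (y1 _ _ hy).2.2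
      have hyF : E y F := by
        refine (hF y).2 ⟨tX hs hys, ((hT _).1 hs).2.1 y hys, fun ⟨b, b1, b2, b3⟩ => ?_⟩
        obtain ⟨z, z1, z2⟩ := two b1 y b2
        obtain ⟨k, hk⟩ := below hs hy (tB b1) b2 z1 z2
        obtain ⟨t, v, a1, a2, a3⟩ := h k
        exact b3 v a3 ((hR _ _).2 ⟨b1, ((hR _ _).1 a2).2.1, Sub.tr ((hR _ _).1 a2).2.2 (hk t a1)⟩)
      obtain ⟨U, hU⟩ := u1.2.1 _ (hn n)
      obtain ⟨c, c1, c2, c3, c4⟩ := cx.bas2 (u1.mem zf hU).2 (cx.bτ (tB hs))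
        ((u2 y).1 hyF _ _ hU) hys
      obtain ⟨z, z1, z2⟩ := two (mk hs c1 c2 c4) y c2
      obtain ⟨k, hk⟩ := below hs hy c1 c2 z1 z2
      exact ⟨k, fun t ht => (hG _ _).2 ⟨((hY _ _ _).1 ht).2.2.1, hn n, U, hU,
        Sub.tr (hk t ht) c3⟩⟩

end Inn

theorem inner {M : Type 1} {E : M → M → Prop} (zfc : IsZFC E) (wd : WD E) {X τ : M}
    (hτ : IsTop E X τ) (h1 : IsT1 E X τ) (hn : NonArchimedean E τ)
    (hp : ∀ C, IsClosedIn E X τ C → IsGdelta E τ C) :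
    Ultrametrizable E X τ ∨ Nonempty (IT E wd.toND) := by
  obtain ⟨B, hB⟩ := hn
  have cx : Inn.Cx E X τ B := ⟨zfc, hτ, h1, hB, hp⟩
  refine or_iff_not_imp_right.2 fun h => cx.ultra wd (cx.sm_all wd fun c y hc hy => ?_)
  by_contra h'
  exact h (cx.tree wd hc hy fun d a1 a2 a3 a4 => h' ⟨d, a1, a2, a3, a4⟩)

end Pool.Agent.Work.MP_d95c0d_gt
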