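import Pool.Agent.Work.MP_d95c0d_gt.Iter6

/-! The iteration satisfies `Sys`. -/

namespace Pool.Agent.Work.MP_d95c0d_gt
open Set Cardinal Raw Cond Filter
set_option linter.unusedSectionVars false

variable {K : Type} [LinearOrder K] [WellFoundedLT K] [OrderBot K] (L : LC K)

namespace LC

theorem ae_all {J : Type} {I : Set J} (hI : #I < L.κ₀) {p : J → Set K → Prop}
    (h : ∀ i ∈ I, ∀ᶠ Z in (L.U : Filter (Set K)), p i Z) :
    ∀ᶠ Z in (L.U : Filter (Set K)), ∀ i ∈ I, p i Z := MP_58a5a1_lc.ae_all_of L.complete hI h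

theorem ae_const {A : Type} {T : Set A} (hT : #T < L.κ₀) {g : Set K → A}
    (h : ∀ᶠ Z in (L.U : Filter (Set K)), g Z ∈ T) : ∃ a, ∀ᶠ Z in (L.U : Filter (Set K)), g Z = a := by
  by_contra hn
  obtain ⟨Z, h1, h2⟩ := ((L.ae_all hT (p := fun a Z => g Z ≠ a) fun a _ =>
    Ultrafilter.eventually_not.2 fun h => hn ⟨a, h⟩).and h).exists
  exact h1 _ h2 rfl

theorem normal' {R : Set K → K → Prop} (h : ∀ᶠ Z in (L.U : Filter (Set K)), ∃ a ∈ Z, R Z a) :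
    ∃ a, ∀ᶠ Z in (L.U : Filter (Set K)), R Z a := by
  have h1 : ∀ Z, ∃ a, (∃ a ∈ Z, R Z a) → a ∈ Z ∧ R Z a := fun Z => by
    by_cases h : ∃ a ∈ Z, R Z a
    · exact h.imp fun a ha _ => ha
    · exact ⟨⊥, fun h' => absurd h' h⟩
  choose g hg using h1
  obtain ⟨a, ha⟩ := L.normal g (h.mono fun Z hZ => (hg Z hZ).1)
  exact ⟨a, (ha.and h).mono fun Z hZ => hZ.1 ▸ (hg Z hZ.2).2⟩

theorem lt_al {β : K} (h : β < L.k) : ∀ᶠ Z in (L.U : Filter (Set K)), β < L.al Z :=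
  (L.good.and (L.fine β)).mono fun _ hZ => hZ.1.1.le ⟨hZ.2, h⟩

theorem ae_pt : ∀ᶠ Z in (L.U : Filter (Set K)), Nonempty (Pt L Z (L.al Z)) :=
  (L.good.and (L.lt_al L.w_lt)).mono fun _ ⟨⟨h1, h2, h3, h4, ⟨e⟩⟩, h5⟩ =>
    ofPt L h1 h2 ⟨h5, h3, h4⟩ e

theorem press' {R : Set K → K → Prop}
    (h : ∀ᶠ Z in (L.U : Filter (Set K)), ∃ a < L.al Z, R Z a) :
    ∃ a < L.k, ∀ᶠ Z in (L.U : Filter (Set K)), R Z a := by
  obtain ⟨a, ha⟩ := L.normal' (R := fun Z a => a < L.k ∧ R Z a) ((h.and L.ae_pt).mono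
    fun Z ⟨⟨a, h1, h2⟩, ⟨T⟩⟩ => ⟨a, T.sub h1, h1.trans T.lt, h2⟩)
  exact ⟨a, ha.exists.choose_spec.1, ha.mono fun _ h => h.2⟩

theorem small_below {b : Co K} (hb : b < co L.k 0) :
    #{s : Cond L.par (co L.k 0) | Below b s.1} < L.κ₀ :=
  (MP_58a5a1_lc.sm_inj (t := {p | OkB L.par b p}) Subtype.val Subtype.val_injective.injOn
    (fun s hs => s.2.of_below hs) le_rfl).trans_lt (L.small0 hb)

theorem sm_ae (p : Cond L.par (co L.k 1)) :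
    ∀ᶠ Z in (L.U : Filter (Set K)), L.SmD Z (L.al Z) p := by
  have h1 := L.sd_top.1 (L.top.sd_dom p)
  obtain ⟨b, a1, a2⟩ := exists_base_below (X := L.par)
    ⟨(⊥, ⊥), L.mem_IS0.2 ⟨L.ga_k, Or.inl rfl, bot_le.trans_lt L.w_lt⟩⟩ (L.top.res p)
  obtain ⟨β, a3, a4⟩ := exists_mk_Iio (L.mk_k ▸ h1.1 : _ < #(Iio L.k))
  have a5 : ∀ i ∈ L.top.dom p, ∀ᶠ Z in (L.U : Filter (Set K)), (i.1 ∈ Z ∧ i.2 < L.al Z) ∧
      (∃ b < co (L.al Z) 0, ∀ s v, L.top.val p i s v → L.top.val p i (cut b s) v) ∧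
      ∀ s v, L.top.val p i s v → v ∈ Z := fun i hi => by
    obtain ⟨-, -, -, -, c, c1, c2⟩ := L.top.nm_val hi
    have a6 : ∀ s ∈ {s : Cond L.par (co L.k 0) | Below c s.1}, ∀ᶠ Z in (L.U : Filter (Set K)),
        ∀ v, L.top.val p i s v → v ∈ Z := fun s _ => by
      by_cases h : ∃ v, L.top.val p i s v
      · obtain ⟨v, hv⟩ := h
        exact (L.fine v).mono fun Z hZ v' hv' => L.top.val_fun hi hv hv' ▸ hZ
      · exact Eventually.of_forall fun Z v hv => absurd ⟨v, hv⟩ h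
    filter_upwards [L.fine i.1, L.lt_al (h1.2 i hi), L.lt_al (lt_co0.1 (c1.2 rfl)),
      L.ae_all (L.small_below (c1.2 rfl)) a6] with Z d1 d2 d3 d4
    exact ⟨⟨d1, d2⟩, ⟨c, lt_co0.2 d3, c2⟩, fun s v h => d4 (cut c s) (below_res _ _) v (c2 s v h)⟩
  filter_upwards [L.lt_al (lt_co0.1 (a1.2 rfl)), L.lt_al a3, L.good, L.ae_all h1.1 a5]
    with Z b1 b2 b3 b4
  exact ⟨a2.mono (lt_co0.2 b1).le, a4 ▸ b3.2.2.2.1 β b2, b4⟩

theorem const_dom {W : Set K → Set (K × K)}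
    (h : ∀ᶠ Z in (L.U : Filter (Set K)), #(W Z) < #(Iio (L.al Z)) ∧ ∀ i ∈ W Z, i.1 ∈ Z ∧ i.2 ∈ Z) :
    ∃ D, ∀ᶠ Z in (L.U : Filter (Set K)), W Z = D := by
  obtain ⟨β, a1, a2⟩ := L.press' (R := fun Z β => #(Iio β) = #(W Z))
    (h.mono fun Z hZ => exists_mk_Iio hZ.1)
  have h1 : ∀ Z, ∃ g : K → K × K, #(Iio β) = #(W Z) → BijOn g (Iio β) (W Z) := fun Z => by
    by_cases hZ : #(Iio β) = #(W Z)
    · obtain ⟨g, hg, -⟩ := MP_58a5a1_lc.exists_bijOn hZ (⊥, ⊥)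
      exact ⟨g, fun _ => hg⟩
    · exact ⟨fun _ => (⊥, ⊥), fun h => absurd h hZ⟩
  choose g hg using h1
  have h2 : ∀ x, ∃ y, x ∈ Iio β → ∀ᶠ Z in (L.U : Filter (Set K)), g Z x = y := fun x => by
    by_cases hx : x ∈ Iio β
    · obtain ⟨u, hu⟩ := L.normal (fun Z => (g Z x).1)
        ((a2.and h).mono fun Z hZ => (hZ.2.2 _ ((hg Z hZ.1).1 hx)).1)
      obtain ⟨v, hv⟩ := L.normal (fun Z => (g Z x).2)
        ((a2.and h).mono fun Z hZ => (hZ.2.2 _ ((hg Z hZ.1).1 hx)).2)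
      exact ⟨(u, v), fun _ => (hu.and hv).mono fun Z hZ => Prod.ext hZ.1 hZ.2⟩
    · exact ⟨(⊥, ⊥), fun h => absurd h hx⟩
  choose y hy using h2
  refine ⟨y '' Iio β, ?_⟩
  filter_upwards [a2, L.ae_all (L.lt_k β a1) hy] with Z b1 b2
  rw [← (hg Z b1).image_eq]
  exact image_congr b2

theorem press (g : Set K → Cond L.par (co L.k 1))
    (h : ∀ᶠ Z in (L.U : Filter (Set K)), L.SmD Z (L.al Z) (g Z)) :
    ∃ p, ∀ᶠ Z in (L.U : Filter (Set K)), g Z ≤ p ∧ p ≤ g Z := by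
  obtain ⟨β, a1, a2⟩ := L.press' (R := fun Z β => Below (co β 2) (L.top.res (g Z)).1)
    ((h.and L.ae_pt).mono fun Z ⟨hZ, ⟨T⟩⟩ => by
      obtain ⟨b, b1, b2⟩ := L.par.bb (co (L.al Z) 0) rfl ⟨(⊥, ⊥), L.mem_IS0.2 ⟨T.ga,
        Or.inr (bot_le.trans_lt (T.pi_lt _ T.bot_mem)), bot_le.trans_lt T.ga.1⟩⟩ _
        (L.top.res (g Z)).2.2.1 hZ.1
      exact ⟨b.fst, lt_co0.1 b1, Below.mono b2 (le_co2 b)⟩)
  obtain ⟨s₀, a3⟩ := L.ae_const (L.small_below (co_lt_co a1 2 0)) a2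
  obtain ⟨D, a4⟩ := L.const_dom (W := fun Z => L.top.dom (g Z)) ((h.and L.ae_pt).mono
    fun Z ⟨hZ, ⟨T⟩⟩ => ⟨hZ.2.1, fun i hi => ⟨(hZ.2.2 i hi).1.1, T.sub (hZ.2.2 i hi).1.2⟩⟩)
  have a5 : #D < L.κ₀ :=
    let ⟨Z, hZ⟩ := a4.exists; hZ ▸ (L.sd_top.1 (L.top.sd_dom (g Z))).1
  have a6 : ∀ i ∈ D, ∀ᶠ Z in (L.U : Filter (Set K)), ∀ s v, L.top.val (g Z) i s v →
      ∀ᶠ Y in (L.U : Filter (Set K)), L.top.val (g Y) i s v := fun i hi => by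
    obtain ⟨γ, b1, b2⟩ := L.press' (R := fun Z γ => ∀ s v, L.top.val (g Z) i s v →
      L.top.val (g Z) i (cut (co γ 2) s) v) ((h.and (a4.and L.good)).mono fun Z ⟨hZ, h1, h2⟩ => by
        obtain ⟨b, c1, c2⟩ := (hZ.2.2 i (h1 ▸ hi)).2.1
        exact ⟨b.fst, lt_co0.1 c1, fun s v hv => L.top.val_mono (h1 ▸ hi) (c2 s v hv)
          (cut_le_cut (le_co2 b) (co_lt_co ((lt_co0.1 c1).trans h2.2.1) 2 0).le s)⟩)
    have b3 : ∀ s ∈ {s : Cond L.par (co L.k 0) | Below (co γ 2) s.1},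
        ∀ᶠ Z in (L.U : Filter (Set K)), ∀ v, L.top.val (g Z) i s v →
        ∀ᶠ Y in (L.U : Filter (Set K)), L.top.val (g Y) i s v := fun s _ => by
      rcases L.U.em fun Z => ∃ v, L.top.val (g Z) i s v with c | c
      · obtain ⟨v, hv⟩ := L.normal' (R := fun Z v => L.top.val (g Z) i s v)
          ((c.and (h.and a4)).mono fun Z ⟨⟨v, d1⟩, d2, d3⟩ =>
            ⟨v, (d2.2.2 i (d3 ▸ hi)).2.2 s v d1, d1⟩)
        exact (hv.and a4).mono fun Z hZ v' hv' => L.top.val_fun (hZ.2 ▸ hi) hZ.1 hv' ▸ hv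
      · exact c.mono fun Z hZ v hv => absurd ⟨v, hv⟩ hZ
    filter_upwards [b2, L.ae_all (L.small_below (co_lt_co b1 2 0)) b3] with Z c1 c2
    exact fun s v hv => ((c2 _ (below_res _ _) v (c1 s v hv)).and a4).mono fun Y hY =>
      L.top.val_mono (hY.2 ▸ hi) hY.1 (le_cut (co_lt_co b1 2 0).le s)
  have a7 := a3.and (a4.and (L.ae_all a5 a6))
  have key : ∀ Z Z', (L.top.res (g Z) = s₀ ∧ L.top.dom (g Z) = D ∧ ∀ i ∈ D, ∀ s v,
      L.top.val (g Z) i s v → ∀ᶠ Y in (L.U : Filter (Set K)), L.top.val (g Y) i s v) →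
      (L.top.res (g Z') = s₀ ∧ L.top.dom (g Z') = D ∧ ∀ i ∈ D, ∀ s v,
      L.top.val (g Z') i s v → ∀ᶠ Y in (L.U : Filter (Set K)), L.top.val (g Y) i s v) →
      g Z ≤ g Z' := fun Z Z' h1 h2 => L.top.le_iff.2 ⟨(h1.1.trans h2.1.symm).le,
        (h2.2.1.trans h1.2.1.symm).le, fun i hi s _ v v' b1 b2 => by
          have hi' : i ∈ D := h2.2.1 ▸ hi
          obtain ⟨Y, c1, c2, c3⟩ := ((h2.2.2 i hi' s v b1).and ((h1.2.2 i hi' s v' b2).and a4)).exists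
          exact L.top.val_fun (c3 ▸ hi') c1 c2⟩
  obtain ⟨Z₀, h₀⟩ := a7.exists
  exact ⟨g Z₀, a7.mono fun Z hZ => ⟨key _ _ hZ h₀, key _ _ h₀ hZ⟩⟩

end LC

theorem exists_sys (L : LC K) :
    ∃ (P : Type) (_ : Preorder P) (_ : P), Nonempty (Sys P K) := by
  refine ⟨Cond L.par (co L.k 1), inferInstance, top _ _, ⟨{
    κ₀ := L.κ₀
    κ₁ := L.κ₁
    w := L.w
    k := L.k
    h0 := L.unc0
    h01 := L.h01
    slim := L.slim1
    mk_Iio := L.mk_Iio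
    big := fun c hc => (exists_mk_Iio' (L.mkK ▸ hc)).imp fun _ h => h.ge
    mk_k := L.mk_k
    lt_k := L.lt_k
    bdd_k := fun C => L.bdd_k
    cnt_w := L.lt_w
    bdd_w := fun C => L.bdd_w
    w_lt := L.w_lt
    aa := L.aas le_rfl
    Q := Cond L.par (co L.k 0)
    aaQ := L.aas (co01 _).le
    mkQ := (L.small1 le_rfl).1
    cs := L.top
    sd_iff := fun D => L.sd_top
    dflt_eq := rfl
    nm_const := fun i v h1 h2 => nmC_const (L.mem_IS0.2 ⟨L.ga_k, Or.inl rfl, h1⟩)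
      (L.vv0.2 (Or.inl h2))
    nm_lt := fun h h' => L.vv0.1 (h.2.2.2.1 _ _ h')
    ultra := L.ultra
    Ω := Set K
    U := L.U
    Sm := fun Z => L.Sm Z (L.al Z)
    al := L.al
    al_lt := L.good.mono fun _ h => h.2.1
    lt_al := fun β => L.lt_al
    sm_ae := fun p => (L.sm_ae p).mono fun _ h => ⟨p, h, le_rfl, le_rfl⟩
    press := fun g hg => ?_
    press_al := fun g hg => (L.press' (R := fun Z β => g Z = β)
      (hg.mono fun Z h => ⟨_, h, rfl⟩)).imp fun _ h => h.2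
    loc := L.ae_pt.mono fun _ ⟨T⟩ => T.exists_ls }⟩⟩
  have h1 : ∀ Z, ∃ p', L.Sm Z (L.al Z) (g Z) → L.SmD Z (L.al Z) p' ∧ p' ≤ g Z ∧ g Z ≤ p' :=
    fun Z => by
      by_cases h : L.Sm Z (L.al Z) (g Z)
      · exact h.imp fun _ h _ => h
      · exact ⟨g Z, fun h' => absurd h' h⟩
  choose g' h2 using h1
  obtain ⟨p, hp⟩ := L.press g' (hg.mono fun Z h => (h2 Z h).1)
  exact ⟨p, (hp.and hg).mono fun Z h => ⟨(h2 Z h.2).2.2.trans h.1.1, h.1.2.trans (h2 Z h.2).2.1⟩⟩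

end Pool.Agent.Work.MP_d95c0d_gt
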