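import Pool.Agent.Work.MP_d95c0d_gt.Phi1B

/-! There is no name for a splitting Baire tree on `κ₀` with the `κ₀` chain condition. -/

namespace Pool.Agent.Work.MP_d95c0d_gt
open Set Filter

variable {P K : Type} [Preorder P] [LinearOrder K]

theorem ev_choice {A B : Type*} [h₀ : Nonempty B] {l : Filter A} {r : A → B → Prop}
    (h : ∀ᶠ x in l, ∃ y, r x y) : ∃ f : A → B, ∀ᶠ x in l, r x (f x) := by
  classical
  exact ⟨fun x => if h : ∃ y, r x y then h.choose else h₀.some,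
    h.mono fun x hx => by simp only [dif_pos hx]; exact hx.choose_spec⟩

namespace LS
variable {w α : K} {Sm : P → Prop} (L : LS P K w α Sm)

theorem sm_lift (r : L.Q1) : Sm (L.lift r) := (L.sm_iff _).2 ⟨r, le_rfl, le_rfl⟩

theorem amalg1 {q : P} {r : L.Q1} (h : r ≤ L.cs.res (L.d2 q)) :
    ∃ q' ≤ q, L.cs.res (L.d2 q') ≤ r := by
  obtain ⟨r₂, a, b, -⟩ := L.cs.am h
  obtain ⟨q', c, d⟩ := L.amalg a
  exact ⟨q', c, b ▸ L.cs.res_mono d⟩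

theorem ms_below {p : P} (h : Sm p) : ∃ q ≤ p, L.Ms q := by
  obtain ⟨r, a, -⟩ := (L.sm_iff _).1 h
  obtain ⟨q, b, c⟩ := L.ms_ex r
  exact ⟨q, (L.ms_le b c).trans a, b⟩

end LS

/-- Reflection of witnesses to small conditions and small ordinals. -/
def Ref (k α : K) (Sm : P → Prop) (Φ : K → K → P → K → Prop) : Prop :=
  ∀ p, Sm p → ∀ s < α, ∀ t < α, (∃ p' ≤ p, ∃ u < k, Φ s t p' u) →
    ∃ p' ≤ p, Sm p' ∧ ∃ u < α, Φ s t p' u

section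
variable {w α k : K} {Sm : P → Prop} (L : LS P K w α Sm) {Φ : K → K → P → K → Prop}
  (R : Ref k α Sm Φ) (hm : ∀ s t u, Mo fun p => Φ s t p u) {s t u : K} (hs : s < α) (ht : t < α)
  (hu : u < k)
include R hm hs ht hu

theorem Ref.one {r : L.Q1} {p : P} (hp : p ≤ L.lift r) (h : Φ s t p u) :
    ∃ r' ≤ r, ∃ u < α, Φ s t (L.lift r') u := by
  obtain ⟨p', a, b, u', c, d⟩ := R _ (L.sm_lift r) s hs t ht ⟨p, hp, u, hu, h⟩
  obtain ⟨r', e, -⟩ := (L.sm_iff _).1 b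
  exact ⟨r', L.lift_le.1 (e.trans a), u', c, hm _ _ _ d e⟩

theorem Ref.key {q : P} (hq : L.Ms q) (h : Φ s t q u) :
    ∃ q' ≤ q, ∃ u < α, Φ s t (L.lift (L.cs.res (L.d2 q'))) u := by
  obtain ⟨r', a, u', b, c⟩ := R.one L hm hs ht hu (L.ms_le hq le_rfl) h
  obtain ⟨q', d, e⟩ := L.amalg1 a
  exact ⟨q', d, u', b, hm _ _ _ c (L.lift_le.2 e)⟩

end

variable [OrderBot K]

namespace Sys
variable (S : Sys P K)

theorem diagK {Φ : K → S.Ω → Prop} (h : ∀ β < S.k, ∀ᶠ Z in (S.U : Filter S.Ω), Φ β Z) :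
    ∀ᶠ Z in (S.U : Filter S.Ω), ∀ β < S.al Z, Φ β Z := by
  by_contra hn
  have h1 : ∀ᶠ Z in (S.U : Filter S.Ω), ∃ β, β < S.al Z ∧ ¬ Φ β Z :=
    (Ultrafilter.eventually_not.2 hn).mono fun Z hZ => by simpa using hZ
  obtain ⟨g, hg⟩ := ev_choice h1
  obtain ⟨β, hβ⟩ := S.press_al g (hg.mono fun _ h => h.1)
  obtain ⟨Z, a, b, c⟩ := (hg.and (hβ.and S.al_lt)).exists
  obtain ⟨Z', a', b', c'⟩ := (hg.and (hβ.and (h β (b ▸ a.1.trans c)))).exists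
  exact a'.2 (b' ▸ c')

theorem diagP [Nonempty P] {Φ : P → S.Ω → Prop} (hi : ∀ p p' Z, p ≤ p' → p' ≤ p → Φ p Z → Φ p' Z)
    (h : ∀ p, ∀ᶠ Z in (S.U : Filter S.Ω), Φ p Z) :
    ∀ᶠ Z in (S.U : Filter S.Ω), ∀ p, S.Sm Z p → Φ p Z := by
  by_contra hn
  have h1 : ∀ᶠ Z in (S.U : Filter S.Ω), ∃ p, S.Sm Z p ∧ ¬ Φ p Z :=
    (Ultrafilter.eventually_not.2 hn).mono fun Z hZ => by simpa using hZ
  obtain ⟨g, hg⟩ := ev_choice h1
  obtain ⟨p, hp⟩ := S.press g (hg.mono fun _ h => h.1)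
  obtain ⟨Z, a, b, c⟩ := (hg.and (hp.and (h p))).exists
  exact a.2 (hi _ _ _ b.2 b.1 c)

theorem ref [Nonempty P] (Φ : K → K → P → K → Prop) :
    ∀ᶠ Z in (S.U : Filter S.Ω), Ref S.k (S.al Z) (S.Sm Z) Φ := by
  refine S.diagP (fun p p' Z a b h s hs t ht ⟨q, c, d⟩ => ?_) fun p => ?_
  · obtain ⟨q', e, f⟩ := h s hs t ht ⟨q, c.trans b, d⟩
    exact ⟨q', e.trans a, f⟩
  · refine S.diagK fun s _ => S.diagK fun t _ => ?_
    by_cases h : ∃ p' ≤ p, ∃ u < S.k, Φ s t p' u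
    · obtain ⟨p', a, u, b, c⟩ := h
      filter_upwards [S.sm_ae p', S.lt_al u b] with Z d e _ using ⟨p', a, d, u, e, c⟩
    · exact Eventually.of_forall fun _ h' => absurd h' h

/-- `κ₀` stays a cardinal. -/
theorem card {β : K} (hβ : β < S.k) (p : P) (Y : K → K → P → Prop) (hm : ∀ i y, Mo (Y i y))
    (ht : ∀ i < S.k, ∀ r ≤ p, ∃ r' ≤ r, ∃ y < β, Y i y r')
    (hi : ∀ i i' y, ∀ r ≤ p, Y i y r → Y i' y r → i = i') : False := by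
  have : Nonempty P := ⟨p⟩
  obtain ⟨Z, R, a, b, c, ⟨L⟩⟩ := ((S.ref fun y _ r i => Y i y r).and ((S.sm_ae p).and
    ((S.lt_al β hβ).and (S.al_lt.and S.loc)))).exists
  obtain ⟨q, d, e⟩ := L.ms_below a
  obtain ⟨q', f, y, g, h⟩ := ht _ c q d
  have e' := L.ms_mono e f
  obtain ⟨q'', k1, i, k2, k3⟩ := R.key L (fun y _ i => hm i y) (g.trans b) (g.trans b) c e' h
  exact k2.ne (hi _ _ y q'' (k1.trans (f.trans d))
    (hm _ _ k3 (L.ms_le (L.ms_mono e' k1) le_rfl)) (hm _ _ h k1))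

theorem glue {p : P} {Φ : S.Ω → P → K → Prop} (hm : ∀ Z y, Mo fun r => Φ Z r y)
    (h : ∀ᶠ Z in (S.U : Filter S.Ω), ∃ r ≤ p, S.Sm Z r ∧ ∃ y < S.al Z, Φ Z r y) :
    ∃ r ≤ p, ∃ y < S.k, ∀ᶠ Z in (S.U : Filter S.Ω), Φ Z r y := by
  have : Nonempty (P × K) := ⟨(p, ⊥)⟩
  obtain ⟨g, hg⟩ := ev_choice (h.mono fun Z ⟨r, a, b, y, c, d⟩ =>
    (⟨(r, y), a, b, c, d⟩ : ∃ x : P × K, x.1 ≤ p ∧ S.Sm Z x.1 ∧ x.2 < S.al Z ∧ Φ Z x.1 x.2))
  obtain ⟨r, a⟩ := S.press (fun Z => (g Z).1) (hg.mono fun _ h => h.2.1)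
  obtain ⟨y, b⟩ := S.press_al (fun Z => (g Z).2) (hg.mono fun _ h => h.2.2.1)
  obtain ⟨Z, c, d, e, f⟩ := (hg.and (a.and (b.and S.al_lt))).exists
  refine ⟨r, d.2.trans c.1, y, e ▸ c.2.2.1.trans f, ?_⟩
  filter_upwards [hg, a, b] with Z c d e using e ▸ hm Z _ c.2.2.2 d.2

theorem glueW [Nonempty P] {le : K → K → P → Prop}
    (h : ∀ᶠ Z in (S.U : Filter S.Ω), Wide le (S.al Z) (S.Sm Z)) : Wide le S.k fun _ => True := by
  obtain ⟨g, hg⟩ := ev_choice h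
  obtain ⟨p, hp⟩ := S.press g (hg.mono fun _ h => h.1)
  obtain ⟨Y, hY⟩ := ev_choice (hg.mono fun _ h => h.2)
  refine ⟨p, trivial, fun i y r => ∀ᶠ Z in (S.U : Filter S.Ω), Y Z i y r,
    fun i y r r' a b => ?_, fun i hi r hr _ => ?_, fun i y r a => ?_,
    fun i i' y y' r _ hr a b c => ?_⟩
  · filter_upwards [a, hY] with Z c d using d.1 _ _ c b
  · obtain ⟨r', a, y, b, c⟩ := S.glue (p := r) (Φ := fun Z r y => ∃ r₀, r ≤ r₀ ∧ Y Z i y r₀)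
      (fun Z y _ _ ⟨r₀, a, b⟩ c => ⟨r₀, c.trans a, b⟩) (by
        filter_upwards [hY, hp, S.lt_al i hi, S.sm_ae r] with Z a b c d
        obtain ⟨r', e, f, y, g, h⟩ := a.2.1 i c r (hr.trans b.2) d
        exact ⟨r', e, f, y, g, r', le_rfl, h⟩)
    refine ⟨r', a, trivial, y, b, ?_⟩
    filter_upwards [c, hY] with Z ⟨r₀, d, e⟩ f using f.1 _ _ e d
  · obtain ⟨Z, b, c⟩ := (a.and hY).exists
    exact c.2.2.1 _ _ _ b
  · obtain ⟨Z, d, e, f, g, h⟩ := (a.and (b.and (hY.and (hp.and (S.sm_ae r))))).exists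
    exact f.2.2.2 _ _ _ _ r h (hr.trans g.2) d e c

theorem glueL [Nonempty P] {le : K → K → P → Prop}
    (h : ∀ᶠ Z in (S.U : Filter S.Ω), Long le (S.al Z) (S.Sm Z)) : Long le S.k fun _ => True := by
  obtain ⟨g, hg⟩ := ev_choice h
  obtain ⟨p, hp⟩ := S.press g (hg.mono fun _ h => h.1)
  obtain ⟨Y, hY⟩ := ev_choice (hg.mono fun _ h => h.2)
  refine ⟨p, trivial, fun y r => ∀ᶠ Z in (S.U : Filter S.Ω), Y Z y r,
    fun y r r' a b => ?_, fun y r a => ?_, fun r hr _ x y a b => ?_, fun β hβ r hr _ => ?_⟩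
  · filter_upwards [a, hY] with Z c d using d.1 _ c b
  · obtain ⟨Z, b, c⟩ := (a.and hY).exists
    exact c.2.1 _ _ b
  · obtain ⟨Z, d, e, f, g, h⟩ := (a.and (b.and (hY.and (hp.and (S.sm_ae r))))).exists
    exact f.2.2.1 r (hr.trans g.2) h x y d e
  · obtain ⟨r', a, y, b, c⟩ := S.glue (p := r)
      (Φ := fun Z r y => β ≤ y ∧ ∃ r₀, r ≤ r₀ ∧ Y Z y r₀)
      (fun Z y _ _ ⟨d, r₀, a, b⟩ c => ⟨d, r₀, c.trans a, b⟩) (by
        filter_upwards [hY, hp, S.lt_al β hβ, S.sm_ae r] with Z a b c d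
        obtain ⟨r', e, f, y, g, h, k⟩ := a.2.2.2 β c r (hr.trans b.2) d
        exact ⟨r', e, f, y, g, h, r', le_rfl, k⟩)
    refine ⟨r', a, trivial, y, b, c.exists.choose_spec.1, ?_⟩
    filter_upwards [c, hY] with Z ⟨_, r₀, d, e⟩ f using f.1 _ e d

end Sys

variable [WellFoundedLT K] (S : Sys P K) (T : NT0 P K)
  (ord : ∀ s t p, T.le s t p → s ≤ t ∧ t < S.k)
  (cc : ∀ A : K → P → Prop, (∀ u, Mo (A u)) → (∀ u r, A u r → T.le u u r) →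
    (∀ u u' r, A u r → A u' r → T.le u u' r → u = u') →
    ∀ p, ∃ q ≤ p, ∃ β < S.k, ∀ r ≤ q, ∀ u, A u r → u < β)

include cc in
theorem not_wide : ¬ Wide T.le S.k fun _ => True := by
  rintro ⟨p, -, Y, h1, h2, h3, h4⟩
  obtain ⟨q, a, β, b, c⟩ := cc (fun u r => r ≤ p ∧ ∃ i, Y i u r ∧ ∀ r' ≤ r, ∀ y < u, ¬ Y i y r')
    (fun u r r' ⟨a, i, b, c⟩ h => ⟨h.trans a, i, h1 _ _ b h, fun t ht => c t (ht.trans h)⟩)
    (fun u r ⟨_, i, b, _⟩ => h3 _ _ _ b)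
    (fun u u' r ⟨a, i, b, c⟩ ⟨_, i', b', c'⟩ h => by
      obtain rfl := h4 _ _ _ _ r trivial a b b' h
      exact le_antisymm (not_lt.1 fun h => c r le_rfl _ h b') (not_lt.1 fun h => c' r le_rfl _ h b)) p
  refine S.card b q Y h1 (fun i hi r hr => ?_) fun i i' y r hr d e =>
    h4 _ _ _ _ r trivial (hr.trans a) d e (h3 _ _ _ d)
  obtain ⟨r₁, d, -, y₁, -, e⟩ := h2 i hi r (hr.trans a) trivial
  obtain ⟨y, ⟨r', f, g⟩, h⟩ := exists_min (Φ := fun y => ∃ r' ≤ r, Y i y r') ⟨y₁, r₁, d, e⟩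
  exact ⟨r', f, y, c r' (f.trans hr) y ⟨f.trans (hr.trans a), i, g,
    fun t ht z hz k => h z hz ⟨t, ht.trans f, k⟩⟩, g⟩

include ord cc in
theorem not_long : ¬ Long T.le S.k fun _ => True := by
  rintro ⟨p, -, C, h1, h2, h3, h4⟩
  let O : K → P → Prop := fun u r => ∀ r' ≤ r, ∀ y, C y r' → ¬ T.le u y r'
  obtain ⟨q, a, β, b, c⟩ := cc (fun u r => T.le u u r ∧ O u r ∧
      ∀ r' ≤ r, ∀ s, T.le s u r' → s ≠ u → ¬ O s r')
    (fun u r r' ⟨a, b, c⟩ h => ⟨T.mono _ _ a h, fun t ht => b t (ht.trans h),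
      fun t ht => c t (ht.trans h)⟩) (fun u r h => h.1)
    (fun u u' r h h' e => by_contra fun hn => h'.2.2 r le_rfl u e hn h.2.1) p
  obtain ⟨r₁, d1, -, y, -, d2, d3⟩ := h4 β b q a trivial
  obtain ⟨r₂, e1, t, t', e2, e3, e4⟩ := T.split (h2 _ _ d3)
  have h5 : ∃ r₃ ≤ r₂, ∃ t, T.le y t r₃ ∧ O t r₃ := by
    by_cases h : O t r₂
    · exact ⟨r₂, le_rfl, t, e2, h⟩
    · simp only [O, not_forall, not_not] at h
      obtain ⟨r₃, f1, z, f2, f3⟩ := h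
      refine ⟨r₃, f1, t', T.mono _ _ e3 f1, fun r₄ f4 z' f5 f6 => ?_⟩
      obtain ⟨r₅, g1, g2⟩ := h3 r₄ (f4.trans (f1.trans (e1.trans (d1.trans a)))) trivial z z'
        (h1 _ f2 f4) f5
      have g3 := T.mono _ _ f3 (g1.trans f4)
      have g4 := T.mono _ _ f6 g1
      obtain ⟨r₆, k1, k2⟩ : ∃ r₆ ≤ r₅, T.le t t' r₆ ∨ T.le t' t r₆ :=
        g2.elim (fun g => T.tree (T.trans g3 g) g4) fun g => T.tree g3 (T.trans g4 g)
      have k3 := e4 r₆ (k1.trans (g1.trans (f4.trans f1)))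
      exact k2.elim k3.1 k3.2
  obtain ⟨r₃, f1, t, f2, f3⟩ := h5
  obtain ⟨u, ⟨r₄, g1, g2, g3⟩, g4⟩ := exists_min (Φ := fun u => ∃ r ≤ r₃, T.le u t r ∧ O u r)
    ⟨t, r₃, le_rfl, T.right f2, f3⟩
  have g5 := c r₄ (g1.trans (f1.trans (e1.trans d1))) u ⟨T.left g2, g3, fun r hr s k1 k2 k3 =>
    g4 s ((ord _ _ _ k1).1.lt_of_ne k2) ⟨r, hr.trans g1, T.trans k1 (T.mono _ _ g2 hr), k3⟩⟩
  obtain ⟨r₅, k1, k2 | k2⟩ := T.tree g2 (T.mono _ _ f2 g1)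
  · exact g3 r₅ k1 y (h1 _ d3 (k1.trans (g1.trans (f1.trans e1)))) k2
  · exact not_le.2 g5 (d2.trans (ord _ _ _ k2).1)

theorem phi1 (S : Sys P K) (T : NT0 P K) (ord : ∀ s t p, T.le s t p → s ≤ t ∧ t < S.k)
    (cc : ∀ A : K → P → Prop, (∀ u, Mo (A u)) → (∀ u r, A u r → T.le u u r) →
      (∀ u u' r, A u r → A u' r → T.le u u' r → u = u') →
      ∀ p, ∃ q ≤ p, ∃ β < S.k, ∀ r ≤ q, ∀ u, A u r → u < β) : False := by
  obtain ⟨s₀, p₀, h₀⟩ := T.ne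
  have : Nonempty P := ⟨p₀⟩
  let A : K → K → P → Prop := fun β m r => β ≤ m ∧ T.le m m r ∧
    ∀ r' ≤ r, ∀ s, T.le s m r' → s ≠ m → s < β
  obtain ⟨Z, R, RA, nW, nL, z1, z2, z3, ⟨L⟩⟩ := ((S.ref fun s t r _ => T.le s t r).and
    ((S.ref fun β _ r γ => ∀ r' ≤ r, ∀ m, A β m r' → m < γ).and
    ((Ultrafilter.eventually_not.2 fun h => not_wide S T cc (S.glueW h)).and
    ((Ultrafilter.eventually_not.2 fun h => not_long S T ord cc (S.glueL h)).and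
    ((S.sm_ae p₀).and ((S.lt_al s₀ (ord _ _ _ h₀).2).and (S.al_lt.and S.loc))))))).exists
  set α := S.al Z
  let le : K → K → L.Q1 → Prop := fun s t r => s < α ∧ t < α ∧ T.le s t (L.lift r)
  have H : TL le α := by
    refine ⟨fun s t r r' h h' => ⟨h.1, h.2.1, T.mono _ _ h.2.2 (L.lift_le.2 h')⟩,
      fun h => ⟨h.1, h.1, T.left h.2.2⟩, fun h => ⟨h.2.1, h.2.1, T.right h.2.2⟩,
      fun h h' => ⟨h.1, h'.2.1, T.trans h.2.2 h'.2.2⟩, fun h h' => ?_, fun h => h.1, ?_, ?_⟩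
    · obtain ⟨q, a, b | b⟩ := T.tree h.2.2 h'.2.2
      · obtain ⟨r', c, -, -, d⟩ := R.one L (fun s t _ => T.mono s t) h.1 h'.1 z3 a b
        exact ⟨r', c, Or.inl ⟨h.1, h'.1, d⟩⟩
      · obtain ⟨r', c, -, -, d⟩ := R.one L (fun s t _ => T.mono s t) h'.1 h.1 z3 a b
        exact ⟨r', c, Or.inr ⟨h'.1, h.1, d⟩⟩
    · rintro ⟨p, -, Y, h1, h2, h3, h4⟩
      refine nW ⟨L.lift p, L.sm_lift p, fun i y q => ∃ s, q ≤ L.lift s ∧ Y i y s,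
        fun i y _ _ ⟨s, a, b⟩ c => ⟨s, c.trans a, b⟩, fun i hi r hr hs => ?_,
        fun i y r ⟨s, a, b⟩ => T.mono _ _ (h3 _ _ _ b).2.2 a, ?_⟩
      · obtain ⟨r₁, a, -⟩ := (L.sm_iff _).1 hs
        obtain ⟨r₂, b, -, y, c, d⟩ := h2 i hi r₁ (L.lift_le.1 (a.trans hr)) trivial
        exact ⟨_, (L.lift_le.2 b).trans a, L.sm_lift r₂, y, c, r₂, le_rfl, d⟩
      · rintro i i' y y' r hs hr ⟨s, a, b⟩ ⟨s', a', b'⟩ h
        obtain ⟨r₁, c, -⟩ := (L.sm_iff _).1 hs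
        exact h4 i i' y y' r₁ trivial (L.lift_le.1 (c.trans hr))
          (h1 _ _ b (L.lift_le.1 (c.trans a))) (h1 _ _ b' (L.lift_le.1 (c.trans a')))
          ⟨(h3 _ _ _ b).1, (h3 _ _ _ b').1, T.mono _ _ h c⟩
    · rintro ⟨p, -, Y, h1, h2, h3, h4⟩
      refine nL ⟨L.lift p, L.sm_lift p, fun y q => ∃ s, q ≤ L.lift s ∧ Y y s,
        fun y _ _ ⟨s, a, b⟩ c => ⟨s, c.trans a, b⟩,
        fun y r ⟨s, a, b⟩ => T.mono _ _ (h2 _ _ b).2.2 a, ?_, fun β hβ r hr hs => ?_⟩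
      · rintro r hr hs x y ⟨s, a, b⟩ ⟨s', a', b'⟩
        obtain ⟨r₁, c, -⟩ := (L.sm_iff _).1 hs
        obtain ⟨r₂, d, e⟩ := h3 r₁ (L.lift_le.1 (c.trans hr)) trivial x y
          (h1 _ b (L.lift_le.1 (c.trans a))) (h1 _ b' (L.lift_le.1 (c.trans a')))
        exact ⟨_, (L.lift_le.2 d).trans c, e.imp (fun h => h.2.2) fun h => h.2.2⟩
      · obtain ⟨r₁, a, -⟩ := (L.sm_iff _).1 hs
        obtain ⟨r₂, b, -, y, c, d, e⟩ := h4 β hβ r₁ (L.lift_le.1 (a.trans hr)) trivial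
        exact ⟨_, (L.lift_le.2 b).trans a, L.sm_lift r₂, y, c, d, r₂, le_rfl, e⟩
  obtain ⟨col, c1, c2, c3⟩ := L.spec _ (LS.good H S.bdd_w)
  have KL : ∀ {q s t}, L.Ms q → s < α → t < α → T.le s t q →
      ∃ q' ≤ q, le s t (L.cs.res (L.d2 q')) := fun hq hs ht h => by
    obtain ⟨q', a, -, -, b⟩ := R.key L (fun s t _ => T.mono s t) hs ht z3 hq h
    exact ⟨q', a, hs, ht, b⟩
  have KL' : ∀ {q s t}, L.Ms q → le s t (L.cs.res (L.d2 q)) → T.le s t q := fun hq h =>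
    T.mono _ _ h.2.2 (L.ms_le hq le_rfl)
  let Cl : ℕ → K → K → P → Prop := fun n s i q => L.Rho le s i (L.d2 q) ∧ col i n q
  have m1 : ∀ {n s i q q'}, Cl n s i q → q' ≤ q → Cl n s i q' := fun h h' =>
    ⟨h.1.mono H (L.d2_mono h'), c1 _ _ h.2 h'⟩
  have tot : ∀ {q s}, L.Ms q → s < α → T.le s s q → ∃ q' ≤ q, ∃ n i, Cl n s i q' :=
    fun hq hs h => by
    obtain ⟨q₁, a, b⟩ := KL hq hs hs h
    obtain ⟨r, c, i, d⟩ := LS.rho_tot H S.bdd_w b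
    obtain ⟨q₂, e, f⟩ := L.amalg c
    obtain ⟨q₃, g, n, k⟩ := c2 i d.1.lt q₂
    exact ⟨q₃, g.trans (e.trans a), n, i, d.mono H ((L.d2_mono g).trans f), k⟩
  have same : ∀ {q n s t i j}, L.Ms q → s < α → t < α → T.le s t q → Cl n s i q → Cl n t j q →
      i = j := fun hq hs ht h a b => by
    obtain ⟨q₁, c, d⟩ := KL hq hs ht h
    have a' := m1 a c
    have b' := m1 b c
    exact (a'.1.le_of H b'.1.1 d).eq_of_not_lt fun e =>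
      c3 _ _ _ _ a'.2 b'.2 ⟨e, b'.1.1.lt, _, _, d, a'.1, b'.1⟩
  obtain ⟨q₁, a1, a2⟩ := L.ms_below z1
  by_cases hb : ∃ q ≤ q₁, ∃ u, α ≤ u ∧ T.le u u q
  · obtain ⟨q₂, b1, u, b2, b3⟩ := hb
    have b4 := L.ms_mono a2 b1
    obtain ⟨q₃, d1, C, d2, d3⟩ := S.aa.cov q₂ (fun (n : ℕ) γ r => γ < α ∧
        ∀ r' ≤ r, ∀ s < α, T.le s u r' → ∀ i, Cl n s i r' → s < γ)
      (fun n γ r r' h h' => ⟨h.1, fun t ht => h.2 t (ht.trans h')⟩) fun n r hr => by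
        by_cases h : ∃ r' ≤ r, ∃ s < α, T.le s u r' ∧ ∃ i, Cl n s i r'
        · obtain ⟨r₁, e1, s₁, e2, e3, i, e4⟩ := h
          obtain ⟨v, f1, f2, -⟩ := e4.1.1
          have : ∃ γ < α, ∃ t ≤ L.cs.res (L.d2 r₁), ∀ t' ≤ t, ∀ x, γ ≤ x →
              ¬ ∃ y, L.dec v y t' ∧ le x y t' := by
            by_contra hn
            refine H.nL ⟨L.cs.res (L.d2 r₁), trivial, fun x t => ∃ y, L.dec v y t ∧ le x y t,
              fun x _ _ ⟨y, a, b⟩ c => ⟨y, L.dec_mono _ _ a c, H.mono _ _ b c⟩,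
              fun x t ⟨y, a, b⟩ => H.left b, ?_, fun γ hγ t ht _ => by_contra fun h => hn
                ⟨γ, hγ, t, ht, fun t' ht' x hx ⟨y, a, b⟩ =>
                  h ⟨t', ht', trivial, x, b.1, hx, y, a, b⟩⟩⟩
            rintro t ht - x x' ⟨y, a, b⟩ ⟨y', a', b'⟩
            obtain ⟨t₁, g1, g2⟩ := f2 t ht y y' a a'
            obtain ⟨t₂, g3, g4⟩ : ∃ t₂ ≤ t₁, le x x' t₂ ∨ le x' x t₂ :=
              g2.elim (fun g => H.tree (H.trans (H.mono _ _ b g1) g) (H.mono _ _ b' g1))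
                fun g => H.tree (H.mono _ _ b g1) (H.trans (H.mono _ _ b' g1) g)
            exact ⟨t₂, g3.trans g1, g4⟩
          obtain ⟨γ, g1, t, g2, g3⟩ := this
          obtain ⟨r₂, k1, k2⟩ := L.amalg1 g2
          refine ⟨r₂, k1.trans e1, γ, g1, fun r₃ k3 s hs k4 j k5 => not_le.1 fun k6 => ?_⟩
          have k7 := k3.trans k1
          obtain ⟨r₄, l1, l2⟩ := T.tree k4 (T.mono _ _ e3 k7)
          have l3 := L.ms_mono b4 (l1.trans (k7.trans (e1.trans hr)))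
          obtain rfl : j = i := l2.elim
            (fun l => same l3 hs e2 l (m1 k5 l1) (m1 e4 (l1.trans k7)))
            fun l => (same l3 e2 hs l (m1 e4 (l1.trans k7)) (m1 k5 l1)).symm
          obtain ⟨v', n1, -, n2⟩ := k5.1.1
          obtain rfl := n1.unique (f1.mono (L.d2_mono k7))
          exact g3 _ ((L.cs.res_mono (L.d2_mono k3)).trans k2) s k6 n2
        · exact ⟨r, le_rfl, s₀, z2, fun r' hr' s hs e i f => absurd ⟨r', hr', s, hs, e, i, f⟩ h⟩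
    have d4 := S.aa.st_le d1
    obtain ⟨β, e1, e2⟩ := L.bdd (C ∩ Iio α) (d2.mono inter_subset_left) fun x hx => hx.2
    have e3 : ∀ r ≤ q₃, ∀ s < α, T.le s u r → s < β := fun r hr s hs h => by
      obtain ⟨r₁, f1, n, i, f2⟩ := tot (L.ms_mono b4 (hr.trans d4)) hs (T.left h)
      obtain ⟨r₂, f3, γ, f4, f5, f6⟩ := d3 n r₁ (f1.trans hr)
      exact (f6 r₂ le_rfl s hs (T.mono _ _ h (f3.trans f1)) i (m1 f2 f3)).trans (e2 γ ⟨f4, f5⟩)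
    obtain ⟨q₄, f1, γ, f2, f3⟩ := cc (A β) (fun m r r' h h' => ⟨h.1, T.mono _ _ h.2.1 h',
      fun t ht => h.2.2 t (ht.trans h')⟩) (fun m r h => h.2.1)
      (fun m m' r h h' e => by_contra fun hn => not_le.2 (h'.2.2 r le_rfl m e hn) h.1) q₃
    have f4 := L.ms_mono b4 (f1.trans d4)
    obtain ⟨q₅, g1, γ', g2, g3⟩ := RA.key L (fun _ _ _ _ _ h h' t ht => h t (ht.trans h')) e1 e1
      f2 f4 f3
    obtain ⟨m, ⟨g4, r, g5, g6⟩, g7⟩ := exists_min (Φ := fun m => β ≤ m ∧ ∃ r ≤ q₅, T.le m u r)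
      ⟨u, e1.le.trans b2, q₅, le_rfl, T.mono _ _ b3 (g1.trans (f1.trans d4))⟩
    have g8 := g3 r (g5.trans (L.ms_le (L.ms_mono f4 g1) le_rfl)) m ⟨g4, T.left g6,
      fun r' hr s k1 k2 => not_le.1 fun k3 => g7 s ((ord _ _ _ k1).1.lt_of_ne k2)
        ⟨k3, r', hr.trans g5, T.trans k1 (T.mono _ _ g6 hr)⟩⟩
    exact not_le.2 (e3 r (g5.trans (g1.trans f1)) m (g8.trans g2) g6) g4
  · have b1 : ∀ {q s t}, q ≤ q₁ → T.le s t q → s < α ∧ t < α := fun hq h =>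
      ⟨not_le.1 fun e => hb ⟨_, hq, _, e, T.left h⟩, not_le.1 fun e => hb ⟨_, hq, _, e, T.right h⟩⟩
    let D : ℕ → K → P → Prop := fun n t r => ∀ r' ≤ r, ∀ t', T.le t t' r' → ∀ i, ¬ Cl n t' i r'
    have nD : ∀ {n t r}, ¬ D n t r → ∃ r' ≤ r, ∃ t', T.le t t' r' ∧ ∃ i, Cl n t' i r' :=
      fun h => by simpa only [D, not_forall, not_not, exists_prop] using h
    obtain ⟨q₂, d1, t, d2, d3⟩ := T.baire D (fun n t r r' h h' q hq => h q (hq.trans h')) q₁ s₀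
      (T.mono _ _ h₀ a1) fun n r hr t ht => by
        by_cases h : D n t r
        · exact ⟨r, le_rfl, t, T.right ht, h⟩
        obtain ⟨r₁, e1, t', e2, i, e3⟩ := nD h
        obtain ⟨r₂, f1, t₀, t₁, f2, f3, f4⟩ := T.split (T.right e2)
        have f5 := T.mono _ _ e2 f1
        by_cases h : D n t₀ r₂
        · exact ⟨r₂, f1.trans e1, t₀, T.trans f5 f2, h⟩
        obtain ⟨r₃, g1, u₀, g2, j₀, g3⟩ := nD h
        refine ⟨r₃, g1.trans (f1.trans e1), t₁, T.mono _ _ (T.trans f5 f3) g1,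
          fun r₄ k1 u₁ k2 j₁ k3 => ?_⟩
        have k4 := k1.trans g1
        have k5 := k4.trans (f1.trans (e1.trans hr))
        have k6 := L.ms_mono a2 k5
        have k7 := T.trans (T.mono _ _ f2 k4) (T.mono _ _ g2 k1)
        have k8 := T.trans (T.mono _ _ f3 k4) k2
        obtain rfl := same k6 (b1 k5 k7).1 (b1 k5 k7).2 k7 (m1 e3 (k4.trans f1)) (m1 g3 k1)
        obtain rfl := same k6 (b1 k5 k8).1 (b1 k5 k8).2 k8 (m1 e3 (k4.trans f1)) k3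
        obtain ⟨x, l1, l2⟩ := (m1 g3 k1).1.1.comp H k3.1.1
        obtain ⟨r₅, l3, l4⟩ := L.amalg l1
        have l5 := L.ms_mono k6 l3
        have l6 := T.mono _ _ g2 (l3.trans k1)
        have l7 := T.mono _ _ k2 l3
        obtain ⟨r₆, n1, n2⟩ : ∃ r₆ ≤ r₅, T.le t₀ t₁ r₆ ∨ T.le t₁ t₀ r₆ := l2.elim
          (fun l => T.tree (T.trans l6 (KL' l5 (LS.mono2 H l l4))) l7)
          fun l => T.tree l6 (T.trans l7 (KL' l5 (LS.mono2 H l l4)))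
        have n3 := f4 r₆ (n1.trans (l3.trans k4))
        exact n2.elim n3.1 n3.2
    obtain ⟨q₃, e1, n, i, e2⟩ := tot (L.ms_mono a2 d1) (b1 d1 d2).2 (T.right d2)
    obtain ⟨r, f1, u, f2, f3⟩ := d3 n q₃ e1
    exact f3 r le_rfl t f2 i (m1 e2 f1)

end Pool.Agent.Work.MP_d95c0d_gt
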