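import Pool.Agent.Work.MP_d95c0d_gt.Phi23A

/-! The cases of a tree of large density and of a tree on `κ₀` with unbounded antichains. -/

namespace Pool.Agent.Work.MP_d95c0d_gt
open Set Cardinal Filter

variable {P K : Type} [Preorder P] [LinearOrder K] [WellFoundedLT K] [OrderBot K]

/-- The conclusion of `NT.perf`. -/
def NT.Pf {ι : Type} (T : NT P ι) (N : ι → P → Prop) (p' : P) (B : ι → ℕ → P → Prop) : Prop :=
  (∀ t n, Mo (B t n)) ∧ (∀ q ≤ p', ∀ t t' n, B t n q → T.le t t' q → B t' n q) ∧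
    (∀ q ≤ p', ∀ u, N u q → T.le u u q → ∃ r ≤ q, ∃ n, ∀ r' ≤ r, ¬ B u n r') ∧
    ∀ q ≤ p', ∀ s, T.le s s q →
      (∀ k, ∀ r ≤ q, ∃ r' ≤ r, ∃ t u, T.Y s k t r' ∧ T.le t u r' ∧ N u r') →
      ∀ n, ∃ r ≤ q, ∃ k, ∀ r' ≤ r, ∀ t, T.Y s k t r' → B t n r'

omit [LinearOrder K] [WellFoundedLT K] [OrderBot K] in
theorem NT.Pf.absurd {ι : Type} {T : NT P ι} {N : ι → P → Prop} {p' g : P} {B : ι → ℕ → P → Prop}
    (h : T.Pf N p' B) (hg : g ≤ p') {u : ι} (hN : N u g) (hu : T.le u u g)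
    (hB : ∀ n, ∀ r ≤ g, ∃ r' ≤ r, ∃ t h, r' ≤ h ∧ B t n h ∧ T.le t u r') : False := by
  obtain ⟨r, a, n, b⟩ := h.2.2.1 g hg u hN hu
  obtain ⟨r', c, t, x, d, e, f⟩ := hB n r a
  exact b r' c (h.2.1 r' (c.trans (a.trans hg)) t u n (h.1 _ _ e d) f)

omit [LinearOrder K] [WellFoundedLT K] [OrderBot K] in
theorem NT.perf_ae {ι W : Type} (T : NT P ι) {l : Filter W} (N : W → ι → P → Prop)
    (hN : ∀ z u, Mo (N z u)) (p : W → P)
    (h : ∀ᶠ z in l, ∀ q s, T.le s s q → ∃ r ≤ q, ∃ t, T.le s t r ∧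
      ∀ r' ≤ r, ∀ u, N z u r' → ¬ T.le t u r') :
    ∃ (p' : W → P) (B : W → ι → ℕ → P → Prop), ∀ᶠ z in l, p' z ≤ p z ∧ T.Pf (N z) (p' z) (B z) := by
  obtain ⟨_, p0, -⟩ := T.ne
  have : Nonempty (P × (ι → ℕ → P → Prop)) := ⟨(p0, fun _ _ _ => True)⟩
  obtain ⟨x, hx⟩ := ev_ch (r := fun z (x : P × (ι → ℕ → P → Prop)) =>
      x.1 ≤ p z ∧ T.Pf (N z) x.1 x.2) (h.mono fun z hz => by
    obtain ⟨p', a, B, b⟩ := T.perf (N z) (hN z) (p z) fun q _ s hs => hz q s hs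
    exact ⟨(p', B), a, b⟩)
  exact ⟨fun z => (x z).1, fun z => (x z).2, hx⟩

omit [WellFoundedLT K] in
theorem phi3 (S : Sys P K) {ι : Type} (T : NT P ι)
    (h : ∀ p s (e : K → ι → P → Prop), (∀ x u, Mo (e x u)) →
      (∀ x u u' r, e x u r → e x u' r → u = u') → T.le s s p →
      ∃ q ≤ p, ∃ t, T.le s t q ∧ ∀ r ≤ q, ∀ x < S.k, ∀ u, e x u r → ¬ T.le t u r) : False := by
  obtain ⟨V, v1, hV, v2⟩ := S.ultra ι
  replace hV : Cpl S.κ₁ V := hV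
  obtain ⟨s0, p0, h0⟩ := T.ne
  have : Nonempty P := ⟨p0⟩
  obtain ⟨p', B, hp⟩ := T.perf_ae (W := Set ι) (l := (V : Filter (Set ι)))
    (fun (Z : Set ι) u _ => u ∈ Z) (fun _ _ _ _ h _ => h)
    (fun _ => p0) (v1.mono fun Z hZ q s hs => by
      obtain ⟨μ, hμ⟩ := S.big _ hZ
      obtain ⟨j⟩ := (Cardinal.le_def _ _).1 hμ
      have : Nonempty ι := ⟨s0⟩
      let en : K → ι := Function.extend (fun u : Z => (j u).1) (fun u => u.1) fun _ => s0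
      have hen : ∀ u : Z, en (j u).1 = u.1 := fun u =>
        (Subtype.val_injective.comp j.injective).extend_apply _ _ u
      obtain ⟨q', a, t, b, c⟩ := h q s (fun x u r => (μ, x) ∈ S.cs.dom r ∧ ∃ v, u = en v ∧
          ∀ s ≤ S.cs.res r, ∀ v', S.cs.val r (μ, x) s v' → v' = v)
        (fun x u r r' ⟨d, v, e, f⟩ hr => ⟨S.cs.dom_mono hr d, v, e, fun s hs v' hv => by
          obtain ⟨s', g, v'', k⟩ := S.cs.val_tot d s
          rw [← f s' (g.trans (hs.trans (S.cs.res_mono hr))) v'' k]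
          exact (S.cs.agree hr d (g.trans hs) k
            (S.cs.val_mono (S.cs.dom_mono hr d) hv g)).symm⟩)
        (fun x u u' r ⟨d, v, e, f⟩ ⟨_, v', e', f'⟩ => by
          obtain ⟨s', g, v'', k⟩ := S.cs.val_tot d (S.cs.res r)
          rw [e, e', ← f s' g v'' k, ← f' s' g v'' k]) hs
      refine ⟨q', a, t, b, fun r' hr u hu hle => ?_⟩
      obtain ⟨β, d, e⟩ := S.dom_bdd r'
      obtain ⟨r'', f, g, k⟩ := S.add1 r' (i := (μ, β)) (v := (j ⟨u, hu⟩).1)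
        (fun hi => lt_irrefl _ (e _ hi)) d (j ⟨u, hu⟩).2
      exact c r'' (f.trans hr) β d u ⟨g, _, (hen ⟨u, hu⟩).symm, fun s _ => k s⟩
        (T.mono _ _ hle f))
  obtain ⟨t₁, D0, -, hu⟩ := Sys.ug hV T.toNT0 B (fun z _ h => h ≤ p' z) p' s0
    (hp.mono fun z hz => ⟨T.mono _ _ h0 hz.1, le_rfl⟩) (by
      intro n p t f q t' htr hJ hq ht
      obtain ⟨q1, a, C, b, c⟩ := S.aa.cov q (fun k u r => T.Y t' k u r) (T.Ymono t')
        fun k r hr => T.Ytot (T.mono _ _ (T.right ht) hr) k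
      have a' := S.aa.st_le a
      obtain ⟨u, -, hu⟩ := hV.ex (S.cnt1 b) (Φ := fun u z => ∃ r', r' ≤ p' z ∧ r' ≤ f z ∧
          r' ≤ q ∧ T.le t' u r' ∧ B z u n r') (by
        filter_upwards [hp, hJ, htr.compat hV (a'.trans hq) _ fun _ => S.sd_empty,
          hV.all (S.cnt1 b) fun u _ => v2 u] with z h1 h2 ⟨g, g1, g2, _⟩ h3
        obtain ⟨r, d, k, e⟩ := h1.2.2.2.2 g (g2.trans h2) t'
          (T.mono _ _ (T.right ht) (g1.trans a')) (fun k r hr => by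
            obtain ⟨r', d, u, e, f⟩ := c k r (hr.trans g1)
            exact ⟨r', d, u, u, f, T.right (T.Yle f), h3 u e⟩) n
        obtain ⟨r', d', u, e', f'⟩ := c k r (d.trans g1)
        have := d'.trans d
        exact ⟨u, e', r', this.trans (g2.trans h2), this.trans g2, this.trans (g1.trans a'),
          T.Yle f', e r' d' u f'⟩)
      exact ⟨u, ev_ch hu⟩)
  obtain ⟨z, a, b, g, c, d, e, -⟩ := (hp.and ((v2 t₁).and (hu _ fun _ => S.sd_empty))).exists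
  exact a.2.absurd c b d e

section
variable {ι : Type} (T : NT P K) (A : K → K → P → Prop)

omit [OrderBot K] in
theorem exists_mk : ∃ Mk : K → P → Prop, ∀ t r, Mk t r ↔ T.le t t r ∧ ∀ s < t, ∀ r' ≤ r,
    Mk s r' → T.le s t r' → ∀ a, A s a r' → T.le t a r' → t = a := by
  refine ⟨(wellFounded_lt (α := K)).fix fun t ih r => T.le t t r ∧ ∀ s (hs : s < t), ∀ r' ≤ r,
    ih s hs r' → T.le s t r' → ∀ a, A s a r' → T.le t a r' → t = a, fun t r => ?_⟩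
  rw [WellFounded.fix_eq]

end

theorem phi2 (S : Sys P K) (T : NT P K) (ord : ∀ s t p, T.le s t p → s ≤ t ∧ t < S.k)
    (A : K → K → P → Prop) (hm : ∀ s a, Mo (A s a)) (hle : ∀ s a r, A s a r → T.le s a r)
    (hanti : ∀ s a a' r, A s a r → A s a' r → T.le a a' r → a = a')
    (hunb : ∀ s p, T.le s s p → ∀ b < S.k, ∃ q ≤ p, ∃ a, b ≤ a ∧ A s a q) : False := by
  obtain ⟨V, v1, hV, v2⟩ := S.ultra K
  replace hV : Cpl S.κ₁ V := hV
  obtain ⟨s0, p0, h0⟩ := T.ne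
  have : Nonempty P := ⟨p0⟩
  have : Nonempty K := ⟨⊥⟩
  have tr : ∀ {s t u r}, T.le s u r → T.le t u r → s < t → ∃ r' ≤ r, T.le s t r' := by
    intro s t u r a b c
    obtain ⟨r', d, e | e⟩ := T.tree a b
    · exact ⟨r', d, e⟩
    · exact absurd (ord _ _ _ e).1 (not_le.2 c)
  -- blocks
  obtain ⟨bl, hbl⟩ := ev_ch (r := fun (Z : Set K) x => x ∉ Z) (v1.mono fun Z hZ => by
    obtain ⟨x, hx⟩ := S.big _ (S.slim _ hZ)
    by_contra hn
    exact absurd (hx.trans (mk_le_mk_of_subset fun y _ => by_contra fun h => hn ⟨y, h⟩))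
      (not_le.2 (cantor _)))
  have iic : ∀ x : K, #(Iic x) ≤ #(Iio x) + 1 := fun x => by
    rw [← Iio_insert]; exact mk_insert_le
  have b1 : ∀ μ, ∀ᶠ Z in (V : Filter (Set K)), μ < bl Z := fun μ => by
    filter_upwards [hbl, hV.all ((iic μ).trans_lt (add_lt_of_lt S.a1.le (S.mk_Iio μ)
      (one_lt_aleph0.trans S.a1))) fun x _ => v2 x] with Z a b
    exact not_le.1 fun h => a (b _ h)
  have b2 : ∀ D : Set (K × K), #D < S.κ₁ → ∀ᶠ Z in (V : Filter (Set K)), ∀ m, (bl Z, m) ∉ D :=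
    fun D hD => (hV.all hD fun i _ => b1 i.1).mono fun Z h m hm => lt_irrefl _ (h _ hm)
  have b3 : ∀ f : Set K → P, ∃ β < S.k, ∀ᶠ Z in (V : Filter (Set K)),
      ∀ i ∈ S.cs.dom (f Z), i.2 < β := fun f =>
    hV.ex (T := Iio S.k) (S.mk_k ▸ S.h01) (Eventually.of_forall fun Z => S.dom_bdd (f Z))
  have sd1 : ∀ x < S.k, ∀ Z, S.cs.SD ({bl Z} ×ˢ Iic x) := fun x hx Z => by
    refine (S.sd_iff _).2 ⟨?_, fun i hi => lt_of_le_of_lt hi.2 hx⟩
    rw [singleton_prod]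
    exact mk_image_le.trans_lt ((iic x).trans_lt (add_lt_of_lt S.h0.le (S.lt_k x hx)
      (one_lt_aleph0.trans S.h0)))
  have w0 : (⊥ : K) < S.w := by
    obtain ⟨β, h, -⟩ := S.bdd_w ∅ countable_empty (by simp)
    exact bot_le.trans_lt h
  -- marks
  obtain ⟨Mk, mk⟩ := exists_mk T A
  have m1 : ∀ t, Mo (Mk t) := fun t r r' h hr => (mk _ _).2
    ⟨T.mono _ _ ((mk _ _).1 h).1 hr, fun s hs r'' h' => ((mk _ _).1 h).2 s hs r'' (h'.trans hr)⟩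
  have m2 : ∀ t r, (∀ q ≤ r, ∃ r' ≤ q, Mk t r') → Mk t r := fun t r h => (mk _ _).2
    ⟨T.reg fun q hq => (h q hq).imp fun _ h' => ⟨h'.1, ((mk _ _).1 h'.2).1⟩,
      fun s hs r' hr a b x c d => by
        obtain ⟨r'', e, f⟩ := h r' hr
        exact ((mk _ _).1 f).2 s hs r'' le_rfl (m1 _ a e) (T.mono _ _ b e) x (hm _ _ c e)
          (T.mono _ _ d e)⟩
  have m3 : ∀ t q, T.le t t q → ∃ r ≤ q, ∃ a, T.le t a r ∧ Mk a r := fun t q ht => by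
    by_cases h : Mk t q
    · exact ⟨q, le_rfl, t, ht, h⟩
    rw [mk] at h
    push Not at h
    obtain ⟨s, hs, r', hr, a1, a2, a, a3, a4, a5⟩ := h ht
    refine ⟨r', hr, a, a4, (mk _ _).2 ⟨T.right a4, fun s' hs' r'' hr' c1 c2 a' c3 c4 => ?_⟩⟩
    have d1 := T.mono _ _ (hle _ _ _ a3) hr'
    rcases lt_trichotomy s s' with h | rfl | h
    · obtain ⟨r₃, e, f⟩ := tr d1 c2 h
      exact absurd (((mk _ _).1 c1).2 s h r₃ e (m1 _ a1 (e.trans hr')) f a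
        (hm _ _ a3 (e.trans hr')) (T.mono _ _ c2 e)) hs'.ne
    · exact hanti _ _ _ _ (hm _ _ a3 hr') c3 c4
    · obtain ⟨r₃, e, f⟩ := tr c2 d1 h
      have := ((mk _ _).1 a1).2 s' h r₃ (e.trans hr') (m1 _ c1 e) f a' (hm _ _ c3 e)
        (T.mono _ _ (T.trans d1 c4) e)
      exact absurd (this ▸ (ord _ _ _ c4).1) (not_le.2 (hs.trans_le (ord _ _ _ a4).1))
  let N : Set K → K → P → Prop := fun z u r =>
    ∀ r' ≤ r, ∀ m, Mk m r' → T.le m u r' → ¬ S.NZ (bl z, m) r'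
  have n1 : ∀ z u, Mo (N z u) := fun z u r r' h hr r'' h' => h r'' (h'.trans hr)
  have n2 : ∀ᶠ z in (V : Filter (Set K)), ∀ q s, T.le s s q → ∃ r ≤ q, ∃ t, T.le s t r ∧
      ∀ r' ≤ r, ∀ u, N z u r' → ¬ T.le t u r' := by
    by_contra hn
    obtain ⟨s, -, hs⟩ := hV.ex (T := Iio S.k) (S.mk_k ▸ S.h01) (Φ := fun s z => ∃ q,
        T.le s s q ∧ ∀ r ≤ q, ∀ t, T.le s t r → ∃ r' ≤ r, ∃ u, N z u r' ∧ T.le t u r')
      ((Ultrafilter.eventually_not.2 hn).mono fun z hz => by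
        push Not at hz
        obtain ⟨q, s, a, b⟩ := hz
        exact ⟨s, (ord _ _ _ a).2, q, a, b⟩)
    obtain ⟨f, hf⟩ := ev_ch hs
    obtain ⟨β, a1, a2⟩ := b3 f
    obtain ⟨p, hp⟩ := Sys.exists_tr hV f
    obtain ⟨q₁, c1, a, c2, c3⟩ := hunb s p
      (T.reg (hp.dense hV (T.mono _ _) (hf.mono fun _ h => h.1))) β a1
    obtain ⟨r, d1, m, d2, d3⟩ := m3 a q₁ (T.right (hle _ _ _ c3))
    obtain ⟨z, e1, e2, ⟨g, g1, g2, g3, -⟩, e3, e4⟩ := (hf.and (a2.and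
      ((hp.compat hV (d1.trans c1) _ fun _ => S.sd_empty).and
        ((b2 _ (S.dom1 r)).and (b1 S.w))))).exists
    obtain ⟨g', k1, k2, k3⟩ := S.add1 g (i := (bl z, m)) (v := S.w) (by
      rw [g3, union_empty]
      rintro (h | h)
      · exact e3 m h
      · exact absurd (e2 _ h) (not_lt.2 (c2.trans (ord _ _ _ d2).1))) (ord _ _ _ d2).2 e4
    obtain ⟨r', l1, u, l2, l3⟩ := e1.2 g' (k1.trans g2) m
      (T.mono _ _ (T.trans (T.mono _ _ (hle _ _ _ c3) d1) d2) (k1.trans g1))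
    exact l2 r' le_rfl m (m1 _ d3 (l1.trans (k1.trans g1))) l3
      (S.nz_mono _ ⟨k2, fun s _ h => w0.ne (k3 s _ h)⟩ l1)
  -- the start
  obtain ⟨p1, -, u0, -, hu0⟩ := m3 s0 p0 h0
  have hu1 := ((mk _ _).1 hu0).1
  obtain ⟨g0, hg0⟩ := ev_ch (r := fun z g => g ≤ p1 ∧ N z u0 g) (by
    filter_upwards [(S.tr_const V p1).compat hV le_rfl _ (sd1 u0 (ord _ _ _ hu1).2),
      b2 _ (S.dom1 p1)] with z ⟨g, g1, _, _, g2⟩ h
    exact ⟨g, g1, fun r' hr m _ c => g2 (bl z, m) ⟨rfl, (ord _ _ _ c).1⟩ (h m) (h m) r' hr⟩)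
  obtain ⟨p', B, hp⟩ := T.perf_ae N n1 g0 n2
  let J : Set K → K → P → Prop := fun z a h => h ≤ p' z ∧
    (∀ m, (bl z, m) ∈ S.cs.dom h → m < a) ∧
    ∀ r ≤ h, ∀ m, m ≠ a → Mk m r → T.le m a r → ¬ S.NZ (bl z, m) r
  have half : ∀ u (f : Set K → P), (∀ᶠ z in (V : Filter (Set K)),
      Mk u (f z) ∧ N z u (f z) ∧ f z ≤ p' z) → ∃ a, ∃ f' : Set K → P,
      ∀ᶠ z in (V : Filter (Set K)), f' z ≤ f z ∧ T.le u a (f' z) ∧ J z a (f' z) := by
    intro u f hf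
    obtain ⟨β, a1, a2⟩ := b3 f
    obtain ⟨p, hp⟩ := Sys.exists_tr hV f
    have a3 : Mk u p := m2 _ _ (hp.dense hV (m1 u) (hf.mono fun _ h => h.1))
    obtain ⟨q, c1, a, c2, c3⟩ := hunb u p ((mk _ _).1 a3).1 β a1
    refine ⟨a, ev_ch (r := fun z g => g ≤ f z ∧ T.le u a g ∧ J z a g) ?_⟩
    filter_upwards [hf, a2, hp.compat hV c1 _ fun _ => S.sd_empty, b2 _ (S.dom1 q)]
      with z e1 e2 ⟨g, g1, g2, g3, _⟩ e3
    have g4 := T.mono _ _ (hle _ _ _ c3) g1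
    refine ⟨g, g2, g4, g2.trans e1.2.2, fun m h => ?_, fun r hr m k1 k2 k3 hz => ?_⟩
    · rw [g3, union_empty] at h
      exact (e2 _ (h.resolve_left (e3 m))).trans_le c2
    · obtain ⟨r', l1, l2⟩ := T.tree k3 (T.mono _ _ g4 hr)
      have l3 := l1.trans hr
      have l4 : T.le m u r' → False := fun h =>
        e1.2.1 r' (l3.trans g2) m (m1 _ k2 l1) h (S.nz_mono _ hz l1)
      rcases l2 with l2 | l2
      · exact l4 l2
      rcases (ord _ _ _ l2).1.eq_or_lt with rfl | l5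
      · exact l4 l2
      · exact k1 (((mk _ _).1 k2).2 u l5 r' l1 (m1 _ e1.1 (l3.trans g2)) l2 a
          (hm _ _ c3 (l3.trans g1)) (T.mono _ _ k3 l1))
  have jz : ∀ z t h m u r, J z t h → (bl z, m) ∈ S.cs.dom h → r ≤ h → Mk m r → T.le m u r →
      T.le t u r → ¬ S.NZ (bl z, m) r := fun z t h m u r a b c d e f hz => by
    have g := a.2.1 m b
    obtain ⟨r', k1, k2⟩ := tr e f g
    exact a.2.2 r' (k1.trans c) m g.ne (m1 _ d k1) k2 (S.nz_mono _ hz k1)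
  obtain ⟨a0, f0, hf0⟩ := half u0 p' (by
    filter_upwards [hg0, hp] with z a b
    exact ⟨m1 _ hu0 (b.1.trans a.1), n1 _ _ a.2 b.1, le_rfl⟩)
  obtain ⟨t₁, D0, hD0, hu⟩ := Sys.ug hV T.toNT0 B J f0 a0
    (hf0.mono fun z hz => ⟨T.right hz.2.1, hz.2.2⟩) (by
      intro n p t f q t' htr hJ hq ht
      obtain ⟨q1, a, C, b, c⟩ := S.aa.cov q
        (fun k (x : K × K) r => T.Y t' k x.1 r ∧ T.le x.1 x.2 r ∧ Mk x.2 r)
        (fun k x r r' h hr => ⟨T.Ymono _ _ _ h.1 hr, T.mono _ _ h.2.1 hr, m1 _ h.2.2 hr⟩)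
        fun k r hr => by
          obtain ⟨r₁, a, x, b⟩ := T.Ytot (T.mono _ _ (T.right ht) hr) k
          obtain ⟨r₂, c, u, d, e⟩ := m3 x r₁ (T.right (T.Yle b))
          exact ⟨r₂, c.trans a, (x, u), T.Ymono _ _ _ b c, d, e⟩
      have a' := S.aa.st_le a
      obtain ⟨β, a1, a2⟩ := S.bdd_k (Prod.snd '' C ∩ Iio S.k)
        ((le_aleph0_iff_set_countable.2 ((b.image _).mono inter_subset_left)).trans_lt S.h0)
        fun x hx => hx.2
      obtain ⟨x, -, hx⟩ := hV.ex (S.cnt1 b) (Φ := fun x z => ∃ r', (r' ≤ f z ∧ r' ≤ q ∧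
          T.le t' x.2 r' ∧ B z x.2 n r') ∧ Mk x.2 r' ∧ N z x.2 r' ∧ r' ≤ p' z) (by
        filter_upwards [hp, hJ, htr.compat hV (a'.trans hq) _ (sd1 β a1), b2 _ (S.dom1 q1)]
          with z h1 h2 ⟨g, g1, g2, _, g3⟩ h3
        have k0 : ∀ r ≤ g, T.le t t' r := fun r hr => T.mono _ _ ht (hr.trans (g1.trans a'))
        have k1 : ∀ r ≤ g, ∀ x ∈ C, T.le t' x.2 r → N z x.2 r := fun r hr x hx d r' hr' m e f' => by
          have l1 : m ≤ β := (ord _ _ _ f').1.trans (a2 _ ⟨⟨x, hx, rfl⟩, (ord _ _ _ d).2⟩).le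
          by_cases l2 : (bl z, m) ∈ S.cs.dom (f z)
          · exact jz z t _ m x.2 r' h2 l2 (hr'.trans (hr.trans g2)) e f'
              (T.mono _ _ (T.trans (k0 r hr) d) hr')
          · exact g3 (bl z, m) ⟨rfl, l1⟩ (h3 m) l2 r' (hr'.trans hr)
        obtain ⟨r, d, k, e⟩ := h1.2.2.2.2 g (g2.trans h2.1) t' (T.right (k0 g le_rfl))
          (fun k r hr => by
            obtain ⟨r', d, x, e, f⟩ := c k r (hr.trans g1)
            exact ⟨r', d, x.1, x.2, f.1, f.2.1,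
              k1 r' (d.trans hr) x e (T.trans (T.Yle f.1) f.2.1)⟩) n
        obtain ⟨r', d', x, e', f'⟩ := c k r (d.trans g1)
        have l1 := d'.trans d
        have l2 := T.trans (T.Yle f'.1) f'.2.1
        have l3 := l1.trans (g2.trans h2.1)
        exact ⟨x, e', r', ⟨l1.trans g2, l1.trans (g1.trans a'), l2,
          h1.2.2.1 r' l3 _ _ n (e r' d' _ f'.1) f'.2.1⟩, f'.2.2, k1 r' l1 x e' l2, l3⟩)
      obtain ⟨f', hf'⟩ := ev_ch hx
      obtain ⟨a'', f'', hf''⟩ := half x.2 f' (hf'.mono fun _ h => h.2)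
      refine ⟨a'', f'', ?_⟩
      filter_upwards [hp, hf', hf''] with z h1 ⟨h2, _⟩ h3
      exact ⟨h3.2.2, h3.1.trans h2.1, h3.1.trans h2.2.1,
        T.trans (T.mono _ _ h2.2.2.1 h3.1) h3.2.1,
        h1.2.2.1 _ h3.2.2.1 _ _ n (h1.2.1 _ _ h2.2.2.2 h3.1) h3.2.1⟩)
  obtain ⟨_, _, -, ht₁, -⟩ := (hu _ fun _ => S.sd_empty).exists
  obtain ⟨z, a, b, c, g, d, e, f, k⟩ := (hp.and (hf0.and ((b2 _ hD0).and
    (hu _ (sd1 t₁ (ord _ _ _ ht₁).2))))).exists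
  refine a.2.absurd (d.trans b.2.2.1) (fun r' hr m l1 l2 hz => ?_) e f
  obtain ⟨r'', l3, t, h, l4, l5, l6, l7⟩ := k (bl z, m) ⟨rfl, (ord _ _ _ l2).1⟩ (c m) r' hr hz
  exact jz z t h m t₁ r'' l4 l5 l6 (m1 _ l1 l3) (T.mono _ _ l2 l3) l7 (S.nz_mono _ hz l3)

end Pool.Agent.Work.MP_d95c0d_gt
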