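import Pool.Agent.Work.MP_d95c0d_gt.Defs
import Pool.Agent.Work.MP_ee7661_gt.Data

/-! The interface between the generic extension and the topology inside the model. -/

namespace Pool.Agent.Work.MP_d95c0d_gt
open Pool.Agent.Lib.ZFModel Pool.Agent.Work.MP_63c7e0_lc Pool.Agent.Work.MP_ee7661_gt

variable {M : Type 1} (E : M → M → Prop)

/-- The natural numbers of the model are standard, every set of the model carries a relation of
the model that is a well-order outside, and the pairing function of `ℕ` is in the model. -/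
structure WD extends ND E where
  wo : ∀ a : M, ∃ r : M, WellFounded (fun x y => App E r x y) ∧
    ∀ x y, E x a → E y a → x = y ∨ App E r x y ∨ App E r y x
  pr : ∃ g : M, ∀ a b c, Val E g a b c ↔ ∃ m n, a = nat m ∧ b = nat n ∧ c = nat (Nat.pair m n)

/-- The tree of a counterexample inside the model: `App E R s t` is `s ≤_T t`. -/
structure IT (nd : ND E) where
  T : M
  R : M
  Y : M
  mem : ∀ {s t}, App E R s t → E s T ∧ E t T
  refl : ∀ {s}, E s T → App E R s s
  trans : ∀ {s t u}, App E R s t → App E R t u → App E R s u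
  tree : ∀ {s t u}, App E R s u → App E R t u → App E R s t ∨ App E R t s
  ne : ∃ s, E s T
  split : ∀ {s}, E s T → ∃ t t', App E R s t ∧ App E R s t' ∧ ¬ App E R t t' ∧ ¬ App E R t' t
  baire : ∀ D s, E s T → (∀ n t, App E R s t → ∃ u, App E R t u ∧ App E D (nd.nat n) u) →
    ∃ t, App E R s t ∧ ∀ n, ∃ u, App E R u t ∧ App E D (nd.nat n) u
  Ytot : ∀ {s}, E s T → ∀ k, ∃ t, Val E Y s (nd.nat k) t
  Yle : ∀ {s k t}, Val E Y s (nd.nat k) t → App E R s t
  perf : ∀ N, (∀ s, E s T → ∃ t, App E R s t ∧ ∀ u, E u N → ¬ App E R t u) →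
    ∃ B, (∀ t t' n, App E B t (nd.nat n) → App E R t t' → App E B t' (nd.nat n)) ∧
      (∀ u, E u N → E u T → ∃ n, ¬ App E B u (nd.nat n)) ∧
      ∀ s, E s T → (∀ k, ∃ t u, Val E Y s (nd.nat k) t ∧ App E R t u ∧ E u N) →
        ∀ n, ∃ k, ∀ t, Val E Y s (nd.nat k) t → App E B t (nd.nat n)

end Pool.Agent.Work.MP_d95c0d_gt
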