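import Pool.Agent.Work.MP_d95c0d_gt.Iface
import Pool.Agent.Work.MP_d95c0d_gt.IIface
import Pool.Agent.Lib.ZFModel.ZFC

/-! The generic extension: a tree `IT` of the model gives a name `NT` for such a tree. -/

namespace Pool.Agent.Work.MP_d95c0d_gt
open Pool.Agent.Lib.ZFModel Pool.Agent.Work.MP_63c7e0_lc Pool.Agent.Work.MP_ee7661_gt Name

namespace Plumb

section names
variable {P : Type} [Preorder P]

theorem upair_congr {a b a' b' : Name P} {p : P} (h1 : EqF a a' p) (h2 : EqF b b' p) :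
    EqF (upairN a b) (upairN a' b') p := by
  refine ⟨fun i q hq hc => ⟨q, le_rfl, i, hc, ?_⟩, fun i q hq hc => ⟨q, le_rfl, i, hc, ?_⟩⟩ <;>
  · obtain ⟨⟨_ | _, r⟩, h⟩ := i
    · exact h2.mono hq
    · exact h1.mono hq

theorem pair_congr {a b a' b' : Name P} {p : P} (h1 : EqF a a' p) (h2 : EqF b b' p) :
    EqF (pairN a b) (pairN a' b') p := upair_congr (upair_congr h1 h1) (upair_congr h1 h2)

theorem up1 {a b a' b' : Name P} {p q : P} (h : EqF (upairN a b) (upairN a' b') p) (hq : q ≤ p) :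
    ∃ r ≤ q, EqF a a' r ∨ EqF a b' r := by
  obtain ⟨r, hr, ⟨⟨_ | _, s⟩, h0⟩, -, h1⟩ := h.1 ⟨(true, q), trivial⟩ q hq le_rfl
  · exact ⟨r, hr, Or.inr h1⟩
  · exact ⟨r, hr, Or.inl h1⟩

theorem up2 {a b a' b' : Name P} {p q : P} (h : EqF (upairN a b) (upairN a' b') p) (hq : q ≤ p) :
    ∃ r ≤ q, EqF b a' r ∨ EqF b b' r := by
  obtain ⟨r, hr, ⟨⟨_ | _, s⟩, h0⟩, -, h1⟩ := h.1 ⟨(false, q), trivial⟩ q hq le_rfl
  · exact ⟨r, hr, Or.inr h1⟩
  · exact ⟨r, hr, Or.inl h1⟩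

theorem pair_inj1 {a b a' b' : Name P} {p : P} (h : EqF (pairN a b) (pairN a' b') p) :
    EqF a a' p := by
  refine EqF.reg fun q hq => ?_
  obtain ⟨r, hr, h1 | h1⟩ := up1 h hq <;>
  · obtain ⟨s, hs, h2 | h2⟩ := up1 h1.symm le_rfl <;> exact ⟨s, hs.trans hr, h2.symm⟩

theorem pair_inj2 {a b a' b' : Name P} {p : P} (h : EqF (pairN a b) (pairN a' b') p) :
    EqF b b' p := by
  have ha := pair_inj1 h
  refine EqF.reg fun q hq => ?_
  have key : ∀ r ≤ q, EqF b a' r → ∃ s ≤ q, EqF b b' s := by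
    intro r hr h1
    obtain ⟨s, hs, h2 | h2⟩ := up2 h.symm (hr.trans hq) <;>
      obtain ⟨t, ht, h3 | h3⟩ := up2 h2 le_rfl
    all_goals first
      | exact ⟨t, ht.trans (hs.trans hr), h3.symm⟩
      | exact ⟨t, ht.trans (hs.trans hr), (h1.mono (ht.trans hs)).trans
          ((ha.mono (ht.trans (hs.trans (hr.trans hq)))).symm.trans h3.symm)⟩
  obtain ⟨r, hr, h1 | h1⟩ := up2 h hq
  · obtain ⟨s, hs, h2 | h2⟩ := up2 h1 le_rfl <;> exact key s (hs.trans hr) h2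
  · obtain ⟨s, hs, h2 | h2⟩ := up2 h1 le_rfl
    · exact key s (hs.trans hr) h2
    · exact ⟨s, hs.trans hr, h2⟩

theorem natN_lt {j : ℕ} : ∀ i < j, ∀ p : P, ¬ EqF (natN i) (natN j) p := by
  induction j using Nat.strong_induction_on with
  | _ j ih =>
    intro i hi p h
    rw [natN_eq j] at h
    have h1 := (eqF_iff.1 h).2 ⟨(⟨i, hi⟩, p), trivial⟩ p le_rfl le_rfl
    have h3 : MemF (natN i) (rName (fun j : Fin i => natN j) fun _ _ => True) p :=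
      natN_eq (P := P) i ▸ h1
    obtain ⟨r, -, k, -, h2⟩ := h3 p le_rfl
    exact ih i hi k.1.1.1 k.1.1.2 r h2.symm

theorem natN_inj {i j : ℕ} {p : P} (h : EqF (natN i) (natN j) p) : i = j := by
  rcases lt_trichotomy i j with h1 | h1 | h1
  · exact absurd h (natN_lt i h1 p)
  · exact h1
  · exact absurd h.symm (natN_lt j h1 p)

omit [Preorder P] in
theorem upairN_inj (p : P) {a b a' b' : Name P} (h : upairN a b = upairN a' b') :
    a = a' ∧ b = b' := by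
  unfold upairN rName at h
  injection h with _ h2 _
  exact ⟨congrFun h2 ⟨(true, p), trivial⟩, congrFun h2 ⟨(false, p), trivial⟩⟩

/-- `i` is the first index of its value. -/
def Rep (a : Name P) (i : a.Idx) (q : P) : Prop :=
  ∀ i', WellOrderingRel i' i → ∀ r ≤ q, r ≤ a.cond i' → ¬ EqF (a.ch i') (a.ch i) r

/-- A name for a well-order of `a`. -/
def woN (a : Name P) : Name P :=
  rName (fun i : a.Idx × a.Idx => pairN (a.ch i.1) (a.ch i.2)) fun i q =>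
    WellOrderingRel i.1 i.2 ∧ q ≤ a.cond i.1 ∧ q ≤ a.cond i.2 ∧ Rep a i.1 q ∧ Rep a i.2 q

omit [Preorder P] in
/-- A name for the pairing function. -/
def prN : Name P :=
  rName (fun i : ℕ × ℕ => pairN (pairN (natN i.1) (natN i.2)) (natN (Nat.pair i.1 i.2)))
    fun _ _ => True

end names

/-- Formulas with quantifiers over the standard natural numbers. -/
inductive IF : Type
  | mem (i j : ℕ) | app (i j k : ℕ) | val (i j k l : ℕ) | neg (φ : IF) | imp (φ ψ : IF)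
  | and (φ ψ : IF) | or (φ ψ : IF) | all (φ : IF) | ex (φ : IF) | allN (φ : IF) | exN (φ : IF)
  deriving Countable

/-- Truth. -/
def Tr {M : Type 1} (E : M → M → Prop) (nat : ℕ → M) : IF → (ℕ → M) → Prop
  | .mem i j, v => E (v i) (v j)
  | .app i j k, v => App E (v i) (v j) (v k)
  | .val i j k l, v => Val E (v i) (v j) (v k) (v l)
  | .neg φ, v => ¬ Tr E nat φ v
  | .imp φ ψ, v => Tr E nat φ v → Tr E nat ψ v
  | .and φ ψ, v => Tr E nat φ v ∧ Tr E nat ψ v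
  | .or φ ψ, v => Tr E nat φ v ∨ Tr E nat ψ v
  | .all φ, v => ∀ x, Tr E nat φ (cons x v)
  | .ex φ, v => ∃ x, Tr E nat φ (cons x v)
  | .allN φ, v => ∀ n, Tr E nat φ (cons (nat n) v)
  | .exN φ, v => ∃ n, Tr E nat φ (cons (nat n) v)

variable {P : Type} [Preorder P]

/-- Forcing. -/
def Fo : IF → P → (ℕ → Name P) → Prop
  | .mem i j, p, v => MemF (v i) (v j) p
  | .app i j k, p, v => MemF (pairN (v j) (v k)) (v i) p
  | .val i j k l, p, v => MemF (pairN (pairN (v j) (v k)) (v l)) (v i) p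
  | .neg φ, p, v => ∀ q ≤ p, ¬ Fo φ q v
  | .imp φ ψ, p, v => ∀ q ≤ p, Fo φ q v → Fo ψ q v
  | .and φ ψ, p, v => Fo φ p v ∧ Fo ψ p v
  | .or φ ψ, p, v => ∀ q ≤ p, ∃ r ≤ q, Fo φ r v ∨ Fo ψ r v
  | .all φ, p, v => ∀ x, Fo φ p (cons x v)
  | .ex φ, p, v => ∀ q ≤ p, ∃ r ≤ q, ∃ x, Fo φ r (cons x v)
  | .allN φ, p, v => ∀ n, Fo φ p (cons (natN n) v)
  | .exN φ, p, v => ∀ q ≤ p, ∃ r ≤ q, ∃ n, Fo φ r (cons (natN n) v)

theorem Fo.mono {φ : IF} : ∀ {p q : P} {v : ℕ → Name P}, Fo φ p v → q ≤ p → Fo φ q v := by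
  induction φ with
  | mem | app | val => exact fun h hq => MemF.mono h hq
  | neg | imp | or | ex | exN => exact fun h hq r hr => h r (hr.trans hq)
  | and _ _ ih ih' => exact fun h hq => ⟨ih h.1 hq, ih' h.2 hq⟩
  | all _ ih => exact fun h hq x => ih (h x) hq
  | allN _ ih => exact fun h hq x => ih (h x) hq

theorem Fo.reg {φ : IF} : ∀ {p : P} {v : ℕ → Name P}, (∀ q ≤ p, ∃ r ≤ q, Fo φ r v) → Fo φ p v := by
  induction φ with
  | mem | app | val => exact fun h => MemF.reg h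
  | neg φ =>
    intro p v h q hq h1
    obtain ⟨r, hr, h2⟩ := h q hq
    exact h2 r le_rfl (h1.mono hr)
  | imp φ ψ _ ih =>
    intro p v h q hq h1
    refine ih fun r hr => ?_
    obtain ⟨s, hs, h2⟩ := h r (hr.trans hq)
    exact ⟨s, hs, h2 s le_rfl (h1.mono (hs.trans hr))⟩
  | and _ _ ih ih' =>
    exact fun h => ⟨ih fun q hq => (h q hq).imp fun _ h => ⟨h.1, h.2.1⟩,
      ih' fun q hq => (h q hq).imp fun _ h => ⟨h.1, h.2.2⟩⟩
  | or | ex | exN =>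
    intro p v h q hq
    obtain ⟨r, hr, h2⟩ := h q hq
    obtain ⟨s, hs, h3⟩ := h2 r le_rfl
    exact ⟨s, hs.trans hr, h3⟩
  | all _ ih => exact fun h x => ih fun q hq => (h q hq).imp fun _ h => ⟨h.1, h.2 x⟩
  | allN _ ih => exact fun h x => ih fun q hq => (h q hq).imp fun _ h => ⟨h.1, h.2 x⟩

/-- Indices of the closure conditions and dense sets. -/
inductive Kd : Type
  | fst | snd | wo | pr | rep | dec (φ : IF) | gv (φ : IF) | gvN (φ : IF)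
  deriving Countable

def RN : Fam P Unit Kd (Name P) := fun k v c _ y => match k with
  | .fst => ∃ b, v 0 = upairN y b
  | .snd => ∃ b, v 0 = upairN b y
  | .wo => y = woN (v 0)
  | .pr => y = prN
  | .rep => ∃ i, y = (v 0).ch i ∧ c 0 ≤ (v 0).cond i ∧ Rep (v 0) i (c 0) ∧ EqF (v 1) y (c 0)
  | .gv φ => Fo φ (c 0) (cons y v)
  | _ => True

def WW : Fam P Unit Kd (P × Unit) := fun k v _ _ y => match k with
  | .rep => ∃ i, y.1 ≤ (v 0).cond i ∧ Rep (v 0) i y.1 ∧ EqF (v 1) ((v 0).ch i) y.1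
  | .dec φ => Fo φ y.1 v ∨ ∀ r ≤ y.1, ¬ Fo φ r v
  | .gv φ => (∃ x, Fo φ y.1 (cons x v)) ∨ ∀ r ≤ y.1, ∀ x, ¬ Fo φ r (cons x v)
  | .gvN φ => (∃ n, Fo φ y.1 (cons (natN n) v)) ∨ ∀ r ≤ y.1, ∀ n, ¬ Fo φ r (cons (natN n) v)
  | _ => True

section model
variable {p₀ : P} (g : GenW p₀ () RN WW)

theorem pair_mem {a b : Name P} (ha : a ∈ g.N) (hb : b ∈ g.N) : pairN a b ∈ g.N :=
  g.upair_mem _ (g.upair_mem _ ha _ ha) _ (g.upair_mem _ ha _ hb)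

theorem of_pair_mem {a b : Name P} (h : pairN a b ∈ g.N) : a ∈ g.N ∧ b ∈ g.N := by
  have key : ∀ {a b : Name P}, upairN a b ∈ g.N → a ∈ g.N ∧ b ∈ g.N := by
    intro a b h
    obtain ⟨y, hy, c, h1⟩ := g.clN .fst [upairN a b] [] [] (mem_list₁ h) mem_list₀ mem_list₀
      ⟨a, b, rfl⟩
    obtain ⟨z, hz, d, h2⟩ := g.clN .snd [upairN a b] [] [] (mem_list₁ h) mem_list₀ mem_list₀
      ⟨b, a, rfl⟩
    exact ⟨(upairN_inj p₀ h1).1 ▸ hy, (upairN_inj p₀ h2).2 ▸ hz⟩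
  exact key (key h).2

theorem isPair_pairN {a b : Name P} (ha : a ∈ g.N) (hb : b ∈ g.N) (h : pairN a b ∈ g.N) :
    IsPair g.toGen.E (g.toGen.cl ⟨_, h⟩) (g.toGen.cl ⟨_, ha⟩) (g.toGen.cl ⟨_, hb⟩) := by
  have zf := g.zfc.zf
  have h1 := g.toGen.mem_upair ha ha (g.upair_mem _ ha _ ha)
  have h2 := g.toGen.mem_upair ha hb (g.upair_mem _ ha _ hb)
  intro z
  refine (g.toGen.mem_upair (g.upair_mem _ ha _ ha) (g.upair_mem _ ha _ hb) h z).trans ⟨?_, ?_⟩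
  · rintro (rfl | rfl)
    · exact Or.inl fun x => (h1 x).trans or_self_iff
    · exact Or.inr h2
  · rintro (h3 | h3)
    · exact Or.inl (zf.extensionality _ _ fun x => (h3 x).trans ((h1 x).trans or_self_iff).symm)
    · exact Or.inr (zf.extensionality _ _ fun x => (h3 x).trans (h2 x).symm)

theorem app_pairs {ι : Type} {a b : ι → Name P} {R : ι → P → Prop}
    (h : rName (fun i => pairN (a i) (b i)) R ∈ g.N) (u v : g.toGen.M) :
    App g.toGen.E (g.toGen.cl ⟨_, h⟩) u v ↔ ∃ i p, R i p ∧ g.G p ∧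
      ∃ (ha : a i ∈ g.N) (hb : b i ∈ g.N), u = g.toGen.cl ⟨_, ha⟩ ∧ v = g.toGen.cl ⟨_, hb⟩ := by
  constructor
  · rintro ⟨z, hz, h4⟩
    obtain ⟨i, p, h1, h2, h3, rfl⟩ := (g.toGen.E_rName h z).1 hz
    obtain ⟨ha, hb⟩ := of_pair_mem g h3
    exact ⟨i, p, h1, h2, ha, hb, pair_inj g.zfc.zf h4 (isPair_pairN g ha hb h3)⟩
  · rintro ⟨i, p, h1, h2, ha, hb, rfl, rfl⟩
    exact ⟨_, (g.toGen.E_rName h _).2 ⟨i, p, h1, h2, pair_mem g ha hb, rfl⟩,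
      isPair_pairN g ha hb _⟩

theorem app_cl (f x y : g.N) : App g.toGen.E (g.toGen.cl f) (g.toGen.cl x) (g.toGen.cl y) ↔
    ∃ p, g.G p ∧ MemF (pairN x.1 y.1) f.1 p := by
  have h := isPair_pairN g x.2 y.2 (pair_mem g x.2 y.2)
  refine Iff.trans ⟨?_, fun h1 => ⟨_, h1, h⟩⟩ (g.toGen.E_cl (x := ⟨_, pair_mem g x.2 y.2⟩))
  rintro ⟨z, h1, h2⟩
  exact pair_unique g.zfc.zf h2 h ▸ h1

theorem val_cl (f x y z : g.N) :
    Val g.toGen.E (g.toGen.cl f) (g.toGen.cl x) (g.toGen.cl y) (g.toGen.cl z) ↔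
      ∃ p, g.G p ∧ MemF (pairN (pairN x.1 y.1) z.1) f.1 p := by
  have h := isPair_pairN g x.2 y.2 (pair_mem g x.2 y.2)
  refine Iff.trans ⟨?_, fun h1 => ⟨_, h, h1⟩⟩ (app_cl g f ⟨_, pair_mem g x.2 y.2⟩ z)
  rintro ⟨u, h1, h2⟩
  exact pair_unique g.zfc.zf h1 h ▸ h2

def natM (n : ℕ) : g.toGen.M := g.toGen.cl ⟨_, g.nat_mem n⟩

theorem dec (φ : IF) (l : List g.N) : ∃ p, g.G p ∧
    (Fo φ p (fun i => (envOf g.toGen.e0 l i).1) ∨
      ∀ r ≤ p, ¬ Fo φ r fun i => (envOf g.toGen.e0 l i).1) := by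
  rw [g.toGen.val_envOf]
  obtain ⟨q, -, hq, _, -, h⟩ := g.meet (.dec φ) _ [] [] (g.toGen.map_val_mem l) mem_list₀ mem_list₀
    p₀ g.G_p0 fun q _ => by
      by_cases h : ∃ r ≤ q, Fo φ r (envOf emptyName (l.map Subtype.val))
      · obtain ⟨r, hr, h⟩ := h
        exact ⟨r, hr, (), Or.inl h⟩
      · exact ⟨q, le_rfl, (), Or.inr fun r hr h' => h ⟨r, hr, h'⟩⟩
  exact ⟨q, hq, h⟩

theorem gv (φ : IF) (l : List g.N) : ∃ p, g.G p ∧
    ((∃ x ∈ g.N, Fo φ p (cons x fun i => (envOf g.toGen.e0 l i).1)) ∨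
      ∀ r ≤ p, ∀ x, ¬ Fo φ r (cons x fun i => (envOf g.toGen.e0 l i).1)) := by
  rw [g.toGen.val_envOf]
  obtain ⟨q, hq', hq, _, -, h⟩ := g.meet (.gv φ) _ [] [] (g.toGen.map_val_mem l) mem_list₀
    mem_list₀ p₀ g.G_p0 fun q _ => by
      by_cases h : ∃ r ≤ q, ∃ x, Fo φ r (cons x (envOf emptyName (l.map Subtype.val)))
      · obtain ⟨r, hr, h⟩ := h
        exact ⟨r, hr, (), Or.inl h⟩
      · exact ⟨q, le_rfl, (), Or.inr fun r hr x h' => h ⟨r, hr, x, h'⟩⟩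
  refine ⟨q, hq, Or.imp_left (fun h => ?_) h⟩
  exact g.clN (.gv φ) _ [q] [] (g.toGen.map_val_mem l) (mem_list₁ hq') mem_list₀ h

theorem gvN (φ : IF) (l : List g.N) : ∃ p, g.G p ∧
    ((∃ n, Fo φ p (cons (natN n) fun i => (envOf g.toGen.e0 l i).1)) ∨
      ∀ r ≤ p, ∀ n, ¬ Fo φ r (cons (natN n) fun i => (envOf g.toGen.e0 l i).1)) := by
  rw [g.toGen.val_envOf]
  obtain ⟨q, -, hq, _, -, h⟩ := g.meet (.gvN φ) _ [] [] (g.toGen.map_val_mem l) mem_list₀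
    mem_list₀ p₀ g.G_p0 fun q _ => by
      by_cases h : ∃ r ≤ q, ∃ n, Fo φ r (cons (natN n) (envOf emptyName (l.map Subtype.val)))
      · obtain ⟨r, hr, h⟩ := h
        exact ⟨r, hr, (), Or.inl h⟩
      · exact ⟨q, le_rfl, (), Or.inr fun r hr x h' => h ⟨r, hr, x, h'⟩⟩
  exact ⟨q, hq, h⟩

theorem truth (φ : IF) : ∀ l : List g.N,
    Tr g.toGen.E (natM g) φ (fun i => g.toGen.cl (envOf g.toGen.e0 l i)) ↔
      ∃ p, g.G p ∧ Fo φ p fun i => (envOf g.toGen.e0 l i).1 := by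
  have key : ∀ {φ : IF}, (∀ l : List g.N,
      Tr g.toGen.E (natM g) φ (fun i => g.toGen.cl (envOf g.toGen.e0 l i)) ↔
        ∃ p, g.G p ∧ Fo φ p fun i => (envOf g.toGen.e0 l i).1) → ∀ (l : List g.N) (x : g.N),
      Tr g.toGen.E (natM g) φ (cons (g.toGen.cl x) fun i => g.toGen.cl (envOf g.toGen.e0 l i)) ↔
        ∃ p, g.G p ∧ Fo φ p (cons x.1 fun i => (envOf g.toGen.e0 l i).1) := by
    intro φ ih l x
    have := ih (x :: l)
    simp only [envOf] at this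
    rwa [comp_cons g.toGen.cl, comp_cons Subtype.val] at this
  induction φ with
  | mem i j => exact fun l => g.toGen.E_cl
  | app i j k => exact fun l => app_cl g _ _ _
  | val i j k m => exact fun l => val_cl g _ _ _ _
  | neg φ ih =>
    intro l
    refine (not_congr (ih l)).trans ⟨fun h => ?_, ?_⟩
    · obtain ⟨p, hp, h1 | h1⟩ := dec g φ l
      · exact absurd ⟨p, hp, h1⟩ h
      · exact ⟨p, hp, h1⟩
    · rintro ⟨p, hp, h⟩ ⟨q, hq, h1⟩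
      obtain ⟨r, -, h2, h3⟩ := g.dir p q hp hq
      exact h r h2 (h1.mono h3)
  | imp φ ψ ih ih' =>
    intro l
    refine (imp_congr (ih l) (ih' l)).trans ⟨fun h => ?_, ?_⟩
    · obtain ⟨p, hp, h1 | h1⟩ := dec g φ l
      · obtain ⟨q, hq, h2⟩ := h ⟨p, hp, h1⟩
        exact ⟨q, hq, fun r hr _ => h2.mono hr⟩
      · exact ⟨p, hp, fun q hq h2 => absurd h2 (h1 q hq)⟩
    · rintro ⟨p, hp, h⟩ ⟨q, hq, h1⟩
      obtain ⟨r, hr, h2, h3⟩ := g.dir p q hp hq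
      exact ⟨r, hr, h r h2 (h1.mono h3)⟩
  | and φ ψ ih ih' =>
    intro l
    refine (and_congr (ih l) (ih' l)).trans ⟨?_, fun ⟨p, hp, h⟩ => ⟨⟨p, hp, h.1⟩, p, hp, h.2⟩⟩
    rintro ⟨⟨p, hp, h⟩, q, hq, h1⟩
    obtain ⟨r, hr, h2, h3⟩ := g.dir p q hp hq
    exact ⟨r, hr, h.mono h2, h1.mono h3⟩
  | or φ ψ ih ih' =>
    intro l
    refine (or_congr (ih l) (ih' l)).trans ⟨?_, ?_⟩
    · rintro (⟨p, hp, h⟩ | ⟨p, hp, h⟩)
      · exact ⟨p, hp, fun q hq => ⟨q, le_rfl, Or.inl (h.mono hq)⟩⟩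
      · exact ⟨p, hp, fun q hq => ⟨q, le_rfl, Or.inr (h.mono hq)⟩⟩
    · rintro ⟨p, hp, h⟩
      obtain ⟨p1, hp1, h1 | h1⟩ := dec g φ l
      · exact Or.inl ⟨p1, hp1, h1⟩
      obtain ⟨p2, hp2, h2 | h2⟩ := dec g ψ l
      · exact Or.inr ⟨p2, hp2, h2⟩
      obtain ⟨q, hq, a1, a2⟩ := g.dir p1 p2 hp1 hp2
      obtain ⟨r, -, a3, a4⟩ := g.dir p q hp hq
      obtain ⟨s, hs, h3 | h3⟩ := h r a3
      · exact absurd h3 (h1 s (hs.trans (a4.trans a1)))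
      · exact absurd h3 (h2 s (hs.trans (a4.trans a2)))
  | all φ ih =>
    intro l
    constructor
    · intro h
      obtain ⟨p, hp, ⟨x, hx, h1⟩ | h1⟩ := gv g φ.neg l
      · obtain ⟨q, hq, h2⟩ := (key ih l ⟨x, hx⟩).1 (h _)
        obtain ⟨r, -, h3, h4⟩ := g.dir p q hp hq
        exact absurd (h2.mono h4) (h1 r h3)
      · refine ⟨p, hp, fun x => Fo.reg fun q hq => ?_⟩
        by_contra h2
        exact h1 q hq x fun r hr h3 => h2 ⟨r, hr, h3⟩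
    · rintro ⟨p, hp, h⟩ a
      obtain ⟨x, rfl⟩ := g.toGen.cl_surj a
      exact (key ih l x).2 ⟨p, hp, h x.1⟩
  | ex φ ih =>
    intro l
    constructor
    · rintro ⟨a, h⟩
      obtain ⟨x, rfl⟩ := g.toGen.cl_surj a
      obtain ⟨p, hp, h1⟩ := (key ih l x).1 h
      exact ⟨p, hp, fun q hq => ⟨q, le_rfl, x.1, h1.mono hq⟩⟩
    · rintro ⟨p, hp, h⟩
      obtain ⟨q, hq, ⟨x, hx, h1⟩ | h1⟩ := gv g φ l
      · exact ⟨_, (key ih l ⟨x, hx⟩).2 ⟨q, hq, h1⟩⟩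
      · obtain ⟨r, -, h3, h4⟩ := g.dir p q hp hq
        obtain ⟨s, hs, x, h5⟩ := h r h3
        exact absurd h5 (h1 s (hs.trans h4) x)
  | allN φ ih =>
    intro l
    constructor
    · intro h
      obtain ⟨p, hp, ⟨n, h1⟩ | h1⟩ := gvN g φ.neg l
      · obtain ⟨q, hq, h2⟩ := (key ih l ⟨_, g.nat_mem n⟩).1 (h n)
        obtain ⟨r, -, h3, h4⟩ := g.dir p q hp hq
        exact absurd (h2.mono h4) (h1 r h3)
      · refine ⟨p, hp, fun x => Fo.reg fun q hq => ?_⟩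
        by_contra h2
        exact h1 q hq x fun r hr h3 => h2 ⟨r, hr, h3⟩
    · rintro ⟨p, hp, h⟩ n
      exact (key ih l ⟨_, g.nat_mem n⟩).2 ⟨p, hp, h n⟩
  | exN φ ih =>
    intro l
    constructor
    · rintro ⟨n, h⟩
      obtain ⟨p, hp, h1⟩ := (key ih l ⟨_, g.nat_mem n⟩).1 h
      exact ⟨p, hp, fun q hq => ⟨q, le_rfl, n, h1.mono hq⟩⟩
    · rintro ⟨p, hp, h⟩
      obtain ⟨q, hq, ⟨n, h1⟩ | h1⟩ := gvN g φ l
      · exact ⟨n, (key ih l ⟨_, g.nat_mem n⟩).2 ⟨q, hq, h1⟩⟩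
      · obtain ⟨r, -, h3, h4⟩ := g.dir p q hp hq
        obtain ⟨s, hs, x, h5⟩ := h r h3
        exact absurd h5 (h1 s (hs.trans h4) x)

theorem ex_wo (a : g.toGen.M) : ∃ r, WellFounded (fun x y => App g.toGen.E r x y) ∧
    ∀ x y, g.toGen.E x a → g.toGen.E y a → x = y ∨ App g.toGen.E r x y ∨ App g.toGen.E r y x := by
  obtain ⟨⟨a, ha⟩, rfl⟩ := g.toGen.cl_surj a
  have hw : woN a ∈ g.N := by
    obtain ⟨y, hy, h⟩ := g.clN .wo [a] [] [] (mem_list₁ ha) mem_list₀ mem_list₀ ⟨_, rfl⟩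
    exact h ▸ hy
  let Rp : g.toGen.M → a.Idx → Prop := fun x i => ∃ q, g.G q ∧ q ≤ a.cond i ∧ Rep a i q ∧
    ∃ h : a.ch i ∈ g.N, x = g.toGen.cl ⟨_, h⟩
  have uq : ∀ x i j, Rp x i → Rp x j → ¬ WellOrderingRel i j := by
    rintro x i j ⟨q, hq, h1, -, h2, rfl⟩ ⟨r, hr, -, h3, h4, h5⟩ hij
    obtain ⟨s, hs, h6⟩ := g.toGen.cl_eq.1 h5
    obtain ⟨t, ht, a1, a2⟩ := g.dir q r hq hr
    obtain ⟨u, -, a3, a4⟩ := g.dir t s ht hs
    exact h3 i hij u (a3.trans a2) (a3.trans (a1.trans h1)) (h6.mono a4)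
  have ap : ∀ x y, App g.toGen.E (g.toGen.cl ⟨_, hw⟩) x y ↔
      ∃ i j, WellOrderingRel i j ∧ Rp x i ∧ Rp y j := by
    intro x y
    refine (app_pairs g hw x y).trans ⟨?_, ?_⟩
    · rintro ⟨i, p, ⟨h1, h2, h3, h4, h5⟩, hp, a1, a2, rfl, rfl⟩
      exact ⟨i.1, i.2, h1, ⟨p, hp, h2, h4, a1, rfl⟩, p, hp, h3, h5, a2, rfl⟩
    · rintro ⟨i, j, h, ⟨p, hp, h1, h2, a1, rfl⟩, q, hq, h3, h4, a2, rfl⟩
      obtain ⟨r, hr, b1, b2⟩ := g.dir p q hp hq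
      exact ⟨(i, j), r, ⟨h, b1.trans h1, b2.trans h3, fun k hk s hs => h2 k hk s (hs.trans b1),
        fun k hk s hs => h4 k hk s (hs.trans b2)⟩, hr, a1, a2, rfl, rfl⟩
  have tot : ∀ x, g.toGen.E x (g.toGen.cl ⟨a, ha⟩) → ∃ i, Rp x i := by
    intro x hx
    obtain ⟨⟨x, hx'⟩, rfl⟩ := g.toGen.cl_surj x
    obtain ⟨p, hp, h⟩ := g.toGen.E_cl.1 hx
    obtain ⟨q, hq', hq, _, -, h1⟩ := g.meet .rep [a, x] [] [] (mem_list₂ ha hx') mem_list₀
      mem_list₀ p hp fun q hq => by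
        obtain ⟨r, hr, j, h2⟩ := h q hq
        obtain ⟨k, ⟨s, hs, h3, h4⟩, hmin⟩ := (WellOrderingRel.isWellOrder.wf).has_min
          {k | ∃ r, r ≤ q ∧ r ≤ a.cond k ∧ EqF x (a.ch k) r} ⟨j, r, hr, h2⟩
        exact ⟨s, hs, (), k, h3, fun i hi t ht h5 h6 =>
          hmin i ⟨t, ht.trans hs, h5, (h4.mono ht).trans h6.symm⟩ hi, h4⟩
    obtain ⟨y, hy, i, rfl, h2, h3, h4⟩ := g.clN .rep [a, x] [q] [] (mem_list₂ ha hx')
      (mem_list₁ hq') mem_list₀ (by obtain ⟨i, h1⟩ := h1; exact ⟨_, i, rfl, h1⟩)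
    exact ⟨i, q, hq, h2, h3, hy, g.toGen.cl_eq.2 ⟨q, hq, h4⟩⟩
  refine ⟨g.toGen.cl ⟨_, hw⟩, ⟨fun y => ⟨_, fun x hx => ?_⟩⟩, fun x y hx hy => ?_⟩
  · obtain ⟨i, -, -, h, -⟩ := (ap _ _).1 hx
    clear hx
    induction i using WellOrderingRel.isWellOrder.wf.induction generalizing x with
    | _ i ih =>
      refine ⟨_, fun z hz => ?_⟩
      obtain ⟨j, k, h1, h2, h3⟩ := (ap _ _).1 hz
      obtain rfl : k = i := by
        rcases trichotomous_of WellOrderingRel k i with h4 | h4 | h4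
        · exact absurd h4 (uq x k i h3 h)
        · exact h4
        · exact absurd h4 (uq x i k h h3)
      exact ih j h1 z h2
  · obtain ⟨i, hi⟩ := tot x hx
    obtain ⟨j, hj⟩ := tot y hy
    rcases trichotomous_of WellOrderingRel i j with h | rfl | h
    · exact Or.inr (Or.inl ((ap _ _).2 ⟨i, j, h, hi, hj⟩))
    · obtain ⟨_, -, -, -, _, rfl⟩ := hi
      obtain ⟨_, -, -, -, _, rfl⟩ := hj
      exact Or.inl rfl
    · exact Or.inr (Or.inr ((ap _ _).2 ⟨j, i, h, hj, hi⟩))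

theorem ex_pr : ∃ f, ∀ a b c, Val g.toGen.E f a b c ↔
    ∃ m n, a = natM g m ∧ b = natM g n ∧ c = natM g (Nat.pair m n) := by
  have hw : prN ∈ g.N := by
    obtain ⟨y, hy, h⟩ := g.clN .pr [] [] [] mem_list₀ mem_list₀ mem_list₀ ⟨_, rfl⟩
    exact h ▸ hy
  refine ⟨g.toGen.cl ⟨_, hw⟩, fun a b c => ⟨?_, ?_⟩⟩
  · rintro ⟨u, h1, h2⟩
    obtain ⟨i, p, -, -, ha, hb, rfl, rfl⟩ := (app_pairs g hw _ _).1 h2
    obtain ⟨e1, e2⟩ := pair_inj g.zfc.zf h1 (isPair_pairN g (g.nat_mem _) (g.nat_mem _) ha)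
    exact ⟨i.1, i.2, e1, e2, rfl⟩
  · rintro ⟨m, n, rfl, rfl, rfl⟩
    exact ⟨_, isPair_pairN g (g.nat_mem _) (g.nat_mem _) (pair_mem g (g.nat_mem _) (g.nat_mem _)),
      (app_pairs g hw _ _).2 ⟨(m, n), p₀, trivial, g.G_p0, _, _, rfl, rfl⟩⟩

end model

open IF in
/-- The axioms of `IT` with `T`, `R`, `Y` as the variables `0`, `1`, `2`. -/
def ax : Fin 10 → IF
  | 0 => all (all (imp (app 3 1 0) (and (mem 1 2) (mem 0 2))))
  | 1 => all (imp (mem 0 1) (app 2 0 0))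
  | 2 => all (all (all (imp (app 4 2 1) (imp (app 4 1 0) (app 4 2 0)))))
  | 3 => all (all (all (imp (app 4 2 0) (imp (app 4 1 0) (or (app 4 2 1) (app 4 1 2))))))
  | 4 => ex (mem 0 1)
  | 5 => all (imp (mem 0 1) (ex (ex (and (app 4 2 1) (and (app 4 2 0)
      (and (neg (app 4 1 0)) (neg (app 4 0 1))))))))
  | 6 => all (all (imp (mem 0 2) (imp
      (allN (all (imp (app 5 2 0) (ex (and (app 6 1 0) (app 4 2 0))))))
      (ex (and (app 4 1 0) (allN (ex (and (app 6 0 2) (app 4 1 0)))))))))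
  | 7 => all (imp (mem 0 1) (allN (ex (val 5 2 1 0))))
  | 8 => all (allN (all (imp (val 5 2 1 0) (app 4 2 0))))
  | 9 => all (imp (all (imp (mem 0 2) (ex (and (app 4 1 0)
        (all (imp (mem 0 3) (neg (app 5 1 0))))))))
      (ex (and (all (all (allN (imp (app 3 2 0) (imp (app 6 2 1) (app 3 1 0))))))
        (and (all (imp (mem 0 2) (imp (mem 0 3) (exN (neg (app 2 1 0))))))
          (all (imp (mem 0 3) (imp
            (allN (ex (ex (and (val 8 3 2 1) (and (app 7 1 0) (mem 0 5))))))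
            (allN (exN (all (imp (val 8 3 1 0) (app 4 0 2))))))))))))

theorem tr_ax {M : Type 1} {E : M → M → Prop} {nd : ND E} (t : IT E nd) (v : ℕ → M)
    (h0 : v 0 = t.T) (h1 : v 1 = t.R) (h2 : v 2 = t.Y) (i : Fin 10) : Tr E nd.nat (ax i) v := by
  match i with
  | 0 => simpa only [ax, Tr, cons, h0, h1, h2] using fun _ _ => t.mem
  | 1 => simpa only [ax, Tr, cons, h0, h1, h2] using fun _ => t.refl
  | 2 => simpa only [ax, Tr, cons, h0, h1, h2] using fun _ _ _ => t.trans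
  | 3 => simpa only [ax, Tr, cons, h0, h1, h2] using fun _ _ _ => t.tree
  | 4 => simpa only [ax, Tr, cons, h0, h1, h2] using t.ne
  | 5 => simpa only [ax, Tr, cons, h0, h1, h2] using fun _ => t.split
  | 6 => simpa only [ax, Tr, cons, h0, h1, h2] using t.baire
  | 7 => simpa only [ax, Tr, cons, h0, h1, h2] using fun _ => t.Ytot
  | 8 => simpa only [ax, Tr, cons, h0, h1, h2] using fun _ _ _ => t.Yle
  | 9 => simpa only [ax, Tr, cons, h0, h1, h2] using t.perf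

theorem nt_of {v : ℕ → Name P} {p₀ : P} (H : ∀ i, Fo (ax i) p₀ v) :
    Nonempty (NT P (v 0).Idx) := by
  let Bl : P → Prop := fun p => ∀ q ≤ p, ∃ r ≤ q, r ≤ p₀
  have blm : ∀ {p q}, Bl p → q ≤ p → Bl q := fun h hq r hr => h r (hr.trans hq)
  have H' : ∀ i {p}, Bl p → Fo (ax i) p v := fun i p hp => Fo.reg fun q hq =>
    (hp q hq).imp fun r h => ⟨h.1, (H i).mono h.2⟩
  let c := (v 0).ch
  let A : Name P → Name P → P → Prop := fun x y p => MemF (pairN x y) (v 1) p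
  let V : Name P → ℕ → Name P → P → Prop := fun x k y p => MemF (pairN (pairN x (natN k)) y) (v 2) p
  have pick : ∀ {x p}, MemF x (v 0) p → ∃ r ≤ p, ∃ j, EqF x (c j) r := fun h =>
    let ⟨r, hr, j, _, h1⟩ := h _ le_rfl; ⟨r, hr, j, h1⟩
  have Al : ∀ {x x' y p}, A x y p → EqF x x' p → A x' y p := fun h e =>
    MemF.congr_left h (pair_congr e (EqF.refl _ _))
  have Ar : ∀ {x y y' p}, A x y p → EqF y y' p → A x y' p := fun h e =>
    MemF.congr_left h (pair_congr (EqF.refl _ _) e)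
  have mem : ∀ {x y p}, Bl p → A x y p → MemF x (v 0) p ∧ MemF y (v 0) p := fun hp h =>
    H' 0 hp _ _ _ le_rfl h
  have rfl' : ∀ {x p}, Bl p → MemF x (v 0) p → A x x p := fun hp h => H' 1 hp _ _ le_rfl h
  have yle : ∀ {x k y p}, Bl p → V x k y p → A x y p := fun hp h => H' 8 hp _ _ _ _ le_rfl h
  refine ⟨⟨⟨fun s t p => Bl p ∧ A (c s) (c t) p, fun s t p q h hq => ⟨blm h.1 hq, h.2.mono hq⟩,
    fun h => ⟨fun q hq => ?_, MemF.reg fun q hq => (h q hq).imp fun r h => ⟨h.1, h.2.2⟩⟩,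
    fun h => ⟨h.1, rfl' h.1 (mem h.1 h.2).1⟩, fun h => ⟨h.1, rfl' h.1 (mem h.1 h.2).2⟩,
    fun h h' => ⟨h.1, H' 2 h.1 _ _ _ _ le_rfl h.2 _ le_rfl h'.2⟩, fun h h' => ?_, ?_,
    fun {s p} h => ?_, fun D hD p s hs hd => ?_⟩,
    fun s k t p => Bl p ∧ V (c s) k (c t) p, fun s k t p q h hq => ⟨blm h.1 hq, h.2.mono hq⟩,
    fun {s p} h k => ?_, fun h => ⟨h.1, yle h.1 h.2⟩, fun N hN p hd => ?_⟩⟩
  · obtain ⟨r, hr, h1, -⟩ := h q hq
    obtain ⟨s, hs, h2⟩ := h1 r le_rfl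
    exact ⟨s, hs.trans hr, h2⟩
  · obtain ⟨q, hq, h1⟩ := H' 3 h.1 _ _ _ _ le_rfl h.2 _ le_rfl h'.2 _ le_rfl
    exact ⟨q, hq, h1.imp (fun h1 => ⟨blm h.1 hq, h1⟩) fun h1 => ⟨blm h.1 hq, h1⟩⟩
  · obtain ⟨r, hr, x, h⟩ := H 4 p₀ le_rfl
    obtain ⟨s, hs, j, e⟩ := pick h
    have b : Bl s := fun q hq => ⟨q, le_rfl, hq.trans (hs.trans hr)⟩
    exact ⟨j, s, b, rfl' b (MemF.congr_left (MemF.mono h hs) e)⟩
  · obtain ⟨q, hq, x, h1⟩ := H' 5 h.1 _ _ le_rfl (mem h.1 h.2).1 _ le_rfl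
    obtain ⟨r, hr, y, h2, h3, h4, h5⟩ := h1 q le_rfl
    have b := blm h.1 (hr.trans hq)
    obtain ⟨r1, a1, t, e⟩ := pick (mem b h2).2
    obtain ⟨r2, a2, t', e'⟩ := pick (MemF.mono (mem b h3).2 a1)
    have b2 := blm b (a2.trans a1)
    refine ⟨r2, a2.trans (a1.trans (hr.trans hq)), t, t',
      ⟨b2, Ar (MemF.mono h2 (a2.trans a1)) (e.mono a2)⟩, ⟨b2, Ar (MemF.mono h3 (a2.trans a1)) e'⟩,
      fun r3 a3 => ⟨fun h6 => h4 r3 (a3.trans (a2.trans a1)) ?_,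
        fun h6 => h5 r3 (a3.trans (a2.trans a1)) ?_⟩⟩
    · exact Ar (Al h6.2 (e.mono (a3.trans a2)).symm) (e'.mono a3).symm
    · exact Al (Ar h6.2 (e.mono (a3.trans a2)).symm) (e'.mono a3).symm
  · let Dn : Name P := rName (fun a : ℕ × (v 0).Idx => pairN (natN a.1) (c a.2))
      fun a q => D a.1 a.2 q
    obtain ⟨q, hq, x, h1, h2⟩ := H' 6 hs.1 Dn (c s) _ le_rfl (mem hs.1 hs.2).1 _ le_rfl
      (fun n y q hq h q' hq' => by
        have b := blm hs.1 (hq'.trans hq)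
        obtain ⟨r, hr, t, e⟩ := pick (mem b (MemF.mono h hq')).2
        obtain ⟨r', hr', u, h1, h2⟩ := hd n r (hr.trans (hq'.trans hq)) t
          ⟨blm b hr, Ar (MemF.mono h (hr.trans hq')) e⟩
        exact ⟨r', hr'.trans hr, c u, Al h1.2 (e.mono hr').symm,
          memF_ch Dn ⟨((n, u), r'), h2⟩ le_rfl⟩) _ le_rfl
    have b := blm hs.1 hq
    obtain ⟨q', hq', t, e⟩ := pick (mem b h1).2
    refine ⟨q', hq'.trans hq, t, ⟨blm b hq', Ar (MemF.mono h1 hq') e⟩, fun n r hr => ?_⟩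
    obtain ⟨r1, a1, y, h3, h4⟩ := h2 n r (hr.trans hq')
    obtain ⟨r2, a2, ⟨⟨⟨m, u⟩, r3⟩, h5⟩, a3, e'⟩ := h4 r1 le_rfl
    obtain rfl : n = m := natN_inj (pair_inj1 e')
    exact ⟨r2, a2.trans a1, u, ⟨blm b (a2.trans (a1.trans (hr.trans hq'))),
      Ar (Al (MemF.mono h3 a2) (pair_inj2 e')) (e.mono (a2.trans (a1.trans hr)))⟩,
      hD _ _ h5 a3⟩
  · obtain ⟨q, hq, y, h1⟩ := H' 7 h.1 _ _ le_rfl (mem h.1 h.2).1 k _ le_rfl
    have b := blm h.1 hq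
    obtain ⟨r, hr, t, e⟩ := pick (mem b (yle b h1)).2
    exact ⟨r, hr.trans hq, t, blm b hr,
      MemF.congr_left (MemF.mono h1 hr) (pair_congr (EqF.refl _ _) e)⟩
  · by_cases hb : ∃ p1 ≤ p, Bl p1
    swap
    · exact ⟨p, le_rfl, fun _ _ _ => False, fun _ _ _ _ h _ => h, fun _ _ _ _ _ h _ => h,
        fun q hq _ _ h => absurd ⟨q, hq, h.1⟩ hb, fun q hq _ h => absurd ⟨q, hq, h.1⟩ hb⟩
    obtain ⟨p1, hp1, b⟩ := hb
    let Nn : Name P := rName c N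
    obtain ⟨p', hp', B, h1, h2, h3⟩ := H' 9 b Nn _ le_rfl (fun x q hq h q' hq' => by
      obtain ⟨r, hr, s, e⟩ := pick (MemF.mono h hq')
      have b' := blm b (hr.trans (hq'.trans hq))
      obtain ⟨r', hr', t, a1, a2⟩ := hd r (hr.trans (hq'.trans (hq.trans hp1))) s
        ⟨b', rfl' b' (MemF.congr_left (MemF.mono h (hr.trans hq')) e)⟩
      refine ⟨r', hr'.trans hr, c t, Al a1.2 (e.mono hr').symm, fun u r1 c1 c2 r2 c3 c4 => ?_⟩
      obtain ⟨r3, c5, ⟨⟨i, r4⟩, c6⟩, c7, e'⟩ := c2 r2 c3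
      exact a2 r3 (c5.trans (c3.trans c1)) i (hN _ c6 c7)
        ⟨blm a1.1 (c5.trans (c3.trans c1)), Ar (MemF.mono c4 c5) e'⟩) _ le_rfl
    refine ⟨p', hp'.trans hp1, fun t n q => MemF (pairN (c t) (natN n)) B q,
      fun t n _ _ h hq => h.mono hq, fun q hq t t' n a1 a2 => h1 _ _ n q hq a1 q le_rfl a2.2,
      fun q hq u a1 a2 => h2 (c u) q hq (memF_ch Nn ⟨(u, q), a1⟩ le_rfl) q le_rfl
        (mem a2.1 a2.2).1 q le_rfl, fun q hq s a1 a2 n => ?_⟩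
    obtain ⟨r, hr, k, h4⟩ := h3 (c s) q hq (mem a1.1 a1.2).1 q le_rfl (fun k r hr => by
      obtain ⟨r', hr', t, u, a3, a4, a5⟩ := a2 k r hr
      exact ⟨r', hr', c t, fun r1 c1 => ⟨r1, le_rfl, c u, MemF.mono a3.2 c1, MemF.mono a4.2 c1,
        memF_ch Nn ⟨(u, r'), a5⟩ c1⟩⟩) n q le_rfl
    exact ⟨r, hr, k, fun r' hr' t a3 => h4 (c t) r' hr' a3.2⟩

end Plumb

open Plumb in
theorem plumb (P : Type) [Preorder P] (p₀ : P) (h : ∀ ι : Type, NT P ι → False) :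
    ∃ (M : Type 1) (E : M → M → Prop), IsZFC E ∧ ∃ wd : WD E, IT E wd.toND → False := by
  obtain ⟨g⟩ := exists_genW p₀ () (RN (P := P)) WW
  refine ⟨_, g.toGen.E, g.zfc, ⟨⟨natM g, g.toGen.cl ⟨_, g.omega_mem⟩, g.toGen.mem_nat g.nat_mem,
    g.toGen.mem_omega g.nat_mem g.omega_mem⟩, ex_wo g, ex_pr g⟩, fun t => ?_⟩
  obtain ⟨T, hT⟩ := g.toGen.cl_surj t.T
  obtain ⟨R, hR⟩ := g.toGen.cl_surj t.R
  obtain ⟨Y, hY⟩ := g.toGen.cl_surj t.Y
  have h1 := fun i => (truth g (ax i) [T, R, Y]).1 (tr_ax t _ hT hR hY i)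
  have h2 : ∀ l : List (Fin 10), ∃ p, g.G p ∧ ∀ i ∈ l,
      Fo (ax i) p fun i => (envOf g.toGen.e0 [T, R, Y] i).1 := by
    intro l
    induction l with
    | nil => exact ⟨p₀, g.G_p0, by simp⟩
    | cons i l ih =>
      obtain ⟨p, hp, a1⟩ := ih
      obtain ⟨q, hq, a2⟩ := h1 i
      obtain ⟨r, hr, a3, a4⟩ := g.dir p q hp hq
      refine ⟨r, hr, fun j hj => ?_⟩
      rcases List.mem_cons.1 hj with rfl | hj
      · exact a2.mono a4
      · exact (a1 j hj).mono a3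
  obtain ⟨p, -, hp⟩ := h2 (List.finRange 10)
  obtain ⟨n⟩ := nt_of fun i => hp i (List.mem_finRange i)
  exact h _ n

end Pool.Agent.Work.MP_d95c0d_gt
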