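import Pool.Agent.Work.MP_d95c0d_gt.Base

/-! Reindexing a cone with a small dense range on ordinals, cones, and mixing antichain names. -/

namespace Pool.Agent.Work.MP_d95c0d_gt
open Set

variable {P : Type} [Preorder P]

/-- Regularization. -/
def Rg (X : P → Prop) (r : P) : Prop := ∀ q ≤ r, ∃ r' ≤ q, X r'

theorem Rg.mo (X : P → Prop) : Mo (Rg X) := fun _ _ h hq q' hq' => h q' (hq'.trans hq)

theorem Rg.of {X : P → Prop} (hX : Mo X) {r : P} (h : X r) : Rg X r :=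
  fun q hq => ⟨q, le_rfl, hX h hq⟩

theorem Rg.reg {X : P → Prop} {r : P} (h : ∀ q ≤ r, ∃ r' ≤ q, Rg X r') : Rg X r := fun q hq =>
  let ⟨r', h1, h2⟩ := h q hq
  let ⟨r'', h3, h4⟩ := h2 r' le_rfl
  ⟨r'', h3.trans h1, h4⟩

theorem Rg.imp {X Y : P → Prop} {r : P} (h : Rg X r) (hi : ∀ q, X q → Y q) : Rg Y r := fun q hq =>
  let ⟨r', h1, h2⟩ := h q hq
  ⟨r', h1, hi r' h2⟩

theorem Rg.ex₂ {X Y : P → Prop} (hX : Mo X) {r : P} (h : Rg X r) (h' : Rg Y r) {q : P}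
    (hq : q ≤ r) : ∃ r' ≤ q, X r' ∧ Y r' :=
  let ⟨r1, h1, h2⟩ := h q hq
  let ⟨r2, h3, h4⟩ := h' r1 (h1.trans hq)
  ⟨r2, h3.trans h1, hX h2 h3, h4⟩

/-- The cone above a node below a condition. -/
def NT0.cone {ι : Type} (T : NT0 P ι) (p₁ : P) (s₁ : ι) (h₁ : T.le s₁ s₁ p₁) : NT0 P ι :=
  have mo : ∀ t u, Mo fun r => r ≤ p₁ ∧ T.le s₁ t r ∧ T.le t u r := fun t u _ _ a b =>
    ⟨b.trans a.1, T.mono _ _ a.2.1 b, T.mono _ _ a.2.2 b⟩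
  have dn : ∀ {t u r}, Rg (fun r => r ≤ p₁ ∧ T.le s₁ t r ∧ T.le t u r) r → T.le t u r :=
    fun h => T.reg (h.imp fun _ a => a.2.2)
  { le := fun t u => Rg fun r => r ≤ p₁ ∧ T.le s₁ t r ∧ T.le t u r
    mono := fun _ _ => Rg.mo _
    reg := Rg.reg
    left := fun h => h.imp fun _ a => ⟨a.1, a.2.1, T.left a.2.2⟩
    right := fun h => h.imp fun _ a => ⟨a.1, T.trans a.2.1 a.2.2, T.right a.2.2⟩
    trans := fun h h' q hq =>
      let ⟨r, a, b, c⟩ := Rg.ex₂ (mo _ _) h h' hq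
      ⟨r, a, b.1, b.2.1, T.trans b.2.2 c.2.2⟩
    tree := fun h h' => by
      obtain ⟨r, a, b, c⟩ := Rg.ex₂ (mo _ _) h h' le_rfl
      obtain ⟨q, d, e⟩ := T.tree b.2.2 c.2.2
      exact ⟨q, d.trans a, e.imp
        (fun e => Rg.of (mo _ _) ⟨d.trans b.1, T.mono _ _ b.2.1 d, e⟩)
        fun e => Rg.of (mo _ _) ⟨d.trans b.1, T.mono _ _ c.2.1 d, e⟩⟩
    ne := ⟨s₁, p₁, Rg.of (mo _ _) ⟨le_rfl, h₁, h₁⟩⟩
    split := fun h => by
      obtain ⟨r, a, b⟩ := h _ le_rfl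
      obtain ⟨q, c, t, t', d, d', e⟩ := T.split b.2.2
      exact ⟨q, c.trans a, t, t', Rg.of (mo _ _) ⟨c.trans b.1, T.mono _ _ b.2.1 c, d⟩,
        Rg.of (mo _ _) ⟨c.trans b.1, T.mono _ _ b.2.1 c, d'⟩,
        fun r' hr' => ⟨fun f => (e r' hr').1 (dn f), fun f => (e r' hr').2 (dn f)⟩⟩
    baire := fun D hD p a h hd => by
      obtain ⟨r1, a1, b⟩ := h _ le_rfl
      obtain ⟨q, c, t, d, e⟩ := T.baire (fun n u r => D n u r ∧ T.le s₁ u r)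
        (fun n u _ _ x y => ⟨hD n u x.1 y, T.mono _ _ x.2 y⟩) r1 a b.2.2 fun n q hq t ht => by
          obtain ⟨r, f, u, g, g'⟩ := hd n q (hq.trans a1) t
            (Rg.of (mo _ _) ⟨hq.trans b.1, T.mono _ _ b.2.1 hq, ht⟩)
          exact ⟨r, f, u, dn g, g', T.trans (T.mono _ _ b.2.1 (f.trans hq))
            (T.trans (T.mono _ _ ht f) (dn g))⟩
      refine ⟨q, c.trans a1, t, Rg.of (mo _ _) ⟨c.trans b.1, T.mono _ _ b.2.1 c, d⟩,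
        fun n r hr => ?_⟩
      obtain ⟨r', f, u, g, g'⟩ := e n r hr
      exact ⟨r', f, u, Rg.of (mo _ _) ⟨f.trans (hr.trans (c.trans b.1)), g'.2, g⟩, g'.1⟩ }

variable {K : Type} [LinearOrder K]

/-- The dichotomy between a cone with the chain condition and unbounded antichains everywhere. -/
theorem dichotomy {w k : K} (hw : w < k) (T : NT0 P K)
    (ord : ∀ s t p, T.le s t p → s ≤ t ∧ t < k)
    (h1 : ∀ T : NT0 P K, (∀ s t p, T.le s t p → s ≤ t ∧ t < k) →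
      (∀ A : K → P → Prop, (∀ u, Mo (A u)) → (∀ u r, A u r → T.le u u r) →
        (∀ u u' r, A u r → A u' r → T.le u u' r → u = u') →
        ∀ p, ∃ q ≤ p, ∃ β < k, ∀ r ≤ q, ∀ u, A u r → u < β) → False) :
    ∃ A : K → K → P → Prop, (∀ s a, Mo (A s a)) ∧ (∀ s a r, A s a r → T.le s a r) ∧
      (∀ s a a' r, A s a r → A s a' r → T.le a a' r → a = a') ∧
      ∀ s p, T.le s s p → ∀ b < k, ∃ q ≤ p, ∃ a, b ≤ a ∧ A s a q := by
  let D : K → P → (K → P → Prop) → Prop := fun s q A => (∀ u, Mo (A u)) ∧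
    (∀ u r, A u r → T.le s u r) ∧ (∀ u u' r, A u r → A u' r → T.le u u' r → u = u') ∧
    ∀ q' ≤ q, ∀ β < k, ∃ r ≤ q', ∃ u, β ≤ u ∧ A u r
  have hD : ∀ s p, T.le s s p → ∃ q ≤ p, ∃ A, D s q A := fun s p hp => by
    by_contra hn
    refine h1 (T.cone p s hp) (fun t u r h => ?_) fun A a b c p' => ?_
    · obtain ⟨r', -, h⟩ := h r le_rfl
      exact ord _ _ _ h.2.2
    by_cases h : ∃ r ≤ p', ∃ u, A u r
    · obtain ⟨r0, d, u0, e⟩ := h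
      obtain ⟨r1, f, g, -⟩ := b u0 r0 e r0 le_rfl
      by_contra hm
      refine hn ⟨r1, g, A, a, fun u r x => T.reg ((b u r x).imp fun _ y => y.2.1),
        fun u u' r x x' y => c u u' r x x' fun q hq => ?_, fun q' hq' β hβ => ?_⟩
      · obtain ⟨r', z, z'⟩ := b u r x q hq
        exact ⟨r', z, z'.1, z'.2.1, T.mono _ _ y (z.trans hq)⟩
      · by_contra hl
        exact hm ⟨q', hq'.trans (f.trans d), β, hβ, fun r hr u x =>
          lt_of_not_ge fun y => hl ⟨r, hr, u, y, x⟩⟩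
    · exact ⟨p', le_rfl, w, hw, fun r hr u x => absurd ⟨r, hr, u, x⟩ h⟩
  choose An a1 a2 a3 using fun s => exists_antichain {q | ∃ A, D s q A}
  choose Aq hA using fun s (q : An s) => a1 s q.2
  refine ⟨fun s u r => ∃ q : An s, r ≤ q.1 ∧ Aq s q u r,
    fun s u r r' ⟨q, a, b⟩ c => ⟨q, c.trans a, (hA s q).1 u b c⟩,
    fun s u r ⟨q, _, b⟩ => (hA s q).2.1 u r b, ?_, fun s p hp β hβ => ?_⟩
  · rintro s u u' r ⟨q, a, b⟩ ⟨q', a', b'⟩ c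
    obtain rfl : q = q' := Subtype.ext (a2 s _ q.2 _ q'.2 r a a')
    exact (hA s q).2.2.1 u u' r b b' c
  · obtain ⟨q0, a, b⟩ := hD s p hp
    obtain ⟨q, c, r, d, e⟩ := a3 s q0 b
    obtain ⟨r', f, u, g, g'⟩ := (hA s ⟨q, c⟩).2.2.2 r e β hβ
    exact ⟨r', f.trans (d.trans a), u, g, ⟨q, c⟩, f.trans e, g'⟩

/-- A cone with a dense range indexed by the ordinals below `k` gives a tree on these ordinals. -/
theorem reindex [WellFoundedLT K] {ι : Type} (T : NT P ι) (k : K) (p : P) (s : ι)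
    (e : K → ι → P → Prop) (he : ∀ x u, Mo (e x u))
    (hf : ∀ x u u' r, e x u r → e x u' r → u = u') (hs : T.le s s p)
    (dn : ∀ q ≤ p, ∀ t, T.le s t q → ∃ r ≤ q, ∃ x < k, ∃ u, e x u r ∧ T.le t u r) :
    ∃ T' : NT P K, ∀ s t p, T'.le s t p → s ≤ t ∧ t < k := by
  let J : K → ι → P → Prop := fun η u r => r ≤ p ∧ η < k ∧ e η u r ∧ T.le s u r ∧
    ∀ ξ < η, ∀ r' ≤ r, ∀ u', e ξ u' r' → ¬ T.le u u' r'
  have mJ : ∀ η u, Mo (J η u) := fun η u r r' a b => ⟨b.trans a.1, a.2.1, he _ _ a.2.2.1 b,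
    T.mono _ _ a.2.2.2.1 b, fun ξ c r'' d => a.2.2.2.2 ξ c r'' (d.trans b)⟩
  have fJ : ∀ {η u u' r}, J η u r → J η u' r → u = u' := fun a b => hf _ _ _ _ a.2.2.1 b.2.2.1
  let L : K → K → P → Prop := fun ξ η r => ∃ u u', J ξ u r ∧ J η u' r ∧ T.le u u' r
  have mL : ∀ ξ η, Mo (L ξ η) := fun ξ η r r' ⟨u, u', a, b, c⟩ d =>
    ⟨u, u', mJ _ _ a d, mJ _ _ b d, T.mono _ _ c d⟩
  have mk : ∀ {ξ η u u' r}, J ξ u r → J η u' r → T.le u u' r → Rg (L ξ η) r :=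
    fun a b c => Rg.of (mL _ _) ⟨_, _, a, b, c⟩
  have up : ∀ {ξ η u r}, J ξ u r → Rg (L ξ η) r → ∃ r' ≤ r, ∃ u', J η u' r' ∧ T.le u u' r' :=
    fun a b => by
      obtain ⟨r', c, u1, u', d, d', d''⟩ := b _ le_rfl
      obtain rfl := fJ (mJ _ _ a c) d
      exact ⟨r', c, u', d', d''⟩
  have D : ∀ {a u t q}, J a u q → T.le u t q → ∃ r ≤ q, ∃ ξ v, J ξ v r ∧ T.le t v r := by
    suffices h : ∀ q ≤ p, ∀ t, T.le s t q → ∃ r ≤ q, ∃ ξ v, J ξ v r ∧ T.le t v r from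
      fun {_ _ _ _} a b => h _ a.1 _ (T.trans a.2.2.2.1 b)
    intro q hq t ht
    obtain ⟨r0, a, x, b, c⟩ := dn q hq t ht
    obtain ⟨ξ, ⟨r, d, u, f, g⟩, hm⟩ := (wellFounded_lt (α := K)).has_min
      {ξ | ∃ r ≤ q, ∃ u, e ξ u r ∧ T.le t u r} ⟨x, r0, a, c⟩
    exact ⟨r, d, ξ, u, ⟨d.trans hq, (le_of_not_gt (hm x ⟨r0, a, c⟩)).trans_lt b, f,
      T.trans (T.mono _ _ ht d) g, fun ξ' h1 r' h2 u' h3 h4 =>
        hm ξ' ⟨r', h2.trans d, u', h3, T.trans (T.mono _ _ g h2) h4⟩ h1⟩, g⟩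
  have ne : ∃ ξ v r, J ξ v r := by
    obtain ⟨r0, a, x, b, c⟩ := dn p le_rfl s hs
    obtain ⟨ξ, ⟨r, d, u, f, g⟩, hm⟩ := (wellFounded_lt (α := K)).has_min
      {ξ | ∃ r ≤ p, ∃ u, e ξ u r ∧ T.le s u r} ⟨x, r0, a, c⟩
    exact ⟨ξ, u, r, d, (le_of_not_gt (hm x ⟨r0, a, c⟩)).trans_lt b, f, g,
      fun ξ' h1 r' h2 u' h3 h4 => hm ξ' ⟨r', h2.trans d, u', h3, T.trans (T.mono _ _ g h2) h4⟩ h1⟩
  have rJ : ∀ {η u r}, J η u r → T.le u u r := fun a => T.right a.2.2.2.1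
  refine ⟨
    { le := fun ξ η => Rg (L ξ η)
      mono := fun _ _ => Rg.mo _
      reg := Rg.reg
      left := fun h => h.imp fun _ ⟨u, _, a, _, _⟩ => ⟨u, u, a, a, rJ a⟩
      right := fun h => h.imp fun _ ⟨_, u, _, a, _⟩ => ⟨u, u, a, a, rJ a⟩
      trans := fun h h' q hq => ?_
      tree := fun h h' => ?_
      ne := let ⟨ξ, _, r, a⟩ := ne; ⟨ξ, r, mk a a (rJ a)⟩
      split := fun h => ?_
      baire := fun Dn hD p' a h hd => ?_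
      Y := fun ξ m η r => ∃ u t u', J ξ u r ∧ T.Y u m t r ∧ J η u' r ∧ T.le t u' r
      Ymono := fun ξ m η r r' ⟨u, t, u', a, b, c, d⟩ f =>
        ⟨u, t, u', mJ _ _ a f, T.Ymono _ _ _ b f, mJ _ _ c f, T.mono _ _ d f⟩
      Ytot := fun h m => ?_
      Yle := fun ⟨_, _, _, a, b, c, d⟩ => mk a c (T.trans (T.Yle b) d)
      perf := fun N hN p' hnd => ?_ }, fun ξ η r h => ?_⟩
  · obtain ⟨r, a, ⟨u, v, b1, b2, b3⟩, v', x, c1, c2, c3⟩ := Rg.ex₂ (mL _ _) h h' hq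
    obtain rfl := fJ b2 c1
    exact ⟨r, a, u, x, b1, c2, T.trans b3 c3⟩
  · obtain ⟨r, a, ⟨u, x, b1, b2, b3⟩, v, x', c1, c2, c3⟩ := Rg.ex₂ (mL _ _) h h' le_rfl
    obtain rfl := fJ b2 c2
    obtain ⟨q, d, f⟩ := T.tree b3 c3
    exact ⟨q, d.trans a, f.imp (mk (mJ _ _ b1 d) (mJ _ _ c1 d)) (mk (mJ _ _ c1 d) (mJ _ _ b1 d))⟩
  · obtain ⟨r1, a, u, -, b, -, -⟩ := h _ le_rfl
    obtain ⟨q, c, t, t', d, d', f⟩ := T.split (rJ b)
    obtain ⟨q1, g1, ξ, v, g2, g3⟩ := D (mJ _ _ b c) d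
    obtain ⟨q2, i1, ξ', v', i2, i3⟩ := D (mJ _ _ b (g1.trans c)) (T.mono _ _ d' g1)
    have j := i1.trans g1
    refine ⟨q2, j.trans (c.trans a), ξ, ξ', mk (mJ _ _ b (j.trans c)) (mJ _ _ g2 i1)
      (T.trans (T.mono _ _ d j) (T.mono _ _ g3 i1)), mk (mJ _ _ b (j.trans c)) i2
      (T.trans (T.mono _ _ d' j) i3), fun r hr => ⟨fun x => ?_, fun x => ?_⟩⟩
    · obtain ⟨r', y1, z, y2, y3⟩ := up (mJ _ _ g2 (hr.trans i1)) x
      obtain rfl := fJ (mJ _ _ i2 (y1.trans hr)) y2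
      obtain ⟨r'', y4, y5⟩ := T.tree (T.trans (T.mono _ _ g3 (y1.trans (hr.trans i1))) y3)
        (T.mono _ _ i3 (y1.trans hr))
      exact y5.elim (f r'' (y4.trans (y1.trans (hr.trans j)))).1
        (f r'' (y4.trans (y1.trans (hr.trans j)))).2
    · obtain ⟨r', y1, z, y2, y3⟩ := up (mJ _ _ i2 hr) x
      obtain rfl := fJ (mJ _ _ g2 (y1.trans (hr.trans i1))) y2
      obtain ⟨r'', y4, y5⟩ := T.tree (T.mono _ _ g3 (y1.trans (hr.trans i1)))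
        (T.trans (T.mono _ _ i3 (y1.trans hr)) y3)
      exact y5.elim (f r'' (y4.trans (y1.trans (hr.trans j)))).1
        (f r'' (y4.trans (y1.trans (hr.trans j)))).2
  · obtain ⟨p1, a1, u, -, b, -, -⟩ := h _ le_rfl
    obtain ⟨q, c, t, d, f⟩ := T.baire (fun n v r => ∃ c, J c v r ∧ Dn n c r)
      (fun n v _ _ ⟨c, x, x'⟩ y => ⟨c, mJ _ _ x y, hD n c x' y⟩) p1 u (rJ b) fun n q hq t ht => by
        obtain ⟨q1, g1, ξ, v, g2, g3⟩ := D (mJ _ _ b hq) ht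
        obtain ⟨r, i1, c, i2, i3⟩ := hd n q1 (g1.trans (hq.trans a1)) ξ
          (mk (mJ _ _ b (g1.trans hq)) g2 (T.trans (T.mono _ _ ht g1) g3))
        obtain ⟨r1, j1, v', j2, j3⟩ := up (mJ _ _ g2 i1) i2
        exact ⟨r1, j1.trans (i1.trans g1), v', T.trans (T.mono _ _ g3 (j1.trans i1)) j3, c, j2,
          hD n c i3 j1⟩
    obtain ⟨q1, g1, β, x, g2, g3⟩ := D (mJ _ _ b c) d
    refine ⟨q1, g1.trans (c.trans a1), β, mk (mJ _ _ b (g1.trans c)) g2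
      (T.trans (T.mono _ _ d g1) g3), fun n r hr => ?_⟩
    obtain ⟨r', i1, v, i2, γ, i3, i4⟩ := f n r (hr.trans g1)
    exact ⟨r', i1, γ, mk i3 (mJ _ _ g2 (i1.trans hr)) (T.trans i2 (T.mono _ _ g3 (i1.trans hr))), i4⟩
  · obtain ⟨r1, a, u, -, b, -, -⟩ := h _ le_rfl
    obtain ⟨q, c, t, d⟩ := T.Ytot (rJ b) m
    obtain ⟨q1, g1, η, u', g2, g3⟩ := D (mJ _ _ b c) (T.Yle d)
    exact ⟨q1, g1.trans (c.trans a), η, u, t, u', mJ _ _ b (g1.trans c), T.Ymono _ _ _ d g1, g2, g3⟩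
  · obtain ⟨p'', a1, B, mB, bup, fin, unb⟩ := T.perf (fun v r => ∃ c, N c r ∧ J c v r)
      (fun v _ _ ⟨c, x, x'⟩ y => ⟨c, hN c x y, mJ _ _ x' y⟩) p' fun q hq s0 hs0 => by
        by_cases h : ∃ r' ≤ q, ∃ v, (∃ c, N c r' ∧ J c v r') ∧ T.le s0 v r'
        · obtain ⟨r', b1, v, ⟨c, -, b3⟩, b4⟩ := h
          obtain ⟨r, d1, b, d2, d3⟩ := hnd r' (b1.trans hq) c (mk b3 b3 (rJ b3))
          obtain ⟨r1, f1, x, f2, f3⟩ := up (mJ _ _ b3 d1) d2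
          refine ⟨r1, f1.trans (d1.trans b1), x, T.trans (T.mono _ _ b4 (f1.trans d1)) f3, ?_⟩
          rintro r'' g v' ⟨c', i1, i2⟩ i3
          exact d3 r'' (g.trans f1) c' i1 (mk (mJ _ _ f2 g) i2 i3)
        · exact ⟨q, le_rfl, s0, hs0, fun r' b v c d => h ⟨r', b, v, c, d⟩⟩
    have mB' : ∀ ξ n, Mo fun r => ∃ u, J ξ u r ∧ B u n r := fun ξ n _ _ ⟨u, x, x'⟩ y =>
      ⟨u, mJ _ _ x y, mB u n x' y⟩
    refine ⟨p'', a1, fun ξ n => Rg fun r => ∃ u, J ξ u r ∧ B u n r, fun _ _ => Rg.mo _,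
      fun q hq a b n x y q1 hq1 => ?_, fun q hq c x y => ?_, fun q hq a x y n => ?_⟩
    · obtain ⟨r, d, ⟨u, f1, f2⟩, u1, u', g1, g2, g3⟩ := Rg.ex₂ (mB' _ _) x y hq1
      obtain rfl := fJ f1 g1
      exact ⟨r, d, u', g2, bup r (d.trans (hq1.trans hq)) _ _ n f2 g3⟩
    · obtain ⟨r1, d, v, -, f, -, -⟩ := y _ le_rfl
      obtain ⟨r, g1, n, g2⟩ := fin r1 (d.trans hq) v ⟨c, hN c x d, f⟩ (rJ f)
      refine ⟨r, g1.trans d, n, fun r' hr' z => ?_⟩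
      obtain ⟨r'', i1, u, i2, i3⟩ := z _ le_rfl
      obtain rfl := fJ (mJ _ _ f (i1.trans (hr'.trans g1))) i2
      exact g2 r'' (i1.trans hr') i3
    · obtain ⟨r1, d, u, -, f, -, -⟩ := x _ le_rfl
      obtain ⟨r, g1, m, g2⟩ := unb r1 (d.trans hq) u (rJ f) (fun m r hr => by
        obtain ⟨r', i1, b, c, ⟨u1, t, u', i2, i3, i4, i5⟩, i6, i7⟩ := y m r (hr.trans d)
        obtain rfl := fJ (mJ _ _ f (i1.trans hr)) i2
        obtain ⟨r'', j1, v, j2, j3⟩ := up i4 i6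
        exact ⟨r'', j1.trans i1, t, v, T.Ymono _ _ _ i3 j1, T.trans (T.mono _ _ i5 j1) j3, c,
          hN c i7 j1, j2⟩) n
      refine ⟨r, g1.trans d, m, ?_⟩
      rintro r' hr' b ⟨u1, t, u', i2, i3, i4, i5⟩
      obtain rfl := fJ (mJ _ _ f (hr'.trans g1)) i2
      exact Rg.of (mB' _ _) ⟨u', i4, bup r' (hr'.trans (g1.trans (d.trans hq))) _ _ n
        (g2 r' hr' t i3) i5⟩
  · obtain ⟨r', -, u, u', a, b, c⟩ := h r le_rfl
    exact ⟨le_of_not_gt fun d => a.2.2.2.2 η d r' le_rfl u' b.2.2.1 c, b.2.1⟩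

/-- The assembly, with the three cases as hypotheses. -/
theorem psi_of [WellFoundedLT K] {w k : K} (hw : w < k) {ι : Type} (T : NT P ι)
    (h1 : ∀ T : NT0 P K, (∀ s t p, T.le s t p → s ≤ t ∧ t < k) →
      (∀ A : K → P → Prop, (∀ u, Mo (A u)) → (∀ u r, A u r → T.le u u r) →
        (∀ u u' r, A u r → A u' r → T.le u u' r → u = u') →
        ∀ p, ∃ q ≤ p, ∃ β < k, ∀ r ≤ q, ∀ u, A u r → u < β) → False)
    (h2 : ∀ T : NT P K, (∀ s t p, T.le s t p → s ≤ t ∧ t < k) → ∀ A : K → K → P → Prop,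
      (∀ s a, Mo (A s a)) → (∀ s a r, A s a r → T.le s a r) →
      (∀ s a a' r, A s a r → A s a' r → T.le a a' r → a = a') →
      (∀ s p, T.le s s p → ∀ b < k, ∃ q ≤ p, ∃ a, b ≤ a ∧ A s a q) → False)
    (h3 : (∀ p s (e : K → ι → P → Prop), (∀ x u, Mo (e x u)) →
      (∀ x u u' r, e x u r → e x u' r → u = u') → T.le s s p →
      ∃ q ≤ p, ∃ t, T.le s t q ∧ ∀ r ≤ q, ∀ x < k, ∀ u, e x u r → ¬ T.le t u r) → False) :
    False := by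
  refine h3 fun p s e he hf hs => by_contra fun hn => ?_
  obtain ⟨T', ord⟩ := reindex T k p s e he hf hs fun q hq t ht => by_contra fun hm =>
    hn ⟨q, hq, t, ht, fun r hr x hx u a b => hm ⟨r, hr, x, hx, u, a, b⟩⟩
  obtain ⟨A, a, b, c, d⟩ := dichotomy hw T'.toNT0 ord h1
  exact h2 T' ord A a b c d

end Pool.Agent.Work.MP_d95c0d_gt
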