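import Pool.Agent.Work.MP_d95c0d_gt.SqD
import Pool.Agent.Lib.Sharp.Sq2
import Pool.Agent.Lib.Sharp.SCH
import Pool.Agent.Lib.Sharp.Sq1

-- merged part: Pool.Agent.Work.MP_d95c0d_gt.SharpA
section
/-! From a coherent sequence on the ordinals below `κ⁺` to the space. -/

namespace Pool.Agent.Work.MP_d95c0d_gt.Sq
open Cardinal Set Pool.Agent.Lib

theorem space_of_coh {κ : Cardinal.{0}} (h0 : ℵ₀ ≤ κ) (h1 : κ ^ ℵ₀ = κ)
    (h2 : 2 ^ κ = Order.succ κ) {S : Set Ordinal.{0}} {C : Ordinal.{0} → Set Ordinal.{0}}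
    (hS : Sharp.Stat (Order.succ κ).ord S) (hc : ∀ δ ∈ S, Sharp.CofW δ)
    (hC : Sharp.Coh (Order.succ κ).ord C S) :
    ∃ (X : Type) (_ : TopologicalSpace X), T1Space X ∧ NonArchimedean X ∧
      PerfectlyNormalSpace X ∧ ¬ TopologicalSpace.MetrizableSpace X ∧
      ¬ HasPointCountableBase X := by
  classical
  have c := ctx h0 h1 h2
  let v : (Order.succ κ).ord.ToType → Ordinal.{0} := fun a => (Ordinal.ToType.mk.symm a).1
  have hv : ∀ {a b}, v a < v b ↔ a < b := fun {a b} =>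
    Subtype.coe_lt_coe.trans (OrderIso.lt_iff_lt _)
  have hl : ∀ a, v a < (Order.succ κ).ord := fun a => (Ordinal.ToType.mk.symm a).2
  have hs : ∀ x < (Order.succ κ).ord, ∃ a, v a = x := fun x hx =>
    ⟨Ordinal.ToType.mk ⟨x, hx⟩, by simp [v]⟩
  have hacc : ∀ (A : Set Ordinal.{0}) a, AccBelow a {b | v b ∈ A} ↔ Sharp.Acc' A (v a) := by
    intro A a
    constructor
    · rintro ⟨⟨b, hb⟩, h⟩
      refine ⟨zero_le.trans_lt (hv.2 hb), fun ξ hξ => ?_⟩
      obtain ⟨x, rfl⟩ := hs ξ (hξ.trans (hl a))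
      obtain ⟨d, hd, h3, h4⟩ := h x (hv.1 hξ)
      exact ⟨v d, hd, hv.2 h3, hv.2 h4⟩
    · rintro ⟨h, h'⟩
      obtain ⟨z, hz⟩ := hs 0 (h.trans (hl a))
      refine ⟨⟨z, hv.1 (hz ▸ h)⟩, fun b hb => ?_⟩
      obtain ⟨γ, hγ, h3, h4⟩ := h' _ (hv.2 hb)
      obtain ⟨d, rfl⟩ := hs γ (h4.trans (hl a))
      exact ⟨d, hγ, hv.1 h3, hv.1 h4⟩
  have hlim : ∀ a, AccBelow a univ → Order.IsSuccLimit (v a) := fun a h => by
    have := (hacc univ a).1 h
    refine Ordinal.isSuccLimit_iff.2 ⟨this.1.ne', Order.isSuccPrelimit_of_succ_lt fun ξ hξ => ?_⟩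
    obtain ⟨γ, -, h3, h4⟩ := this.2 ξ hξ
    exact (Order.succ_le_of_lt h3).trans_lt h4
  have a : Avoid (fun a => {b | v b ∈ C (v a)}) {a | v a ∈ S} := by
    refine ⟨fun a h => (hacc _ a).2 (hC.unb _ (hl a) (hlim a h)), fun a h b hb hb' => ?_,
      fun a ha => ?_, fun f => ?_⟩
    · obtain ⟨h3, h4⟩ := hC.coh _ (hl a) (hlim a h) _ (hv.2 hb) ((hacc _ b).1 hb')
      refine ⟨h3, ?_⟩
      ext x
      simp only [h4, mem_inter_iff, mem_setOf_eq, mem_Iio, hv]
    · obtain ⟨b, h3, h4⟩ := hc _ ha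
      choose b' hb' using fun n => hs (b n) ((h3 n).trans (hl a))
      have h5 : ∀ n, b' n < a := fun n => hv.1 (hb' n ▸ h3 n)
      have h6 : ∀ x < a, ∃ n, x < b' n := fun x hx =>
        (h4 _ (hv.2 hx)).imp fun n hn => hv.1 (hb' n ▸ hn)
      choose! g hg using h6
      let s : ℕ → (Order.succ κ).ord.ToType := fun k =>
        Nat.rec (b' 0) (fun k x => b' (g (max x (b' k)))) k
      have h7 : ∀ k, s k < a := fun k => by cases k <;> exact h5 _
      have h8 : ∀ k, max (s k) (b' k) < s (k + 1) := fun k => hg _ (max_lt (h7 k) (h5 k))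
      exact ⟨s, strictMono_nat_of_lt_succ fun k => (le_max_left _ _).trans_lt (h8 k), h7,
        fun x hx => ⟨g x + 1, (hg x hx).trans ((le_max_right _ _).trans_lt (h8 _))⟩⟩
    · have := c.nonempty
      choose! w hw using hs
      obtain ⟨δ, h3, -, h4, h5⟩ := hS (fun x => v (f (w x))) fun x _ => hl _
      refine ⟨w δ, by simpa only [mem_setOf_eq, hw δ h4] using h3, fun b hb => hv.1 ?_⟩
      have h6 : w (v b) = b := le_antisymm (not_lt.1 fun h => (hv.2 h).ne' (hw _ (hl b)))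
        (not_lt.1 fun h => (hv.2 h).ne (hw _ (hl b)))
      have := h5 (v b) (hw δ h4 ▸ hv.2 hb)
      rwa [h6, ← hw δ h4] at this
  obtain ⟨L, g, e, T⟩ := c.exists_tree a
  exact ⟨Sp L, inferInstance, T.t1, ⟨_, basis, fun p U hU V hV => Bs_comp hU hV⟩,
    { normal with closed_gdelta := fun _ h => T.gdelta c h }, T.not_metrizable c, T.not_pcb c⟩

end Pool.Agent.Work.MP_d95c0d_gt.Sq
end

-- merged part: Pool.Agent.Work.MP_d95c0d_gt.SharpB
section
/-! If `0♯` does not exist, there is an example. -/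

namespace Pool.Agent.Work.MP_d95c0d_gt.Sq
open Cardinal Set Pool.Agent.Lib.Sharp

theorem space_of_not_sharp (hz : ¬ ZeroSharp) :
    ∃ (X : Type) (_ : TopologicalSpace X), T1Space X ∧ NonArchimedean X ∧
      PerfectlyNormalSpace X ∧ ¬ TopologicalSpace.MetrizableSpace X ∧
      ¬ HasPointCountableBase X := by
  obtain ⟨κ, h0, hκ, hs, hw, hp⟩ := exists_kappa
  obtain ⟨S, C, hS, hc, hC⟩ := coh_of_preCoh h0.le
    (preCoh hasCond h0 hw (capt_of_cov h0.le hs (cov hz hκ h0)))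
  exact space_of_coh h0.le (le_antisymm hp (self_le_power _ one_le_aleph0)) (sch hz hκ hs) hS hc hC

end Pool.Agent.Work.MP_d95c0d_gt.Sq
end
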