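import Pool.Agent.Work.MP_d95c0d_gt.Iface

/-! General lemmas about the abstract structures: maximal antichains, covering, mixing, fusion and
the game lemma. -/

namespace Pool.Agent.Work.MP_d95c0d_gt
open Set Cardinal Filter

theorem exists_indep {S : Type} (D : Set S) (C : S → S → Prop) (hr : ∀ a ∈ D, C a a)
    (hs : ∀ a b, C a b → C b a) :
    ∃ A ⊆ D, (∀ a ∈ A, ∀ b ∈ A, C a b → a = b) ∧ ∀ d ∈ D, ∃ a ∈ A, C d a := by
  obtain ⟨A, hA⟩ := zorn_subset {A | A ⊆ D ∧ ∀ a ∈ A, ∀ b ∈ A, C a b → a = b} (by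
    intro c hc hch
    refine ⟨⋃₀ c, ⟨sUnion_subset fun t ht => (hc ht).1, ?_⟩, fun s hs => subset_sUnion_of_mem hs⟩
    rintro a ⟨s, hs, ha⟩ b ⟨t, ht, hb⟩ h
    rcases hch.total hs ht with h1 | h1
    · exact (hc ht).2 a (h1 ha) b hb h
    · exact (hc hs).2 a ha b (h1 hb) h)
  refine ⟨A, hA.1.1, hA.1.2, fun d hd => by_contra fun hn => ?_⟩
  have h1 : insert d A ⊆ A := hA.2 ⟨insert_subset hd hA.1.1, ?_⟩ (subset_insert _ _)
  · exact hn ⟨d, h1 (mem_insert _ _), hr d hd⟩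
  · rintro a (rfl | ha) b (rfl | hb) h
    · rfl
    · exact absurd ⟨b, hb, h⟩ hn
    · exact absurd ⟨a, ha, hs _ _ h⟩ hn
    · exact hA.1.2 a ha b hb h

variable {P Q : Type} [Preorder P] [Preorder Q]

theorem exists_antichain (D : Set P) :
    ∃ A ⊆ D, (∀ a ∈ A, ∀ b ∈ A, ∀ r, r ≤ a → r ≤ b → a = b) ∧
      ∀ d ∈ D, ∃ a ∈ A, ∃ r ≤ d, r ≤ a := by
  obtain ⟨A, h1, h2, h3⟩ := exists_indep D (fun a b => ∃ r ≤ a, r ≤ b)
    (fun a _ => ⟨a, le_rfl, le_rfl⟩) fun _ _ ⟨r, h, h'⟩ => ⟨r, h', h⟩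
  exact ⟨A, h1, fun a ha b hb r h h' => h2 a ha b hb ⟨r, h, h'⟩, h3⟩

namespace AAS
variable (A : AAS P)

theorem anti (p : P) (E : P → Prop) (hE : ∀ q ≤ p, ∃ r ≤ q, E r) :
    ∃ q, A.st q p ∧ ∃ S : Set P, S.Countable ∧ (∀ a ∈ S, E a ∧ a ≤ p) ∧
      (∀ a ∈ S, ∀ b ∈ S, ∀ r, r ≤ a → r ≤ b → a = b) ∧ ∀ r ≤ q, ∃ a ∈ S, ∃ s ≤ r, s ≤ a := by
  obtain ⟨B, h1, h2, h3⟩ := exists_antichain {a | E a ∧ a ≤ p}
  obtain ⟨q, h4, C, h5, h6, h7⟩ := A.aa p (fun r => ∃ a ∈ B, r ≤ a) fun q hq => by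
    obtain ⟨r, h, h'⟩ := hE q hq
    obtain ⟨a, ha, s, h4, h5⟩ := h3 r ⟨h', h.trans hq⟩
    exact ⟨s, h4.trans h, a, ha, h5⟩
  choose g hg hg' using fun c : C => h6 c.1 c.2
  have := h5.to_subtype
  refine ⟨q, h4, range g, countable_range g, ?_, ?_, fun r hr => ?_⟩
  · rintro _ ⟨c, rfl⟩; exact h1 (hg c)
  · rintro _ ⟨c, rfl⟩ _ ⟨d, rfl⟩; exact h2 _ (hg c) _ (hg d)
  · obtain ⟨c, hc, s, h8, h9⟩ := h7 r hr
    exact ⟨_, ⟨⟨c, hc⟩, rfl⟩, s, h8, h9.trans (hg' ⟨c, hc⟩)⟩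

/-- Countably many steps along `st`. -/
theorem seq {J : Type} [Countable J] (p : P) (R : J → P → Prop)
    (hm : ∀ j q q', R j q → A.st q' q → R j q')
    (h : ∀ j q, A.st q p → ∃ q', A.st q' q ∧ R j q') : ∃ q, A.st q p ∧ ∀ j, R j q := by
  obtain ⟨e, he⟩ := exists_surjective_nat (Option J)
  have h1 : ∀ n (q : {q // A.st q p}), ∃ q' : {q // A.st q p}, A.st q'.1 q.1 ∧
      ∀ j, e n = some j → R j q'.1 := fun n q => by
    cases hn : e n with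
    | none => exact ⟨q, A.st_refl _, fun j hj => by cases hj⟩
    | some j =>
      obtain ⟨q', h2, h3⟩ := h j q.1 q.2
      exact ⟨⟨q', A.st_trans h2 q.2⟩, h2, fun j' hj => by cases hj; exact h3⟩
  choose nx h2 h3 using h1
  let f : ℕ → {q // A.st q p} := fun n => Nat.rec ⟨p, A.st_refl p⟩ nx n
  obtain ⟨q, hq⟩ := A.closed (fun n => (f n).1) fun n => h2 n (f n)
  refine ⟨q, hq 0, fun j => ?_⟩
  obtain ⟨n, hn⟩ := he (some j)
  exact hm j _ _ (h3 n (f n) j hn) (hq (n + 1))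

theorem omega {J : Type} [Countable J] (p : P) (E : J → P → Prop)
    (hE : ∀ j, ∀ q ≤ p, ∃ r ≤ q, E j r) :
    ∃ q, A.st q p ∧ ∀ j, ∃ C : Set P, C.Countable ∧ (∀ c ∈ C, E j c) ∧
      ∀ r ≤ q, ∃ c ∈ C, ∃ s ≤ r, s ≤ c := by
  refine A.seq p _ ?_ fun j q hq => A.aa q (E j) fun r hr => hE j r (hr.trans (A.st_le hq))
  rintro j q q' ⟨C, h1, h2, h3⟩ h
  exact ⟨C, h1, h2, fun r hr => h3 r (hr.trans (A.st_le h))⟩

/-- Countably many names for ground objects have countably many possible values. -/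
theorem cov {J β : Type} [Countable J] (p : P) (Φ : J → β → P → Prop) (hm : ∀ j x, Mo (Φ j x))
    (h : ∀ j, ∀ r ≤ p, ∃ r' ≤ r, ∃ x, Φ j x r') :
    ∃ q, A.st q p ∧ ∃ C : Set β, C.Countable ∧ ∀ j, ∀ r ≤ q, ∃ r' ≤ r, ∃ x ∈ C, Φ j x r' := by
  obtain ⟨q, h1, h2⟩ := A.omega p (fun j r => ∃ x, Φ j x r) h
  choose C h3 h4 h5 using h2
  choose g hg using fun j (c : C j) => h4 j c.1 c.2
  have := fun j => (h3 j).to_subtype
  refine ⟨q, h1, ⋃ j, range (g j), countable_iUnion fun j => countable_range _, fun j r hr => ?_⟩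
  obtain ⟨c, hc, s, h6, h7⟩ := h5 j r hr
  exact ⟨s, h6, _, mem_iUnion.2 ⟨j, ⟨c, hc⟩, rfl⟩, hm _ _ (hg j ⟨c, hc⟩) h7⟩

end AAS

namespace CS
variable {I V : Type} (C : CS Q P I V)

theorem res_mono {p' p : P} (h : p' ≤ p) : C.res p' ≤ C.res p := (C.le_iff.1 h).1
theorem dom_mono {p' p : P} (h : p' ≤ p) : C.dom p ⊆ C.dom p' := (C.le_iff.1 h).2.1
theorem agree {p' p : P} (h : p' ≤ p) {i : I} (hi : i ∈ C.dom p) {s : Q} (hs : s ≤ C.res p')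
    {v v' : V} (h1 : C.val p i s v) (h2 : C.val p' i s v') : v = v' :=
  (C.le_iff.1 h).2.2 i hi s hs v v' h1 h2
theorem val_mono {p : P} {i : I} (hi : i ∈ C.dom p) {s s' : Q} {v : V} (h : C.val p i s v)
    (hs : s' ≤ s) : C.val p i s' v := C.nm_mono (C.nm_val hi) v h hs
theorem val_tot {p : P} {i : I} (hi : i ∈ C.dom p) (s : Q) : ∃ s' ≤ s, ∃ v, C.val p i s' v :=
  C.nm_tot (C.nm_val hi) s
theorem val_fun {p : P} {i : I} (hi : i ∈ C.dom p) {s : Q} {v v' : V} (h : C.val p i s v)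
    (h' : C.val p i s v') : v = v' := C.nm_fun (C.nm_val hi) h h'

theorem sd_sup {D D' : Set I} (h : C.SD D) (h' : C.SD D') : C.SD (D ∪ D') := by
  have := C.sd_union Bool (fun b => cond b D D') fun b => by cases b <;> assumption
  refine C.sd_sub this ?_
  rintro i (hi | hi)
  · exact mem_iUnion.2 ⟨true, hi⟩
  · exact mem_iUnion.2 ⟨false, hi⟩

/-- Amalgamation. -/
theorem am {s : Q} {p : P} (h : s ≤ C.res p) :
    ∃ p' ≤ p, C.res p' = s ∧ C.dom p' = C.dom p ∧ ∀ i ∈ C.dom p, C.val p' i = C.val p i := by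
  obtain ⟨p', h1, h2, h3⟩ := C.make s (C.dom p) (C.val p) (C.sd_dom p) fun i hi => C.nm_val hi
  refine ⟨p', C.le_iff.2 ⟨h1 ▸ h, h2.ge, fun i hi t _ v v' h4 h5 => ?_⟩, h1, h2, h3⟩
  rw [h3 i hi] at h5
  exact C.val_fun hi h4 h5

/-- New indices with prescribed names. -/
theorem add (p : P) (D : Set I) (H : I → Q → V → Prop) (hD : C.SD D)
    (hH : ∀ i ∈ D, i ∉ C.dom p → C.Nm i (H i)) :
    ∃ p' ≤ p, C.res p' = C.res p ∧ C.dom p' = C.dom p ∪ D ∧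
      (∀ i ∈ C.dom p, C.val p' i = C.val p i) ∧ ∀ i ∈ D, i ∉ C.dom p → C.val p' i = H i := by
  classical
  obtain ⟨p', h1, h2, h3⟩ := C.make (C.res p) (C.dom p ∪ D)
    (fun i => if i ∈ C.dom p then C.val p i else H i) (C.sd_sup (C.sd_dom p) hD) fun i hi => by
      by_cases h : i ∈ C.dom p
      · simpa only [if_pos h] using C.nm_val h
      · simpa only [if_neg h] using hH i (hi.resolve_left h) h
  have h4 : ∀ i ∈ C.dom p, C.val p' i = C.val p i := fun i hi => by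
    rw [h3 i (Or.inl hi), if_pos hi]
  refine ⟨p', C.le_iff.2 ⟨h1.le, h2 ▸ subset_union_left, fun i hi t _ v v' h5 h6 => ?_⟩, h1, h2, h4,
    fun i hi hn => by rw [h3 i (Or.inr hi), if_neg hn]⟩
  rw [h4 i hi] at h6
  exact C.val_fun hi h5 h6

/-- Mixing countably many conditions along guards. -/
theorem mix (q : P) {J : Type} [Countable J] (G : J → Q → Prop) (h : J → P) (D : Set I)
    (hD : C.SD D) (hG : ∀ j, C.Gd (G j))
    (h1 : ∀ j j', ∀ s ≤ C.res q, G j s → G j' s → ∀ i ∈ C.dom (h j), i ∈ C.dom (h j') →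
      ∀ v v', C.val (h j) i s v → C.val (h j') i s v' → v = v')
    (h2 : ∀ j, ∀ s ≤ C.res q, G j s → s ≤ C.res (h j) ∧ ∀ i ∈ C.dom q, i ∈ C.dom (h j) →
      ∀ v v', C.val q i s v → C.val (h j) i s v' → v = v') :
    ∃ g ≤ q, C.res g = C.res q ∧ C.dom g = C.dom q ∪ ((⋃ j, C.dom (h j)) ∪ D) ∧
      (∀ j, ∀ r ≤ g, G j (C.res r) → r ≤ h j) ∧
      ∀ i ∈ C.dom g, i ∉ C.dom q → ∀ s v, C.val g i s v →
        v = C.dflt ∨ ∃ j, i ∈ C.dom (h j) ∧ G j s := by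
  have hS := C.sd_sup (C.sd_union J _ fun j => C.sd_dom (h j)) hD
  obtain ⟨g, g1, g2, g3, g4, g5⟩ := C.add q _ (fun i s v =>
      (∃ j : {j // i ∈ C.dom (h j)}, (s ≤ C.res q ∧ G j.1 s) ∧ C.val (h j.1) i s v) ∨
      (v = C.dflt ∧ ∀ s' ≤ s, ∀ j : {j // i ∈ C.dom (h j)}, ¬ (s' ≤ C.res q ∧ G j.1 s'))) hS
    fun i hi _ => C.nm_mix _ i _ _ (C.sd_sub hS (singleton_subset_iff.2 hi))
      (fun j => C.gd_and (C.gd_le _) (hG j.1)) (fun j => C.nm_val j.2)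
      fun j j' s v v' a b => h1 j.1 j'.1 s a.1 a.2 b.2 i j.2 j'.2 v v'
  refine ⟨g, g1, g2, g3, fun j r hr hj => ?_, fun i hi hn s v hv => ?_⟩
  · have hq : C.res r ≤ C.res q := g2 ▸ C.res_mono hr
    have hd : C.dom (h j) ⊆ C.dom g := fun i hi => g3 ▸ Or.inr (Or.inl (mem_iUnion.2 ⟨j, hi⟩))
    refine C.le_iff.2 ⟨(h2 j _ hq hj).1, hd.trans (C.dom_mono hr), fun i hi s hs v v' a b => ?_⟩
    have hs' := C.gd_mono (hG j) hj hs
    by_cases hn : i ∈ C.dom q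
    · obtain ⟨t, ht, u, hu⟩ := C.val_tot hn s
      rw [← (h2 j t (ht.trans (hs.trans hq)) (C.gd_mono (hG j) hs' ht)).2 i hn hi u v hu
        (C.val_mono hi a ht)]
      exact C.agree (hr.trans g1) hn (ht.trans hs) hu (C.val_mono (C.dom_mono hr (hd hi)) b ht)
    · refine C.agree hr (hd hi) hs ?_ b
      rw [g5 i (Or.inl (mem_iUnion.2 ⟨j, hi⟩)) hn]
      exact Or.inl ⟨⟨j, hi⟩, ⟨hs.trans hq, hs'⟩, a⟩
  · rw [g5 i ((g3 ▸ hi : i ∈ C.dom q ∪ _).resolve_left hn) hn] at hv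
    rcases hv with ⟨j, a, -⟩ | ⟨a, -⟩
    · exact Or.inr ⟨j.1, j.2, a.2⟩
    · exact Or.inl a

/-- Mixing along a countable antichain. -/
theorem mixA (q : P) {s₀ : Q} (hs : s₀ ≤ C.res q) {S : Set Q} (hS : S.Countable)
    (ha : ∀ a ∈ S, ∀ b ∈ S, ∀ r, r ≤ a → r ≤ b → a = b) (h : S → P)
    (hh : ∀ a, h a ≤ q ∧ a.1 ≤ C.res (h a)) :
    ∃ g ≤ q, C.res g = s₀ ∧ ∀ a : S, ∀ r ≤ g, C.res r ≤ a.1 → r ≤ h a := by
  have := hS.to_subtype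
  obtain ⟨q', a1, a2, a3, a4⟩ := C.am hs
  obtain ⟨g, g1, g2, -, g3, -⟩ := C.mix q' (fun (a : S) s => s ≤ a.1) h ∅
    (C.sd_sub (C.sd_dom q) (empty_subset _)) (fun a => C.gd_le _)
    (fun a b s _ h1 h2 i hi _ v v' h3 h4 => by
      obtain rfl : a = b := Subtype.ext (ha _ a.2 _ b.2 s h1 h2)
      exact C.val_fun hi h3 h4)
    fun a s _ h1 => ⟨h1.trans (hh a).2, fun i hi _ v v' h3 h4 => by
      rw [a3] at hi
      rw [a4 i hi] at h3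
      exact C.agree (hh a).1 hi (h1.trans (hh a).2) h3 h4⟩
  exact ⟨g, g1.trans a1, g2.trans a2, g3⟩

/-- Lower bounds of descending sequences. -/
theorem lower (f : ℕ → P) (hf : ∀ n, f (n + 1) ≤ f n) {s : Q} (hs : ∀ n, s ≤ C.res (f n)) :
    ∃ g, C.res g = s ∧ C.dom g = ⋃ n, C.dom (f n) ∧ ∀ n, g ≤ f n := by
  have hm : Antitone f := antitone_nat_of_succ_le hf
  obtain ⟨q, a1, a2, a3, a4⟩ := C.am (hs 0)
  obtain ⟨g, g1, g2, g3, g4, -⟩ := C.mix q (fun (_ : ℕ) t => t ≤ s) f ∅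
    (C.sd_sub (C.sd_dom q) (empty_subset _)) (fun a => C.gd_le _)
    (fun m n t _ h1 _ i hi hi' v v' h3 h4 => by
      rcases le_total m n with h | h
      · exact C.agree (hm h) hi (h1.trans (hs n)) h3 h4
      · exact (C.agree (hm h) hi' (h1.trans (hs m)) h4 h3).symm)
    fun n t _ h1 => ⟨h1.trans (hs n), fun i hi _ v v' h3 h4 => by
      rw [a3] at hi
      rw [a4 i hi] at h3
      exact C.agree (hm (Nat.zero_le n)) hi (h1.trans (hs n)) h3 h4⟩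
  refine ⟨g, g2.trans a2, ?_, fun n => g4 n g le_rfl (g2.trans a2).le⟩
  rw [g3, a3, union_empty, union_eq_right]
  exact subset_iUnion (fun n => C.dom (f n)) 0

/-- Fusion: countably many dense sets are reduced to the first step. -/
theorem fuse (A : AAS Q) (q : P) (E : ℕ → P → Prop) (hE : ∀ n, ∀ r ≤ q, ∃ r' ≤ r, E n r') :
    ∃ q' ≤ q, ∀ n, ∃ S : Set P, S.Countable ∧
      (∀ c ∈ S, E n c ∧ ∀ r ≤ q', C.res r ≤ C.res c → r ≤ c) ∧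
      ∀ s ≤ C.res q', ∃ c ∈ S, ∃ s' ≤ s, s' ≤ C.res c := by
  have h1 : ∀ n (p : {p // p ≤ q}), ∃ p' : {p // p ≤ q}, p'.1 ≤ p.1 ∧
      A.st (C.res p'.1) (C.res p.1) ∧ ∃ S : Set P, S.Countable ∧
      (∀ c ∈ S, E n c ∧ ∀ r ≤ p'.1, C.res r ≤ C.res c → r ≤ c) ∧
      ∀ s ≤ C.res p'.1, ∃ c ∈ S, ∃ s' ≤ s, s' ≤ C.res c := fun n p => by
    obtain ⟨s₀, a1, S, a2, a3, a4, a5⟩ := A.anti (C.res p.1)
      (fun s => ∃ c ≤ p.1, C.res c = s ∧ E n c) fun s hs => by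
        obtain ⟨p', b1, b2, -⟩ := C.am hs
        obtain ⟨c, b3, b4⟩ := hE n p' (b1.trans p.2)
        exact ⟨_, b2 ▸ C.res_mono b3, c, b3.trans b1, rfl, b4⟩
    choose h b1 b2 b3 using fun a : S => (a3 a.1 a.2).1
    obtain ⟨g, g1, g2, g3⟩ := C.mixA p.1 (A.st_le a1) a2 a4 h fun a => ⟨b1 a, (b2 a).ge⟩
    have := a2.to_subtype
    refine ⟨⟨g, g1.trans p.2⟩, g1, g2 ▸ a1, range h, countable_range h, ?_, fun s hs => ?_⟩
    · rintro _ ⟨a, rfl⟩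
      exact ⟨b3 a, fun r hr h' => g3 a r hr (b2 a ▸ h')⟩
    · obtain ⟨a, ha, t, c1, c2⟩ := a5 s (g2 ▸ hs)
      exact ⟨_, ⟨⟨a, ha⟩, rfl⟩, t, c1, (b2 ⟨a, ha⟩).symm ▸ c2⟩
  choose nx h2 h3 h4 using h1
  let f : ℕ → {p // p ≤ q} := fun n => Nat.rec ⟨q, le_rfl⟩ nx n
  obtain ⟨s, hs⟩ := A.closed (fun n => C.res (f n).1) fun n => h3 n (f n)
  obtain ⟨g, g1, -, g2⟩ := C.lower (fun n => (f n).1) (fun n => h2 n (f n)) fun n => A.st_le (hs n)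
  refine ⟨g, g2 0, fun n => ?_⟩
  obtain ⟨S, a1, a2, a3⟩ := h4 n (f n)
  exact ⟨S, a1, fun c hc => ⟨(a2 c hc).1, fun r hr => (a2 c hc).2 r (hr.trans (g2 (n + 1)))⟩,
    fun t ht => a3 t (ht.trans (C.res_mono (g2 (n + 1))))⟩

end CS

/-- The game lemma. -/
theorem NT0.game {ι S : Type} (T : NT0 P ι) (cond : S → P) (node : S → ι)
    (Nx : ℕ → S → S → Prop) (hin : ∀ σ, T.le (node σ) (node σ) (cond σ))
    (hd : ∀ n σ, ∀ q ≤ cond σ, ∀ t, T.le (node σ) t q →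
      ∃ σ', Nx n σ σ' ∧ cond σ' ≤ q ∧ T.le t (node σ') (cond σ')) (σ₀ : S) :
    ∃ (L : ℕ → Set S) (q : P) (t : ι), L 0 = {σ₀} ∧ q ≤ cond σ₀ ∧
      (∀ n, ∀ σ' ∈ L (n + 1), ∃ σ ∈ L n, Nx n σ σ') ∧
      (∀ n, ∀ σ ∈ L n, ∀ σ' ∈ L n, ∀ r, r ≤ cond σ → r ≤ cond σ' → T.le (node σ) t r →
        T.le (node σ') t r → σ = σ') ∧
      ∀ n, ∀ r ≤ q, ∃ r' ≤ r, ∃ σ ∈ L n, r' ≤ cond σ ∧ T.le (node σ) t r' := by
  let Cm : S → S → Prop := fun a b => ∃ r t, r ≤ cond a ∧ r ≤ cond b ∧ T.le (node a) t r ∧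
    T.le (node b) t r
  choose nx h1 h2 h3 using fun n (L : Set S) => exists_indep {σ' | ∃ σ ∈ L, Nx n σ σ'} Cm
    (fun a _ => ⟨_, _, le_rfl, le_rfl, hin a, hin a⟩)
    fun _ _ ⟨r, t, a, b, c, d⟩ => ⟨r, t, b, a, d, c⟩
  let L : ℕ → Set S := fun n => Nat.rec {σ₀} nx n
  obtain ⟨q, a1, t, -, a2⟩ := T.baire (fun n u r => ∃ σ ∈ L n, r ≤ cond σ ∧ T.le (node σ) u r)
    (fun n u p q ⟨σ, a, b, c⟩ h => ⟨σ, a, h.trans b, T.mono _ _ c h⟩) (cond σ₀) (node σ₀) (hin _)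
    fun n => by
      induction n with
      | zero => exact fun q hq t ht => ⟨q, le_rfl, t, T.right ht, σ₀, rfl, hq, ht⟩
      | succ n ih =>
        intro q hq t ht
        obtain ⟨r, b1, u, b2, σ, b3, b4, b5⟩ := ih q hq t ht
        obtain ⟨σ', c1, c2, c3⟩ := hd n σ r b4 u b5
        obtain ⟨a, d1, r', t', d2, d3, d4, d5⟩ := h3 n (L n) σ' ⟨σ, b3, c1⟩
        exact ⟨r', d2.trans (c2.trans b1), t', T.trans (T.mono _ _ b2 (d2.trans c2))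
          (T.trans (T.mono _ _ c3 d2) d4), a, d1, d3, d5⟩
  refine ⟨L, q, t, rfl, a1, fun n σ' h => h1 n (L n) h, fun n σ hσ σ' hσ' r b1 b2 b3 b4 => ?_,
    fun n r hr => ?_⟩
  · cases n with
    | zero => exact hσ.trans hσ'.symm
    | succ n => exact h2 n (L n) σ hσ σ' hσ' ⟨r, t, b1, b2, b3, b4⟩
  · obtain ⟨r', b1, u, b2, σ, b3, b4, b5⟩ := a2 n r hr
    exact ⟨r', b1, σ, b3, b4, T.trans b5 b2⟩

end Pool.Agent.Work.MP_d95c0d_gt
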