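import Pool.Agent.Work.MP_58a5a1_lc.Defs

/-! The notions of the problem, interpreted inside a structure `(M, E)` for the language of set
theory.  Every quantifier ranges over `M` and the only primitive relations are `E` and `=`, so
each definition is the truth in `(M, E)` of the usual first-order definition. -/

namespace Pool.Agent.Work.MP_d95c0d_gt
open Pool.Agent.Work.MP_63c7e0_lc Pool.Agent.Work.MP_58a5a1_lc

universe u
variable {M : Type u} (E : M → M → Prop)

/-- `B` is a base of rank 1 for the topology `τ`: a base such that any two members of it with a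
common point are comparable under inclusion. -/
def IsRankOneBase (τ B : M) : Prop :=
  Sub E B τ ∧ (∀ U x, E U τ → E x U → ∃ b, E b B ∧ E x b ∧ Sub E b U) ∧
    ∀ b b' x, E b B → E b' B → E x b → E x b' → Sub E b b' ∨ Sub E b' b

/-- The topology `τ` is non-archimedean: it has a base of rank 1. -/
def NonArchimedean (τ : M) : Prop := ∃ B, IsRankOneBase E τ B

/-- `(X, τ)` is normal: disjoint closed sets have disjoint open neighbourhoods. -/
def IsNormalSp (X τ : M) : Prop :=
  ∀ C D, IsClosedIn E X τ C → IsClosedIn E X τ D → (∀ x, E x C → ¬ E x D) →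
    ∃ U V, E U τ ∧ E V τ ∧ Sub E C U ∧ Sub E D V ∧ ∀ x, E x U → ¬ E x V

/-- `C` is a `G_δ` set: the intersection of a sequence `(u n)`, `n ∈ ω`, of open sets. -/
def IsGdelta (τ C : M) : Prop :=
  ∃ w u, IsOmega E w ∧ IsFun E u w τ ∧ ∀ x, E x C ↔ ∀ n U, App E u n U → E x U

/-- `(X, τ)` is perfectly normal: normal, and every closed set is a `G_δ` set. -/
def PerfectlyNormal (X τ : M) : Prop :=
  IsNormalSp E X τ ∧ ∀ C, IsClosedIn E X τ C → IsGdelta E τ C

/-- `ν (x, y) = n`. -/
def Val (ν x y n : M) : Prop := ∃ p, IsPair E p x y ∧ App E ν p n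

/-- The topology `τ` is induced by an ultrametric `d = 2 ^ (-ν)` with values in
`{0} ∪ {2 ^ (-n) | n ∈ ω}`.  Here `ν` is a function from `X × X` to `ω + 1 = ω ∪ {ω}`, the value `ω`
stands for distance `0`, `⊆` is the order `≤` of `ω + 1` and `n ∈ ν (x, y)` says that
`d (x, y) < 2 ^ (-n)`.  The clauses say: `d (x, y) = 0` exactly if `x = y`; `d` is symmetric;
`d (x, z) ≤ max (d (x, y), d (y, z))`; the open sets are the subsets of `X` that contain a ball
around each of their points. -/
def Ultrametrizable (X τ : M) : Prop :=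
  ∃ w S W ν, IsOmega E w ∧ (∀ n, E n S ↔ E n w ∨ n = w) ∧ IsProd E W X X ∧ IsFun E ν W S ∧
    (∀ x y, E x X → E y X → (Val E ν x y w ↔ x = y)) ∧
    (∀ x y n, Val E ν x y n → Val E ν y x n) ∧
    (∀ x y z a b c, Val E ν x y a → Val E ν y z b → Val E ν x z c → Sub E a c ∨ Sub E b c) ∧
    ∀ U, E U τ ↔ Sub E U X ∧ ∀ x, E x U → ∃ n, E n w ∧ ∀ y c, Val E ν x y c → E n c → E y U

end Pool.Agent.Work.MP_d95c0d_gt
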