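import Mathlib.SetTheory.Cardinal.Regular
import Mathlib.Order.Filter.Ultrafilter.Basic

/-! The abstract interfaces between the parts of the proof.  A name for a subset of a ground set
`A` is a predicate `A → P → Prop` that is monotone (`Mo`) in the condition. -/

namespace Pool.Agent.Work.MP_d95c0d_gt
open Set Cardinal Filter

/-- Monotone predicates on conditions. -/
def Mo {P : Type} [LE P] (X : P → Prop) : Prop := ∀ ⦃p q : P⦄, X p → q ≤ p → X q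

/-- A name for a tree-like order (`le s t p`: `p` forces `s, t ∈ T` and `s ≤_T t`) that is splitting
and Baire. -/
structure NT0 (P ι : Type) [Preorder P] where
  le : ι → ι → P → Prop
  mono : ∀ s t, Mo (le s t)
  reg : ∀ {s t p}, (∀ q ≤ p, ∃ r ≤ q, le s t r) → le s t p
  left : ∀ {s t p}, le s t p → le s s p
  right : ∀ {s t p}, le s t p → le t t p
  trans : ∀ {s t u p}, le s t p → le t u p → le s u p
  tree : ∀ {s t u p}, le s u p → le t u p → ∃ q ≤ p, le s t q ∨ le t s q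
  ne : ∃ s p, le s s p
  split : ∀ {s p}, le s s p → ∃ q ≤ p, ∃ t t', le s t q ∧ le s t' q ∧
    ∀ r ≤ q, ¬ le t t' r ∧ ¬ le t' t r
  baire : ∀ D : ℕ → ι → P → Prop, (∀ n t, Mo (D n t)) → ∀ p s, le s s p →
    (∀ n, ∀ q ≤ p, ∀ t, le s t q → ∃ r ≤ q, ∃ u, le t u r ∧ D n u r) →
    ∃ q ≤ p, ∃ t, le s t q ∧ ∀ n, ∀ r ≤ q, ∃ r' ≤ r, ∃ u, le u t r' ∧ D n u r'

/-- The tree of a counterexample. -/
structure NT (P ι : Type) [Preorder P] extends NT0 P ι where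
  Y : ι → ℕ → ι → P → Prop
  Ymono : ∀ s k t, Mo (Y s k t)
  Ytot : ∀ {s p}, le s s p → ∀ k, ∃ q ≤ p, ∃ t, Y s k t q
  Yle : ∀ {s k t p}, Y s k t p → le s t p
  perf : ∀ N : ι → P → Prop, (∀ u, Mo (N u)) → ∀ p,
    (∀ q ≤ p, ∀ s, le s s q → ∃ r ≤ q, ∃ t, le s t r ∧ ∀ r' ≤ r, ∀ u, N u r' → ¬ le t u r') →
    ∃ p' ≤ p, ∃ B : ι → ℕ → P → Prop, (∀ t n, Mo (B t n)) ∧
      (∀ q ≤ p', ∀ t t' n, B t n q → le t t' q → B t' n q) ∧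
      (∀ q ≤ p', ∀ u, N u q → le u u q → ∃ r ≤ q, ∃ n, ∀ r' ≤ r, ¬ B u n r') ∧
      ∀ q ≤ p', ∀ s, le s s q →
        (∀ k, ∀ r ≤ q, ∃ r' ≤ r, ∃ t u, Y s k t r' ∧ le t u r' ∧ N u r') →
        ∀ n, ∃ r ≤ q, ∃ k, ∀ r' ≤ r, ∀ t, Y s k t r' → B t n r'

/-- An Axiom A structure: `st` is a countably closed suborder below which dense sets have
countable predense subsets. -/
structure AAS (P : Type) [Preorder P] where
  st : P → P → Prop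
  st_le : ∀ {q p}, st q p → q ≤ p
  st_refl : ∀ p, st p p
  st_trans : ∀ {r q p}, st r q → st q p → st r p
  closed : ∀ f : ℕ → P, (∀ n, st (f (n + 1)) (f n)) → ∃ q, ∀ n, st q (f n)
  aa : ∀ p (E : P → Prop), (∀ q ≤ p, ∃ r ≤ q, E r) → ∃ q, st q p ∧ ∃ C : Set P, C.Countable ∧
    (∀ c ∈ C, E c) ∧ ∀ r ≤ q, ∃ c ∈ C, ∃ s ≤ r, s ≤ c

/-- `P` is the two step iteration of `Q` and a collapse: a condition is a condition `res p` of `Q`,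
a ground set `dom p` of indices and for each index in it a `Q`-name `val p i` for a value. -/
structure CS (Q P I V : Type) [Preorder Q] [Preorder P] where
  res : P → Q
  dom : P → Set I
  val : P → I → Q → V → Prop
  SD : Set I → Prop
  Nm : I → (Q → V → Prop) → Prop
  Gd : (Q → Prop) → Prop
  dflt : V
  sd_dom : ∀ p, SD (dom p)
  sd_sub : ∀ {D D'}, SD D → D' ⊆ D → SD D'
  sd_union : ∀ (J : Type) [Countable J] (D : J → Set I), (∀ j, SD (D j)) → SD (⋃ j, D j)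
  nm_val : ∀ {p i}, i ∈ dom p → Nm i (val p i)
  nm_mono : ∀ {i H}, Nm i H → ∀ v, Mo fun s => H s v
  nm_tot : ∀ {i H}, Nm i H → ∀ s, ∃ s' ≤ s, ∃ v, H s' v
  nm_fun : ∀ {i H}, Nm i H → ∀ {s v v'}, H s v → H s v' → v = v'
  le_iff : ∀ {p' p}, p' ≤ p ↔ res p' ≤ res p ∧ dom p ⊆ dom p' ∧
    ∀ i ∈ dom p, ∀ s ≤ res p', ∀ v v', val p i s v → val p' i s v' → v = v'
  make : ∀ s D (H : I → Q → V → Prop), SD D → (∀ i ∈ D, Nm i (H i)) →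
    ∃ p, res p = s ∧ dom p = D ∧ ∀ i ∈ D, val p i = H i
  gd_mono : ∀ {G}, Gd G → Mo G
  gd_le : ∀ g, Gd fun s => s ≤ g
  gd_and : ∀ {G G'}, Gd G → Gd G' → Gd fun s => G s ∧ G' s
  nm_mix : ∀ (J : Type) [Countable J] (i : I) (G : J → Q → Prop) (H : J → Q → V → Prop),
    SD {i} → (∀ j, Gd (G j)) → (∀ j, Nm i (H j)) →
    (∀ j j' s v v', G j s → G j' s → H j s v → H j' s v' → v = v') →
    Nm i fun s v => (∃ j, G j s ∧ H j s v) ∨ (v = dflt ∧ ∀ s' ≤ s, ∀ j, ¬ G j s')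

/-- `lt` is a name for a tree order on the ordinals below `w = ω₁` without unbounded chains. -/
structure Good {P K : Type} [LE P] [LinearOrder K] (w : K) (lt : K → K → P → Prop) : Prop where
  mono : ∀ i j, Mo (lt i j)
  ord : ∀ {i j r}, lt i j r → i < j ∧ j < w
  tree : ∀ {i j k r}, lt i k r → lt j k r → i < j → ∃ r' ≤ r, lt i j r'
  nochain : ∀ C : K → P → Prop, (∀ i, Mo (C i)) → ∀ p,
    (∀ r ≤ p, ∀ i j, C i r → C j r → i < j → ∃ r' ≤ r, lt i j r') →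
    ∃ q ≤ p, ∃ β < w, ∀ r ≤ q, ∀ i < w, C i r → i < β

/-- The local system at a reflection point `α`: `Q1` is the part of the iteration that is a copy
of the small conditions, `Q2` is `Q1` followed by the collapse that enumerates the subsets of `α`,
`Ms` are the conditions below the master condition, `spec` is the specializing step. -/
structure LS (P K : Type) [Preorder P] [LinearOrder K] (w α : K) (Sm : P → Prop) where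
  Q1 : Type
  Q2 : Type
  [i1 : Preorder Q1]
  [i2 : Preorder Q2]
  bdd : ∀ C : Set K, C.Countable → (∀ x ∈ C, x < α) → ∃ β < α, ∀ x ∈ C, x < β
  lift : Q1 → P
  lift_le : ∀ {r' r}, lift r' ≤ lift r ↔ r' ≤ r
  sm_iff : ∀ p, Sm p ↔ ∃ r, lift r ≤ p ∧ p ≤ lift r
  cs : CS Q1 Q2 K K
  sd_iff : ∀ D, cs.SD D ↔ D.Countable ∧ ∀ i ∈ D, i < w
  gd_all : ∀ G, Mo G → cs.Gd G
  dec : K → K → Q1 → Prop
  dec_mono : ∀ v x, Mo (dec v x)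
  code : ∀ X : K → Q1 → Prop, (∀ x, Mo (X x)) → (∀ x s, X x s → x < α) →
    ∃ v, (∀ i < w, cs.Nm i fun _ v' => v' = v) ∧ ∀ x s, dec v x s ↔ X x s
  aa1 : AAS Q1
  aa2 : AAS Q2
  bit : K → ℕ → Bool → Q1 → Prop
  bit_mono : ∀ i n b, Mo (bit i n b)
  bit_fun : ∀ {i n b b' s}, bit i n b s → bit i n b' s → b = b'
  bit_fin : ∀ s, {x : K × ℕ | ∃ b, bit x.1 x.2 b s}.Finite
  bit_add : ∀ s i n b, i < α → (∀ b', ¬ bit i n b' s) → ∃ s' ≤ s, bit i n b s' ∧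
    ∀ i' n' b', bit i' n' b' s' → bit i' n' b' s ∨ (i' = i ∧ n' = n)
  d2 : P → Q2
  d2_mono : ∀ {q' q}, q' ≤ q → d2 q' ≤ d2 q
  amalg : ∀ {r q}, r ≤ d2 q → ∃ q' ≤ q, d2 q' ≤ r
  Ms : P → Prop
  ms_mono : Mo Ms
  ms_ex : ∀ r, ∃ q, Ms q ∧ cs.res (d2 q) ≤ r
  ms_le : ∀ {q r}, Ms q → cs.res (d2 q) ≤ r → q ≤ lift r
  spec : ∀ lt : K → K → Q2 → Prop, Good w lt → ∃ col : K → ℕ → P → Prop,
    (∀ i n, Mo (col i n)) ∧ (∀ i < w, ∀ q, ∃ q' ≤ q, ∃ n, col i n q') ∧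
    ∀ i j n q, col i n q → col j n q → ¬ lt i j (d2 q)

attribute [instance] LS.i1 LS.i2

/-- All that is used of the forcing `P`.  The ordinals below `κ₁` are `K`, `k` is `κ₀` and `w` is
`ω₁`. -/
structure Sys (P K : Type) [Preorder P] [LinearOrder K] [OrderBot K] where
  κ₀ : Cardinal.{0}
  κ₁ : Cardinal.{0}
  w : K
  k : K
  h0 : ℵ₀ < κ₀
  h01 : κ₀ < κ₁
  slim : ∀ c < κ₁, 2 ^ c < κ₁
  mk_Iio : ∀ x : K, #(Iio x) < κ₁
  big : ∀ c < κ₁, ∃ x : K, c ≤ #(Iio x)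
  mk_k : #(Iio k) = κ₀
  lt_k : ∀ x < k, #(Iio x) < κ₀
  bdd_k : ∀ C : Set K, #C < κ₀ → (∀ x ∈ C, x < k) → ∃ β < k, ∀ x ∈ C, x < β
  cnt_w : ∀ x < w, (Iio x).Countable
  bdd_w : ∀ C : Set K, C.Countable → (∀ x ∈ C, x < w) → ∃ β < w, ∀ x ∈ C, x < β
  w_lt : w < k
  aa : AAS P
  Q : Type
  [iQ : Preorder Q]
  aaQ : AAS Q
  mkQ : #Q < κ₁
  cs : CS Q P (K × K) K
  sd_iff : ∀ D, cs.SD D ↔ #D < κ₀ ∧ ∀ i ∈ D, i.2 < k
  dflt_eq : cs.dflt = ⊥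
  nm_const : ∀ i v, i.2 < k → v < i.1 → cs.Nm i fun _ v' => v' = v
  nm_lt : ∀ {i H s v}, cs.Nm i H → H s v → v < i.1 ∨ v = ⊥
  ultra : ∀ ι : Type, ∃ V : Ultrafilter (Set ι),
    (∀ᶠ Z : Set ι in (V : Filter (Set ι)), #Z < κ₁) ∧
    (∀ S : Set (Set (Set ι)), #S < κ₁ → (∀ A ∈ S, A ∈ V) → ⋂₀ S ∈ V) ∧
    ∀ x, ∀ᶠ Z in (V : Filter (Set ι)), x ∈ Z
  Ω : Type
  U : Ultrafilter Ω
  Sm : Ω → P → Prop
  al : Ω → K
  al_lt : ∀ᶠ Z in (U : Filter Ω), al Z < k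
  lt_al : ∀ β < k, ∀ᶠ Z in (U : Filter Ω), β < al Z
  sm_ae : ∀ p, ∀ᶠ Z in (U : Filter Ω), Sm Z p
  press : ∀ g : Ω → P, (∀ᶠ Z in (U : Filter Ω), Sm Z (g Z)) →
    ∃ p, ∀ᶠ Z in (U : Filter Ω), g Z ≤ p ∧ p ≤ g Z
  press_al : ∀ g : Ω → K, (∀ᶠ Z in (U : Filter Ω), g Z < al Z) →
    ∃ β, ∀ᶠ Z in (U : Filter Ω), g Z = β
  loc : ∀ᶠ Z in (U : Filter Ω), Nonempty (LS P K w (al Z) (Sm Z))

attribute [instance] Sys.iQ

/-- The large cardinal data: `K` is `κ₁`, `F` is a Laver function for order types. -/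
structure LC (K : Type) [LinearOrder K] where
  κ₀ : Cardinal.{0}
  κ₁ : Cardinal.{0}
  w : K
  k : K
  reg0 : κ₀.IsRegular
  reg1 : κ₁.IsRegular
  slim0 : ∀ c < κ₀, 2 ^ c < κ₀
  slim1 : ∀ c < κ₁, 2 ^ c < κ₁
  h01 : κ₀ < κ₁
  mkK : #K = κ₁
  mk_Iio : ∀ x : K, #(Iio x) < κ₁
  mk_k : #(Iio k) = κ₀
  lt_k : ∀ x < k, #(Iio x) < κ₀
  mk_w : #(Iio w) = ℵ₁
  lt_w : ∀ x < w, (Iio x).Countable
  w_lt : w < k
  F : K → K
  F_lt : ∀ α < k, F α < k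
  U : Ultrafilter (Set K)
  complete : ∀ S : Set (Set (Set K)), #S < κ₀ → (∀ A ∈ S, A ∈ U) → ⋂₀ S ∈ U
  fine : ∀ x, ∀ᶠ Z in (U : Filter (Set K)), x ∈ Z
  normal : ∀ g : Set K → K, (∀ᶠ Z in (U : Filter (Set K)), g Z ∈ Z) →
    ∃ x, ∀ᶠ Z in (U : Filter (Set K)), g Z = x
  al : Set K → K
  good : ∀ᶠ Z in (U : Filter (Set K)), Z ∩ Iio k = Iio (al Z) ∧ al Z < k ∧
    (#(Iio (al Z))).IsRegular ∧ (∀ x < al Z, #(Iio x) < #(Iio (al Z))) ∧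
    Nonempty (Z ≃o Iio (F (al Z)))
  ultra : ∀ ι : Type, ∃ V : Ultrafilter (Set ι),
    (∀ᶠ Z : Set ι in (V : Filter (Set ι)), #Z < κ₁) ∧
    (∀ S : Set (Set (Set ι)), #S < κ₁ → (∀ A ∈ S, A ∈ V) → ⋂₀ S ∈ V) ∧
    ∀ x, ∀ᶠ Z in (V : Filter (Set ι)), x ∈ Z

end Pool.Agent.Work.MP_d95c0d_gt
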