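import Pool.Agent.Work.MP_d95c0d_gt.IIface

/-! Topology inside the model: tools and small sets. -/

namespace Pool.Agent.Work.MP_d95c0d_gt.Inn
open Pool.Agent.Lib.ZFModel Pool.Agent.Work.MP_63c7e0_lc Pool.Agent.Work.MP_58a5a1_lc
  Pool.Agent.Work.MP_ee7661_gt

variable {M : Type 1} {E : M → M → Prop}

set_option synthInstance.maxSize 100000

/-- The standing hypotheses. -/
structure Cx (E : M → M → Prop) (X τ B : M) : Prop where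
  zfc : IsZFC E
  top : IsTop E X τ
  t1 : IsT1 E X τ
  base : IsRankOneBase E τ B
  gd : ∀ C, IsClosedIn E X τ C → IsGdelta E τ C

/-- A sequence of disjoint families of open sets that are compatible with the base. -/
def Gd (E : M → M → Prop) (w τ B A : M) : Prop :=
  (∀ n a, App E A n a → E n w ∧ E a τ ∧
    ∀ b x, E b B → E x a → E x b → Sub E a b ∨ Sub E b a) ∧
  ∀ n a a' x, App E A n a → App E A n a' → E x a → E x a' → a = a'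

/-- The members of `A` form a base at `y`. -/
def Bas (E : M → M → Prop) (τ A y : M) : Prop :=
  ∀ U, E U τ → E y U → ∃ n a, App E A n a ∧ E y a ∧ Sub E a U

/-- Small classes of points. -/
def Sm (E : M → M → Prop) (w τ B : M) (Y : M → Prop) : Prop :=
  ∃ A, Gd E w τ B A ∧ ∀ y, Y y → Bas E τ A y

section dfn
variable [Nonempty M] (a b c d : (ℕ → M) → M) [Trm a] [Trm b] [Trm c] [Trm d]
instance : Dfn E (fun v => Val E (a v) (b v) (c v) (d v)) := by unfold Val; infer_instance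
instance : Dfn E (fun v => Gd E (a v) (b v) (c v) (d v)) := by unfold Gd; infer_instance
instance : Dfn E (fun v => Bas E (a v) (b v) (c v)) := by unfold Bas; infer_instance
end dfn

theorem Sub.tr {a b c : M} (h : Sub E a b) (h' : Sub E b c) : Sub E a c :=
  fun x hx => h' x (h x hx)

theorem exists_ch (zfc : IsZFC E) (A B : M) (R : M → M → Prop)
    [Dfn E fun v => ∃ x y, E x A ∧ E y B ∧ IsPair E (v 0) x y ∧ R x y] :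
    ∃ f, (∀ x y, App E f x y → E x A ∧ E y B ∧ R x y) ∧
      (∀ x y y', App E f x y → App E f x y' → y = y') ∧
      ∀ x y, E x A → E y B → R x y → ∃ y', App E f x y' := by
  obtain ⟨g, -, hg⟩ := exists_rel zfc.zf A B R
  obtain ⟨f, h1, h2, h3⟩ := choice_rel zfc A B g
  exact ⟨f, fun x y h => (hg x y).1 (h1 x y h).1, h2,
    fun x y hx hy h => h3 x y hx hy ((hg x y).2 ⟨hx, hy, h⟩)⟩

theorem exists_prod (zf : IsZF E) (A B : M) : ∃ W, IsProd E W A B := by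
  have := zf.nonempty
  obtain ⟨g, h1, hg⟩ := exists_rel zf A B fun a _ => a = a
  refine ⟨g, fun p => ⟨h1 p, fun ⟨a, b, ha, hb, h⟩ => ?_⟩⟩
  obtain ⟨q, hq, h'⟩ := (hg a b).2 ⟨ha, hb, rfl⟩
  exact pair_unique zf h' h ▸ hq

theorem exists_rel3 (zf : IsZF E) {W A B : M} (hW : IsProd E W A B) (C : M) (R : M → M → M → Prop)
    [Dfn E fun v => ∃ p c, E p W ∧ E c C ∧ IsPair E (v 0) p c ∧
      ∃ a b, IsPair E p a b ∧ R a b c] :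
    ∃ g, (∀ q, E q g → ∃ p c, E p W ∧ E c C ∧ IsPair E q p c) ∧
      ∀ a b c, Val E g a b c ↔ E a A ∧ E b B ∧ E c C ∧ R a b c := by
  obtain ⟨g, h1, hg⟩ := exists_rel zf W C fun p c => ∃ a b, IsPair E p a b ∧ R a b c
  refine ⟨g, h1, fun a b c => ⟨fun ⟨p, hp, h⟩ => ?_, fun ⟨ha, hb, hc, h⟩ => ?_⟩⟩
  · obtain ⟨h2, h3, a', b', h4, h5⟩ := (hg p c).1 h
    obtain ⟨rfl, rfl⟩ := pair_inj zf hp h4
    obtain ⟨a', b', ha, hb, h6⟩ := (hW p).1 h2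
    obtain ⟨rfl, rfl⟩ := pair_inj zf hp h6
    exact ⟨ha, hb, h3, h5⟩
  · obtain ⟨p, hp⟩ := exists_pair zf a b
    exact ⟨p, hp, (hg p c).2 ⟨(hW p).2 ⟨a, b, ha, hb, hp⟩, hc, a, b, hp, h⟩⟩

variable {X τ B : M} (cx : Cx E X τ B) (wd : WD E)
include cx

theorem Cx.zf : IsZF E := cx.zfc.zf

theorem Cx.sub {U : M} (h : E U τ) : Sub E U X := cx.top.1 U h

theorem Cx.bτ {b : M} (h : E b B) : E b τ := cx.base.1 b h

theorem Cx.bas {U x : M} (h : E U τ) (hx : E x U) : ∃ b, E b B ∧ E x b ∧ Sub E b U :=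
  cx.base.2.1 U x h hx

theorem Cx.cmp {b b' x : M} (h : E b B) (h' : E b' B) (hx : E x b) (hx' : E x b') :
    Sub E b b' ∨ Sub E b' b := cx.base.2.2 b b' x h h' hx hx'

theorem Cx.bas2 {U s y : M} (h : E U τ) (hs : E s τ) (hy : E y U) (hy' : E y s) :
    ∃ c, E c B ∧ E y c ∧ Sub E c U ∧ Sub E c s := by
  obtain ⟨b, hb, h1, h2⟩ := cx.bas h hy
  obtain ⟨c, hc, h3, h4⟩ := cx.bas hs hy'
  rcases cx.cmp hb hc h1 h3 with h5 | h5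
  exacts [⟨b, hb, h1, h2, Sub.tr h5 h4⟩, ⟨c, hc, h3, Sub.tr h5 h2, h4⟩]

theorem Cx.opn {V : M} (h : ∀ y, E y V → ∃ U, E U τ ∧ E y U ∧ Sub E U V) : E V τ := by
  have := cx.zf.nonempty
  obtain ⟨S, hS⟩ := cx.zf.sep τ fun U => Sub E U V
  refine cx.top.2.2.2 S V (fun U hU => ((hS U).1 hU).1) fun x => ⟨fun hx => ?_, ?_⟩
  · obtain ⟨U, h1, h2, h3⟩ := h x hx
    exact ⟨U, (hS U).2 ⟨h1, h3⟩, h2⟩
  · rintro ⟨U, h1, h2⟩
    exact ((hS U).1 h1).2 x h2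

theorem Cx.cls {H : M} (h1 : Sub E H X)
    (h : ∀ y, E y X → ¬ E y H → ∃ U, E U τ ∧ E y U ∧ ∀ z, E z U → ¬ E z H) :
    IsClosedIn E X τ H := by
  have := cx.zf.nonempty
  obtain ⟨V, hV⟩ := cx.zf.sep X fun x => ¬ E x H
  refine ⟨h1, V, cx.opn fun y hy => ?_, hV⟩
  obtain ⟨U, h2, h3, h4⟩ := h y ((hV y).1 hy).1 ((hV y).1 hy).2
  exact ⟨U, h2, h3, fun z hz => (hV z).2 ⟨cx.sub h2 z hz, h4 z hz⟩⟩

theorem Cx.sepp {x y : M} (hx : E x X) (hy : E y X) (h : y ≠ x) :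
    ∃ c, E c B ∧ E y c ∧ ¬ E x c := by
  obtain ⟨s, hs⟩ := exists_sing cx.zf x
  obtain ⟨-, U, h1, h2⟩ := cx.t1 x s hx hs
  obtain ⟨c, h3, h4, h5⟩ := cx.bas h1 ((h2 y).2 ⟨hy, fun h' => h ((hs y).1 h')⟩)
  exact ⟨c, h3, h4, fun h' => ((h2 x).1 (h5 x h')).2 ((hs x).2 rfl)⟩

theorem Cx.clopen {b y : M} (hb : E b B) (hy : E y X) (h : ¬ E y b) :
    ∃ c, E c τ ∧ E y c ∧ ∀ z, E z c → ¬ E z b := by
  by_cases h1 : ∃ x, E x b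
  · obtain ⟨x, hx⟩ := h1
    obtain ⟨c, h2, h3, h4⟩ := cx.sepp (cx.sub (cx.bτ hb) x hx) hy fun e => h (e ▸ hx)
    refine ⟨c, cx.bτ h2, h3, fun z hz hz' => ?_⟩
    rcases cx.cmp h2 hb hz hz' with h5 | h5
    exacts [h (h5 y h3), h4 (h5 x hx)]
  · exact ⟨X, cx.top.2.1, hy, fun z _ hz => h1 ⟨z, hz⟩⟩

theorem Cx.gdw {C : M} (h : IsClosedIn E X τ C) :
    ∃ u, IsFun E u wd.w τ ∧ ∀ x, E x C ↔ ∀ n U, App E u n U → E x U := by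
  obtain ⟨w, u, h1, h2⟩ := cx.gd C h
  exact ⟨u, MP_ee7661_gt.omega_eq cx.zf wd.toND h1 ▸ h2⟩

theorem Cx.gd_seq (I S : M)
    (h : ∀ i, E i I → ∃ C, IsClosedIn E X τ C ∧ ∀ x, E x C ↔ App E S i x) :
    ∃ f, (∀ i u, App E f i u → IsFun E u wd.w τ ∧
        ∀ x, App E S i x ↔ ∀ n U, App E u n U → E x U) ∧
      (∀ x y y', App E f x y → App E f x y' → y = y') ∧ ∀ i, E i I → ∃ u, App E f i u := by
  have := cx.zf.nonempty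
  obtain ⟨Z, hZ⟩ := exists_funs cx.zf wd.w τ
  obtain ⟨f, h1, h2, h3⟩ := exists_ch cx.zfc I Z fun i u => IsFun E u wd.w τ ∧
    ∀ x, App E S i x ↔ ∀ n U, App E u n U → E x U
  refine ⟨f, fun i u h => (h1 i u h).2.2, h2, fun i hi => ?_⟩
  obtain ⟨C, h4, h5⟩ := h i hi
  obtain ⟨u, h6, h7⟩ := cx.gdw wd h4
  exact h3 i u hi (hZ u h6) ⟨h6, fun x => (h5 x).symm.trans (h7 x)⟩

theorem Cx.sm_mono {w : M} {Y Y' : M → Prop} (h : Sm E w τ B Y) (h' : ∀ y, E y X → Y' y → Y y) :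
    Sm E w τ B Y' := by
  obtain ⟨A, h1, h2⟩ := h
  exact ⟨A, h1, fun y hy U hU hyU => h2 y (h' y (cx.sub hU y hyU) hy) U hU hyU⟩

theorem Cx.ch_wit {w : M} (I S : M) (h : ∀ i, E i I → Sm E w τ B (App E S i)) :
    ∃ f, (∀ i A, App E f i A → E i I ∧ Gd E w τ B A ∧ ∀ y, App E S i y → Bas E τ A y) ∧
      (∀ x y y', App E f x y → App E f x y' → y = y') ∧ ∀ i, E i I → ∃ u, App E f i u := by
  have := cx.zf.nonempty
  obtain ⟨W, hW⟩ := exists_prod cx.zf w τ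
  obtain ⟨Z, hZ⟩ := cx.zf.powerset W
  obtain ⟨f, h1, h2, h3⟩ := exists_ch cx.zfc I Z fun i A => Gd E w τ B A ∧
    ∀ y, App E S i y → Bas E τ A y
  refine ⟨f, fun i u h => ⟨(h1 i u h).1, (h1 i u h).2.2⟩, h2, fun i hi => ?_⟩
  obtain ⟨A, h4, h5⟩ := h i hi
  obtain ⟨A', h6, h7⟩ := exists_rel cx.zf w τ fun n a => App E A n a
  have e : ∀ n a, App E A' n a ↔ App E A n a := fun n a =>
    (h7 n a).trans ⟨fun h => h.2.2, fun h => ⟨(h4.1 n a h).1, (h4.1 n a h).2.1, h⟩⟩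
  refine h3 i A' hi ((hZ A').2 fun p hp => (hW p).2 (h6 p hp)) ⟨?_, fun y hy => ?_⟩
  · simpa only [Gd, e] using h4
  · simpa only [Bas, e] using h5 y hy

theorem Cx.sm_iUnion (S : M) (h : ∀ n, Sm E wd.w τ B (App E S (wd.nat n))) :
    Sm E wd.w τ B fun y => ∃ n, App E S (wd.nat n) y := by
  have := cx.zf.nonempty
  obtain ⟨g, hg⟩ := wd.pr
  obtain ⟨f, h1, h2, h3⟩ := cx.ch_wit wd.w S fun i hi => by
    obtain ⟨n, rfl⟩ := (wd.mem_w _).1 hi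
    exact h n
  obtain ⟨A, -, hA⟩ := exists_rel cx.zf wd.w τ fun k a =>
    ∃ n m A', Val E g n m k ∧ App E f n A' ∧ App E A' m a
  refine ⟨A, ⟨fun k a ha => ?_, fun k a a' x ha ha' hx hx' => ?_⟩, ?_⟩
  · obtain ⟨a1, a2, n, m, A', -, a3, a4⟩ := (hA _ _).1 ha
    exact ⟨a1, ((h1 _ _ a3).2.1.1 _ _ a4).2⟩
  · obtain ⟨-, -, n, m, A', a0, a3, a4⟩ := (hA _ _).1 ha
    obtain ⟨-, -, n', m', A'', b0, b3, b4⟩ := (hA _ _).1 ha'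
    obtain ⟨i, j, rfl, rfl, e⟩ := (hg _ _ _).1 a0
    obtain ⟨i', j', rfl, rfl, e'⟩ := (hg _ _ _).1 b0
    obtain ⟨rfl, rfl⟩ := Nat.pair_eq_pair.1 (MP_ee7661_gt.nat_inj cx.zf wd.toND (e.symm.trans e'))
    obtain rfl := h2 _ _ _ a3 b3
    exact (h1 _ _ a3).2.1.2 _ _ _ _ a4 b4 hx hx'
  · rintro y ⟨n, hy⟩ U hU hyU
    obtain ⟨A', a1⟩ := h3 _ ((wd.mem_w _).2 ⟨n, rfl⟩)
    obtain ⟨m, a, a2, a3⟩ := (h1 _ _ a1).2.2 y hy U hU hyU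
    obtain ⟨a4, a5, -⟩ := (h1 _ _ a1).2.1.1 _ _ a2
    obtain ⟨j, rfl⟩ := (wd.mem_w _).1 a4
    exact ⟨_, a, (hA _ _).2 ⟨(wd.mem_w _).2 ⟨Nat.pair n j, rfl⟩, a5, _, _, A',
      (hg _ _ _).2 ⟨n, j, rfl, rfl, rfl⟩, a1, a2⟩, a3⟩

theorem Cx.sm_union {Y Y' : M → Prop} (h : Sm E wd.w τ B Y) (h' : Sm E wd.w τ B Y') :
    Sm E wd.w τ B fun y => Y y ∨ Y' y := by
  have := cx.zf.nonempty
  obtain ⟨A, h1, h2⟩ := h
  obtain ⟨A', h3, h4⟩ := h'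
  obtain ⟨S, -, hS⟩ := exists_rel cx.zf wd.w X fun n y =>
    (n = wd.nat 0 ∧ Bas E τ A y) ∨ (¬ n = wd.nat 0 ∧ Bas E τ A' y)
  refine cx.sm_mono (cx.sm_iUnion wd S fun n => ?_) fun y hy hY => ?_
  · by_cases hn : wd.nat n = wd.nat 0
    · exact ⟨A, h1, fun y hy => (((hS _ _).1 hy).2.2.resolve_right fun h => h.1 hn).2⟩
    · exact ⟨A', h3, fun y hy => (((hS _ _).1 hy).2.2.resolve_left fun h => hn h.1).2⟩
  · rcases hY with hY | hY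
    · exact ⟨0, (hS _ _).2 ⟨(wd.mem_w _).2 ⟨0, rfl⟩, hy, Or.inl ⟨rfl, h2 y hY⟩⟩⟩
    · exact ⟨1, (hS _ _).2 ⟨(wd.mem_w _).2 ⟨1, rfl⟩, hy, Or.inr ⟨fun h =>
        one_ne_zero (MP_ee7661_gt.nat_inj cx.zf wd.toND h), h4 y hY⟩⟩⟩

theorem Cx.sm_nd {H : M} (hH : IsClosedIn E X τ H)
    (hi : ∀ c y, E c B → E y c → ∃ z, E z c ∧ ¬ E z H) : Sm E wd.w τ B fun y => E y H := by
  have := cx.zf.nonempty
  obtain ⟨u, h1, h2⟩ := cx.gdw wd hH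
  let r : M → M → M → Prop := fun U y z => ∃ b, E b B ∧ E y b ∧ Sub E b U ∧ E z b
  have rs : ∀ {U y z}, r U y z → r U z y := fun ⟨b, a1, a2, a3, a4⟩ => ⟨b, a1, a4, a3, a2⟩
  have rt : ∀ {U x y z}, r U x y → r U y z → r U x z := by
    rintro U x y z ⟨b, a1, a2, a3, a4⟩ ⟨c, b1, b2, b3, b4⟩
    rcases cx.cmp a1 b1 a4 b2 with h | h
    exacts [⟨c, b1, h _ a2, b3, b4⟩, ⟨b, a1, a2, a3, h _ b4⟩]
  obtain ⟨A, -, hA⟩ := exists_rel cx.zf wd.w τ fun m a =>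
    ∃ y U, App E u m U ∧ ∀ z, E z a ↔ ∃ b, E b B ∧ E y b ∧ Sub E b U ∧ E z b
  refine ⟨A, ⟨fun m a ha => ?_, fun m a a' x ha ha' hx hx' => ?_⟩, fun y hy U' hU' hyU => ?_⟩
  · obtain ⟨a1, a2, y, U, -, a3⟩ := (hA _ _).1 ha
    refine ⟨a1, a2, fun c x hc hx hxc => or_iff_not_imp_right.2 fun h v hv => ?_⟩
    obtain ⟨b, b1, b2, b3, b4⟩ := rt (rs ((a3 x).1 hx)) ((a3 v).1 hv)
    rcases cx.cmp b1 hc b2 hxc with h' | h'
    · exact h' v b4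
    · exact absurd (fun z hz => (a3 z).2 (rt ((a3 x).1 hx) ⟨b, b1, b2, b3, h' z hz⟩)) h
  · obtain ⟨-, -, y, U, a1, a3⟩ := (hA _ _).1 ha
    obtain ⟨-, -, y', U', b1, b3⟩ := (hA _ _).1 ha'
    obtain rfl := h1.2.2 _ _ _ a1 b1
    have e := rt ((a3 x).1 hx) (rs ((b3 x).1 hx'))
    exact cx.zf.extensionality _ _ fun z => ⟨fun hz => (b3 z).2 (rt (rs e) ((a3 z).1 hz)),
      fun hz => (a3 z).2 (rt e ((b3 z).1 hz))⟩
  · obtain ⟨c, c1, c2, c3⟩ := cx.bas hU' hyU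
    obtain ⟨z, z1, z2⟩ := hi c y c1 c2
    rw [h2] at z2
    push Not at z2
    obtain ⟨m, U, a1, a2⟩ := z2
    obtain ⟨a, ha⟩ := cx.zf.sep X fun z => ∃ b, E b B ∧ E y b ∧ Sub E b U ∧ E z b
    have ha' : ∀ z, E z a ↔ r U y z := fun z =>
      (ha z).trans ⟨fun h => h.2, fun ⟨b, h⟩ => ⟨cx.sub (cx.bτ h.1) z h.2.2.2, b, h⟩⟩
    obtain ⟨b0, b1, b2, b3⟩ := cx.bas (h1.mem cx.zf a1).2 ((h2 y).1 hy m U a1)
    refine ⟨m, a, (hA _ _).2 ⟨(h1.mem cx.zf a1).1, cx.opn fun v hv => ?_, y, U, a1, ha'⟩,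
      (ha' y).2 ⟨b0, b1, b2, b3, b2⟩, fun v hv => ?_⟩
    · obtain ⟨b, d1, d2, d3, d4⟩ := (ha' v).1 hv
      exact ⟨b, cx.bτ d1, d4, fun t ht => (ha' t).2 ⟨b, d1, d2, d3, ht⟩⟩
    · obtain ⟨b, d1, d2, d3, d4⟩ := (ha' v).1 hv
      rcases cx.cmp d1 c1 d2 c2 with h | h
      exacts [c3 v (h v d4), absurd (d3 z (h z z1)) a2]

/-- The part of a clopen set not covered by a dense family of open sets is small. -/
theorem Cx.sm_compl (A s : M) (hA : ∀ a, E a A → E a τ)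
    (hs : ∀ y, E y X → ¬ E y s → ∃ c, E c τ ∧ E y c ∧ ∀ z, E z c → ¬ E z s)
    (hd : ∀ c y, E c B → E y c → Sub E c s → ∃ z a, E z c ∧ E a A ∧ E z a) :
    Sm E wd.w τ B fun y => E y s ∧ ¬ ∃ a, E a A ∧ E y a := by
  have := cx.zf.nonempty
  obtain ⟨H, hH⟩ := cx.zf.sep X fun y => E y s ∧ ¬ ∃ a, E a A ∧ E y a
  refine cx.sm_mono (cx.sm_nd wd (H := H) (cx.cls (fun y hy => ((hH y).1 hy).1) fun y hy h => ?_)
    fun c y hc hy => ?_) fun y hy h => (hH y).2 ⟨hy, h⟩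
  · by_cases h1 : E y s
    · obtain ⟨a, a1, a2⟩ : ∃ a, E a A ∧ E y a := by
        by_contra h2; exact h ((hH y).2 ⟨hy, h1, h2⟩)
      exact ⟨a, hA a a1, a2, fun z hz h' => ((hH z).1 h').2.2 ⟨a, a1, hz⟩⟩
    · obtain ⟨c, c1, c2, c3⟩ := hs y hy h1
      exact ⟨c, c1, c2, fun z hz h' => c3 z hz ((hH z).1 h').2.1⟩
  · by_cases h1 : Sub E c s
    · obtain ⟨z, a, a1, a2, a3⟩ := hd c y hc hy h1
      exact ⟨z, a1, fun h' => ((hH z).1 h').2.2 ⟨a, a2, a3⟩⟩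
    · unfold MP_63c7e0_lc.Sub at h1
      push Not at h1
      obtain ⟨z, z1, z2⟩ := h1
      exact ⟨z, z1, fun h' => z2 ((hH z).1 h').2.1⟩

include wd in
theorem Cx.root (D : M) (hD : Sub E D B) : ∃ A, Sub E A D ∧
    (∀ a a' x, E a A → E a' A → E x a → E x a' → a = a') ∧
    ∀ d, E d D → ∃ d' a, E d' D ∧ E a A ∧ Sub E d' d ∧ Sub E d' a := by
  have := cx.zf.nonempty
  obtain ⟨r, wf, tot⟩ := wd.wo B
  obtain ⟨J, hJ⟩ := cx.zf.sep D fun d => ∀ d', E d' D → App E r d' d → ¬ Sub E d' d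
  obtain ⟨A, hA⟩ := cx.zf.sep J fun a => ∀ a', E a' J → Sub E a a' → Sub E a' a
  have hs : Sub E A D := fun a ha => ((hJ a).1 ((hA a).1 ha).1).1
  refine ⟨A, hs, fun a a' x ha ha' hx hx' => ?_, fun d hd => ?_⟩
  · rcases cx.cmp (hD _ (hs _ ha)) (hD _ (hs _ ha')) hx hx' with h | h
    · exact cx.zf.extensionality _ _ fun z => ⟨h z, ((hA a).1 ha).2 a' ((hA _).1 ha').1 h z⟩
    · exact cx.zf.extensionality _ _ fun z => ⟨((hA a').1 ha').2 a ((hA _).1 ha).1 h z, h z⟩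
  · obtain ⟨d', ⟨h1, h2⟩, h3⟩ := wf.has_min {d' | E d' D ∧ Sub E d' d} ⟨d, hd, fun _ h => h⟩
    obtain ⟨a, ⟨h4, h5⟩, h6⟩ := wf.has_min {a | E a J ∧ Sub E d' a}
      ⟨d', (hJ _).2 ⟨h1, fun e he h h' => h3 e ⟨he, Sub.tr h' h2⟩ h⟩, fun _ h => h⟩
    refine ⟨d', a, h1, (hA a).2 ⟨h4, fun a' ha' h => ?_⟩, h2, h5⟩
    rcases tot a a' (hD _ ((hJ _).1 h4).1) (hD _ ((hJ _).1 ha').1) with rfl | h7 | h7
    · exact h
    · exact absurd h (((hJ _).1 ha').2 a ((hJ _).1 h4).1 h7)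
    · exact absurd h7 (h6 a' ⟨ha', Sub.tr h5 h⟩)

theorem Cx.sm_all (h : ∀ c y, E c B → E y c → ∃ d, E d B ∧ Sub E d c ∧ (∃ x, E x d) ∧
    Sm E wd.w τ B fun y => E y d) : Sm E wd.w τ B fun y => E y X := by
  have := cx.zf.nonempty
  obtain ⟨D, hD⟩ := cx.zf.sep B fun d => (∃ x, E x d) ∧
    ∃ A, Gd E wd.w τ B A ∧ ∀ y, E y d → Bas E τ A y
  obtain ⟨A0, h1, h2, h3⟩ := cx.root wd D fun d hd => ((hD d).1 hd).1
  have hτ : ∀ a, E a A0 → E a τ := fun a ha => cx.bτ ((hD a).1 (h1 a ha)).1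
  obtain ⟨S, -, hS⟩ := exists_rel cx.zf A0 X fun a y => E y a
  obtain ⟨f, f1, f2, f3⟩ := cx.ch_wit (w := wd.w) A0 S fun a ha =>
    cx.sm_mono ((hD a).1 (h1 a ha)).2.2 fun y _ hy => ((hS _ _).1 hy).2.2
  obtain ⟨A, -, hA⟩ := exists_rel cx.zf wd.w τ fun n a' =>
    ∃ a A', App E f a A' ∧ App E A' n a' ∧ Sub E a' a
  have s1 : Sm E wd.w τ B fun y => ∃ a, E a A0 ∧ E y a := by
    refine ⟨A, ⟨fun n a' ha => ?_, fun n a a' x ha ha' hx hx' => ?_⟩, ?_⟩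
    · obtain ⟨-, -, a, A', a1, a2, -⟩ := (hA _ _).1 ha
      exact (f1 _ _ a1).2.1.1 _ _ a2
    · obtain ⟨-, -, e, A', a1, a2, a3⟩ := (hA _ _).1 ha
      obtain ⟨-, -, e', A'', b1, b2, b3⟩ := (hA _ _).1 ha'
      obtain rfl := h2 e e' x (f1 _ _ a1).1 (f1 _ _ b1).1 (a3 x hx) (b3 x hx')
      obtain rfl := f2 _ _ _ a1 b1
      exact (f1 _ _ a1).2.1.2 _ _ _ _ a2 b2 hx hx'
    · rintro y ⟨a, ha, hy⟩ U hU hyU
      obtain ⟨A', a1⟩ := f3 a ha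
      obtain ⟨c, c1, c2, c3, c4⟩ := cx.bas2 hU (hτ a ha) hyU hy
      obtain ⟨n, a', b1, b2, b3⟩ := (f1 _ _ a1).2.2 y ((hS _ _).2 ⟨ha, cx.sub hU y hyU, hy⟩) c
        (cx.bτ c1) c2
      obtain ⟨d1, d2, -⟩ := (f1 _ _ a1).2.1.1 _ _ b1
      exact ⟨n, a', (hA _ _).2 ⟨d1, d2, a, A', a1, b1, Sub.tr b3 c4⟩, b2, Sub.tr b3 c3⟩
  have s2 := cx.sm_compl wd A0 X hτ (fun y h h' => absurd h h') fun c y hc hy _ => by
    obtain ⟨d, d1, d2, d3, d4⟩ := h c y hc hy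
    obtain ⟨d', a, a1, a2, a3, a4⟩ := h3 d ((hD d).2 ⟨d1, d3, d4⟩)
    obtain ⟨z, hz⟩ := ((hD d').1 a1).2.1
    exact ⟨z, a, d2 z (a3 z hz), a2, a4 z hz⟩
  exact cx.sm_mono (cx.sm_union wd s1 s2) fun y hy _ => or_iff_not_imp_left.2 fun h => ⟨hy, h⟩

end Pool.Agent.Work.MP_d95c0d_gt.Inn
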