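import Pool.Agent.Work.MP_d95c0d_gt.Base

/-! The mixed support iteration: raw conditions, validity and order. -/

namespace Pool.Agent.Work.MP_d95c0d_gt
open Set Cardinal

/-- Raw conditions: finitely many specializing entries and, for each coordinate and index, a name
given as a set of pairs (code of a condition, value). -/
@[ext] structure Raw (O K : Type) where
  a : Finset (O × K × K × ℕ)
  f : O → K × K → Set (K × K)

/-- The parameters of the iteration. -/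
structure Par (O K : Type) [LinearOrder O] where
  enc : Raw O K → K
  enc2 : Set (K × K × K) → K
  dec2 : K → Set (K × K × K)
  w : K
  lam : O → Cardinal.{0}
  IS : O → Set (K × K)
  tA : O → Prop
  tS : O → Prop
  gam : O → K
  lam_reg : ∀ c, (lam c).IsRegular
  lam_unc : ∀ c, ℵ₀ < lam c
  IS_S : ∀ c, tS c → IS c = ∅
  bb : ∀ c, tA c → (IS c).Nonempty → ∀ S : Set O, S.Countable → (∀ x ∈ S, x < c) →
    ∃ b < c, ∀ x ∈ S, x < b

variable {O K : Type}

namespace Raw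
def dom (p : Raw O K) (c : O) : Set (K × K) := {i | (p.f c i).Nonempty}
def supp (p : Raw O K) : Set O := {c | (∃ y, (c, y) ∈ p.a) ∨ (p.dom c).Nonempty}
def nil : Raw O K := ⟨∅, fun _ _ => ∅⟩
/-- `p` and `q` agree at the coordinate `c`. -/
def Ag (c : O) (p q : Raw O K) : Prop := (∀ y, (c, y) ∈ p.a ↔ (c, y) ∈ q.a) ∧ p.f c = q.f c

theorem Ag.refl (c : O) (p : Raw O K) : Ag c p p := ⟨fun _ => Iff.rfl, rfl⟩
theorem Ag.symm {c : O} {p q : Raw O K} (h : Ag c p q) : Ag c q p :=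
  ⟨fun y => (h.1 y).symm, h.2.symm⟩
theorem Ag.trans {c : O} {p q r : Raw O K} (h : Ag c p q) (h' : Ag c q r) : Ag c p r :=
  ⟨fun y => (h.1 y).trans (h'.1 y), h.2.trans h'.2⟩
theorem Ag.dom {c : O} {p q : Raw O K} (h : Ag c p q) : p.dom c = q.dom c := by
  simp only [Raw.dom, h.2]
theorem Ag.supp {c : O} {p q : Raw O K} (h : Ag c p q) : c ∈ p.supp ↔ c ∈ q.supp := by
  simp only [Raw.supp, mem_ofPred_eq, h.dom, h.1]
theorem eq_of_ag {p q : Raw O K} (h : ∀ c, Ag c p q) : p = q :=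
  Raw.ext (Finset.ext fun x => (h x.1).1 x.2) (funext fun c => (h c).2)
theorem ag_nil {c : O} {p : Raw O K} (h : c ∉ p.supp) : Ag c p nil :=
  ⟨fun y => ⟨fun h' => absurd (Or.inl ⟨y, h'⟩) h, fun h' => absurd h' (Finset.notMem_empty _)⟩,
    funext fun i => not_nonempty_iff_eq_empty.1 fun h' => h (Or.inr ⟨i, h'⟩)⟩
theorem supp_nil (c : O) : c ∉ (nil : Raw O K).supp := by
  rintro (⟨y, h⟩ | ⟨i, y, h⟩)
  · exact Finset.notMem_empty _ h
  · exact h

variable [LinearOrder O]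

open Classical in
/-- `r` below `c` and `q` from `c` on. -/
noncomputable def glue (c : O) (r q : Raw O K) : Raw O K :=
  ⟨r.a.filter (fun x => x.1 < c) ∪ q.a.filter (fun x => c ≤ x.1),
    fun d => if d < c then r.f d else q.f d⟩

theorem ag_glue_lt {c d : O} (r q : Raw O K) (h : d < c) : Ag d (glue c r q) r :=
  ⟨fun y => by simp [glue, h], if_pos h⟩
theorem ag_glue_ge {c d : O} (r q : Raw O K) (h : c ≤ d) : Ag d (glue c r q) q :=
  ⟨fun y => by simp [glue, h], if_neg (not_lt.2 h)⟩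

noncomputable def res (c : O) (p : Raw O K) : Raw O K := glue c p nil

theorem ag_res {c d : O} (p : Raw O K) (h : d < c) : Ag d (res c p) p := ag_glue_lt _ _ h

def Below (e : O) (p : Raw O K) : Prop := ∀ c ∈ p.supp, c < e

theorem Below.mono {e e' : O} {p : Raw O K} (h : Below e p) (he : e ≤ e') : Below e' p :=
  fun c hc => (h c hc).trans_le he
theorem Below.not {e c : O} {p : Raw O K} (h : Below e p) (hc : e ≤ c) : c ∉ p.supp :=
  fun h' => absurd (h c h') (not_lt.2 hc)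
theorem supp_glue (c : O) (r q : Raw O K) : (glue c r q).supp ⊆ r.supp ∪ q.supp := fun d hd =>
  (lt_or_ge d c).imp (fun h => (ag_glue_lt r q h).supp.1 hd) fun h => (ag_glue_ge r q h).supp.1 hd
theorem supp_res (c : O) (p : Raw O K) : (res c p).supp ⊆ p.supp := fun d hd =>
  (supp_glue _ _ _ hd).resolve_right (supp_nil d)
theorem below_res (c : O) (p : Raw O K) : Below c (res c p) := fun d hd =>
  lt_of_not_ge fun h => supp_nil d ((ag_glue_ge _ _ h).supp.1 hd)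
theorem res_eq {c : O} {p s : Raw O K} (hs : Below c s) (h : ∀ d < c, Ag d p s) : res c p = s :=
  eq_of_ag fun d => (lt_or_ge d c).elim (fun hd => (ag_res p hd).trans (h d hd))
    fun hd => (ag_glue_ge _ _ hd).trans (ag_nil (hs.not hd)).symm
theorem mem_res_a {c : O} {p : Raw O K} {x : O × K × K × ℕ} :
    x ∈ (res c p).a ↔ x ∈ p.a ∧ x.1 < c := by simp [res, glue, nil]

end Raw
open Raw

variable [LinearOrder O] [LinearOrder K] [OrderBot K] (X : Par O K)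

section level
variable (ok : Raw O K → Prop) (le : Raw O K → Raw O K → Prop)

def Hit0 (r : Raw O K) (τ : Set (K × K)) (v : K) : Prop := ∃ s, ok s ∧ (X.enc s, v) ∈ τ ∧ le r s
def Lt0 (σ ξ η : K) (r : Raw O K) : Prop := ∃ s, ok s ∧ (X.enc s, ξ, η) ∈ X.dec2 σ ∧ le r s
def Code0 (δ v : K) : Prop :=
  ∃ S, v = X.enc2 S ∧ ∀ x ∈ S, (∃ s, ok s ∧ x.1 = X.enc s) ∧ x.2.1 < δ ∧ x.2.2 < δ
def VV0 (c : O) (i : K × K) (v : K) : Prop :=
  v = ⊥ ∨ (X.tA c ∧ v < i.1) ∨ (¬ X.tA c ∧ Code0 X ok (X.gam c) v)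
def Base (c b : O) : Prop := b ≤ c ∧ (X.tA c → b < c)
def NameOk0 (c : O) (i : K × K) (τ : Set (K × K)) : Prop :=
  (∃ b, Base X c b ∧ ∀ y ∈ τ, ∃ s, ok s ∧ Below b s ∧ y.1 = X.enc s) ∧
  (∀ y ∈ τ, VV0 X ok c i y.2) ∧
  (∀ r, ok r → ∃ r', ok r' ∧ le r' r ∧ ∃ v, Hit0 X ok le r' τ v) ∧
  ∀ r v v', ok r → Hit0 X ok le r τ v → Hit0 X ok le r τ v' → v = v'
def Good0 (σ : K) : Prop :=
  @Good {r // ok r} K ⟨fun a b => le a.1 b.1⟩ _ X.w fun i j r => Lt0 X ok le σ i j r.1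
def ClOk0 (c : O) (p : Raw O K) : Prop :=
  #(p.dom c) < X.lam c ∧ p.dom c ⊆ X.IS c ∧ ∀ i ∈ p.dom c, NameOk0 X ok le c i (p.f c i)
def SpOk0 (c : O) (p : Raw O K) : Prop :=
  ∀ σ ξ n, (c, σ, ξ, n) ∈ p.a → (X.tS c ∧ ξ < X.w ∧ Code0 X ok X.w σ ∧ Good0 X ok le σ) ∧
    (∀ n', (c, σ, ξ, n') ∈ p.a → n' = n) ∧
    ∀ η, (c, σ, η, n) ∈ p.a → ∀ r, ok r → le r p → ¬ Lt0 X ok le σ ξ η r
def LeAt0 (c : O) (q p : Raw O K) : Prop :=
  (∀ y, (c, y) ∈ p.a → (c, y) ∈ q.a) ∧ p.dom c ⊆ q.dom c ∧ ∀ i ∈ p.dom c, ∀ r, ok r → le r q →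
    ∀ v v', Hit0 X ok le r (p.f c i) v → Hit0 X ok le r (q.f c i) v' → v = v'

end level

variable [WellFoundedLT O]

noncomputable def lev : O → (Raw O K → Prop) × (Raw O K → Raw O K → Prop) :=
  wellFounded_lt.fix fun c IH =>
    let ok := fun p => Below c p ∧ p.supp.Countable ∧ ∀ d (h : d < c), (IH d h).1 p
    let le := fun q p => ∀ d (h : d < c), (IH d h).2 q p
    (fun p => ClOk0 X ok le c p ∧ SpOk0 X ok le c p, LeAt0 X ok le c)

def OkAt (c : O) (p : Raw O K) : Prop := (lev X c).1 p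
def LeAt (c : O) (q p : Raw O K) : Prop := (lev X c).2 q p
def OkL (e : O) (p : Raw O K) : Prop := ∀ c < e, OkAt X c p
def OkB (e : O) (p : Raw O K) : Prop := Below e p ∧ p.supp.Countable ∧ OkL X e p
def LeB (e : O) (q p : Raw O K) : Prop := ∀ c < e, LeAt X c q p

abbrev Hit (c : O) := Hit0 X (OkB X c) (LeB X c)
abbrev Lt (c : O) := Lt0 X (OkB X c) (LeB X c)
abbrev Code (c : O) := Code0 X (OkB X c)
abbrev VV (c : O) := VV0 X (OkB X c) c
abbrev NameOk (c : O) := NameOk0 X (OkB X c) (LeB X c) c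
abbrev GoodC (c : O) := Good0 X (OkB X c) (LeB X c)
abbrev ClOk (c : O) := ClOk0 X (OkB X c) (LeB X c) c
abbrev SpOk (c : O) := SpOk0 X (OkB X c) (LeB X c) c

variable {X}

theorem okAt_iff {c : O} {p : Raw O K} : OkAt X c p ↔ ClOk X c p ∧ SpOk X c p := by
  rw [OkAt, lev, WellFounded.fix_eq]; rfl

theorem leAt_iff {c : O} {q p : Raw O K} : LeAt X c q p ↔ LeAt0 X (OkB X c) (LeB X c) c q p := by
  rw [LeAt, lev, WellFounded.fix_eq]; rfl

variable {b c d e : O} {p p' q q' r s : Raw O K}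

theorem OkAt.cl (h : OkAt X c p) : ClOk X c p := (okAt_iff.1 h).1
theorem OkAt.sp (h : OkAt X c p) : SpOk X c p := (okAt_iff.1 h).2
theorem LeAt.a (h : LeAt X c q p) : ∀ y, (c, y) ∈ p.a → (c, y) ∈ q.a := (leAt_iff.1 h).1
theorem LeAt.dom (h : LeAt X c q p) : p.dom c ⊆ q.dom c := (leAt_iff.1 h).2.1
theorem LeAt.agree (h : LeAt X c q p) {i : K × K} (hi : i ∈ p.dom c) (hr : OkB X c r)
    (hl : LeB X c r q) {v v' : K} (h1 : Hit X c r (p.f c i) v) (h2 : Hit X c r (q.f c i) v') :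
    v = v' := (leAt_iff.1 h).2.2 i hi r hr hl v v' h1 h2
theorem OkL.mono (h : OkL X e p) (hc : c ≤ e) : OkL X c p := fun d hd => h d (hd.trans_le hc)
theorem LeB.mono (h : LeB X e q p) (hc : c ≤ e) : LeB X c q p := fun d hd => h d (hd.trans_le hc)

theorem LeAt.congr_right (h : LeAt X c q p) (ha : Ag c p p') : LeAt X c q p' := by
  refine leAt_iff.2 ⟨fun y hy => h.a y ((ha.1 y).2 hy), ha.dom ▸ h.dom, ?_⟩
  rw [← ha.dom, ← ha.2]
  exact (leAt_iff.1 h).2.2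

theorem LeB.congr_right (h : LeB X c q p) (ha : ∀ d < c, Ag d p p') : LeB X c q p' :=
  fun d hd => (h d hd).congr_right (ha d hd)

theorem LeAt.congr_left (h : LeAt X c q p) (ha : ∀ d ≤ c, Ag d q q') : LeAt X c q' p := by
  have h1 := ha c le_rfl
  refine leAt_iff.2 ⟨fun y hy => (h1.1 y).1 (h.a y hy), h1.dom ▸ h.dom, fun i hi r hr hl => ?_⟩
  rw [← h1.2]
  exact fun v v' => h.agree hi hr (hl.congr_right fun d hd => (ha d hd.le).symm)

theorem LeB.congr_left (h : LeB X c q p) (ha : ∀ d < c, Ag d q q') : LeB X c q' p :=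
  fun d hd => (h d hd).congr_left fun d' hd' => ha d' (hd'.trans_lt hd)

theorem ClOk.congr (h : ClOk X c p) (hf : p'.f c = p.f c) : ClOk X c p' := by
  have : p'.dom c = p.dom c := by simp only [Raw.dom, hf]
  unfold ClOk ClOk0
  rw [this, hf]
  exact h

theorem OkAt.congr (h : OkAt X c p) (ha : ∀ d ≤ c, Ag d p p') : OkAt X c p' := by
  have h1 := ha c le_rfl
  refine okAt_iff.2 ⟨h.cl.congr h1.2.symm, fun σ ξ n hx => ?_⟩
  obtain ⟨a1, a2, a3⟩ := h.sp σ ξ n ((h1.1 _).2 hx)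
  exact ⟨a1, fun n' h' => a2 n' ((h1.1 _).2 h'), fun η h' r hr hl => a3 η ((h1.1 _).2 h') r hr
    (hl.congr_right fun d hd => (ha d hd.le).symm)⟩

theorem OkL.congr (h : OkL X c p) (ha : ∀ d < c, Ag d p p') : OkL X c p' :=
  fun d hd => (h d hd).congr fun d' hd' => ha d' (hd'.trans_lt hd)

theorem okAt_of_not_supp (h : c ∉ p.supp) : OkAt X c p := by
  have h1 : p.dom c = ∅ := not_nonempty_iff_eq_empty.1 fun h' => h (Or.inr h')
  refine okAt_iff.2 ⟨⟨?_, ?_, ?_⟩, fun σ ξ n hx => absurd (Or.inl ⟨_, hx⟩) h⟩ <;> rw [h1]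
  · simpa using (X.lam_reg c).pos
  · exact empty_subset _
  · exact fun i hi => hi.elim

theorem leAt_of_not_supp (h : c ∉ p.supp) : LeAt X c q p :=
  leAt_iff.2 ⟨fun y hy => absurd (Or.inl ⟨y, hy⟩) h, fun i hi => absurd (Or.inr ⟨i, hi⟩) h,
    fun i hi => absurd (Or.inr ⟨i, hi⟩) h⟩

theorem OkB.okAt (h : OkB X e p) (c : O) : OkAt X c p :=
  (lt_or_ge c e).elim (h.2.2 c) fun hc => okAt_of_not_supp (h.1.not hc)
theorem OkB.okL (h : OkB X e p) (c : O) : OkL X c p := fun d _ => h.okAt d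
theorem OkB.of_below (h : OkB X e p) (hb : Below c p) : OkB X c p := ⟨hb, h.2.1, h.okL c⟩
theorem OkB.mono (h : OkB X e p) (hc : e ≤ c) : OkB X c p := h.of_below (h.1.mono hc)
theorem LeB.of_below (h : LeB X b q p) (hb : Below b p) (e : O) : LeB X e q p := fun c _ =>
  (lt_or_ge c b).elim (h c) fun hc => leAt_of_not_supp (hb.not hc)
theorem okB_nil (e : O) : OkB X e nil :=
  ⟨fun c h => absurd h (supp_nil c), (countable_empty.mono fun c h => absurd h (supp_nil c)),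
    fun c _ => okAt_of_not_supp (supp_nil c)⟩

/-- The order at `c` when the names of `p` are kept. -/
theorem leAt_of_same (h : ClOk X c p) (ha : ∀ y, (c, y) ∈ p.a → (c, y) ∈ q.a)
    (hf : ∀ i ∈ p.dom c, q.f c i = p.f c i) : LeAt X c q p :=
  leAt_iff.2 ⟨ha, fun i hi => show (q.f c i).Nonempty from (hf i hi).symm ▸ hi,
    fun i hi r hr _ v v' h1 h2 => (h.2.2 i hi).2.2.2 r v v' hr h1 (hf i hi ▸ h2)⟩

theorem OkL.refl (h : OkL X c p) : LeB X c p p :=
  fun d hd => leAt_of_same (h d hd).cl (fun _ h => h) fun _ _ => rfl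

theorem LeB.trans (hr : OkL X c r) (hq : OkL X c q) (h1 : LeB X c r q) (h2 : LeB X c q p) :
    LeB X c r p := by
  induction c using WellFoundedLT.induction generalizing r q p with
  | ind c ih =>
    intro d hd
    have a1 := h1 d hd
    have a2 := h2 d hd
    refine leAt_iff.2 ⟨fun y hy => a1.a y (a2.a y hy), a2.dom.trans a1.dom,
      fun i hi s hs hl v v' b1 b2 => ?_⟩
    obtain ⟨s', c1, c2, u, c3⟩ := ((hq d hd).cl.2.2 i (a2.dom hi)).2.2.1 s hs
    have hm : ∀ {τ v}, Hit X d s τ v → Hit X d s' τ v := fun ⟨t, d1, d2, d3⟩ =>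
      ⟨t, d1, d2, ih d hd c1.2.2 hs.2.2 c2 d3⟩
    have c4 := ih d hd c1.2.2 hs.2.2 c2 hl
    have c5 := ih d hd c1.2.2 (hr.mono hd.le) c4 (h1.mono hd.le)
    exact (a2.agree hi c1 c5 (hm b1) c3).trans (a1.agree (a2.dom hi) c1 c4 c3 (hm b2))

theorem Hit.mono {τ : Set (K × K)} {v : K} (h : Hit X c s τ v) (hs : OkL X c s) (hr : OkL X c r)
    (hl : LeB X c r s) : Hit X c r τ v :=
  let ⟨t, d1, d2, d3⟩ := h; ⟨t, d1, d2, LeB.trans hr hs hl d3⟩

theorem Lt.mono {σ ξ η : K} (h : Lt X c σ ξ η s) (hs : OkL X c s) (hr : OkL X c r)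
    (hl : LeB X c r s) : Lt X c σ ξ η r :=
  let ⟨t, d1, d2, d3⟩ := h; ⟨t, d1, d2, LeB.trans hr hs hl d3⟩

theorem SpOk.of_le (h : SpOk X c q) (ha : ∀ y, (c, y) ∈ p.a → (c, y) ∈ q.a) (hp : OkL X c p)
    (hl : LeB X c p q) : SpOk X c p := fun σ ξ n hx =>
  let ⟨a1, a2, a3⟩ := h σ ξ n (ha _ hx)
  ⟨a1, fun n' h' => a2 n' (ha _ h'), fun η h' r hr h1 =>
    a3 η (ha _ h') r hr (LeB.trans hr.2.2 hp h1 hl)⟩

theorem ext_same (hq : OkAt X c q) (ha : Ag c p q) (hp : OkL X c p) (hl : LeB X c p q) :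
    OkAt X c p ∧ LeAt X c p q :=
  ⟨okAt_iff.2 ⟨hq.cl.congr ha.2, hq.sp.of_le (fun y => (ha.1 y).1) hp hl⟩,
    leAt_of_same hq.cl (fun y => (ha.1 y).2) fun i _ => congrFun ha.2 i⟩

/-- Induction principle for extensions. -/
theorem ext_ind {J : Type} {q : J → Raw O K}
    (h : ∀ c < e, OkL X c p → (∀ j, LeB X c p (q j)) → OkAt X c p ∧ ∀ j, LeAt X c p (q j)) :
    OkL X e p ∧ ∀ j, LeB X e p (q j) := by
  have : ∀ c, c < e → OkAt X c p ∧ ∀ j, LeAt X c p (q j) := fun c => by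
    induction c using WellFoundedLT.induction with
    | ind c ih =>
      exact fun hc => h c hc (fun d hd => (ih d hd (hd.trans hc)).1)
        fun j d hd => (ih d hd (hd.trans hc)).2 j
  exact ⟨fun c hc => (this c hc).1, fun j c hc => (this c hc).2 j⟩

theorem ext_ind1 (h : ∀ c < e, OkL X c p → LeB X c p q → OkAt X c p ∧ LeAt X c p q) :
    OkL X e p ∧ LeB X e p q :=
  let ⟨a, b⟩ := ext_ind (q := fun _ : Unit => q) fun c hc h1 h2 =>
    let ⟨a, b⟩ := h c hc h1 (h2 ()); ⟨a, fun _ => b⟩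
  ⟨a, b ()⟩

theorem glue_ok (hq : OkL X e q) (hr : OkL X c r) (hl : LeB X c r q) :
    OkL X e (glue c r q) ∧ LeB X e (glue c r q) q :=
  ext_ind1 fun d hd h1 h2 => (lt_or_ge d c).elim
    (fun h => ⟨(hr d h).congr fun _ h' => (ag_glue_lt _ _ (h'.trans_lt h)).symm,
      (hl d h).congr_left fun _ h' => (ag_glue_lt _ _ (h'.trans_lt h)).symm⟩)
    fun h => ext_same (hq d hd) (ag_glue_ge _ _ h) h1 h2

theorem glue_le_left (hr : OkL X c r) : LeB X c (glue c r q) r :=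
  hr.refl.congr_left fun _ h => (ag_glue_lt _ _ h).symm

theorem OkB.glue (hq : OkB X e q) (hr : OkB X c r) (hc : c ≤ e) (hl : LeB X c r q) :
    OkB X e (glue c r q) :=
  ⟨fun d hd => (supp_glue _ _ _ hd).elim (fun h => (hr.1 d h).trans_le hc) (hq.1 d),
    (hr.2.1.union hq.2.1).mono (supp_glue _ _ _), (glue_ok hq.2.2 hr.2.2 hl).1⟩

theorem OkB.res (h : OkB X e p) (c : O) : OkB X c (res c p) :=
  ⟨below_res c p, h.2.1.mono (supp_res c p), (h.okL c).congr fun _ hd => (ag_res p hd).symm⟩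

theorem OkB.res' (h : OkB X e p) (c : O) : OkB X e (Raw.res c p) :=
  (h.res c).of_below fun d hd => h.1 d (supp_res c p hd)

theorem leB_res_right (hb : b ≤ e) : LeB X e q (res b p) ↔ LeB X b q p :=
  ⟨fun h => (h.mono hb).congr_right fun _ hd => ag_res p hd,
    fun h => (h.congr_right fun _ hd => (ag_res p hd).symm).of_below (below_res b p) e⟩

theorem leB_res_left (hb : b ≤ c) : LeB X b (res c q) p ↔ LeB X b q p :=
  ⟨fun h => h.congr_left fun _ hd => ag_res q (hd.trans_le hb),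
    fun h => h.congr_left fun _ hd => (ag_res q (hd.trans_le hb)).symm⟩

end Pool.Agent.Work.MP_d95c0d_gt
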