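import Pool.Agent.Work.MP_d95c0d_gt.Iter1

/-! The initial segments of the iteration as preorders, names, and the closed steps. -/

namespace Pool.Agent.Work.MP_d95c0d_gt
open Set Cardinal Raw
set_option linter.unusedSectionVars false

variable {O K : Type} [LinearOrder O] [WellFoundedLT O] [LinearOrder K] [OrderBot K]
  (X : Par O K)

/-- The iteration up to `e`. -/
def Cond (e : O) : Type := {p : Raw O K // OkB X e p}

instance (e : O) : Preorder (Cond X e) where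
  le q p := LeB X e q.1 p.1
  le_refl p := p.2.2.2.refl
  le_trans r q _ := LeB.trans r.2.2.2 q.2.2.2

/-- The coding of conditions and of small sets of triples is faithful at level `c`. -/
def Inj (c : O) : Prop :=
  (∀ s s', OkB X c s → OkB X c s' → X.enc s = X.enc s' → s = s') ∧
  ∀ δ S, (δ = X.w ∨ δ = X.gam c) →
    (∀ x ∈ S, (∃ s, OkB X c s ∧ x.1 = X.enc s) ∧ x.2.1 < δ ∧ x.2.2 < δ) → X.dec2 (X.enc2 S) = S

variable {X} {b c d e : O}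

namespace Cond

theorem le_def {q p : Cond X e} : q ≤ p ↔ LeB X e q.1 p.1 := Iff.rfl
theorem okL (p : Cond X e) (c : O) : OkL X c p.1 := p.2.okL c
def top (X : Par O K) (e : O) : Cond X e := ⟨nil, okB_nil e⟩
noncomputable def dn (c : O) (p : Cond X e) : Cond X c := ⟨res c p.1, p.2.res c⟩
noncomputable def cut (b : O) (p : Cond X e) : Cond X e := ⟨res b p.1, p.2.res' b⟩
def up (h : c ≤ e) (p : Cond X c) : Cond X e := ⟨p.1, p.2.mono h⟩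

theorem le_dn {s : Cond X c} {p : Cond X e} : s ≤ dn c p ↔ LeB X c s.1 p.1 := leB_res_right le_rfl
theorem dn_le {s : Cond X c} {p : Cond X e} : dn c p ≤ s ↔ LeB X c p.1 s.1 := leB_res_left le_rfl
theorem dn_mono (h : c ≤ e) {q p : Cond X e} (hq : q ≤ p) : dn c q ≤ dn c p :=
  le_dn.2 ((leB_res_left le_rfl).2 (LeB.mono hq h))
theorem le_up (h : c ≤ e) {s : Cond X e} {r : Cond X c} : s ≤ up h r ↔ dn c s ≤ r :=
  ⟨fun h' => dn_le.2 (LeB.mono h' h), fun h' => (dn_le.1 h').of_below r.2.1 e⟩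
theorem dn_up (h : c ≤ e) (r : Cond X c) : dn c (up h r) = r :=
  Subtype.ext (res_eq r.2.1 fun _ _ => Ag.refl _ _)
theorem le_cut_iff (h : b ≤ e) {s p : Cond X e} : s ≤ cut b p ↔ LeB X b s.1 p.1 := leB_res_right h
theorem le_cut (h : b ≤ e) (s : Cond X e) : s ≤ cut b s := (le_cut_iff h).2 (s.okL b).refl
theorem cut_le_iff (h : b ≤ e) {s g : Cond X e} (hg : Below b g.1) : cut b s ≤ g ↔ s ≤ g :=
  ⟨fun h' => (le_cut h s).trans h',
    fun h' => ((leB_res_left le_rfl).2 (LeB.mono h' h)).of_below hg e⟩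
theorem cut_le_self (s : Cond X e) : cut e s ≤ s := (leB_res_left le_rfl).2 (le_refl s)
theorem cut_le_cut (h : b ≤ d) (hd : d ≤ e) (s : Cond X e) : cut d s ≤ cut b s :=
  (le_cut_iff (h.trans hd)).2 ((leB_res_left h).2 (s.okL b).refl)

/-- Amalgamation. -/
noncomputable def am (h : c ≤ e) (r : Cond X c) (q : Cond X e) (hl : r ≤ dn c q) : Cond X e :=
  ⟨glue c r.1 q.1, q.2.glue r.2 h (le_dn.1 hl)⟩

theorem am_le (h : c ≤ e) (r : Cond X c) (q : Cond X e) (hl : r ≤ dn c q) : am h r q hl ≤ q :=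
  (glue_ok q.2.2.2 r.2.2.2 (le_dn.1 hl)).2
theorem dn_am (h : c ≤ e) (r : Cond X c) (q : Cond X e) (hl : r ≤ dn c q) :
    dn c (am h r q hl) = r := Subtype.ext (res_eq r.2.1 fun _ hd => ag_glue_lt _ _ hd)

theorem exists_am (h : c ≤ e) {r : Cond X c} {q : Cond X e} (hl : r ≤ dn c q) :
    ∃ q' ≤ q, dn c q' = r := ⟨_, am_le h r q hl, dn_am h r q hl⟩

theorem exists_cut_am (h : b ≤ e) {s s' : Cond X e} (hl : s' ≤ cut b s) :
    ∃ t ≤ s, t ≤ cut b s' := by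
  obtain ⟨t, h1, h2⟩ := exists_am h (r := dn b s') (q := s)
    (le_dn.2 ((leB_res_left le_rfl).2 ((le_cut_iff h).1 hl)))
  exact ⟨t, h1, (le_cut_iff h).2 ((leB_res_left le_rfl).1 (le_dn.1 h2.le))⟩

end Cond
open Cond

theorem Hit.mono' {τ : Set (K × K)} {v : K} {s r : Cond X c} (h : Hit X c s.1 τ v) (hl : r ≤ s) :
    Hit X c r.1 τ v := h.mono s.2.2.2 r.2.2.2 hl

theorem exists_base (hc : (X.IS c).Nonempty) {S : Set O} (hS : S.Countable)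
    (h : ∀ x ∈ S, Base X c x) : ∃ b, Base X c b ∧ ∀ x ∈ S, x ≤ b := by
  by_cases hA : X.tA c
  · obtain ⟨b, h1, h2⟩ := X.bb c hA hc S hS fun x hx => (h x hx).2 hA
    exact ⟨b, ⟨h1.le, fun _ => h1⟩, fun x hx => (h2 x hx).le⟩
  · exact ⟨c, ⟨le_rfl, fun h => absurd h hA⟩, fun x hx => (h x hx).1⟩

theorem exists_base_below (hc : (X.IS c).Nonempty) (g : Cond X c) :
    ∃ b, Base X c b ∧ Below b g.1 := by
  by_cases hA : X.tA c
  · obtain ⟨b, h1, h2⟩ := X.bb c hA hc _ g.2.2.1 g.2.1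
    exact ⟨b, ⟨h1.le, fun _ => h1⟩, h2⟩
  · exact ⟨c, ⟨le_rfl, fun h => absurd h hA⟩, g.2.1⟩

variable (X) in
/-- Admissible names at the coordinate `c`, as predicates. -/
def NmC (c : O) (i : K × K) (H : Cond X c → K → Prop) : Prop :=
  (∀ v, Mo fun s => H s v) ∧ (∀ s, ∃ s' ≤ s, ∃ v, H s' v) ∧
  (∀ s v v', H s v → H s v' → v = v') ∧ (∀ s v, H s v → VV X c i v) ∧
  ∃ b, Base X c b ∧ ∀ s v, H s v → H (cut b s) v

variable (X) in
def GdC (c : O) (G : Cond X c → Prop) : Prop :=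
  Mo G ∧ ((X.IS c).Nonempty → ∃ b, Base X c b ∧ ∀ s, G s → G (cut b s))

theorem NameOk.nm (hI : Inj X c) {i : K × K} {τ : Set (K × K)} (h : NameOk X c i τ) :
    NmC X c i fun s v => Hit X c s.1 τ v := by
  obtain ⟨⟨b, h1, h2⟩, h3, h4, h5⟩ := h
  refine ⟨fun v s r h hl => h.mono' hl, fun s => ?_, fun s v v' => h5 _ v v' s.2,
    fun s v ⟨t, _, a, _⟩ => h3 _ a, b, h1, fun s v ⟨t, a1, a2, a3⟩ => ⟨t, a1, a2, ?_⟩⟩
  · obtain ⟨r, a1, a2, a3⟩ := h4 s.1 s.2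
    exact ⟨⟨r, a1⟩, a2, a3⟩
  · obtain ⟨t', b1, b2, b3⟩ := h2 _ a2
    obtain rfl := hI.1 _ _ a1 b1 b3
    exact (cut_le_iff h1.1 (g := ⟨t, a1⟩) b2).2 a3

theorem NmC.name (hI : Inj X c) {i : K × K} {H : Cond X c → K → Prop} (h : NmC X c i H) :
    ∃ τ, NameOk X c i τ ∧ τ.Nonempty ∧ ∀ (s : Cond X c) v, Hit X c s.1 τ v ↔ H s v := by
  obtain ⟨h1, h2, h3, h4, b, h5, h6⟩ := h
  let τ : Set (K × K) := {y | ∃ s : Cond X c, Below b s.1 ∧ y.1 = X.enc s.1 ∧ H s y.2}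
  have key : ∀ (s : Cond X c) v, Hit X c s.1 τ v ↔ H s v := fun s v => by
    constructor
    · rintro ⟨t, a1, ⟨t', a2, a3, a4⟩, a5⟩
      obtain rfl := hI.1 _ _ a1 t'.2 a3
      exact h1 v a4 a5
    · exact fun h => ⟨_, (cut b s).2, ⟨cut b s, below_res _ _, rfl, h6 s v h⟩, le_cut h5.1 s⟩
  refine ⟨τ, ⟨⟨b, h5, fun y ⟨s, a1, a2, _⟩ => ⟨s.1, s.2, a1, a2⟩⟩, fun y ⟨s, _, _, a⟩ => h4 s _ a,
    fun r hr => ?_, fun r v v' hr a1 a2 => h3 ⟨r, hr⟩ v v' ((key ⟨r, hr⟩ v).1 a1)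
      ((key ⟨r, hr⟩ v').1 a2)⟩, ?_, key⟩
  · obtain ⟨s, a1, v, a2⟩ := h2 ⟨r, hr⟩
    exact ⟨s.1, s.2, a1, v, (key s v).2 a2⟩
  · obtain ⟨s, -, v, a2⟩ := h2 (top X c)
    obtain ⟨t, -, a3, -⟩ := (key s v).2 a2
    exact ⟨_, a3⟩

theorem gdC_le (g : Cond X c) : GdC X c fun s => s ≤ g :=
  ⟨fun _ _ h h' => h'.trans h, fun hc =>
    let ⟨b, h1, h2⟩ := exists_base_below hc g; ⟨b, h1, fun _ h => (cut_le_iff h1.1 h2).2 h⟩⟩

theorem GdC.and {G G' : Cond X c → Prop} (h : GdC X c G) (h' : GdC X c G') :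
    GdC X c fun s => G s ∧ G' s := by
  refine ⟨fun _ _ a hl => ⟨h.1 a.1 hl, h'.1 a.2 hl⟩, fun hc => ?_⟩
  obtain ⟨b, a1, a2⟩ := h.2 hc
  obtain ⟨b', b1, b2⟩ := h'.2 hc
  rcases le_total b b' with h1 | h1
  · exact ⟨b', b1, fun s hs => ⟨h.1 (a2 s hs.1) (cut_le_cut h1 b1.1 s), b2 s hs.2⟩⟩
  · exact ⟨b, a1, fun s hs => ⟨a2 s hs.1, h'.1 (b2 s hs.2) (cut_le_cut h1 a1.1 s)⟩⟩

theorem nmC_mix {J : Type} [Countable J] {i : K × K} {G : J → Cond X c → Prop}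
    {H : J → Cond X c → K → Prop} (hi : i ∈ X.IS c) (hG : ∀ j, GdC X c (G j))
    (hH : ∀ j, NmC X c i (H j))
    (h : ∀ j j' s v v', G j s → G j' s → H j s v → H j' s v' → v = v') :
    NmC X c i fun s v => (∃ j, G j s ∧ H j s v) ∨ (v = ⊥ ∧ ∀ s' ≤ s, ∀ j, ¬ G j s') := by
  choose b₁ a1 a2 using fun j => (hG j).2 ⟨i, hi⟩
  choose b₂ a3 a4 using fun j => (hH j).2.2.2.2
  obtain ⟨b, b1, b2⟩ := exists_base ⟨i, hi⟩ ((countable_range b₁).union (countable_range b₂)) (by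
    rintro _ (⟨j, rfl⟩ | ⟨j, rfl⟩)
    exacts [a1 j, a3 j])
  have b3 : ∀ j s, G j s → G j (cut b s) := fun j s hs =>
    (hG j).1 (a2 j s hs) (cut_le_cut (b2 _ (Or.inl ⟨j, rfl⟩)) b1.1 s)
  refine ⟨fun v s r hs hl => hs.imp (fun ⟨j, c1, c2⟩ => ⟨j, (hG j).1 c1 hl, (hH j).1 v c2 hl⟩)
    fun c1 => ⟨c1.1, fun s' hs' => c1.2 s' (hs'.trans hl)⟩, fun s => ?_, ?_, ?_, b, b1, ?_⟩
  · by_cases hs : ∃ s' ≤ s, ∃ j, G j s'
    · obtain ⟨s', c1, j, c2⟩ := hs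
      obtain ⟨t, c3, v, c4⟩ := (hH j).2.1 s'
      exact ⟨t, c3.trans c1, v, Or.inl ⟨j, (hG j).1 c2 c3, c4⟩⟩
    · exact ⟨s, le_rfl, ⊥, Or.inr ⟨rfl, fun s' c1 j c2 => hs ⟨s', c1, j, c2⟩⟩⟩
  · rintro s v v' (⟨j, c1, c2⟩ | ⟨rfl, c1⟩) (⟨j', c3, c4⟩ | ⟨rfl, c3⟩)
    · exact h j j' s v v' c1 c3 c2 c4
    · exact absurd c1 (c3 s le_rfl j)
    · exact absurd c3 (c1 s le_rfl j')
    · rfl
  · rintro s v (⟨j, -, c2⟩ | ⟨rfl, -⟩)
    · exact (hH j).2.2.2.1 s v c2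
    · exact Or.inl rfl
  · rintro s v (⟨j, c1, c2⟩ | ⟨rfl, c1⟩)
    · exact Or.inl ⟨j, b3 j s c1,
        (hH j).1 v (a4 j s v c2) (cut_le_cut (b2 _ (Or.inr ⟨j, rfl⟩)) b1.1 s)⟩
    · refine Or.inr ⟨rfl, fun s' c2 j c3 => ?_⟩
      obtain ⟨t, c4, c5⟩ := exists_cut_am b1.1 c2
      exact c1 t c4 j ((hG j).1 (b3 j s' c3) c5)

theorem nmC_const {i : K × K} (hi : i ∈ X.IS c) {v : K} (hv : VV X c i v) :
    NmC X c i fun _ v' => v' = v := by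
  obtain ⟨b, h, -⟩ := exists_base ⟨i, hi⟩ countable_empty fun _ h => h.elim
  exact ⟨fun _ _ _ h _ => h, fun s => ⟨s, le_rfl, v, rfl⟩, fun _ _ _ h h' => h.trans h'.symm,
    fun _ _ h => h ▸ hv, b, h, fun _ _ h => h⟩

theorem sd_union (c : O) {J : Type} [Countable J] {D : J → Set (K × K)}
    (h : ∀ j, #(D j) < X.lam c) : #(⋃ j, D j) < X.lam c :=
  (card_iUnion_lt_iff_forall_of_isRegular (X.lam_reg c) (mk_le_aleph0.trans_lt (X.lam_unc c))).2 h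

theorem not_mem_a {p : Raw O K} (hp : OkAt X c p) (hc : ¬ X.tS c) (y : K × K × ℕ) :
    (c, y) ∉ p.a := fun h => hc (hp.sp _ _ _ h).1.1

theorem le_succ_iff (he : ∀ x, x < e ↔ x ≤ c) {q p : Cond X e} :
    q ≤ p ↔ LeB X c q.1 p.1 ∧ LeAt X c q.1 p.1 :=
  ⟨fun h => ⟨fun d hd => h d ((he d).2 hd.le), h c ((he c).2 le_rfl)⟩,
    fun h d hd => ((he d).1 hd).lt_or_eq.elim (h.1 d) fun hd => hd ▸ h.2⟩

/-- The closed step at `c`. -/
noncomputable def csC (hI : Inj X c) (hc : ¬ X.tS c) (he : ∀ x, x < e ↔ x ≤ c) :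
    CS (Cond X c) (Cond X e) (K × K) K where
  res := dn c
  dom p := p.1.dom c
  val p i s v := Hit X c s.1 (p.1.f c i) v
  SD D := #D < X.lam c ∧ D ⊆ X.IS c
  Nm := NmC X c
  Gd := GdC X c
  dflt := ⊥
  sd_dom p := ⟨(p.2.okAt c).cl.1, (p.2.okAt c).cl.2.1⟩
  sd_sub h h' := ⟨(mk_le_mk_of_subset h').trans_lt h.1, h'.trans h.2⟩
  sd_union _ _ _ h := ⟨sd_union c fun j => (h j).1, iUnion_subset fun j => (h j).2⟩
  nm_val {p i} hi := NameOk.nm hI ((p.2.okAt c).cl.2.2 i hi)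
  nm_mono h := h.1
  nm_tot h := h.2.1
  nm_fun h := h.2.2.1 _ _ _
  le_iff {p' p} := by
    refine (le_succ_iff he).trans (and_congr (le_dn.trans (leB_res_left le_rfl)).symm ⟨fun h => ⟨h.dom, fun i hi s hs v v' =>
      h.agree hi s.2 (le_dn.1 hs)⟩, fun h => leAt_iff.2 ⟨fun y hy => absurd hy
        (not_mem_a (p.2.okAt c) hc y), h.1, fun i hi r hr hl => h.2 i hi ⟨r, hr⟩ (le_dn.2 hl)⟩⟩)
  make s D H hD hH := by
    classical
    choose τ h1 h2 h3 using fun i (hi : i ∈ D) => (hH i hi).name hI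
    let p : Raw O K := ⟨s.1.a, fun d i => if d = c then (if h : i ∈ D then τ i h else ∅)
      else s.1.f d i⟩
    have a1 : ∀ d, d ≠ c → Ag d p s.1 := fun d hd => ⟨fun _ => Iff.rfl, funext fun _ => if_neg hd⟩
    have a2 : ∀ i (hi : i ∈ D), p.f c i = τ i hi := fun i hi => (if_pos rfl).trans (dif_pos hi)
    have a3 : p.dom c = D := Set.ext fun i => ⟨fun h => by_contra fun hi => by
      have : p.f c i = ∅ := (if_pos rfl).trans (dif_neg hi)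
      exact Set.Nonempty.ne_empty h this, fun hi => show (p.f c i).Nonempty from a2 i hi ▸ h2 i hi⟩
    have a4 : p.supp ⊆ insert c s.1.supp := fun d hd =>
      (eq_or_ne d c).imp_right fun h => (a1 d h).supp.1 hd
    refine ⟨⟨p, fun d hd => (he d).2 ((a4 hd).elim le_of_eq fun h => (s.2.1 d h).le),
      (s.2.2.1.insert c).mono a4, fun d hd => ((he d).1 hd).lt_or_eq.elim
        (fun h => (s.2.okAt d).congr fun d' h' => (a1 d' (h'.trans_lt h).ne).symm) fun h => ?_⟩,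
      Subtype.ext (res_eq s.2.1 fun d hd => a1 d hd.ne), a3, fun i hi => ?_⟩
    · subst h
      refine okAt_iff.2 ⟨⟨a3 ▸ hD.1, a3 ▸ hD.2, fun i hi => ?_⟩,
        fun σ ξ n h => absurd (Or.inl ⟨_, h⟩) (s.2.1.not le_rfl)⟩
      rw [a3] at hi
      exact a2 i hi ▸ h1 i hi
    · funext s v
      exact propext (by rw [← h3 i hi, ← a2 i hi])
  gd_mono h := h.1
  gd_le := gdC_le
  gd_and := GdC.and
  nm_mix _ _ _ _ _ hi := nmC_mix (hi.2 rfl)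

end Pool.Agent.Work.MP_d95c0d_gt
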