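import Pool.Agent.Work.MP_d95c0d_gt.Base

/-! The Baumgartner lemma at the level of names: antichains of finite specializing conditions are
countable. -/

namespace Pool.Agent.Work.MP_d95c0d_gt
open Set

namespace Spec
variable {P ι : Type} [Preorder P]

/-- `p` forces that `Y` is covered by a countable ground set. -/
def Cnt (Y : ι → P → Prop) (p : P) : Prop :=
  ∃ C : Set ι, C.Countable ∧ ∀ r ≤ p, ∀ b, Y b r → b ∈ C

/-- Densely countable. -/
def DC (Y : ι → P → Prop) (p : P) : Prop := ∀ r ≤ p, ∃ r' ≤ r, Cnt Y r'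

/-- Nowhere countable. -/
def Unc (Y : ι → P → Prop) (p : P) : Prop := ∀ r ≤ p, ¬ Cnt Y r

variable {Y Y' Y'' : ι → P → Prop} {p q : P}

theorem Cnt.anti (h : Cnt Y p) (hq : q ≤ p) : Cnt Y q :=
  let ⟨C, h1, h2⟩ := h; ⟨C, h1, fun r hr => h2 r (hr.trans hq)⟩

theorem DC.anti (h : DC Y p) (hq : q ≤ p) : DC Y q := fun r hr => h r (hr.trans hq)

theorem Unc.anti (h : Unc Y p) (hq : q ≤ p) : Unc Y q := fun r hr => h r (hr.trans hq)

theorem Cnt.dc (h : Cnt Y p) : DC Y p := fun r hr => ⟨r, le_rfl, h.anti hr⟩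

theorem Unc.not_dc (h : Unc Y p) (h' : DC Y p) : False :=
  let ⟨r, h1, h2⟩ := h' p le_rfl; h r h1 h2

theorem exists_unc (h : ¬ DC Y p) : ∃ q ≤ p, Unc Y q := by
  by_contra hn
  exact h fun r hr => by_contra fun h' => hn ⟨r, hr, fun r' h1 h2 => h' ⟨r', h1, h2⟩⟩

theorem Unc.ex (h : Unc Y p) : ∃ r ≤ p, ∃ b, Y b r := by
  by_contra hn
  exact h p le_rfl ⟨∅, countable_empty, fun r hr b hb => hn ⟨r, hr, b, hb⟩⟩

theorem DC.mono (h : DC Y' p) (hs : ∀ r ≤ p, ∀ b, Y b r → ∃ r' ≤ r, Y' b r') : DC Y p := by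
  intro r hr
  obtain ⟨r', h1, C, h2, h3⟩ := h r hr
  refine ⟨r', h1, C, h2, fun s hs' b hb => ?_⟩
  obtain ⟨s', h4, h5⟩ := hs s (hs'.trans (h1.trans hr)) b hb
  exact h3 s' (h4.trans hs') b h5

theorem DC.or (h : DC Y p) (h' : DC Y' p) : DC (fun b r => Y b r ∨ Y' b r) p := by
  intro r hr
  obtain ⟨r1, h1, C, h2, h3⟩ := h r hr
  obtain ⟨r2, h4, C', h5, h6⟩ := h' r1 (h1.trans hr)
  exact ⟨r2, h4.trans h1, C ∪ C', h2.union h5, fun s hs b hb =>
    hb.imp (h3 s (hs.trans h4) b) (h6 s hs b)⟩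

theorem DC.union (A : AAS P) {J : Type} {D : Set J} (hD : D.Countable) {Z : J → ι → P → Prop}
    (hm : ∀ j b, Mo (Z j b)) (h : ∀ j ∈ D, DC (Z j) p) :
    DC (fun b r => ∃ j ∈ D, Z j b r) p := by
  intro r hr
  have := hD.to_subtype
  obtain ⟨q, h1, 𝒞, h2, h3⟩ := A.cov r
    (fun (j : D) (C : Set ι) s => C.Countable ∧ ∀ s' ≤ s, ∀ b, Z j.1 b s' → b ∈ C)
    (fun j C s s' h hs => ⟨h.1, fun t ht => h.2 t (ht.trans hs)⟩)
    fun j s hs => h j.1 j.2 s (hs.trans hr)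
  refine ⟨q, A.st_le h1, ⋃₀ {C ∈ 𝒞 | C.Countable},
    (h2.mono (sep_subset _ _)).sUnion fun C hC => hC.2, ?_⟩
  rintro s hs b ⟨j, hj, hb⟩
  obtain ⟨s', h4, C, h5, h6, h7⟩ := h3 ⟨j, hj⟩ s hs
  exact ⟨C, ⟨h5, h6⟩, h7 s' le_rfl b (hm j b hb h4)⟩

variable {K S : Type} [LinearOrder K] {w : K}

theorem cnt_Iic (cnt_w : ∀ x < w, (Iio x).Countable) {x : K} (hx : x < w) : (Iic x).Countable := by
  rw [← Iio_insert]
  exact (cnt_w x hx).insert x

/-- The core: induction on a finite set of pairs of coordinates. -/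
theorem core (cnt_w : ∀ x < w, (Iio x).Countable) (lt : S → K → K → P → Prop) (G : S → Prop)
    (hG : ∀ σ, G σ → Good w (lt σ)) (s : ι → ℕ → S) (e : ι → ℕ → K) (Y : ι → P → Prop)
    (hval : ∀ i r k, Y i r → G (s i k) ∧ e i k < w)
    (hdis : ∀ k σ (W : Set K), W.Countable → ∀ p, DC (fun i r => Y i r ∧ s i k = σ ∧ e i k ∈ W) p)
    (L : Finset (ℕ × ℕ)) : ∀ (A B : ι → P → Prop) (p : P), (∀ i, Mo (A i)) → (∀ i, Mo (B i)) →
      (∀ i r, B i r → Y i r) → Unc A p → Unc B p →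
      (∀ r ≤ p, ∀ i, B i r → DC (fun j r' => A j r' ∧ ∀ r'' ≤ r', ∀ x ∈ L,
        ¬ (G (s i x.1) ∧ s i x.1 = s j x.2 ∧ lt (s i x.1) (e i x.1) (e j x.2) r'')) r) → False := by
  classical
  induction L using Finset.induction_on with
  | empty =>
    intro A B p _ _ _ hA hB h
    obtain ⟨r, h1, i, h2⟩ := hB.ex
    exact (hA.anti h1).not_dc ((h r h1 i h2).mono fun r' _ b hb =>
      ⟨r', le_rfl, hb, fun _ _ x hx => absurd hx (Finset.notMem_empty x)⟩)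
  | insert x L _ ih =>
    intro A B p mA mB hBY hA hB h
    obtain ⟨k, l⟩ := x
    let R : ι → ι → P → Prop := fun i j r =>
      G (s i k) ∧ s i k = s j l ∧ lt (s i k) (e i k) (e j l) r
    have mR : ∀ i j, Mo (R i j) := fun i j r r' a b => ⟨a.1, a.2.1, (hG _ a.1).mono _ _ a.2.2 b⟩
    have star : ∀ A' : ι → P → Prop, (∀ i, Mo (A' i)) → (∀ i r, A' i r → A i r) → ∀ p' ≤ p,
        Unc A' p' → DC (fun i r => B i r ∧ DC (fun j r' => A' j r' ∧ R i j r') r) p' := by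
      intro A' mA' hs p' hp' hA'
      by_contra hn
      obtain ⟨q, h1, h2⟩ := exists_unc hn
      refine ih A' _ q mA' (fun i r r' a b => ⟨mB i a.1 b, a.2.anti b⟩)
        (fun i r a => hBY i r a.1) (hA'.anti h1) h2 fun r hr i a => ?_
      refine ((h r (hr.trans (h1.trans hp')) i a.1).or a.2).mono fun r' _ j b => ?_
      by_cases hR : ∃ r'' ≤ r', R i j r''
      · obtain ⟨r'', c1, c2⟩ := hR
        exact ⟨r'', c1, Or.inr ⟨mA' j b.1 c1, c2⟩⟩
      · refine ⟨r', le_rfl, Or.inl ⟨hs j r' b.1, fun r'' c1 y hy c2 => ?_⟩⟩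
        rcases Finset.mem_insert.1 hy with rfl | hy
        · exact hR ⟨r'', c1, c2⟩
        · exact b.2 r'' c1 y hy c2
    let B1 : ι → P → Prop := fun i r => B i r ∧ Unc (fun j r' => A j r' ∧ R i j r') r
    have hB1 : Unc B1 p := fun r hr hc => by
      refine (hB.anti hr).not_dc ((hc.dc.or (star A mA (fun _ _ a => a) r hr (hA.anti hr))).mono
        fun r' _ i b => ?_)
      by_cases hd : DC (fun j r' => A j r' ∧ R i j r') r'
      · exact ⟨r', le_rfl, Or.inr ⟨b, hd⟩⟩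
      · obtain ⟨r'', c1, c2⟩ := exists_unc hd
        exact ⟨r'', c1, Or.inl ⟨mB i b c1, c2⟩⟩
    have above : ∀ r ≤ p, ∀ i, B1 i r → DC (fun j r' => B j r' ∧ ∀ r'' ≤ r',
        ¬ (s i k = s j k ∧ lt (s i k) (e i k) (e j k) r'')) r := by
      intro r hr i a
      have hv := hval i r k (hBY i r a.1)
      refine ((star _ (fun j r r' b c => ⟨mA j b.1 c, mR i j b.2 c⟩) (fun _ _ b => b.1) r hr a.2).or
        (hdis k (s i k) _ (cnt_Iic cnt_w hv.2) r)).mono fun r' _ j b => ?_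
      by_cases hd : DC (fun j' r' => (A j' r' ∧ R i j' r') ∧ R j j' r') r'
      · exact ⟨r', le_rfl, Or.inl ⟨b.1, hd⟩⟩
      · obtain ⟨r1, c1, c2⟩ := exists_unc hd
        obtain ⟨r2, c3, j', ⟨-, c4⟩, c5⟩ := c2.ex
        have c6 : s i k = s j k := c4.2.1.trans c5.2.1.symm
        refine ⟨r', le_rfl, Or.inr ⟨hBY j r' b.1, c6.symm, le_of_not_gt fun c7 => ?_⟩⟩
        obtain ⟨r3, c8, c9⟩ := (hG _ hv.1).tree c4.2.2 (c6 ▸ c5.2.2) c7
        exact b.2 r3 (c8.trans (c3.trans c1)) ⟨c6, c9⟩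
    have chain : ∀ r ≤ p, ∀ i i', B1 i r → B1 i' r → s i k = s i' k ∧
        (e i k < e i' k → ∃ r' ≤ r, lt (s i k) (e i k) (e i' k) r') := by
      intro r hr i i' a a'
      have hv := hval i r k (hBY i r a.1)
      by_contra hn
      refine (hB.anti hr).not_dc (((above r hr i a).or (above r hr i' a')).mono fun r' hr' j b => ?_)
      by_cases h1 : ∃ r1 ≤ r', s i k = s j k ∧ lt (s i k) (e i k) (e j k) r1
      · obtain ⟨r1, c1, c2, c3⟩ := h1
        refine ⟨r1, c1, Or.inr ⟨mB j b c1, fun r2 c4 c5 => hn ?_⟩⟩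
        have c6 : s i k = s i' k := c2.trans c5.1.symm
        refine ⟨c6, fun c7 => ?_⟩
        obtain ⟨r3, c8, c9⟩ := (hG _ hv.1).tree ((hG _ hv.1).mono _ _ c3 c4) (c6 ▸ c5.2) c7
        exact ⟨r3, c8.trans (c4.trans (c1.trans hr')), c9⟩
      · exact ⟨r', le_rfl, Or.inl ⟨b, fun r1 c1 c2 => h1 ⟨r1, c1, c2⟩⟩⟩
    have mB1 : ∀ i, Mo (B1 i) := fun i r r' a b => ⟨mB i a.1 b, a.2.anti b⟩
    obtain ⟨r0, h1, i0, h2⟩ := hB1.ex
    have hv := hval i0 r0 k (hBY i0 r0 h2.1)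
    obtain ⟨q, h3, β, h4, h5⟩ := (hG _ hv.1).nochain
      (fun ξ r => ∃ i, B1 i r ∧ s i k = s i0 k ∧ e i k = ξ)
      (fun ξ r r' ⟨i, a, b⟩ c => ⟨i, mB1 i a c, b⟩) r0 (by
        rintro r hr _ _ ⟨i, a, b, rfl⟩ ⟨i', a', -, rfl⟩ c
        exact b ▸ (chain r (hr.trans h1) i i' a a').2 c)
    refine (hB1.anti (h3.trans h1)).not_dc ((hdis k (s i0 k) _ (cnt_w β h4) q).mono
      fun r hr i a => ⟨r, le_rfl, hBY i r a.1, ?_, ?_⟩)
    · exact (chain r (hr.trans (h3.trans h1)) i i0 a (mB1 i0 h2 (hr.trans h3))).1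
    · exact h5 r hr _ (hval i r k (hBY i r a.1)).2 ⟨i, a,
        (chain r (hr.trans (h3.trans h1)) i i0 a (mB1 i0 h2 (hr.trans h3))).1, rfl⟩

theorem exists_enum {N : Type} (b : Finset N) (h : b.Nonempty) :
    ∃ f : ℕ → N, (∀ k, f k ∈ b) ∧ ∀ x ∈ b, ∃ k < b.card, f k = x := by
  obtain ⟨x0, h0⟩ := h
  refine ⟨fun k => if h : k < b.card then (b.equivFin.symm ⟨k, h⟩).1 else x0, fun k => ?_,
    fun x hx => ⟨(b.equivFin ⟨x, hx⟩).1, (b.equivFin ⟨x, hx⟩).2, ?_⟩⟩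
  · by_cases h : k < b.card
    · simp only [dif_pos h]; exact (b.equivFin.symm ⟨k, h⟩).2
    · simp only [dif_neg h]; exact h0
  · simp

end Spec

open Spec in
theorem spec_ccc {P K S : Type} [Preorder P] [LinearOrder K] (A : AAS P) {w : K}
    (cnt_w : ∀ x < w, (Iio x).Countable) (lt : S → K → K → P → Prop) (G : S → Prop)
    (hG : ∀ σ, G σ → Good w (lt σ)) (X : Finset (S × K × ℕ) → P → Prop) (hX : ∀ b, Mo (X b))
    (hv : ∀ b r, X b r → ∀ x ∈ b, G x.1 ∧ x.2.1 < w)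
    (hi : ∀ b b' r, X b r → X b' r → b ≠ b' → ∃ r' ≤ r, ∃ x ∈ b, ∃ y ∈ b', x ∉ b' ∧ y ∉ b ∧
      x.1 = y.1 ∧ (x.2.1 = y.2.1 ∨ lt x.1 x.2.1 y.2.1 r' ∨ lt x.1 y.2.1 x.2.1 r')) (p : P) :
    ∃ q ≤ p, ∃ C : Set (Finset (S × K × ℕ)), C.Countable ∧ ∀ r ≤ q, ∀ b, X b r → b ∈ C := by
  classical
  have key : ∀ (d : ℕ) (ρ : Finset (S × K × ℕ)) (p : P),
      DC (fun b r => X b r ∧ ρ ⊆ b ∧ b.card ≤ ρ.card + d) p := by
    intro d
    induction d with
    | zero =>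
      exact fun ρ p => Cnt.dc ⟨{ρ}, countable_singleton ρ, fun r _ b h =>
        (Finset.eq_of_subset_of_card_le h.2.1 h.2.2).symm⟩
    | succ d ih =>
      intro ρ p
      let Y : Finset (S × K × ℕ) → P → Prop := fun b r =>
        (X b r ∧ ρ ⊆ b ∧ b.card ≤ ρ.card + (d + 1)) ∧ (b \ ρ).Nonempty
      have mY : ∀ b, Mo (Y b) := fun b r r' a c => ⟨⟨hX b a.1.1 c, a.1.2⟩, a.2⟩
      suffices h : DC Y p by
        refine (h.or (Cnt.dc (Y := fun b _ => b = ρ) ⟨{ρ}, countable_singleton ρ,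
          fun r _ b h => h⟩)).mono fun r _ b a => ⟨r, le_rfl, ?_⟩
        by_cases hb : (b \ ρ).Nonempty
        · exact Or.inl ⟨a, hb⟩
        · exact Or.inr (Finset.Subset.antisymm (Finset.sdiff_eq_empty_iff_subset.1
            (Finset.not_nonempty_iff_eq_empty.1 hb)) a.2.1)
      by_contra hn
      obtain ⟨q, -, hq⟩ := exists_unc hn
      have hW : ∀ W : Set (S × K × ℕ), W.Countable → ∀ p,
          DC (fun b r => Y b r ∧ ∃ x ∈ W, x ∈ b \ ρ) p := fun W hW p => by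
        refine (DC.union A (hW.mono (sdiff_subset (t := ρ)))
          (Z := fun x b r => X b r ∧ insert x ρ ⊆ b ∧ b.card ≤ (insert x ρ).card + d)
          (fun x b r r' a c => ⟨hX b a.1 c, a.2⟩) fun x _ => ih _ p).mono ?_
        rintro r - b ⟨a, x, c1, c2⟩
        rw [Finset.mem_sdiff] at c2
        refine ⟨r, le_rfl, x, ⟨c1, c2.2⟩, a.1.1, Finset.insert_subset c2.1 a.1.2.1, ?_⟩
        rw [Finset.card_insert_of_notMem c2.2]
        have := a.1.2.2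
        omega
      obtain ⟨-, -, b0, -, x0, -⟩ := hq.ex
      have : Nonempty (S × K × ℕ) := ⟨x0⟩
      choose! f f1 f2 using fun b : Finset (S × K × ℕ) => exists_enum (b \ ρ)
      refine core cnt_w lt G hG (fun b k => (f b k).1) (fun b k => (f b k).2.1) Y
        (fun b r k a => hv b r a.1.1 _ (Finset.mem_sdiff.1 (f1 b a.2 k)).1)
        (fun k σ W h p => (hW ({σ} ×ˢ W ×ˢ univ) ((countable_singleton σ).prod
          (h.prod countable_univ)) p).mono fun r _ b a =>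
            ⟨r, le_rfl, a.1, f b k, ⟨a.2.1, a.2.2, trivial⟩, f1 b a.1.2 k⟩)
        (Finset.range (ρ.card + (d + 1)) ×ˢ Finset.range (ρ.card + (d + 1))) Y Y q mY mY
        (fun _ _ a => a) hq hq fun r _ b a => ?_
      refine ((hW (⋃ x ∈ b, {x.1} ×ˢ Iic x.2.1 ×ˢ univ) (b.countable_toSet.biUnion fun x hx =>
        (countable_singleton _).prod ((cnt_Iic cnt_w (hv b r a.1.1 x hx).2).prod countable_univ))
        r).or (Cnt.dc (Y := fun b' _ => b' = b) ⟨{b}, countable_singleton b,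
          fun r _ b h => h⟩)).mono fun r' hr' b' a' => ⟨r', le_rfl, ?_⟩
      by_cases hb : b' = b
      · exact Or.inr hb
      obtain ⟨r'', c1, x, c2, y, c3, c4, c5, c6, c7⟩ :=
        hi b b' r' (hX b a.1.1 hr') a'.1.1.1 (Ne.symm hb)
      have hx : x ∈ b \ ρ := Finset.mem_sdiff.2 ⟨c2, fun h => c4 (a'.1.1.2.1 h)⟩
      have hy : y ∈ b' \ ρ := Finset.mem_sdiff.2 ⟨c3, fun h => c5 (a.1.2.1 h)⟩
      have gx := (hv b r a.1.1 x c2).1
      refine Or.inl ⟨a'.1, y, mem_iUnion₂.2 ⟨x, c2, c6.symm, ?_, trivial⟩, hy⟩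
      rcases c7 with c7 | c7 | c7
      · exact c7.ge
      · obtain ⟨k, d1, rfl⟩ := f2 b a.2 x hx
        obtain ⟨l, d2, rfl⟩ := f2 b' a'.1.2 y hy
        refine absurd ⟨gx, c6, c7⟩ (a'.2 r'' c1 (k, l) (Finset.mem_product.2
          ⟨Finset.mem_range.2 ?_, Finset.mem_range.2 ?_⟩))
        · exact d1.trans_le ((Finset.card_le_card Finset.sdiff_subset).trans a.1.2.2)
        · exact d2.trans_le ((Finset.card_le_card Finset.sdiff_subset).trans a'.1.1.2.2)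
      · exact ((hG _ gx).ord c7).1.le
  exact (DC.union A countable_univ
    (Z := fun d b r => X b r ∧ ∅ ⊆ b ∧ b.card ≤ (∅ : Finset (S × K × ℕ)).card + d)
    (fun d b r r' a c => ⟨hX b a.1 c, a.2⟩) fun d _ => key d ∅ p).mono
    (fun r _ b a => ⟨r, le_rfl, b.card, trivial, a, Finset.empty_subset b, by simp⟩) p le_rfl

end Pool.Agent.Work.MP_d95c0d_gt
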