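import Pool.Agent.Work.MP_d95c0d_gt.Iter2
import Pool.Agent.Work.MP_d95c0d_gt.SpecCC

/-! The iteration has the Axiom A property. -/

namespace Pool.Agent.Work.MP_d95c0d_gt
open Set Cardinal Raw Cond
set_option linter.unusedSectionVars false

variable {O K : Type} [LinearOrder O] [WellFoundedLT O] [LinearOrder K] [OrderBot K]
  {X : Par O K} {b c d e : O}

/-- Extensions that keep the finite part. -/
def St (q p : Cond X e) : Prop := q ≤ p ∧ q.1.a = p.1.a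

theorem st_closed (f : ℕ → Cond X e) (hf : ∀ n, St (f (n + 1)) (f n)) : ∃ q, ∀ n, St q (f n) := by
  classical
  have hm : Antitone f := antitone_nat_of_succ_le fun n => (hf n).1
  have ha : ∀ n, (f n).1.a = (f 0).1.a := fun n => by
    induction n with
    | zero => rfl
    | succ n ih => exact (hf n).2.trans ih
  let g : Raw O K := ⟨(f 0).1.a, fun c i =>
    if h : ∃ n, i ∈ (f n).1.dom c then (f (Nat.find h)).1.f c i else ∅⟩
  have a1 : ∀ c i (h : ∃ n, i ∈ (f n).1.dom c), g.f c i = (f (Nat.find h)).1.f c i :=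
    fun c i h => dif_pos h
  have a2 : ∀ c, g.dom c = ⋃ n, (f n).1.dom c := fun c => Set.ext fun i => by
    rw [mem_iUnion]
    refine ⟨fun h => by_contra fun hn => Set.Nonempty.ne_empty h (dif_neg hn), fun h => ?_⟩
    show (g.f c i).Nonempty
    rw [a1 c i h]
    exact Nat.find_spec h
  have a3 : g.supp ⊆ ⋃ n, (f n).1.supp := by
    rintro c (h | ⟨i, h⟩)
    · exact mem_iUnion.2 ⟨0, Or.inl h⟩
    · obtain ⟨n, hn⟩ := mem_iUnion.1 (a2 c ▸ h)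
      exact mem_iUnion.2 ⟨n, Or.inr ⟨i, hn⟩⟩
  obtain ⟨b1, b2⟩ := ext_ind (X := X) (e := e) (p := g) (q := fun n => (f n).1) fun c hc h1 h2 => by
    refine ⟨okAt_iff.2 ⟨⟨?_, ?_, fun i hi => ?_⟩,
      SpOk.of_le ((f 0).2.okAt c).sp (fun _ h => h) h1 (h2 0)⟩, fun n => leAt_iff.2
        ⟨fun y hy => ha n ▸ hy, a2 c ▸ subset_iUnion (fun n => (f n).1.dom c) n,
          fun i hi r hr hl v v' c1 c2 => ?_⟩⟩
    · rw [a2]; exact sd_union c fun n => ((f n).2.okAt c).cl.1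
    · rw [a2]; exact iUnion_subset fun n => ((f n).2.okAt c).cl.2.1
    · have h := mem_iUnion.1 (a2 c ▸ hi)
      rw [a1 c i h]
      exact ((f _).2.okAt c).cl.2.2 i (Nat.find_spec h)
    · have h : ∃ n, i ∈ (f n).1.dom c := ⟨n, hi⟩
      rw [a1 c i h] at c2
      exact ((hm (Nat.find_min' h hi) c hc).agree (Nat.find_spec h) hr
        (LeB.trans hr.2.2 h1 hl (h2 n)) c2 c1).symm
  refine ⟨⟨g, fun c hc => ?_, (countable_iUnion fun n => (f n).2.2.1).mono a3, b1⟩,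
    fun n => ⟨b2 n, (ha n).symm⟩⟩
  obtain ⟨n, hn⟩ := mem_iUnion.1 (a3 hc)
  exact (f n).2.1 c hn

variable (X) in
def AA (e : O) : Prop :=
  ∀ (p : Cond X e) (E : Cond X e → Prop), (∀ q ≤ p, ∃ r ≤ q, E r) → ∃ q, St q p ∧
    ∃ C : Set (Cond X e), C.Countable ∧ (∀ c ∈ C, E c) ∧ ∀ r ≤ q, ∃ c ∈ C, ∃ s ≤ r, s ≤ c

def AA.aas (h : AA X e) : AAS (Cond X e) where
  st := St
  st_le h := h.1
  st_refl _ := ⟨le_rfl, rfl⟩
  st_trans h h' := ⟨h.1.trans h'.1, h.2.trans h'.2⟩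
  closed := st_closed
  aa := h

theorem am_a (h : c ≤ e) {r : Cond X c} {q : Cond X e} (hl : St r (dn c q)) :
    (am h r q hl.1).1.a = q.1.a := by
  refine Finset.ext fun x => ?_
  rcases lt_or_ge x.1 c with hx | hx
  · refine ((ag_glue_lt r.1 q.1 hx).1 x.2).trans ?_
    rw [hl.2]
    exact mem_res_a.trans (and_iff_left hx)
  · exact (ag_glue_ge r.1 q.1 hx).1 x.2

/-- Guarded mixing of tails. -/
theorem step (hI : ∀ c < e, Inj X c) (hb : b ≤ e) (q : Cond X e) {J : Type} [Countable J]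
    (s : J → Cond X e) (hs : ∀ j, s j ≤ q)
    (ha : ∀ j j' (r : Cond X b), r ≤ dn b (s j) → r ≤ dn b (s j') → j = j')
    {q₀ : Cond X b} (h₀ : St q₀ (dn b q)) :
    ∃ g, St g q ∧ dn b g ≤ q₀ ∧ ∀ j, ∀ c ≤ e, ∀ t, OkL X c t → LeB X c t g.1 →
      (∀ d < c, d < b → LeAt X d t (s j).1) → (∀ x ∈ (s j).1.a, x ∈ t.a) → LeB X c t (s j).1 := by
  classical
  let q₁ := am hb q₀ q h₀.1
  let New : O → K × K → Prop := fun c i => b ≤ c ∧ i ∉ q.1.dom c ∧ ∃ j, i ∈ (s j).1.dom c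
  have h1 : ∀ c i, New c i → ∃ τ, NameOk X c i τ ∧ τ.Nonempty ∧ ∀ j, i ∈ (s j).1.dom c →
      ∀ r v, OkB X c r → LeB X c r (s j).1 → Hit X c r ((s j).1.f c i) v → Hit X c r τ v := by
    rintro c i ⟨a1, -, j₀, a2⟩
    have a3 := hI c ((s j₀).2.1 c (Or.inr ⟨i, a2⟩))
    obtain ⟨τ, b1, b2, b3⟩ := (nmC_mix (J := {j // i ∈ (s j).1.dom c})
      (G := fun j r => r ≤ dn c (s j.1)) (((s j₀).2.okAt c).cl.2.1 a2) (fun j => gdC_le _)
      (fun j => NameOk.nm a3 (((s j.1).2.okAt c).cl.2.2 i j.2)) (fun j j' r v v' c1 c2 c3 c4 => by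
        obtain rfl : j = j' := Subtype.ext (ha j.1 j'.1 (dn b r)
          (le_dn.2 ((leB_res_left le_rfl).2 ((le_dn.1 c1).mono a1)))
          (le_dn.2 ((leB_res_left le_rfl).2 ((le_dn.1 c2).mono a1))))
        exact (((s j.1).2.okAt c).cl.2.2 i j.2).2.2.2 r.1 v v' r.2 c3 c4)).name a3
    exact ⟨τ, b1, b2, fun j hj r v hr hl h => (b3 ⟨r, hr⟩ v).2 (Or.inl ⟨⟨j, hj⟩, le_dn.2 hl, h⟩)⟩
  choose τ h2 h3 h4 using h1
  let g : Raw O K := ⟨q₁.1.a, fun c i => if h : New c i then τ c i h else q₁.1.f c i⟩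
  have a1 : ∀ c i (h : New c i), g.f c i = τ c i h := fun c i h => dif_pos h
  have a2 : ∀ c i, ¬ New c i → g.f c i = q₁.1.f c i := fun c i h => dif_neg h
  have a3 : ∀ c, b ≤ c → q₁.1.f c = q.1.f c := fun c hc => (ag_glue_ge _ _ hc).2
  have a4 : ∀ c, ∀ i ∈ q₁.1.dom c, ¬ New c i := fun c i hi h =>
    h.2.1 ((ag_glue_ge q₀.1 q.1 h.1).dom ▸ hi)
  have a5 : ∀ c, g.dom c ⊆ q₁.1.dom c ∪ ⋃ j, (s j).1.dom c := fun c i hi => by
    by_cases h : New c i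
    · exact Or.inr (mem_iUnion.2 h.2.2)
    · exact Or.inl (show (q₁.1.f c i).Nonempty from a2 c i h ▸ hi)
  have a6 : g.supp ⊆ q₁.1.supp ∪ ⋃ j, (s j).1.supp := by
    rintro c (h | ⟨i, h⟩)
    · exact Or.inl (Or.inl h)
    · refine (a5 c h).imp (fun h => Or.inr ⟨i, h⟩) fun h => ?_
      obtain ⟨j, hj⟩ := mem_iUnion.1 h
      exact mem_iUnion.2 ⟨j, Or.inr ⟨i, hj⟩⟩
  obtain ⟨b1, b2⟩ := ext_ind1 (X := X) (e := e) (p := g) (q := q₁.1) fun c hc h1 h2' => by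
    have c1 := q₁.2.okAt c
    refine ⟨okAt_iff.2 ⟨⟨(mk_le_mk_of_subset (a5 c)).trans_lt ?_, (a5 c).trans
      (union_subset c1.cl.2.1 (iUnion_subset fun j => ((s j).2.okAt c).cl.2.1)), fun i hi => ?_⟩,
      SpOk.of_le c1.sp (fun _ h => h) h1 h2'⟩,
      leAt_of_same c1.cl (fun _ h => h) fun i hi => a2 c i (a4 c i hi)⟩
    · exact (mk_union_le _ _).trans_lt (add_lt_of_lt (X.lam_unc c).le c1.cl.1
        (sd_union c fun j => ((s j).2.okAt c).cl.1))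
    · by_cases h : New c i
      · exact a1 c i h ▸ h2 c i h
      · have : i ∈ q₁.1.dom c := show (q₁.1.f c i).Nonempty from a2 c i h ▸ hi
        exact a2 c i h ▸ c1.cl.2.2 i this
  let g' : Cond X e := ⟨g, fun c hc => (a6 hc).elim (q₁.2.1 c) fun h =>
    let ⟨j, hj⟩ := mem_iUnion.1 h; (s j).2.1 c hj,
    (q₁.2.2.1.union (countable_iUnion fun j => (s j).2.2.1)).mono a6, b1⟩
  have b3 : g' ≤ q₁ := b2
  refine ⟨g', ⟨b3.trans (am_le _ _ _ _), am_a hb h₀⟩, (dn_mono hb b3).trans (dn_am _ _ _ _).le,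
    fun j c hc t t1 t2 t3 t4 d => ?_⟩
  induction d using WellFoundedLT.induction with
  | ind d ih =>
    intro hd
    rcases lt_or_ge d b with h | h
    · exact t3 d hd h
    have c1 : LeB X d t (s j).1 := fun d' hd' => ih d' hd' (hd'.trans hd)
    have c2 : (s j).1.dom d ⊆ g.dom d := fun i hi => by
      show (g.f d i).Nonempty
      by_cases h' : New d i
      · exact a1 d i h' ▸ h3 d i h'
      · rw [a2 d i h', a3 d h]
        exact by_contra fun hn => h' ⟨h, hn, j, hi⟩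
    refine leAt_iff.2 ⟨fun y => t4 _, c2.trans (t2 d hd).dom, fun i hi r hr hl v v' d1 d2 => ?_⟩
    have c3 := LeB.trans hr.2.2 (t1.mono hd.le) hl c1
    by_cases h' : New d i
    · exact (t2 d hd).agree (c2 hi) hr hl (a1 d i h' ▸ h4 d i h' j hi r v hr c3 d1) d2
    · have c4 : i ∈ q.1.dom d := by_contra fun hn => h' ⟨h, hn, j, hi⟩
      obtain ⟨r', e1, e2, u, e3⟩ := ((q.2.okAt d).cl.2.2 i c4).2.2.1 r hr
      rw [← (hs j d (hd.trans_le hc)).agree c4 e1 (LeB.trans e1.2.2 hr.2.2 e2 c3) e3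
        (Hit.mono d1 hr.2.2 e1.2.2 e2)]
      refine (t2 d hd).agree (c2 hi) e1 (LeB.trans e1.2.2 hr.2.2 e2 hl) ?_
        (Hit.mono d2 hr.2.2 e1.2.2 e2)
      show Hit X d r' (g.f d i) u
      rwa [a2 d i h', a3 d h]

theorem one_step (hI : ∀ c < e, Inj X c) (hb : b ≤ e) (hA : AA X b) (q : Cond X e)
    (E : Cond X e → Prop) (hE : ∀ r ≤ q, ∃ r' ≤ r, E r') :
    ∃ g, St g q ∧ ∃ C : Set (Cond X e), C.Countable ∧ (∀ s ∈ C, E s) ∧ ∀ t ≤ g, ∃ s ∈ C,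
      (∀ x ∈ s.1.a, b ≤ x.1 → ∀ y ∈ t.1.a, y.1 ≠ x.1) → ∃ u ≤ t, u ≤ s := by
  classical
  obtain ⟨q₀, a1, S, a2, a3, a4, a5⟩ := hA.aas.anti (dn b q)
    (fun r => ∃ s ≤ q, E s ∧ dn b s = r) fun r hr => by
      obtain ⟨q', b1, rfl⟩ := exists_am hb hr
      obtain ⟨s, b2, b3⟩ := hE q' b1
      exact ⟨_, dn_mono hb b2, s, b2.trans b1, b3, rfl⟩
  choose s b1 b2 b3 using fun a : S => (a3 a.1 a.2).1
  have := a2.to_subtype
  obtain ⟨g, g1, g2, g3⟩ := step hI hb q s b1 (fun j j' r h h' =>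
    Subtype.ext (a4 _ j.2 _ j'.2 r (b3 j ▸ h) (b3 j' ▸ h'))) a1
  refine ⟨g, g1, range s, countable_range s, by rintro _ ⟨j, rfl⟩; exact b2 j, fun t ht => ?_⟩
  obtain ⟨a, ha, r, c1, c2⟩ := a5 _ ((dn_mono hb ht).trans g2)
  let j : S := ⟨a, ha⟩
  refine ⟨s j, ⟨j, rfl⟩, fun hd => ?_⟩
  let t₁ := am hb r t c1
  have d1 : t₁ ≤ t := am_le _ _ _ _
  have d2 : LeB X b t₁.1 (s j).1 :=
    (leB_res_left le_rfl).1 (le_dn.1 (((dn_am hb r t c1).le.trans c2).trans (b3 j).ge))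
  let u : Raw O K := ⟨t₁.1.a ∪ (s j).1.a, t₁.1.f⟩
  have d3 : ∀ c ≤ e, OkL X c u → LeB X c u t₁.1 → LeB X c u (s j).1 := fun c hc h1 h2 =>
    g3 j c hc u h1 (LeB.trans h1 (t₁.okL c) h2 (LeB.mono (d1.trans ht) hc))
      (fun d hd hd' => LeB.trans (c := min b c) (h1.mono (min_le_right _ _)) (t₁.okL _)
        (h2.mono (min_le_right _ _)) (d2.mono (min_le_left _ _)) d (lt_min hd' hd))
      fun x hx => Finset.mem_union_right _ hx
  obtain ⟨e1, e2⟩ := ext_ind1 (X := X) (e := e) (p := u) (q := t₁.1) fun c hc h1 h2 => by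
    have f1 := t₁.2.okAt c
    refine ⟨okAt_iff.2 ⟨ClOk.congr f1.cl rfl, ?_⟩,
      leAt_of_same f1.cl (fun y hy => Finset.mem_union_left _ hy) fun _ _ => rfl⟩
    by_cases h : b ≤ c ∧ ∃ y, (c, y) ∈ (s j).1.a
    · obtain ⟨h, y, hy⟩ := h
      refine SpOk.of_le ((s j).2.okAt c).sp (fun z hz => (Finset.mem_union.1 hz).resolve_left
        fun hz => hd _ hy h _ (((ag_glue_ge r.1 t.1 h).1 z).1 hz) rfl) h1 (d3 c hc.le h1 h2)
    · refine SpOk.of_le f1.sp (fun z hz => (Finset.mem_union.1 hz).elim id fun hz => ?_) h1 h2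
      exact (d2 c (lt_of_not_ge fun h' => h ⟨h', z, hz⟩)).a z hz
  have e3 : u.supp ⊆ t₁.1.supp ∪ (s j).1.supp := by
    rintro c (⟨y, h⟩ | h)
    · exact (Finset.mem_union.1 h).imp (fun h => Or.inl ⟨y, h⟩) fun h => Or.inl ⟨y, h⟩
    · exact Or.inl (Or.inr h)
  let u' : Cond X e := ⟨u, fun c hc => (e3 hc).elim (t₁.2.1 c) ((s j).2.1 c),
    (t₁.2.2.1.union (s j).2.2.1).mono e3, e1⟩
  exact ⟨u', le_trans (show u' ≤ t₁ from e2) d1, d3 e le_rfl e1 e2⟩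

theorem bookkeep {S A : Type} (s₀ : S) (nx : S → Finset A → S) (D : S → Set A)
    (hD : ∀ s, (D s).Countable) : ∃ (f : ℕ → S) (F : ℕ → Finset A), f 0 = s₀ ∧
      (∀ k, f (k + 1) = nx (f k) (F k)) ∧ (∀ k, ∀ x ∈ F k, ∃ j, x ∈ D (f j)) ∧
      ∀ Z : Finset A, ∃ k, ∀ x ∈ Z, (∃ j, x ∈ D (f j)) → x ∈ F k := by
  classical
  have h1 : ∀ s, ∃ G : ℕ → Finset A, Monotone G ∧ (∀ n, ∀ x ∈ G n, x ∈ D s) ∧
      ∀ x ∈ D s, ∃ n, x ∈ G n := fun s => by
    obtain ⟨g, hg⟩ := countable_iff_exists_injOn.1 (hD s)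
    have : ∀ n, {x | x ∈ D s ∧ g x < n}.Finite := fun n =>
      Set.Finite.of_finite_image ((Set.finite_lt_nat n).subset (by
        rintro _ ⟨x, hx, rfl⟩; exact hx.2)) (hg.mono fun x hx => hx.1)
    refine ⟨fun n => (this n).toFinset, fun m n h x hx => ?_, fun n x hx => ?_, fun x hx =>
      ⟨g x + 1, (this _).mem_toFinset.2 ⟨hx, Nat.lt_succ_self _⟩⟩⟩
    · rw [Set.Finite.mem_toFinset] at hx ⊢
      exact ⟨hx.1, hx.2.trans_le h⟩
    · exact ((this n).mem_toFinset.1 hx).1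
  choose G g1 g2 g3 using h1
  let st : ℕ → S × (ℕ → Finset A) := fun k => Nat.rec (s₀, G s₀)
    (fun k x => (nx x.1 (x.2 k), fun n => x.2 n ∪ G (nx x.1 (x.2 k)) n)) k
  have a1 : ∀ k n x, x ∈ (st k).2 n ↔ ∃ j ≤ k, x ∈ G (st j).1 n := fun k n x => by
    induction k with
    | zero => exact ⟨fun h => ⟨0, le_rfl, h⟩, fun ⟨j, hj, h⟩ => by
        obtain rfl := Nat.le_zero.1 hj; exact h⟩
    | succ k ih =>
      refine Finset.mem_union.trans ⟨?_, fun ⟨j, hj, h⟩ => ?_⟩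
      · rintro (h | h)
        · obtain ⟨j, hj, h⟩ := ih.1 h
          exact ⟨j, hj.trans (Nat.le_succ k), h⟩
        · exact ⟨k + 1, le_rfl, h⟩
      · rcases hj.lt_or_eq with hj | rfl
        · exact Or.inl (ih.2 ⟨j, Nat.lt_succ_iff.1 hj, h⟩)
        · exact Or.inr h
  refine ⟨fun k => (st k).1, fun k => (st k).2 k, rfl, fun k => rfl, fun k x hx => ?_, fun Z => ?_⟩
  · obtain ⟨j, -, h⟩ := (a1 k k x).1 hx
    exact ⟨j, g2 _ _ _ h⟩
  · have : ∀ x, ∃ k, (∃ j, x ∈ D (st j).1) → ∀ k', k ≤ k' → x ∈ (st k').2 k' := fun x => by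
      by_cases h : ∃ j, x ∈ D (st j).1
      · obtain ⟨j, hj⟩ := h
        obtain ⟨n, hn⟩ := g3 _ x hj
        exact ⟨max j n, fun _ k hk => (a1 k k x).2 ⟨j, (le_max_left _ _).trans hk,
          g1 _ ((le_max_right _ _).trans hk) hn⟩⟩
      · exact ⟨0, fun h' => absurd h' h⟩
    choose m hm using this
    exact ⟨Z.sup m, fun x hx h => hm x h _ (Finset.le_sup hx)⟩

theorem aa_limit (hI : ∀ c < e, Inj X c) (hA : ∀ b < e, AA X b) (h₀ : ∃ b, b < e)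
    (h : ∀ c < e, X.tS c → ∃ b < e, c < b) : AA X e := by
  classical
  intro p E hE
  have h1 : ∀ F : Finset O, ∃ b < e, ∀ c ∈ F, c < e → X.tS c → c < b := fun F => by
    induction F using Finset.induction_on with
    | empty => exact h₀.imp fun b hb => ⟨hb, fun _ h => absurd h (Finset.notMem_empty _)⟩
    | insert c F _ ih =>
      obtain ⟨b, b1, b2⟩ := ih
      by_cases hc : c < e ∧ X.tS c
      · obtain ⟨b', b3, b4⟩ := h c hc.1 hc.2
        refine ⟨max b b', max_lt b1 b3, fun d hd d1 d2 => ?_⟩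
        rcases Finset.mem_insert.1 hd with rfl | hd
        exacts [lt_max_of_lt_right b4, lt_max_of_lt_left (b2 d hd d1 d2)]
      · refine ⟨b, b1, fun d hd d1 d2 => ?_⟩
        rcases Finset.mem_insert.1 hd with rfl | hd
        exacts [absurd ⟨d1, d2⟩ hc, b2 d hd d1 d2]
  choose β b1 b2 using h1
  let S := {x : Cond X e × Set (Cond X e) // x.1 ≤ p ∧ x.2.Countable ∧ ∀ s ∈ x.2, E s}
  have h2 : ∀ (x : S) (F : Finset O), ∃ y : S, St y.1.1 x.1.1 ∧ ∀ t ≤ y.1.1, ∃ s ∈ y.1.2,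
      (∀ x ∈ s.1.a, β F ≤ x.1 → ∀ y ∈ t.1.a, y.1 ≠ x.1) → ∃ u ≤ t, u ≤ s := fun x F => by
    obtain ⟨g, a1, C, a2, a3, a4⟩ := one_step hI (b1 F).le (hA _ (b1 F)) x.1.1 E
      fun r hr => hE r (hr.trans x.2.1)
    exact ⟨⟨(g, C), a1.1.trans x.2.1, a2, a3⟩, a1, a4⟩
  choose nx c1 c2 using h2
  obtain ⟨f, F, d1, d2, d3, d4⟩ := bookkeep (S := S) ⟨(p, ∅), le_rfl, countable_empty,
    fun _ h => h.elim⟩ nx (fun x => ⋃ s ∈ x.1.2, (fun y => y.1) '' (s.1.a : Set (O × K × K × ℕ)))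
    fun x => x.2.2.1.biUnion fun s _ => (Finset.countable_toSet _).image _
  obtain ⟨q, hq⟩ := st_closed (fun k => (f k).1.1) fun k => by rw [d2]; exact c1 _ _
  refine ⟨q, by simpa only [d1] using hq 0, ⋃ k, (f k).1.2, countable_iUnion fun k => (f k).2.2.1,
    fun s hs => ?_, fun t ht => ?_⟩
  · obtain ⟨k, hk⟩ := mem_iUnion.1 hs
    exact (f k).2.2.2 s hk
  · obtain ⟨k, hk⟩ := d4 (t.1.a.image fun y => y.1)
    obtain ⟨s, e1, e2⟩ := c2 (f k) (F k) t (d2 k ▸ ht.trans (hq (k + 1)).1)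
    rw [← d2] at e1
    refine ⟨s, mem_iUnion.2 ⟨_, e1⟩, e2 fun x hx e3 y hy e4 => absurd e3 (not_le.2 ?_)⟩
    exact b2 _ _ (hk _ (Finset.mem_image.2 ⟨y, hy, e4⟩) ⟨k + 1, mem_biUnion e1 ⟨x, hx, rfl⟩⟩)
      (s.2.1 _ (Or.inl ⟨x.2, hx⟩)) ((s.2.okAt _).sp _ _ _ hx).1.1

theorem dom_empty {p : Raw O K} (hp : OkAt X c p) (hc : X.tS c) : p.dom c = ∅ :=
  eq_empty_of_subset_empty (X.IS_S c hc ▸ hp.cl.2.1)

theorem aa_spec (hA : AA X c) (hc : X.tS c) (he : ∀ x, x < e ↔ x ≤ c)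
    (cnt_w : ∀ x < X.w, (Iio x).Countable) : AA X e := by
  classical
  intro p E hE
  have hce : c ≤ e := ((he c).2 le_rfl).le
  let sec : Cond X e → Finset (K × K × ℕ) := fun s =>
    (s.1.a.filter fun x => x.1 = c).image fun x => x.2
  have hsec : ∀ s y, y ∈ sec s ↔ (c, y) ∈ s.1.a := fun s y => by
    simp only [sec, Finset.mem_image, Finset.mem_filter]
    exact ⟨fun ⟨x, ⟨h1, h2⟩, h3⟩ => by rw [← h2, ← h3]; exact h1, fun h => ⟨_, ⟨h, rfl⟩, rfl⟩⟩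
  have hle : ∀ u s : Cond X e, dn c u ≤ dn c s → (∀ y ∈ sec s, y ∈ sec u) → u ≤ s :=
    fun u s h1 h2 => (le_succ_iff he).2 ⟨(leB_res_left le_rfl).1 (le_dn.1 h1),
      leAt_of_same (s.2.okAt c).cl (fun y hy => (hsec _ _).1 (h2 y ((hsec _ _).2 hy)))
        fun i hi => absurd hi (dom_empty (s.2.okAt c) hc ▸ notMem_empty i)⟩
  obtain ⟨A, a1, a2, a3⟩ := exists_antichain {s | s ≤ p ∧ E s}
  let Y : Finset (K × K × ℕ) → Cond X c → Prop := fun b r => ∃ s ∈ A, sec s = b ∧ r ≤ dn c s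
  have hY : ∀ b, Mo (Y b) := fun b r r' ⟨s, h1, h2, h3⟩ h => ⟨s, h1, h2, h.trans h3⟩
  have h1 := spec_ccc hA.aas cnt_w (fun σ i j (r : Cond X c) => Lt X c σ i j r.1) (GoodC X c)
    (fun σ h => h) Y hY (by
      rintro _ r ⟨s, -, rfl, -⟩ x hx
      have := ((s.2.okAt c).sp _ _ _ ((hsec _ _).1 hx)).1
      exact ⟨this.2.2.2, this.2.1⟩) (by
      rintro _ _ r ⟨s, b1, rfl, b2⟩ ⟨s', b3, rfl, b4⟩ hne
      by_contra hn
      let u : Raw O K := ⟨r.1.a ∪ (sec s ∪ sec s').image fun y => (c, y), r.1.f⟩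
      have c1 : ∀ d, d ≠ c → Ag d u r.1 := fun d hd => ⟨fun y => by simp [u, hd.symm], rfl⟩
      have c2 : ∀ y, (c, y) ∈ u.a ↔ y ∈ sec s ∨ y ∈ sec s' := fun y => by
        have : (c, y) ∉ r.1.a := fun h => r.2.1.not le_rfl (Or.inl ⟨y, h⟩)
        simp [u, this]
      have c3 : u.supp ⊆ insert c r.1.supp := fun d hd =>
        (eq_or_ne d c).imp_right fun h => (c1 d h).supp.1 hd
      have c4 : ∀ t : Raw O K, LeB X c t u → LeB X c t r.1 := fun t h =>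
        h.congr_right fun d hd => c1 d hd.ne
      have s1 := (s.2.okAt c).sp
      have s2 := (s'.2.okAt c).sp
      have c5 : SpOk X c u := fun σ ξ n hx => by
        rw [c2] at hx
        refine ⟨hx.elim (fun h => (s1 _ _ _ ((hsec _ _).1 h)).1)
          fun h => (s2 _ _ _ ((hsec _ _).1 h)).1, fun n' hy => ?_, fun η hy t ht hl hlt => ?_⟩
        · rw [c2] at hy
          by_contra hn'
          have k1 : ∀ {s : Cond X e}, (σ, ξ, n) ∈ sec s → (σ, ξ, n') ∉ sec s := fun h h' =>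
            hn' ((((_ : Cond X e).2.okAt c).sp _ _ _ ((hsec _ _).1 h)).2.1 _ ((hsec _ _).1 h'))
          rcases hx with hx | hx
          · exact hn ⟨r, le_rfl, _, hx, _, hy.resolve_left (k1 hx),
              fun h => k1 h (hy.resolve_left (k1 hx)), k1 hx, rfl, Or.inl rfl⟩
          · exact hn ⟨r, le_rfl, _, hy.resolve_right (k1 hx), _, hx, k1 hx,
              fun h => k1 h (hy.resolve_right (k1 hx)), rfl, Or.inl rfl⟩
        · rw [c2] at hy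
          have k1 : ∀ {s : Cond X e}, r ≤ dn c s → (σ, ξ, n) ∈ sec s → (σ, η, n) ∉ sec s :=
            fun h₀ h h' => (((_ : Cond X e).2.okAt c).sp _ _ _ ((hsec _ _).1 h)).2.2 _
              ((hsec _ _).1 h') t ht (LeB.trans ht.2.2 r.2.2.2 (c4 t hl) (le_dn.1 h₀)) hlt
          rcases hx with hx | hx
          · exact hn ⟨⟨t, ht⟩, c4 t hl, _, hx, _, hy.resolve_left (k1 b2 hx),
              fun h => k1 b4 h (hy.resolve_left (k1 b2 hx)), k1 b2 hx, rfl, Or.inr (Or.inl hlt)⟩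
          · exact hn ⟨⟨t, ht⟩, c4 t hl, _, hy.resolve_right (k1 b4 hx), _, hx, k1 b4 hx,
              fun h => k1 b2 h (hy.resolve_right (k1 b4 hx)), rfl, Or.inr (Or.inr hlt)⟩
      let u' : Cond X e := ⟨u, fun d hd => (he d).2 ((c3 hd).elim le_of_eq fun h => (r.2.1 d h).le),
        (r.2.2.1.insert c).mono c3, fun d hd => ((he d).1 hd).lt_or_eq.elim
          (fun h => (r.2.okAt d).congr fun d' h' => (c1 d' (h'.trans_lt h).ne).symm)
          fun h => h ▸ okAt_iff.2 ⟨ClOk.congr (r.2.okAt c).cl rfl, c5⟩⟩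
      have c6 : dn c u' = r := Subtype.ext (res_eq r.2.1 fun d hd => c1 d hd.ne)
      exact hne (congrArg sec (a2 s b1 s' b3 u'
        (hle _ _ (c6 ▸ b2) fun y hy => (hsec _ _).2 ((c2 y).2 (Or.inl hy)))
        (hle _ _ (c6 ▸ b4) fun y hy => (hsec _ _).2 ((c2 y).2 (Or.inr hy))))))
  obtain ⟨q₁, b1, B, b2, b3⟩ := hA.aas.cov (J := Unit) (dn c p)
    (fun _ (C : Set (Finset (K × K × ℕ))) r => C.Countable ∧ ∀ r' ≤ r, ∀ b, Y b r' → b ∈ C)
    (fun _ C r r' h h' => ⟨h.1, fun t ht => h.2 t (ht.trans h')⟩) fun _ r _ => h1 r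
  let B' : Set (Finset (K × K × ℕ)) := ⋃ C ∈ {C ∈ B | C.Countable}, C
  have b4 : B'.Countable := (b2.mono fun _ h => h.1).biUnion fun C h => h.2
  have := b4.to_subtype
  obtain ⟨q₂, c1, C, c2, c3⟩ := hA.aas.cov (J := B') q₁
    (fun b (s : Cond X e) r => (s ∈ A ∧ sec s = b ∧ r ≤ dn c s) ∨ ∀ r' ≤ r, ¬ Y b r')
    (fun b s r r' h h' => h.imp (fun h => ⟨h.1, h.2.1, h'.trans h.2.2⟩)
      fun h t ht => h t (ht.trans h')) fun b r _ => by
      by_cases h : ∃ r' ≤ r, Y b r'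
      · obtain ⟨r', d1, s, d2⟩ := h
        exact ⟨r', d1, s, Or.inl d2⟩
      · exact ⟨r, le_rfl, p, Or.inr fun r' d1 d2 => h ⟨r', d1, d2⟩⟩
  have c4 : St q₂ (dn c p) := hA.aas.st_trans c1 b1
  refine ⟨am hce q₂ p c4.1, ⟨am_le _ _ _ _, am_a hce c4⟩, C ∩ A, c2.mono inter_subset_left,
    fun s hs => (a1 hs.2).2, fun t ht => ?_⟩
  obtain ⟨t₁, d1, d2⟩ := hE t (ht.trans (am_le _ _ _ _))
  obtain ⟨s, d3, u, d4, d5⟩ := a3 t₁ ⟨d1.trans (ht.trans (am_le _ _ _ _)), d2⟩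
  have d6 : dn c u ≤ q₂ := (dn_mono hce (d4.trans (d1.trans ht))).trans (dn_am _ _ _ _).le
  have d7 : Y (sec s) (dn c u) := ⟨s, d3, rfl, dn_mono hce d5⟩
  obtain ⟨r, e1, C', e2, e3, e4⟩ := b3 () _ (d6.trans c1.1)
  obtain ⟨r', e5, s', e6, e7⟩ := c3 ⟨sec s, mem_biUnion ⟨e2, e3⟩ (e4 r le_rfl _ (hY _ d7 e1))⟩ _ d6
  obtain ⟨e8, e9, e10⟩ := e7.resolve_right fun h => h r' le_rfl (hY _ d7 e5)
  refine ⟨s', ⟨e6, e8⟩, am hce r' u e5, (am_le _ _ _ _).trans (d4.trans d1),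
    hle _ _ ((dn_am _ _ _ _).le.trans e10) fun y hy => (hsec _ _).2 ?_⟩
  exact (((am_le hce r' u e5).trans d5) c ((he c).2 le_rfl)).a y ((hsec _ _).1 ((show sec s' = sec s from e9) ▸ hy))

theorem aa_all (cnt_w : ∀ x < X.w, (Iio x).Countable) (e : O) (hI : ∀ c < e, Inj X c) :
    AA X e := by
  induction e using WellFoundedLT.induction with
  | ind e ih =>
    have hA : ∀ b < e, AA X b := fun b hb => ih b hb fun c hc => hI c (hc.trans hb)
    by_cases h₀ : ∃ b, b < e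
    · by_cases h : ∀ c < e, X.tS c → ∃ b < e, c < b
      · exact aa_limit hI hA h₀ h
      · push Not at h
        obtain ⟨c, h1, h2, h3⟩ := h
        exact aa_spec (hA c h1) h2 (fun x => ⟨h3 x, fun hx => hx.trans_lt h1⟩) cnt_w
    · intro p E hE
      obtain ⟨r, -, hr⟩ := hE p le_rfl
      exact ⟨p, ⟨le_rfl, rfl⟩, {r}, countable_singleton r, fun _ h => h ▸ hr,
        fun t _ => ⟨r, rfl, t, le_rfl, fun c hc => absurd ⟨c, hc⟩ h₀⟩⟩

end Pool.Agent.Work.MP_d95c0d_gt
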