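import Pool.Agent.Work.MP_d95c0d_gt.Iter3

/-! Sizes of the initial segments, codes, the specializing steps and generic values. -/

namespace Pool.Agent.Work.MP_d95c0d_gt
open Set Cardinal Raw Cond
set_option linter.unusedSectionVars false

section order
variable {K : Type} [LinearOrder K]

theorem bdd_of_reg {α : K} (hr : (#(Iio α)).IsRegular) (hi : ∀ x < α, #(Iio x) < #(Iio α))
    {C : Set K} (hC : #C < #(Iio α)) (h : ∀ x ∈ C, x < α) : ∃ β < α, ∀ x ∈ C, x < β := by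
  by_contra hn
  push Not at hn
  have h1 : Iio α ⊆ ⋃ x ∈ C, Iic x := fun β hβ =>
    let ⟨x, h1, h2⟩ := hn β hβ; mem_biUnion h1 h2
  refine absurd (mk_le_mk_of_subset h1) (not_le.2
    ((card_biUnion_lt_iff_forall_of_isRegular hr hC).2 fun x hx => ?_))
  rw [← Iio_union_right]
  exact (mk_union_le _ _).trans_lt (add_lt_of_lt hr.aleph0_le (hi x (h x hx))
    (by rw [mk_singleton]; exact one_lt_aleph0.trans_le hr.aleph0_le))

variable [WellFoundedLT K]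

theorem exists_mk_Iio {k : K} {c : Cardinal.{0}} (h : c < #(Iio k)) : ∃ x < k, #(Iio x) = c := by
  have h1 : c.ord < Ordinal.typein (α := K) (· < ·) k := by
    rw [← not_le]
    exact fun h' => absurd ((Ordinal.card_le_card h').trans (card_ord c).le) (not_le.2 h)
  obtain ⟨x, hx⟩ := Ordinal.typein_surj _ (h1.trans (Ordinal.typein_lt_type _ k))
  exact ⟨x, (Ordinal.typein_lt_typein _).1 (hx ▸ h1), (congrArg Ordinal.card hx).trans (card_ord c)⟩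

theorem exists_mk_Iio' {c : Cardinal.{0}} (h : c < #K) : ∃ x : K, #(Iio x) = c := by
  have h1 : c.ord < Ordinal.type (α := K) (· < ·) := by
    rw [← not_le]
    exact fun h' => absurd ((Ordinal.card_le_card h').trans (card_ord c).le) (not_le.2 h)
  obtain ⟨x, hx⟩ := Ordinal.typein_surj _ h1
  exact ⟨x, (congrArg Ordinal.card hx).trans (card_ord c)⟩

end order

section small
variable {θ : Cardinal.{0}} {A B : Type}

theorem lt_prod (hθ : ℵ₀ ≤ θ) {s : Set A} {t : Set B} (hs : #s < θ) (ht : #t < θ) :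
    #(s ×ˢ t : Set (A × B)) < θ := by
  rw [mk_setProd]; exact mul_lt_of_lt hθ hs ht

theorem lt_un (hθ : ℵ₀ ≤ θ) {s t : Set A} (hs : #s < θ) (ht : #t < θ) : #(s ∪ t : Set A) < θ :=
  (mk_union_le s t).trans_lt (add_lt_of_lt hθ hs ht)

theorem lt_sing (hθ : ℵ₀ ≤ θ) (a : A) : #({a} : Set A) < θ := by
  rw [mk_singleton]; exact one_lt_aleph0.trans_le hθ

theorem lt_pow (hs : ∀ c < θ, 2 ^ c < θ) {s : Set A} (h : #s < θ) : #(𝒫 s) < θ := by
  rw [mk_powerset]; exact hs _ h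

theorem exists_code {K : Type} (hK : #K = θ) (hr : θ.IsRegular) (hs : ∀ c < θ, 2 ^ c < θ)
    (hA : #A ≤ θ) : ∃ g : Set A → K, InjOn g {s | #s < θ} := by
  classical
  obtain ⟨j⟩ := (Cardinal.le_def _ _).1 (hA.trans hK.ge)
  have h1 := mk_subset_mk_lt_cof (α := K) (by rw [hK]; exact hs)
  rw [hK, hr.cof_ord] at h1
  obtain ⟨g⟩ := (Cardinal.le_def _ _).1 (h1.trans hK.symm).le
  refine ⟨fun s => if h : #s < θ then g ⟨j '' s, mk_image_le.trans_lt h⟩ else g ⟨∅, by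
    simpa using hr.pos⟩, fun s hs t ht h => ?_⟩
  simp only [dif_pos (show #s < θ from hs), dif_pos (show #t < θ from ht)] at h
  exact image_injective.2 j.injective (congrArg Subtype.val (g.injective h))

end small

variable {O K : Type} [LinearOrder O] [WellFoundedLT O] [LinearOrder K] [OrderBot K]
  {X : Par O K} {b c d e : O}

/-- All entries of a raw condition. -/
def Raw.gr (p : Raw O K) : Set ((O × K × K × ℕ) ⊕ (O × (K × K) × K × K)) :=
  Sum.inl '' (p.a : Set (O × K × K × ℕ)) ∪ Sum.inr '' {x | x.2.2 ∈ p.f x.1 x.2.1}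

theorem Raw.gr_inj {p q : Raw O K} (h : p.gr = q.gr) : p = q := by
  refine Raw.ext (Finset.ext fun x => ?_) (funext fun c => funext fun i => Set.ext fun y => ?_)
  · simpa [Raw.gr] using Set.ext_iff.1 h (.inl x)
  · simpa [Raw.gr] using Set.ext_iff.1 h (.inr (c, i, y))

theorem small_code {θ : Cardinal.{0}} (hθ : ℵ₀ ≤ θ) (hs : ∀ c < θ, 2 ^ c < θ)
    (h : #{p | OkB X c p} < θ) {δ : K} (hδ : #(Iio δ) < θ) :
    #{v | Code X c δ v} < θ ∧ ∀ S : Set (K × K × K),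
      (∀ x ∈ S, (∃ s, OkB X c s ∧ x.1 = X.enc s) ∧ x.2.1 < δ ∧ x.2.2 < δ) → #S < θ := by
  have h1 := lt_prod hθ ((mk_image_le (f := X.enc)).trans_lt h) (lt_prod hθ hδ hδ)
  have h2 : ∀ S : Set (K × K × K),
      (∀ x ∈ S, (∃ s, OkB X c s ∧ x.1 = X.enc s) ∧ x.2.1 < δ ∧ x.2.2 < δ) →
      S ⊆ (X.enc '' {p | OkB X c p}) ×ˢ Iio δ ×ˢ Iio δ := fun S hS x hx =>
    let ⟨⟨s, a1, a2⟩, a3⟩ := hS x hx; ⟨⟨s, a1, a2.symm⟩, a3⟩
  refine ⟨(mk_le_mk_of_subset ?_).trans_lt ((mk_image_le (f := X.enc2)).trans_lt (lt_pow hs h1)),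
    fun S hS => (mk_le_mk_of_subset (h2 S hS)).trans_lt h1⟩
  rintro _ ⟨S, rfl, hS⟩
  exact ⟨S, h2 S hS, rfl⟩

theorem small_cond {θ : Cardinal.{0}} (hθ : θ.IsRegular) (hu : ℵ₀ < θ)
    (hs : ∀ c < θ, 2 ^ c < θ) (hw : #(Iio X.w) < θ) (e : O) (he : #(Iio e) < θ)
    (h : ∀ c < e, #(X.IS c) < θ ∧ #(Iio (X.gam c)) < θ ∧ ∀ i ∈ X.IS c, #(Iio i.1) < θ) :
    #{p | OkB X e p} < θ ∧ ∀ p, OkB X e p → #p.gr < θ := by
  induction e using WellFoundedLT.induction with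
  | ind e ih =>
    have h0 := hu.le
    have h1 : ∀ c < e, #{p | OkB X c p} < θ := fun c hc => (ih c hc
      ((mk_le_mk_of_subset (Iio_subset_Iio hc.le)).trans_lt he) fun d hd => h d (hd.trans hc)).1
    let T : Set ((O × K × K × ℕ) ⊕ (O × (K × K) × K × K)) :=
      Sum.inl '' (⋃ c ∈ Iio e, {c} ×ˢ {v | Code X c X.w v} ×ˢ Iio X.w ×ˢ Set.univ) ∪
      Sum.inr '' (⋃ c ∈ Iio e, {c} ×ˢ ⋃ i ∈ X.IS c, {i} ×ˢ (X.enc '' {p | OkB X c p}) ×ˢ
        ({⊥} ∪ Iio i.1 ∪ {v | Code X c (X.gam c) v}))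
    have h2 : #T < θ := lt_un h0
      (mk_image_le.trans_lt ((card_biUnion_lt_iff_forall_of_isRegular hθ he).2 fun c hc =>
        lt_prod h0 (lt_sing h0 _) (lt_prod h0 (small_code h0 hs (h1 c hc) hw).1
          (lt_prod h0 hw (mk_le_aleph0.trans_lt hu)))))
      (mk_image_le.trans_lt ((card_biUnion_lt_iff_forall_of_isRegular hθ he).2 fun c hc =>
        lt_prod h0 (lt_sing h0 _) ((card_biUnion_lt_iff_forall_of_isRegular hθ (h c hc).1).2
          fun i hi => lt_prod h0 (lt_sing h0 _) (lt_prod h0 (mk_image_le.trans_lt (h1 c hc))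
            (lt_un h0 (lt_un h0 (lt_sing h0 _) ((h c hc).2.2 i hi))
              (small_code h0 hs (h1 c hc) (h c hc).2.1).1)))))
    have h3 : ∀ p, OkB X e p → p.gr ⊆ T := by
      rintro p hp _ (⟨⟨c, σ, ξ, n⟩, hx, rfl⟩ | ⟨⟨c, i, y⟩, hx, rfl⟩)
      · have := ((hp.okAt c).sp _ _ _ hx).1
        exact Or.inl ⟨(c, σ, ξ, n), mem_biUnion (hp.1 c (Or.inl ⟨_, hx⟩))
          ⟨rfl, this.2.2.1, this.2.1, trivial⟩, rfl⟩
      · have a1 : i ∈ p.dom c := ⟨y, hx⟩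
        obtain ⟨⟨b, -, a2⟩, a3, -⟩ := (hp.okAt c).cl.2.2 i a1
        obtain ⟨s, a4, -, a5⟩ := a2 y hx
        refine Or.inr ⟨(c, i, y), mem_biUnion (hp.1 c (Or.inr ⟨i, a1⟩)) ⟨rfl, mem_biUnion
          ((hp.okAt c).cl.2.1 a1) ⟨rfl, ⟨s, a4, a5.symm⟩, ?_⟩⟩, rfl⟩
        exact (a3 y hx).elim (fun h => Or.inl (Or.inl h))
          (Or.imp (fun h => Or.inr h.2) fun h => h.2)
    refine ⟨?_, fun p hp => (mk_le_mk_of_subset (h3 p hp)).trans_lt h2⟩
    rw [← mk_image_eq_of_injOn Raw.gr _ fun _ _ _ _ => Raw.gr_inj]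
    refine (mk_le_mk_of_subset ?_).trans_lt (lt_pow hs h2)
    rintro _ ⟨p, hp, rfl⟩
    exact h3 p hp

theorem exists_lt_code (hI : Inj X c) {δ : K} (hδ : δ = X.w ∨ δ = X.gam c)
    (R : K → K → Cond X c → Prop) (hm : ∀ i j, Mo (R i j)) (hR : ∀ i j s, R i j s → i < δ ∧ j < δ) :
    ∃ σ, Code X c δ σ ∧ ∀ i j (s : Cond X c), Lt X c σ i j s.1 ↔ R i j s := by
  let S : Set (K × K × K) := {x | ∃ s : Cond X c, x.1 = X.enc s.1 ∧ R x.2.1 x.2.2 s}
  have h1 : ∀ x ∈ S, (∃ s, OkB X c s ∧ x.1 = X.enc s) ∧ x.2.1 < δ ∧ x.2.2 < δ :=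
    fun x ⟨s, a1, a2⟩ => ⟨⟨s.1, s.2, a1⟩, hR _ _ s a2⟩
  refine ⟨X.enc2 S, ⟨S, rfl, h1⟩, fun i j s => ?_⟩
  unfold Lt Lt0
  rw [hI.2 δ S hδ h1]
  refine ⟨?_, fun h => ⟨s.1, s.2, ⟨s, rfl, h⟩, le_refl s⟩⟩
  rintro ⟨t, a1, ⟨t', a2, a3⟩, a4⟩
  obtain rfl := hI.1 _ _ a1 t'.2 a2
  exact hm i j a3 a4

theorem exists_good_code (hI : Inj X c) {lt : K → K → Cond X c → Prop} (h : Good X.w lt) :
    ∃ σ, Code X c X.w σ ∧ GoodC X c σ ∧ ∀ i j (s : Cond X c), Lt X c σ i j s.1 ↔ lt i j s := by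
  obtain ⟨σ, h1, h2⟩ := exists_lt_code hI (Or.inl rfl) lt h.mono
    fun i j s hs => ⟨(h.ord hs).1.trans (h.ord hs).2, (h.ord hs).2⟩
  refine ⟨σ, h1, ?_, h2⟩
  have : (fun i j (s : Cond X c) => Lt X c σ i j s.1) = lt :=
    funext fun i => funext fun j => funext fun s => propext (h2 i j s)
  exact show Good X.w (fun i j (s : Cond X c) => Lt X c σ i j s.1) from this ▸ h

/-- Adding one specializing entry. -/
theorem add_entry (q : Cond X e) (hc : c < e) {σ ξ : K} {n : ℕ}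
    (h0 : X.tS c ∧ ξ < X.w ∧ Code X c X.w σ ∧ GoodC X c σ) (h1 : ∀ n', (c, σ, ξ, n') ∉ q.1.a)
    (h2 : ∀ η, (c, σ, η, n) ∈ q.1.a → ∀ r, ¬ Lt X c σ ξ η r ∧ ¬ Lt X c σ η ξ r) :
    ∃ q' ≤ q, ∀ x, x ∈ q'.1.a ↔ x = (c, σ, ξ, n) ∨ x ∈ q.1.a := by
  classical
  let u : Raw O K := ⟨insert (c, σ, ξ, n) q.1.a, q.1.f⟩
  have a1 : ∀ d, d ≠ c → Ag d u q.1 := fun d hd => ⟨fun y => by simp [u, hd], rfl⟩
  have a2 : u.supp ⊆ insert c q.1.supp := fun d hd =>
    (eq_or_ne d c).imp_right fun h => (a1 d h).supp.1 hd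
  obtain ⟨b1, b2⟩ := ext_ind1 (X := X) (e := e) (p := u) (q := q.1) fun d hd c1 c2 => by
    rcases eq_or_ne d c with rfl | h
    swap
    · exact ext_same (q.2.okAt d) (a1 d h) c1 c2
    have c3 := q.2.okAt d
    refine ⟨okAt_iff.2 ⟨ClOk.congr c3.cl rfl, fun σ' ξ' n' hx => ?_⟩,
      leAt_of_same c3.cl (fun y hy => Finset.mem_insert_of_mem hy) fun _ _ => rfl⟩
    rcases Finset.mem_insert.1 hx with hx | hx
    · cases hx
      refine ⟨h0, fun m hm => ?_, fun η hη r hr _ => ?_⟩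
      · rcases Finset.mem_insert.1 hm with hm | hm
        · cases hm; rfl
        · exact absurd hm (h1 m)
      · rcases Finset.mem_insert.1 hη with hη | hη
        · cases hη
          have h3 : Good X.w fun i j (s : Cond X d) => Lt X d σ i j s.1 := h0.2.2.2
          exact fun h => lt_irrefl _ (h3.ord (r := ⟨r, hr⟩) h).1
        · exact (h2 η hη r).1
    · obtain ⟨d1, d2, d3⟩ := c3.sp _ _ _ hx
      refine ⟨d1, fun m hm => ?_, fun η hη r hr hl => ?_⟩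
      · rcases Finset.mem_insert.1 hm with hm | hm
        · cases hm; exact absurd hx (h1 _)
        · exact d2 m hm
      · rcases Finset.mem_insert.1 hη with hη | hη
        · cases hη; exact (h2 _ hx r).2
        · exact d3 η hη r hr (LeB.trans hr.2.2 c1 hl c2)
  exact ⟨⟨u, fun d hd => (a2 hd).elim (fun h => h ▸ hc) (q.2.1 d), (q.2.2.1.insert c).mono a2, b1⟩,
    b2, fun x => Finset.mem_insert⟩

theorem exists_col (hI : Inj X c) (hS : X.tS c) (hc : c < e) (lt : K → K → Cond X c → Prop)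
    (h : Good X.w lt) : ∃ col : K → ℕ → Cond X e → Prop,
    (∀ i n, Mo (col i n)) ∧ (∀ i < X.w, ∀ q, ∃ q' ≤ q, ∃ n, col i n q') ∧
    ∀ i j n q, col i n q → col j n q → ¬ lt i j (dn c q) := by
  obtain ⟨σ, h1, h2, h3⟩ := exists_good_code hI h
  refine ⟨fun i n q => (c, σ, i, n) ∈ q.1.a, fun i n p q hp hq => (hq c hc).a _ hp,
    fun i hi q => ?_, fun i j n q a1 a2 a3 => ((q.2.okAt c).sp _ _ _ a1).2.2 j a2 _ (dn c q).2
      (le_dn.1 le_rfl) ((h3 _ _ _).2 a3)⟩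
  by_cases h4 : ∃ n, (c, σ, i, n) ∈ q.1.a
  · exact ⟨q, le_rfl, h4⟩
  · obtain ⟨q', a1, a2⟩ := add_entry q hc (n := q.1.a.sup (fun x => x.2.2.2) + 1)
      ⟨hS, hi, h1, h2⟩ (fun n h => h4 ⟨n, h⟩) fun η hη =>
        absurd (Finset.le_sup (f := fun x => x.2.2.2) hη) (Nat.not_succ_le_self _)
    exact ⟨q', a1, _, (a2 _).2 (Or.inl rfl)⟩

namespace CS
variable {P Q I I' V : Type} [Preorder P] [Preorder Q] (C : CS Q P I V)

/-- Renaming the indices. -/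
def reindex (g : I' → I) (hg : Function.Injective g) (h : ∀ D, C.SD D → D ⊆ range g) :
    CS Q P I' V where
  res := C.res
  dom p := g ⁻¹' C.dom p
  val p i := C.val p (g i)
  SD D := C.SD (g '' D)
  Nm i := C.Nm (g i)
  Gd := C.Gd
  dflt := C.dflt
  sd_dom p := C.sd_sub (C.sd_dom p) (image_preimage_subset _ _)
  sd_sub h h' := C.sd_sub h (image_mono h')
  sd_union J _ D hD := image_iUnion ▸ C.sd_union J _ hD
  nm_val := C.nm_val
  nm_mono := C.nm_mono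
  nm_tot := C.nm_tot
  nm_fun := C.nm_fun
  le_iff {p' p} := C.le_iff.trans (and_congr_right fun _ => ⟨fun a =>
    ⟨preimage_mono a.1, fun i => a.2 (g i)⟩, fun a => ⟨fun i hi => by
      obtain ⟨j, rfl⟩ := h _ (C.sd_dom p) hi
      exact a.1 hi, fun i hi => by
      obtain ⟨j, rfl⟩ := h _ (C.sd_dom p) hi
      exact a.2 j hi⟩⟩)
  make s D H hD hH := by
    obtain ⟨p, a1, a2, a3⟩ := C.make s (g '' D) (Function.extend g H fun _ _ _ => False) hD (by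
      rintro _ ⟨i, hi, rfl⟩
      rw [hg.extend_apply]
      exact hH i hi)
    exact ⟨p, a1, by rw [a2, preimage_image_eq _ hg],
      fun i hi => by rw [a3 _ ⟨i, hi, rfl⟩, hg.extend_apply]⟩
  gd_mono := C.gd_mono
  gd_le := C.gd_le
  gd_and := C.gd_and
  nm_mix J _ i G H hi := C.nm_mix J (g i) G H (image_singleton ▸ hi)

/-- `r` decides the generic value at `j`. -/
def GV (r : P) (j : I) (u : V) : Prop :=
  j ∈ C.dom r ∧ ∀ s ≤ C.res r, ∀ u', C.val r j s u' → u' = u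

theorem GV.of_val {r r' : P} {j : I} {u : V} (hj : j ∈ C.dom r) (hr : r' ≤ r)
    (h : C.val r j (C.res r') u) : C.GV r' j u :=
  ⟨C.dom_mono hr hj, fun _ hs _ h' => (C.agree hr hj hs (C.val_mono hj h hs) h').symm⟩

theorem GV.val {r : P} {j : I} {u : V} (h : C.GV r j u) {s : Q} (hs : s ≤ C.res r) :
    ∃ s' ≤ s, C.val r j s' u :=
  let ⟨s', h1, _, h2⟩ := C.val_tot h.1 s; ⟨s', h1, h.2 s' (h1.trans hs) _ h2 ▸ h2⟩

theorem GV.mono {j : I} {u : V} : Mo fun r => C.GV r j u := fun _ _ h hr =>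
  ⟨C.dom_mono hr h.1, fun _ hs _ h' =>
    let ⟨_, h1, h2⟩ := GV.val C h (hs.trans (C.res_mono hr))
    (C.agree hr h.1 (h1.trans hs) h2 (C.val_mono (C.dom_mono hr h.1) h' h1)).symm⟩

theorem GV.unique {r : P} {j : I} {u u' : V} (h : C.GV r j u) (h' : C.GV r j u') : u = u' :=
  let ⟨t, h1, h2⟩ := GV.val C h le_rfl; h'.2 t h1 u h2

theorem GV.total {j : I} (hj : C.SD {j}) (r : P) : ∃ r' ≤ r, ∃ u, C.GV r' j u := by
  obtain ⟨g, g1, -, g2, -⟩ := C.mix r (J := Empty) Empty.elim Empty.elim {j} hj (fun j => j.elim)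
    (fun j => j.elim) fun j => j.elim
  have h1 : j ∈ C.dom g := g2 ▸ Or.inr (Or.inr rfl)
  obtain ⟨s, a1, u, a2⟩ := C.val_tot h1 (C.res g)
  obtain ⟨r', b1, b2, -⟩ := C.am a1
  exact ⟨r', b1.trans g1, u, GV.of_val C h1 b1 (b2 ▸ a2)⟩

end CS

end Pool.Agent.Work.MP_d95c0d_gt
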