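import Pool.Agent.Work.MP_d95c0d_gt.Iter4
import Pool.Agent.Work.MP_58a5a1_lc.Ctx
import Mathlib.Data.Prod.Lex

/-! The parameters of the iteration given by the large cardinal data. -/

namespace Pool.Agent.Work.MP_d95c0d_gt
open Set Cardinal Raw Cond
set_option linter.unusedSectionVars false

variable {K : Type} [LinearOrder K] [WellFoundedLT K] [OrderBot K]

/-- The coordinates. -/
abbrev Co (K : Type) : Type := K ×ₗ Fin 3
def co (α : K) (j : Fin 3) : Co K := toLex (α, j)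
def Co.fst (c : Co K) : K := (ofLex c).1
def Co.snd (c : Co K) : Fin 3 := (ofLex c).2

@[simp] theorem co_fst (α : K) (j : Fin 3) : (co α j).fst = α := rfl
@[simp] theorem co_snd (α : K) (j : Fin 3) : (co α j).snd = j := rfl
theorem co_eta (c : Co K) : co c.fst c.snd = c := rfl
theorem co_lt_iff {c d : Co K} : c < d ↔ c.fst < d.fst ∨ c.fst = d.fst ∧ c.snd < d.snd :=
  Prod.Lex.toLex_lt_toLex
theorem co_le_iff {c d : Co K} : c ≤ d ↔ c.fst < d.fst ∨ c.fst = d.fst ∧ c.snd ≤ d.snd :=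
  Prod.Lex.toLex_le_toLex
theorem lt_co0 {c : Co K} {α : K} : c < co α 0 ↔ c.fst < α := by simp [co_lt_iff]
theorem co_lt_co {α β : K} (h : α < β) (i j : Fin 3) : co α i < co β j := co_lt_iff.2 (Or.inl h)
theorem le_co2 (c : Co K) : c ≤ co c.fst 2 := co_le_iff.2 (Or.inr ⟨rfl, Fin.le_last _⟩)
theorem succ01 (α : K) (x : Co K) : x < co α 1 ↔ x ≤ co α 0 := by
  rw [co_lt_iff, co_le_iff]
  refine or_congr_right (and_congr_right fun _ => ?_)
  simp only [co_snd]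
  omega
theorem succ12 (α : K) (x : Co K) : x < co α 2 ↔ x ≤ co α 1 := by
  rw [co_lt_iff, co_le_iff]
  refine or_congr_right (and_congr_right fun _ => ?_)
  simp only [co_snd]
  omega
theorem co01 (α : K) : co α 0 < co α 1 := (succ01 α _).2 le_rfl
theorem co12 (α : K) : co α 1 < co α 2 := (succ12 α _).2 le_rfl

theorem mk_Iio_co {θ : Cardinal.{0}} (hθ : ℵ₀ < θ) {e : Co K} {α : K} (h : e ≤ co α 0)
    (hα : #(Iio α) < θ) : #(Iio e) < θ := by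
  refine (mk_le_mk_of_subset (t := toLex '' (Iio α ×ˢ Set.univ)) fun c hc => ?_).trans_lt
    (mk_image_le.trans_lt (lt_prod hθ.le hα (mk_le_aleph0.trans_lt hθ)))
  exact ⟨ofLex c, ⟨lt_co0.1 (hc.trans_le h), trivial⟩, rfl⟩

namespace LC
variable (L : LC K)

def GA (α : K) : Prop := L.w < α ∧ (#(Iio α)).IsRegular ∧ ∀ x < α, #(Iio x) < #(Iio α)

theorem ga_k : L.GA L.k := ⟨L.w_lt, L.mk_k ▸ L.reg0, fun x hx => L.mk_k ▸ L.lt_k x hx⟩
theorem GA.unc {L : LC K} {α : K} (h : L.GA α) : ℵ₁ < #(Iio α) := L.mk_w ▸ h.2.2 _ h.1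
theorem unc0 : ℵ₀ < L.κ₀ := L.mk_k ▸ aleph0_lt_aleph_one.trans L.ga_k.unc
theorem unc1 : ℵ₀ < L.κ₁ := L.unc0.trans L.h01
theorem GA.bdd {L : LC K} {α : K} (h : L.GA α) {C : Set K} (hC : C.Countable)
    (h' : ∀ x ∈ C, x < α) : ∃ β < α, ∀ x ∈ C, x < β :=
  bdd_of_reg h.2.1 h.2.2 (hC.le_aleph0.trans_lt (aleph0_lt_aleph_one.trans h.unc)) h'
theorem bdd_w {C : Set K} (hC : C.Countable) (h' : ∀ x ∈ C, x < L.w) :
    ∃ β < L.w, ∀ x ∈ C, x < β :=
  bdd_of_reg (L.mk_w ▸ isRegular_aleph_one)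
    (fun x hx => L.mk_w ▸ (L.lt_w x hx).le_aleph0.trans_lt aleph0_lt_aleph_one)
    (L.mk_w ▸ hC.le_aleph0.trans_lt aleph0_lt_aleph_one) h'
theorem bdd_k {C : Set K} (hC : #C < L.κ₀) (h' : ∀ x ∈ C, x < L.k) : ∃ β < L.k, ∀ x ∈ C, x < β :=
  bdd_of_reg L.ga_k.2.1 L.ga_k.2.2 (L.mk_k ▸ hC) h'
theorem exists_gt {x : K} (hx : x < L.k) : ∃ y < L.k, x < y :=
  let ⟨y, h1, h2⟩ := L.ga_k.bdd (countable_singleton x) fun _ h => h ▸ hx; ⟨y, h1, h2 x rfl⟩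

theorem exists_enc : ∃ g : Set ((Co K × K × K × ℕ) ⊕ (Co K × (K × K) × K × K)) → K,
    InjOn g {s | #s < L.κ₁} := by
  refine exists_code L.mkK L.reg1 L.slim1 ?_
  have h0 := L.unc1.le
  have h1 : #(Co K) ≤ L.κ₁ := by
    show #(K × Fin 3) ≤ _
    rw [mk_prod, lift_id, lift_id]
    exact mul_le_of_le h0 L.mkK.le (mk_le_aleph0.trans h0)
  have h2 := L.mkK.le
  simp only [mk_sum, mk_prod, lift_id]
  exact add_le_of_le h0
    (mul_le_of_le h0 h1 (mul_le_of_le h0 h2 (mul_le_of_le h0 h2 (mk_le_aleph0.trans h0))))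
    (mul_le_of_le h0 h1 (mul_le_of_le h0 (mul_le_of_le h0 h2 h2) (mul_le_of_le h0 h2 h2)))

theorem exists_enc2 : ∃ g : Set (K × K × K) → K, InjOn g {s | #s < L.κ₁} := by
  refine exists_code L.mkK L.reg1 L.slim1 ?_
  simp only [mk_prod, lift_id]
  exact mul_le_of_le L.unc1.le L.mkK.le (mul_le_of_le L.unc1.le L.mkK.le L.mkK.le)

open Classical in
noncomputable def par : Par (Co K) K where
  enc p := L.exists_enc.choose p.gr
  enc2 := L.exists_enc2.choose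
  dec2 := Function.invFunOn L.exists_enc2.choose {s | #s < L.κ₁}
  w := L.w
  lam c := if c.snd = 0 ∧ L.GA c.fst then #(Iio c.fst) else ℵ₁
  IS c := {i | (c.snd = 0 ∧ L.GA c.fst ∧ (c.fst = L.k ∨ i.1 < L.F c.fst) ∧ i.2 < c.fst) ∨
    (c.snd = 1 ∧ i.1 = ⊥ ∧ i.2 < L.w)}
  tA c := c.snd = 0
  tS c := c.snd = 2
  gam c := c.fst
  lam_reg c := by
    split_ifs with h
    exacts [h.2.2.1, isRegular_aleph_one]
  lam_unc c := by
    split_ifs with h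
    exacts [aleph0_lt_aleph_one.trans h.2.unc, aleph0_lt_aleph_one]
  IS_S c hc := eq_empty_of_forall_notMem fun i hi => by
    rcases hi with h | h <;> exact absurd (hc.symm.trans h.1) (by decide)
  bb c hc := by
    rintro ⟨i, hi⟩ S hS h
    have h1 : L.GA c.fst := (hi.resolve_right fun h => absurd (hc.symm.trans h.1) (by decide)).2.1
    have h2 : c = co c.fst 0 := hc ▸ (co_eta c).symm
    obtain ⟨β, a1, a2⟩ := h1.bdd (hS.image Co.fst) (by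
      rintro _ ⟨x, hx, rfl⟩
      exact lt_co0.1 (h2 ▸ h x hx))
    exact ⟨co β 0, h2 ▸ lt_co0.2 a1, fun x hx => lt_co0.2 (a2 _ ⟨x, hx, rfl⟩)⟩

theorem mem_IS0 {α : K} {i : K × K} :
    i ∈ L.par.IS (co α 0) ↔ L.GA α ∧ (α = L.k ∨ i.1 < L.F α) ∧ i.2 < α :=
  ⟨fun h => (h.resolve_right fun h => absurd h.1 (by simp)).2, fun h => Or.inl ⟨rfl, h⟩⟩
theorem mem_IS1 {α : K} {i : K × K} : i ∈ L.par.IS (co α 1) ↔ i.1 = ⊥ ∧ i.2 < L.w :=
  ⟨fun h => (h.resolve_left fun h => absurd h.1 (by simp)).2, fun h => Or.inr ⟨rfl, h⟩⟩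
theorem lam0 {α : K} (h : L.GA α) : L.par.lam (co α 0) = #(Iio α) := if_pos ⟨rfl, h⟩
theorem lam1 (α : K) : L.par.lam (co α 1) = ℵ₁ := by simp [par]

theorem small_aux {c : Co K} (hc : c < co L.k 0) : #(L.par.IS c) < L.κ₀ ∧
    #(Iio (L.par.gam c)) < L.κ₀ ∧ ∀ i ∈ L.par.IS c, #(Iio i.1) < L.κ₀ := by
  have h1 := lt_co0.1 hc
  have h2 : L.par.IS c ⊆ Iio (L.F c.fst) ×ˢ Iio c.fst ∪ {⊥} ×ˢ Iio L.w := fun i hi =>
    hi.imp (fun h => ⟨h.2.2.1.resolve_left h1.ne, h.2.2.2⟩) fun h => h.2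
  have h0 := L.unc0.le
  refine ⟨(mk_le_mk_of_subset h2).trans_lt (lt_un h0 (lt_prod h0 (L.lt_k _ (L.F_lt _ h1))
    (L.lt_k _ h1)) (lt_prod h0 (lt_sing h0 _) (L.lt_k _ L.w_lt))), L.lt_k _ h1, fun i hi => ?_⟩
  exact L.lt_k _ ((h2 hi).elim (fun h => h.1.trans (L.F_lt _ h1))
    fun h => h.1.trans_lt (bot_le.trans_lt L.w_lt))

theorem small0 {e : Co K} (he : e < co L.k 0) : #{p | OkB L.par e p} < L.κ₀ := by
  obtain ⟨y, h1, h2⟩ := L.exists_gt (lt_co0.1 he)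
  exact (small_cond L.reg0 L.unc0 L.slim0 (L.lt_k _ L.w_lt) e
    (mk_Iio_co L.unc0 (lt_co0.2 h2).le (L.lt_k _ h1)) fun c hc => L.small_aux (hc.trans he)).1

theorem small1 {e : Co K} (he : e ≤ co L.k 0) :
    #{p | OkB L.par e p} < L.κ₁ ∧ ∀ p, OkB L.par e p → #p.gr < L.κ₁ :=
  small_cond L.reg1 L.unc1 L.slim1 (L.mk_Iio _) e (mk_Iio_co L.unc1 he (L.mk_Iio _)) fun _ hc =>
    let ⟨a, b, _⟩ := L.small_aux (hc.trans_le he)
    ⟨a.trans L.h01, b.trans L.h01, fun _ _ => L.mk_Iio _⟩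

theorem dec_enc {S : Set (K × K × K)} (h : #S < L.κ₁) : L.par.dec2 (L.par.enc2 S) = S :=
  L.exists_enc2.choose_spec.leftInvOn_invFunOn h

theorem inj {c : Co K} (hc : c ≤ co L.k 0) : Inj L.par c :=
  ⟨fun s s' hs hs' h => Raw.gr_inj (L.exists_enc.choose_spec ((L.small1 hc).2 s hs)
    ((L.small1 hc).2 s' hs') h), fun _ S _ hS => L.dec_enc
      ((small_code L.unc1.le L.slim1 (L.small1 hc).1 (L.mk_Iio _)).2 S hS)⟩

noncomputable def aas {e : Co K} (he : e ≤ co L.k 1) : AAS (Cond L.par e) :=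
  (aa_all (X := L.par) L.lt_w e fun c hc => L.inj ((succ01 _ c).1 (hc.trans_le he))).aas

/-- The collapse at `α`. -/
noncomputable def cs0 {α : K} (h : α ≤ L.k) :
    CS (Cond L.par (co α 0)) (Cond L.par (co α 1)) (K × K) K :=
  csC (L.inj (co_le_iff.2 (h.lt_or_eq.imp_right fun h => ⟨h, le_rfl⟩)))
    (fun h : (0 : Fin 3) = 2 => absurd h (by decide)) (succ01 α)

theorem vv0 {α : K} {i : K × K} {v : K} : VV L.par (co α 0) i v ↔ v < i.1 ∨ v = ⊥ :=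
  ⟨fun h => h.elim Or.inr fun h => Or.inl (h.resolve_right fun h => h.1 rfl).2,
    fun h => h.elim (fun h => Or.inr (Or.inl ⟨rfl, h⟩)) Or.inl⟩

/-- The enumeration of the subsets of `α`. -/
noncomputable def cs1 {α : K} (h : α < L.k) :
    CS (Cond L.par (co α 1)) (Cond L.par (co α 2)) K K :=
  (csC (L.inj (co_lt_co h _ _).le) (fun h : (1 : Fin 3) = 2 => absurd h (by decide))
    (succ12 α)).reindex (fun i => (⊥, i)) (fun _ _ h => congrArg Prod.snd h)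
    fun _ hD i hi => ⟨i.2, Prod.ext (L.mem_IS1.1 (hD.2 hi)).1.symm rfl⟩

end LC

end Pool.Agent.Work.MP_d95c0d_gt
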