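import Pool.Agent.Work.MP_d95c0d_gt.Iter5

/-! The local system at a reflection point. -/

namespace Pool.Agent.Work.MP_d95c0d_gt
open Set Cardinal Raw Cond
set_option linter.unusedSectionVars false

variable {K : Type} [LinearOrder K] [WellFoundedLT K] [OrderBot K] (L : LC K)

theorem good_empty {P : Type} [Preorder P] {w : K} (hw : ∀ C : Set K, C.Countable →
    (∀ x ∈ C, x < w) → ∃ β < w, ∀ x ∈ C, x < β) {lt : K → K → P → Prop}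
    (h0 : ∀ i j r, ¬ lt i j r) : Good w lt := by
  refine ⟨fun _ _ _ _ h => absurd h (h0 _ _ _), fun h => absurd h (h0 _ _ _),
    fun h => absurd h (h0 _ _ _), fun C hC p hp => ?_⟩
  by_cases h : ∃ r ≤ p, ∃ j < w, C j r
  · obtain ⟨r, c1, j, c2, c3⟩ := h
    obtain ⟨γ, c4, c5⟩ := hw _ (countable_singleton j) fun _ h => h ▸ c2
    refine ⟨r, c1, γ, c4, fun t ht j' _ c6 => (le_of_not_gt fun c7 => ?_).trans_lt (c5 j rfl)⟩
    obtain ⟨_, -, c8⟩ := hp t (ht.trans c1) j j' (hC j c3 ht) c6 c7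
    exact h0 _ _ _ c8
  · obtain ⟨β, b1, -⟩ := hw _ countable_empty fun _ h => h.elim
    exact ⟨p, le_rfl, β, b1, fun r hr j c1 c2 => absurd ⟨r, hr, j, c1, c2⟩ h⟩

/-- A reflection point with its collapsing map. -/
structure Pt (Z : Set K) (α : K) where
  lt : α < L.k
  ga : L.GA α
  sub : Iio α ⊆ Z
  pi : K → K
  pi_lt : ∀ v ∈ Z, pi v < L.F α
  surj : ∀ u < L.F α, ∃ v ∈ Z, pi v = u
  mono : StrictMonoOn pi Z

namespace LC
noncomputable abbrev top : CS (Cond L.par (co L.k 0)) (Cond L.par (co L.k 1)) (K × K) K := L.cs0 le_rfl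

def SmD (Z : Set K) (α : K) (p : Cond L.par (co L.k 1)) : Prop :=
  Below (co α 0) (L.top.res p).1 ∧ #(L.top.dom p) < #(Iio α) ∧ ∀ i ∈ L.top.dom p,
    (i.1 ∈ Z ∧ i.2 < α) ∧ (∃ b < co α 0, ∀ s v, L.top.val p i s v → L.top.val p i (cut b s) v) ∧
      ∀ s v, L.top.val p i s v → v ∈ Z

def Sm (Z : Set K) (α : K) (p : Cond L.par (co L.k 1)) : Prop :=
  ∃ p', L.SmD Z α p' ∧ p' ≤ p ∧ p ≤ p'

theorem sd_top {D : Set (K × K)} : L.top.SD D ↔ #D < L.κ₀ ∧ ∀ i ∈ D, i.2 < L.k := by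
  show #D < L.par.lam _ ∧ D ⊆ L.par.IS _ ↔ _
  rw [L.lam0 L.ga_k, L.mk_k]
  exact and_congr_right fun _ => ⟨fun h i hi => (L.mem_IS0.1 (h hi)).2.2,
    fun h i hi => L.mem_IS0.2 ⟨L.ga_k, Or.inl rfl, h i hi⟩⟩

end LC

theorem ofPt {Z : Set K} {α : K} (h1 : Z ∩ Iio L.k = Iio α) (h2 : α < L.k) (h3 : L.GA α)
    (e : Z ≃o Iio (L.F α)) : Nonempty (Pt L Z α) := by
  classical
  refine ⟨⟨h2, h3, fun x hx => (h1.ge hx).1, fun v => if h : v ∈ Z then (e ⟨v, h⟩).1 else v,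
    fun v hv => ?_, fun u hu => ⟨_, (e.symm ⟨u, hu⟩).2, ?_⟩, fun v hv v' hv' h => ?_⟩⟩
  · rw [dif_pos hv]; exact (e ⟨v, hv⟩).2
  · rw [dif_pos (e.symm ⟨u, hu⟩).2]; simp
  · simp only [dif_pos hv, dif_pos hv']
    exact e.strictMono (show (⟨v, hv⟩ : Z) < ⟨v', hv'⟩ from h)

namespace Pt
variable {L} {Z : Set K} {α : K} (T : Pt L Z α)
include T

theorem bot_mem : ⊥ ∈ Z := T.sub (bot_le.trans_lt T.ga.1)
theorem pi_bot : T.pi ⊥ = ⊥ := by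
  obtain ⟨v, h1, h2⟩ := T.surj ⊥ (bot_le.trans_lt (T.pi_lt _ T.bot_mem))
  exact le_bot_iff.1 (h2 ▸ T.mono.monotoneOn T.bot_mem h1 bot_le)
theorem inj {v v' : K} (h : v ∈ Z) (h' : v' ∈ Z) (e : T.pi v = T.pi v') : v = v' :=
  T.mono.injOn h h' e
theorem surj' {μ u : K} (hμ : μ ∈ Z) (h : u < T.pi μ ∨ u = ⊥) : ∃ v ∈ Z, T.pi v = u :=
  h.elim (fun h => T.surj u (h.trans (T.pi_lt μ hμ))) fun h => ⟨⊥, T.bot_mem, h ▸ T.pi_bot⟩
theorem small : #Z < L.κ₀ := by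
  rw [← mk_image_eq_of_injOn _ _ T.mono.injOn]
  refine (mk_le_mk_of_subset ?_).trans_lt (L.lt_k _ (L.F_lt _ T.lt))
  rintro _ ⟨v, hv, rfl⟩
  exact T.pi_lt v hv
theorem lt0 (j : Fin 3) : co α j < co L.k 0 := co_lt_co T.lt _ _
theorem lt1 (j : Fin 3) : co α j < co L.k 1 := co_lt_co T.lt _ _

noncomputable abbrev C : CS (Cond L.par (co α 0)) (Cond L.par (co α 1)) (K × K) K := L.cs0 T.lt.le

theorem sd_C {D : Set (K × K)} :
    T.C.SD D ↔ #D < #(Iio α) ∧ ∀ i ∈ D, i.1 < L.F α ∧ i.2 < α := by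
  show #D < L.par.lam _ ∧ D ⊆ L.par.IS _ ↔ _
  rw [L.lam0 T.ga]
  exact and_congr_right fun _ => ⟨fun h i hi => (L.mem_IS0.1 (h hi)).2.imp_left
    fun h => h.resolve_left T.lt.ne, fun h i hi => L.mem_IS0.2 ⟨T.ga, Or.inr (h i hi).1, (h i hi).2⟩⟩

theorem nm_up {c : Co K} (hc : c < co L.k 0) {i : K × K} (hi : i.1 ∈ Z)
    {H : Cond L.par c → K → Prop} (h1 : ∀ v, Mo fun s => H s v) (h2 : ∀ s, ∃ s' ≤ s, ∃ v, H s' v)
    (h3 : ∀ s v v', H s v → H s v' → v = v') (h4 : ∀ s u, H s u → u < T.pi i.1 ∨ u = ⊥) :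
    L.top.Nm i fun s v => v ∈ Z ∧ H (dn c s) (T.pi v) := by
  refine ⟨fun v s r h hr => ⟨h.1, h1 _ h.2 (dn_mono hc.le hr)⟩, fun s => ?_,
    fun s v v' a b => T.inj a.1 b.1 (h3 _ _ _ a.2 b.2), fun s v h => L.vv0.2 ((h4 _ _ h.2).imp
      (T.mono.lt_iff_lt h.1 hi).1 fun e => T.inj h.1 T.bot_mem (e.trans T.pi_bot.symm)),
    c, ⟨hc.le, fun _ => hc⟩, fun s v h => ⟨h.1, h1 _ h.2 (le_dn.2 ((leB_res_left le_rfl).2
      ((leB_res_left le_rfl).2 (s.okL c).refl)))⟩⟩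
  obtain ⟨s', a1, u, a2⟩ := h2 (dn c s)
  obtain ⟨v, a3, rfl⟩ := T.surj' hi (h4 _ _ a2)
  obtain ⟨t, a4, rfl⟩ := exists_am hc.le a1
  exact ⟨t, a4, v, a3, a2⟩

theorem mk_pre {D : Set (K × K)} : #{i : K × K | i.1 ∈ Z ∧ (T.pi i.1, i.2) ∈ D} ≤ #D :=
  MP_58a5a1_lc.sm_inj (fun i : K × K => (T.pi i.1, i.2)) (fun _ hi _ hj e =>
    Prod.ext (T.inj hi.1 hj.1 (congrArg Prod.fst e)) (congrArg Prod.snd e :)) (fun _ hi => hi.2)
    le_rfl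

theorem exists_lift (r : Cond L.par (co α 1)) : ∃ p, L.top.res p = up (T.lt0 0).le (T.C.res r) ∧
    L.top.dom p = {i | i.1 ∈ Z ∧ (T.pi i.1, i.2) ∈ T.C.dom r} ∧
    ∀ i ∈ {i : K × K | i.1 ∈ Z ∧ (T.pi i.1, i.2) ∈ T.C.dom r}, L.top.val p i =
      fun s v => v ∈ Z ∧ T.C.val r (T.pi i.1, i.2) (dn _ s) (T.pi v) :=
  have h := T.sd_C.1 (T.C.sd_dom r)
  L.top.make _ _ _ (L.sd_top.2 ⟨T.mk_pre.trans_lt (h.1.trans (L.lt_k _ T.lt)),
    fun _ hi => (h.2 _ hi.2).2.trans T.lt⟩) fun _ hi =>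
      let ⟨a1, a2, a3, a4, _⟩ := T.C.nm_val hi.2
      T.nm_up (T.lt0 0) hi.1 a1 a2 a3 fun s u h => L.vv0.1 (a4 s u h)

noncomputable def lift (r : Cond L.par (co α 1)) : Cond L.par (co L.k 1) := (T.exists_lift r).choose

theorem res_lift (r) : L.top.res (T.lift r) = up (T.lt0 0).le (T.C.res r) :=
  (T.exists_lift r).choose_spec.1
theorem dom_lift {r i} : i ∈ L.top.dom (T.lift r) ↔ i.1 ∈ Z ∧ (T.pi i.1, i.2) ∈ T.C.dom r := by
  rw [lift, (T.exists_lift r).choose_spec.2.1]; rfl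
theorem val_lift {r i s v} (hi : i ∈ L.top.dom (T.lift r)) : L.top.val (T.lift r) i s v ↔
    v ∈ Z ∧ T.C.val r (T.pi i.1, i.2) (dn _ s) (T.pi v) := by
  rw [lift, (T.exists_lift r).choose_spec.2.2 i (T.dom_lift.1 hi)]

theorem lift_le {r' r} : T.lift r' ≤ T.lift r ↔ r' ≤ r := by
  rw [L.top.le_iff, T.C.le_iff, res_lift, res_lift, le_up, dn_up]
  refine and_congr_right fun _ => ⟨fun h => ?_, fun h => ⟨fun i hi => T.dom_lift.2
    ⟨(T.dom_lift.1 hi).1, h.1 (T.dom_lift.1 hi).2⟩, fun i hi s hs v v' a b => ?_⟩⟩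
  · have h1 : ∀ j ∈ T.C.dom r, ∃ i ∈ L.top.dom (T.lift r), j = (T.pi i.1, i.2) := fun j hj => by
      obtain ⟨μ, a1, a2⟩ := T.surj _ ((T.sd_C.1 (T.C.sd_dom r)).2 j hj).1
      exact ⟨(μ, j.2), T.dom_lift.2 ⟨a1, a2 ▸ hj⟩, a2 ▸ rfl⟩
    refine ⟨fun j hj => ?_, fun j hj s hs u u' a b => ?_⟩
    · obtain ⟨i, a1, rfl⟩ := h1 j hj
      exact (T.dom_lift.1 (h.1 a1)).2
    · obtain ⟨i, a1, rfl⟩ := h1 j hj
      have a2 := T.dom_lift.1 (h.1 a1)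
      obtain ⟨v, a3, rfl⟩ := T.surj' a2.1 (L.vv0.1 ((T.C.nm_val hj).2.2.2.1 s u a))
      obtain ⟨v', a4, rfl⟩ := T.surj' a2.1 (L.vv0.1 ((T.C.nm_val a2.2).2.2.2.1 s u' b))
      exact congrArg _ (h.2 i a1 (up (T.lt0 0).le s) ((le_up _).2 ((dn_up _ s).le.trans hs)) v v'
        ((T.val_lift a1).2 ⟨a3, (dn_up _ s).symm ▸ a⟩)
        ((T.val_lift (h.1 a1)).2 ⟨a4, (dn_up _ s).symm ▸ b⟩))
  · have a1 := T.dom_lift.1 hi
    rw [T.val_lift hi] at a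
    rw [T.val_lift (T.dom_lift.2 ⟨a1.1, h.1 a1.2⟩)] at b
    exact T.inj a.1 b.1 (h.2 _ a1.2 _ ((le_up _).1 hs) _ _ a.2 b.2)

theorem smD_lift (r) : L.SmD Z α (T.lift r) := by
  have h := T.sd_C.1 (T.C.sd_dom r)
  refine ⟨T.res_lift r ▸ (T.C.res r).2.1, ?_, fun i hi => ⟨⟨(T.dom_lift.1 hi).1,
    (h.2 _ (T.dom_lift.1 hi).2).2⟩, ?_, fun s v hv => ((T.val_lift hi).1 hv).1⟩⟩
  · exact (mk_le_mk_of_subset fun i hi => T.dom_lift.1 hi).trans_lt (T.mk_pre.trans_lt h.1)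
  · obtain ⟨a1, -, -, -, b, a2, a3⟩ := T.C.nm_val (T.dom_lift.1 hi).2
    refine ⟨b, a2.2 rfl, fun s v hv => ?_⟩
    rw [T.val_lift hi] at hv ⊢
    refine ⟨hv.1, a1 _ (a3 _ _ hv.2) ((le_cut_iff a2.1).2 ?_)⟩
    exact ((leB_res_left a2.1).2 ((leB_res_left le_rfl).2 (s.okL b).refl)).congr_right
      fun d hd => (ag_res _ (hd.trans_le a2.1)).symm

theorem exists_of_smD {p} (h : L.SmD Z α p) : ∃ r, T.lift r ≤ p ∧ p ≤ T.lift r := by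
  have h0 := (T.lt0 0).le
  obtain ⟨r, r1, r2, r3⟩ := T.C.make (dn _ (L.top.res p))
    ((fun i => (T.pi i.1, i.2)) '' L.top.dom p)
    (fun j s u => ∃ i ∈ L.top.dom p, j = (T.pi i.1, i.2) ∧ ∃ v, u = T.pi v ∧
      L.top.val p i (up h0 s) v)
    (T.sd_C.2 ⟨mk_image_le.trans_lt h.2.1, by
      rintro _ ⟨i, hi, rfl⟩
      exact ⟨T.pi_lt _ (h.2.2 i hi).1.1, (h.2.2 i hi).1.2⟩⟩) (by
      rintro _ ⟨i, hi, rfl⟩
      obtain ⟨a1, ⟨b, a2, a3⟩, a4⟩ := h.2.2 i hi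
      have k : ∀ i' ∈ L.top.dom p, (T.pi i.1, i.2) = (T.pi i'.1, i'.2) → i' = i := fun i' h' e =>
        Prod.ext (T.inj (h.2.2 i' h').1.1 a1.1 (congrArg Prod.fst e).symm)
          (congrArg Prod.snd e :).symm
      refine ⟨fun u s t ⟨i', b1, b2, v, b3, b4⟩ ht => ⟨i', b1, b2, v, b3, L.top.val_mono b1 b4
        ((le_up _).2 ((dn_up _ _).le.trans ht))⟩, fun s => ?_, ?_, ?_, b, ⟨a2.le, fun _ => a2⟩, ?_⟩
      · obtain ⟨t, b1, v, b2⟩ := L.top.val_tot hi (up h0 s)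
        exact ⟨dn _ t, (le_up _).1 b1, _, i, hi, rfl, v, rfl, L.top.val_mono hi (a3 _ _ b2)
          ((le_cut_iff (a2.le.trans h0)).2 ((leB_res_left a2.le).2 (t.okL b).refl))⟩
      · rintro s _ _ ⟨i', b1, b2, v, rfl, b3⟩ ⟨i'', b4, b5, v', rfl, b6⟩
        obtain rfl := k i' b1 b2
        obtain rfl := k i'' b4 b5
        rw [L.top.val_fun hi b3 b6]
      · rintro s _ ⟨i', b1, b2, v, rfl, b3⟩
        obtain rfl := k i' b1 b2
        exact L.vv0.2 ((L.vv0.1 ((L.top.nm_val hi).2.2.2.1 _ _ b3)).imp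
          (fun e => T.mono (a4 _ _ b3) a1.1 e) fun e => (congrArg T.pi e).trans T.pi_bot)
      · rintro s _ ⟨i', b1, b2, v, rfl, b3⟩
        obtain rfl := k i' b1 b2
        exact ⟨i', hi, rfl, v, rfl, a3 _ _ b3⟩)
  have a1 : L.top.res (T.lift r) = L.top.res p := by
    rw [res_lift, r1]
    exact Subtype.ext (res_eq h.1 fun _ _ => Ag.refl _ _)
  have a2 : L.top.dom (T.lift r) = L.top.dom p := Set.ext fun i => by
    rw [dom_lift, r2]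
    refine ⟨fun ⟨b1, i', b2, b3⟩ => ?_, fun hi => ⟨(h.2.2 i hi).1.1, i, hi, rfl⟩⟩
    rwa [show i = i' from Prod.ext (T.inj b1 (h.2.2 i' b2).1.1 (congrArg Prod.fst b3).symm)
      (congrArg Prod.snd b3 :).symm]
  have a3 : ∀ i ∈ L.top.dom p, ∀ s v v', L.top.val p i s v → L.top.val (T.lift r) i s v' →
      v = v' := fun i hi s v v' b1 b2 => by
    rw [T.val_lift (a2 ▸ hi), r3 _ ⟨i, hi, rfl⟩] at b2
    obtain ⟨b2, i', b3, b4, u, b5, b6⟩ := b2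
    obtain rfl : i = i' := Prod.ext (T.inj (h.2.2 i hi).1.1 (h.2.2 i' b3).1.1
      (congrArg Prod.fst b4)) (congrArg Prod.snd b4 :)
    rw [T.inj b2 ((h.2.2 i hi).2.2 _ _ b6) b5]
    exact L.top.val_fun hi b1 (L.top.val_mono hi b6 ((le_up _).2 le_rfl))
  exact ⟨r, L.top.le_iff.2 ⟨a1.le, a2.ge, fun i hi s _ => a3 i hi s⟩, L.top.le_iff.2
    ⟨a1.ge, a2.le, fun i hi s _ v v' b1 b2 => (a3 i (a2 ▸ hi) s v' v b2 b1).symm⟩⟩

theorem exists_master : ∃ M, L.top.res M = top _ _ ∧ L.top.dom M = {i | i.1 ∈ Z ∧ i.2 < α} ∧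
    ∀ i ∈ {i : K × K | i.1 ∈ Z ∧ i.2 < α}, L.top.val M i =
      fun s v => v ∈ Z ∧ T.C.GV (dn _ s) (T.pi i.1, i.2) (T.pi v) :=
  L.top.make _ _ _ (L.sd_top.2 ⟨lt_prod L.unc0.le T.small (L.lt_k _ T.lt),
    fun _ hi => hi.2.trans T.lt⟩) fun i hi =>
      T.nm_up (H := fun r u => T.C.GV r (T.pi i.1, i.2) u) (T.lt0 1) hi.1
        (fun _ => CS.GV.mono T.C) (CS.GV.total T.C (T.sd_C.2 ⟨lt_sing T.ga.2.1.aleph0_le _,
          fun _ h => h ▸ ⟨T.pi_lt _ hi.1, hi.2⟩⟩)) (fun _ _ _ => CS.GV.unique T.C) fun _ u h =>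
          let ⟨s, _, h'⟩ := CS.GV.val T.C h le_rfl
          L.vv0.1 ((T.C.nm_val h.1).2.2.2.1 s u h')

theorem master_le {q : Cond L.par (co L.k 1)} (hq : q ≤ T.exists_master.choose)
    {r : Cond L.par (co α 1)} (hr : LeB L.par (co α 1) q.1 r.1) : q ≤ T.lift r := by
  obtain ⟨-, m2, m3⟩ := T.exists_master.choose_spec
  have h1 : ∀ s ≤ L.top.res q, dn (co α 1) s ≤ r := fun s hs => dn_le.2
    (LeB.trans (s.okL _) (q.okL _) (LeB.mono (le_dn.1 hs) (T.lt0 1).le) hr)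
  have h2 : ∀ i ∈ L.top.dom (T.lift r), i ∈ {i : K × K | i.1 ∈ Z ∧ i.2 < α} := fun i hi =>
    ⟨(T.dom_lift.1 hi).1, ((T.sd_C.1 (T.C.sd_dom r)).2 _ (T.dom_lift.1 hi).2).2⟩
  refine L.top.le_iff.2 ⟨?_, fun i hi => L.top.dom_mono hq (m2.ge (h2 i hi)),
    fun i hi s hs v v' a b => ?_⟩
  · rw [res_lift, le_up]
    exact le_dn.2 ((leB_res_left le_rfl).2 ((leB_res_left (T.lt0 0).le).2 (hr.mono (co01 α).le)))
  · have a1 : i ∈ L.top.dom T.exists_master.choose := m2.ge (h2 i hi)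
    obtain ⟨t, a2, u, a3⟩ := L.top.val_tot a1 s
    rw [← L.top.agree hq a1 (a2.trans hs) a3 (L.top.val_mono (L.top.dom_mono hq a1) b a2)]
    rw [m3 i (h2 i hi)] at a3
    rw [T.val_lift hi] at a
    refine T.inj a.1 a3.1 (CS.GV.unique T.C (CS.GV.of_val T.C (T.dom_lift.1 hi).2
      (h1 t (a2.trans hs)) (T.C.val_mono (T.dom_lift.1 hi).2 a.2 ?_)) a3.2)
    exact le_dn.2 ((leB_res_left le_rfl).2 ((leB_res_left (co01 α).le).2
      (LeB.mono a2 (T.lt0 0).le)))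

theorem infinite_w : (Iio L.w).Infinite :=
  infinite_coe_iff.1 (infinite_iff.2 (L.mk_w ▸ aleph0_lt_aleph_one.le))

theorem exists_ls : Nonempty (LS (Cond L.par (co L.k 1)) K L.w α (L.Sm Z α)) := by
  classical
  let nat := T.infinite_w.natEmbedding
  have h0 : ∀ c i j r, ¬ Lt L.par c (L.par.enc2 ∅) i j r := fun c i j r ⟨s, _, h, _⟩ => by
    rw [L.dec_enc (by simpa using L.reg1.pos)] at h
    exact h
  refine ⟨{
    Q1 := Cond L.par (co α 1)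
    Q2 := Cond L.par (co α 2)
    bdd := fun C => T.ga.bdd
    lift := T.lift
    lift_le := T.lift_le
    sm_iff := fun p => ⟨fun ⟨p', h1, h2, h3⟩ =>
      let ⟨r, h4, h5⟩ := T.exists_of_smD h1; ⟨r, h4.trans h2, h3.trans h5⟩,
      fun ⟨r, h⟩ => ⟨_, T.smD_lift r, h⟩⟩
    cs := L.cs1 T.lt
    sd_iff := fun D => ?_
    gd_all := fun G hG => ⟨hG, fun _ => ⟨_, ⟨le_rfl, fun h : (1 : Fin 3) = 0 =>
      absurd h (by decide)⟩, fun s h => hG h (cut_le_self s)⟩⟩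
    dec := fun v x s => Lt L.par _ v x x s.1
    dec_mono := fun v x s r h hr => Lt.mono h s.2.2.2 r.2.2.2 hr
    code := fun Y h1 h2 => ?_
    aa1 := L.aas (T.lt1 1).le
    aa2 := L.aas (T.lt1 2).le
    bit := fun i n b s => ∃ m, (co i 2, L.par.enc2 ∅, (nat n).1, m) ∈ s.1.a ∧ b = decide (m = 0)
    bit_mono := fun i n b s r ⟨m, h1, h2⟩ hr =>
      ⟨m, (hr _ (s.2.1 _ (Or.inl ⟨_, h1⟩))).a _ h1, h2⟩
    bit_fun := fun {i n b b' s} ⟨m, h1, h2⟩ ⟨m', h3, h4⟩ => by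
      rw [h2, h4, ((s.2.okAt _).sp _ _ _ h1).2.1 m' h3]
    bit_fin := fun s => ?_
    bit_add := fun s i n b hi hn => ?_
    d2 := dn (co α 2)
    d2_mono := dn_mono (T.lt1 2).le
    amalg := fun h => let ⟨q', h1, h2⟩ := exists_am (T.lt1 2).le h; ⟨q', h1, h2.le⟩
    Ms := fun q => q ≤ T.exists_master.choose
    ms_mono := fun _ _ h h' => h'.trans h
    ms_ex := fun r => ?_
    ms_le := fun h1 h2 => T.master_le h1 ((leB_res_left (co12 α).le).1 (dn_le.1 h2))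
    spec := exists_col (L.inj (T.lt0 2).le) rfl (T.lt1 2) }⟩
  · show #((fun i => (⊥, i)) '' D) < L.par.lam _ ∧ _ ⊆ L.par.IS _ ↔ _
    rw [L.lam1, mk_image_eq fun _ _ h => congrArg Prod.snd h, ← succ_aleph0, Order.lt_succ_iff,
      le_aleph0_iff_set_countable, image_subset_iff]
    exact and_congr_right fun _ => ⟨fun h i hi => (L.mem_IS1.1 (h hi)).2,
      fun h i hi => L.mem_IS1.2 ⟨rfl, h i hi⟩⟩
  · obtain ⟨v, a1, a2⟩ := exists_lt_code (L.inj (T.lt0 1).le) (Or.inr rfl)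
      (fun i j s => i = j ∧ Y i s) (fun i j s r h hr => ⟨h.1, h1 i h.2 hr⟩)
      fun i j s h => ⟨h2 i s h.2, h.1 ▸ h2 i s h.2⟩
    exact ⟨v, fun i hi => nmC_const (L.mem_IS1.2 ⟨rfl, hi⟩) (Or.inr (Or.inr
      ⟨fun h : (1 : Fin 3) = 0 => absurd h (by decide), a1⟩)),
      fun x s => (a2 x x s).trans (and_iff_right rfl)⟩
  · refine ((s.1.a.finite_toSet.image fun x => (x.1.fst, x.2.2.1)).preimage
      (f := fun x : K × ℕ => (x.1, (nat x.2).1)) fun x _ y _ e => ?_).subset ?_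
    · exact Prod.ext (congrArg Prod.fst e :) (nat.injective (Subtype.ext (congrArg Prod.snd e)))
    · rintro x ⟨b, m, h, -⟩
      exact ⟨_, h, rfl⟩
  · obtain ⟨s', a1, a2⟩ := add_entry s (co_lt_co hi 2 1) (σ := L.par.enc2 ∅) (ξ := (nat n).1)
      (n := if b then 0 else 1) ⟨rfl, (nat n).2, ⟨∅, rfl, fun _ h => h.elim⟩, by
        exact good_empty (P := Cond L.par (co i 2)) (fun _ => L.bdd_w) fun _ _ _ => h0 _ _ _ _⟩
      (fun m h => hn _ ⟨m, h, rfl⟩) fun η _ r => ⟨h0 _ _ _ _, h0 _ _ _ _⟩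
    refine ⟨s', a1, ⟨_, (a2 _).2 (Or.inl rfl), by cases b <;> rfl⟩, fun i' n' b' ⟨m, h1, h2⟩ => ?_⟩
    refine ((a2 _).1 h1).elim (fun e => Or.inr ⟨congrArg (fun x => x.1.fst) e,
      nat.injective (Subtype.ext (congrArg (fun x => x.2.2.1) e))⟩) fun h => Or.inl ⟨m, h, h2⟩
  · obtain ⟨q, a1, a2, -⟩ := L.top.am (s := up (T.lt0 1).le r) (p := T.exists_master.choose)
      (le_of_le_of_eq (fun c _ => leAt_of_not_supp (supp_nil c)) T.exists_master.choose_spec.1.symm)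
    refine ⟨q, a1, dn_le.2 ((leB_res_left (co12 α).le).2 ?_)⟩
    exact (leB_res_left (T.lt0 1).le).1 (LeB.mono a2.le (T.lt0 1).le)

end Pt

end Pool.Agent.Work.MP_d95c0d_gt
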