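import Pool.Agent.Work.MP_d95c0d_gt.Laver1

/-! A Laver function for order types. -/

namespace Pool.Agent.Work.MP_d95c0d_gt
open Set Cardinal Filter Order Pool.Agent.Work.MP_58a5a1_lc

section
variable {K : Type} [LinearOrder K]

/-- The function `l` guesses the order type of `Y`. -/
def LGd (l : K → K) (α : K) (Y : Set K) : Prop :=
  ∃ β < α, Y ∩ Iio α = Iio β ∧ Iso Y (Iio (l β))

/-- There is a normal measure on the small subsets of `S` along which `l` guesses correctly. -/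
def LGM (l : K → K) (α : K) (S : Set K) : Prop :=
  ∃ V, NM #(Iio α) S V ∧ ∀ᶠ Y in (V : Filter (Set K)), LGd l α Y

theorem LGM.congr {f g : K → K} {α : K} {S : Set K} (e : ∀ j < α, f j = g j) (h : LGM f α S) :
    LGM g α S := by
  obtain ⟨V, h1, h2⟩ := h
  exact ⟨V, h1, h2.mono fun Y ⟨β, h3, h4, h5⟩ => ⟨β, h3, h4, e β h3 ▸ h5⟩⟩

variable [WellFoundedLT K] [Nonempty K] {l : K → K} {k : K} {U : Ultrafilter (Set K)}

theorem LGM.iso {α : K} {A B : Set K} (e : Iso A B) (hA : Iio α ⊆ A) (hB : Iio α ⊆ B)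
    (h : LGM l α A) : LGM l α B := by
  obtain ⟨V, h1, h2⟩ := h
  obtain ⟨f, h3, rfl⟩ := e
  have h4 := laver_fix h3 hA hB
  refine ⟨_, h1.map f Subset.rfl, ?_⟩
  show ∀ᶠ Y in (V : Filter (Set K)), LGd l α (f '' (Y ∩ A))
  filter_upwards [h2, h1.small] with Y ⟨β, h5, h6, h7⟩ h8
  rw [inter_eq_self_of_subset_left h8.1]
  refine ⟨β, h5, ?_, (Iso.symm ⟨f, h3.mono h8.1, rfl⟩).trans h7⟩
  rw [← h6]
  refine Subset.antisymm ?_ fun x hx => ⟨⟨x, hx.1, h4 x hx.2⟩, hx.2⟩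
  rintro _ ⟨⟨x, hx, rfl⟩, h9⟩
  have : f x = x := h3.injOn (hA h9) (h8.1 hx) (h4 _ h9)
  exact ⟨this.symm ▸ hx, h9⟩

theorem laver_trace (hU : NM #(Iio k) univ U) (hk : ∀ x < k, #(Iio x) < #(Iio k)) :
    ∀ᶠ Z in (U : Filter (Set K)), ∃ α < k, Z ∩ Iio k = Iio α := by
  have h1 := hU.diag1 (R := fun Z a => a < k → Iio a ⊆ Z) fun a _ => by
    by_cases h : a < k
    · exact (hU.ae_sub (subset_univ _) (hk a h)).mono fun _ h _ => h
    · exact Eventually.of_forall fun _ h' => absurd h' h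
  filter_upwards [h1, hU.small] with Z h2 h3
  have h4 : ∃ a, a < k ∧ a ∉ Z := by
    by_contra hc
    push Not at hc
    exact absurd (mk_le_mk_of_subset (show Iio k ⊆ Z from hc)) (not_le.2 h3.2)
  obtain ⟨α, h5, h6⟩ := wellFounded_lt.has_min {a | a < k ∧ a ∉ Z} h4
  refine ⟨α, h5.1, Subset.antisymm (fun x hx => ?_) fun x hx => ⟨?_, hx.trans h5.1⟩⟩
  · rcases lt_trichotomy x α with h | h | h
    · exact h
    · exact absurd (h ▸ hx.1) h5.2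
    · exact absurd (h2 x hx.1 hx.2 h) h5.2
  · by_contra hc
    exact h6 x ⟨hx.trans h5.1, hc⟩ hx

theorem laver_reg (hU : NM #(Iio k) univ U) (hr : (#(Iio k)).IsRegular) (h0 : ℵ₀ < #(Iio k))
    (hl : ∀ d < #(Iio k), 2 ^ d < #(Iio k)) (hk : ∀ x < k, #(Iio x) < #(Iio k)) {al : Set K → K}
    (hal : ∀ᶠ Z in (U : Filter (Set K)), al Z < k ∧ Z ∩ Iio k = Iio (al Z)) :
    ∀ᶠ Z in (U : Filter (Set K)),
      (#(Iio (al Z))).IsRegular ∧ ∀ x < al Z, #(Iio x) < #(Iio (al Z)) := by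
  have h1 := hU.diag1 (R := fun Z a => a < k → #(Iio a) < #(Z ∩ Iio k : Set K)) fun a _ => by
    by_cases h : a < k
    · exact (hU.ae_big rfl hl (hk a h)).mono fun _ h _ => h
    · exact Eventually.of_forall fun _ h' => absurd h' h
  have h2 : ∀ᶠ Z in (U : Filter (Set K)), ∀ s : Set K,
      (s ⊆ Z ∩ Iio k ∧ #s < #(Z ∩ Iio k : Set K)) → ∃ γ ∈ Z ∩ Iio k, ∀ x ∈ s, x < γ := by
    refine laver_ae_all fun s => laver_ae_imp fun h => ?_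
    obtain ⟨T, h3, h4⟩ := hU.const_small rfl
      (h.mono fun Z hZ => ⟨hZ.1.trans inter_subset_left, hZ.2⟩)
    obtain ⟨Z, h5, h6⟩ := (h.and h4).exists
    obtain ⟨γ, h7, h8⟩ := laver_bounded hr hk (h6 ▸ h5.1.trans inter_subset_right) h3
    filter_upwards [h4, hU.fine γ trivial] with Z h9 h10
    exact ⟨γ, ⟨h10, h7⟩, h9 ▸ h8⟩
  filter_upwards [h1, h2, hal, hU.ae_big rfl hl h0] with Z h3 h4 h5 h6
  have h7 : ∀ x < al Z, #(Iio x) < #(Iio (al Z)) := fun x hx =>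
    h5.2 ▸ h3 x (h5.2.symm.subset hx).1 (hx.trans h5.1)
  rw [h5.2] at h4 h6
  exact ⟨laver_regular h6.le h7 fun s h8 h9 => h4 s ⟨h8, h9⟩, h7⟩

omit [WellFoundedLT K] in
theorem laver_glue (hU : NM #(Iio k) univ U) (hl : ∀ d < #(Iio k), 2 ^ d < #(Iio k))
    {al : Set K → K} (hal : ∀ᶠ Z in (U : Filter (Set K)), al Z < k ∧ Z ∩ Iio k = Iio (al Z))
    (h : ∀ᶠ Z in (U : Filter (Set K)), LGM l (al Z) Z) : LGM l k univ := by
  have h1 : ∀ Z, ∃ V : Ultrafilter (Set K), LGM l (al Z) Z →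
      NM #(Iio (al Z)) Z V ∧ ∀ᶠ Y in (V : Filter (Set K)), LGd l (al Z) Y := fun Z => by
    by_cases hZ : LGM l (al Z) Z
    · exact hZ.imp fun V h _ => h
    · exact ⟨pure ∅, fun h => absurd h hZ⟩
  choose V hV using h1
  have h2 := h.mono hV
  have e : ∀ p : Set K → Prop, (∀ᶠ Y in ((U.bind V : Ultrafilter (Set K)) : Filter (Set K)), p Y) ↔
      ∀ᶠ Z in (U : Filter (Set K)), ∀ᶠ Y in (V Z : Filter (Set K)), p Y := fun p => Iff.rfl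
  refine ⟨U.bind V, ⟨fun T hT hm => ?_, fun x _ => (e _).2 ?_, (e _).2 ?_, fun g hg => ?_⟩,
    (e _).2 ?_⟩
  · have h3 := ae_all_of hU.complete hT (p := fun A Z => A ∈ V Z) hm
    show ∀ᶠ Z in (U : Filter (Set K)), ⋂₀ T ∈ V Z
    filter_upwards [h2, h3, hal, hU.ae_big rfl hl hT] with Z h4 h5 h6 h7
    exact h4.1.complete T (h6.2 ▸ h7) h5
  · filter_upwards [h2, hU.fine x trivial] with Z h3 h4
    exact h3.1.fine x h4
  · filter_upwards [h2, hal] with Z h3 h4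
    exact h3.1.small.mono fun Y hY => ⟨subset_univ _,
      hY.2.trans_le (mk_le_mk_of_subset (Iio_subset_Iio h4.1.le))⟩
  · obtain ⟨a, -, ha⟩ := hU.normal' (R := fun Z a => ∀ᶠ Y in (V Z : Filter (Set K)), g Y = a) (by
      filter_upwards [h2, (e _).1 hg] with Z h3 h4
      obtain ⟨a, h5, h6⟩ := h3.1.normal' (R := fun Y a => g Y = a)
        (h4.mono fun Y hY => ⟨_, hY, rfl⟩)
      exact ⟨a, h5, h6.mono fun _ h => h.2⟩)
    exact ⟨a, (e _).2 (ha.mono fun _ h => h.2)⟩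
  · filter_upwards [h2, hal] with Z h3 h4
    filter_upwards [h3.2, h3.1.small] with Y ⟨β, h5, h6, h7⟩ h8
    refine ⟨β, h5.trans h4.1, ?_, h7⟩
    rw [← h6, ← h4.2, ← inter_assoc, inter_eq_self_of_subset_left h8.1]

omit [WellFoundedLT K] in
theorem laver_reflect (hU : NM #(Iio k) univ U) (h0 : ℵ₀ < #(Iio k))
    (hl : ∀ d < #(Iio k), 2 ^ d < #(Iio k))
    {al : Set K → K} (hal : ∀ᶠ Z in (U : Filter (Set K)), al Z < k ∧ Z ∩ Iio k = Iio (al Z))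
    {S : Set K} (hS : #(𝒫 (𝒫 S)) ≤ #K) (h : LGM l k S) :
    ∀ᶠ Z in (U : Filter (Set K)), LGM l (al Z) (Z ∩ S) := by
  obtain ⟨W, hW, hG⟩ := h
  obtain ⟨E, E1, -, -⟩ := exists_injOn (s := 𝒫 (𝒫 S)) (t := (univ : Set K))
    (by rwa [mk_univ]) (Classical.arbitrary K)
  let D : Set K → Set (Set K) := fun Z => {Y | Y ⊆ Z ∧ #Y < #(Z ∩ Iio k : Set K)}
  let M : Set K → Set (Set K) → Prop := fun Z X =>
    ∃ A, A ⊆ 𝒫 S ∧ E A ∈ Z ∧ A ∈ W ∧ A ∩ D Z ⊆ X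
  have hP : 𝒫 S ∈ W := hW.small.mono fun _ h => h.1
  have mk : ∀ A ∈ W, ∀ X : Set K → Set (Set K), (∀ᶠ Z in (U : Filter (Set K)), A ∩ D Z ⊆ X Z) →
      ∀ᶠ Z in (U : Filter (Set K)), M Z (X Z) := fun A hA X hX => by
    filter_upwards [hX, hU.fine (E (A ∩ 𝒫 S)) trivial] with Z h1 h2
    exact ⟨A ∩ 𝒫 S, inter_subset_right, h2, inter_mem hA hP, fun Y hY => h1 ⟨hY.1.1, hY.2⟩⟩
  have dec : ∀ X : Set K → Set (Set K), (∀ᶠ Z in (U : Filter (Set K)), M Z (X Z)) →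
      ∃ A ∈ W, ∀ᶠ Z in (U : Filter (Set K)), A ∩ D Z ⊆ X Z := fun X hX => by
    obtain ⟨a, -, ha⟩ := hU.normal'
      (R := fun Z a => ∃ A, A ⊆ 𝒫 S ∧ E A = a ∧ A ∈ W ∧ A ∩ D Z ⊆ X Z)
      (hX.mono fun Z ⟨A, h1, h2, h3⟩ => ⟨_, h2, A, h1, rfl, h3⟩)
    obtain ⟨Z₀, -, A, h1, h2, h3, -⟩ := ha.exists
    refine ⟨A, h3, ha.mono fun Z ⟨_, B, h4, h5, _, h6⟩ => ?_⟩
    rwa [E1 h1 h4 (h2.trans h5.symm)]
  have memD : ∀ Y : Set K, #Y < #(Iio k) → ∀ᶠ Z in (U : Filter (Set K)), Y ∈ D Z := fun Y hY =>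
    (hU.ae_sub (subset_univ _) hY).and (hU.ae_big rfl hl hY)
  have p1 : ∀ᶠ Z in (U : Filter (Set K)), ∀ T : Set (Set (Set K)),
      (#T < #(Z ∩ Iio k : Set K) ∧ ∀ X ∈ T, M Z X) → M Z (⋂₀ T) := by
    refine laver_ae_all fun T => laver_ae_imp fun h => ?_
    have h1 : ∀ Z X, ∃ A, M Z X → A ⊆ 𝒫 S ∧ E A ∈ Z ∧ A ∈ W ∧ A ∩ D Z ⊆ X := fun Z X => by
      by_cases h : M Z X
      · exact h.imp fun A h _ => h
      · exact ⟨∅, fun h' => absurd h' h⟩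
    choose A hA using h1
    obtain ⟨C, h1, h2⟩ := hU.const_small rfl (W := fun Z => (fun X => E (A Z X)) '' T Z)
      (h.mono fun Z hZ => ⟨by
        rintro _ ⟨X, hX, rfl⟩
        exact (hA Z X (hZ.2 X hX)).2.1, mk_image_le.trans_lt hZ.1⟩)
    refine mk (⋂₀ {B | B ⊆ 𝒫 S ∧ E B ∈ C ∧ B ∈ W}) (hW.complete _
      ((sm_inj E (E1.mono fun B hB => hB.1) (fun B hB => hB.2.1) le_rfl).trans_lt h1)
      fun B hB => hB.2.2) _ ?_
    filter_upwards [h, h2] with Z h3 h4 Y hY X hX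
    obtain ⟨h5, -, h6, h7⟩ := hA Z X (h3.2 X hX)
    exact h7 ⟨hY.1 _ ⟨h5, h4 ▸ ⟨X, hX, rfl⟩, h6⟩, hY.2⟩
  have p2 : ∀ᶠ Z in (U : Filter (Set K)), ¬ M Z ∅ := by
    rw [Ultrafilter.eventually_not]
    intro h
    obtain ⟨A, h1, h2⟩ := dec (fun _ => ∅) h
    obtain ⟨Y, h3, h4⟩ := (Eventually.and h1 hW.small).exists
    obtain ⟨Z, h5, h6⟩ := (h2.and (memD Y h4.2)).exists
    exact h5 ⟨h3, h6⟩
  have p3 : ∀ᶠ Z in (U : Filter (Set K)), ∀ X, M Z X ∨ M Z Xᶜ := by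
    refine laver_ae_all fun X => ?_
    let A : Set (Set K) := {Y | ∀ᶠ Z in (U : Filter (Set K)), Y ∈ X Z}
    have h1 := hU.diag rfl (R := fun Z Y => Y ∈ X Z ↔ Y ∈ A) fun Y _ => by
      rcases U.em (fun Z => Y ∈ X Z) with h | h
      · exact h.mono fun Z hZ => iff_of_true hZ h
      · exact h.mono fun Z hZ => iff_of_false hZ (Ultrafilter.eventually_not.1 h)
    rcases W.mem_or_compl_mem A with h | h
    · exact (mk A h X (h1.mono fun Z hZ Y hY => (hZ Y hY.2.1 hY.2.2).2 hY.1)).mono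
        fun _ h => Or.inl h
    · exact (mk Aᶜ h (fun Z => (X Z)ᶜ)
        (h1.mono fun Z hZ Y hY h => hY.1 ((hZ Y hY.2.1 hY.2.2).1 h))).mono fun _ h => Or.inr h
  have p4 := hU.diag1 (R := fun Z x => x ∈ S → M Z {Y | x ∈ Y}) fun x _ => by
    by_cases h : x ∈ S
    · exact (mk _ (hW.fine x h) (fun _ => {Y | x ∈ Y})
        (Eventually.of_forall fun _ => inter_subset_left)).mono fun _ h _ => h
    · exact Eventually.of_forall fun _ h' => absurd h' h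
  have p5 := mk _ hP (fun Z => {Y | Y ⊆ Z ∩ S ∧ #Y < #(Z ∩ Iio k : Set K)})
    (Eventually.of_forall fun Z Y hY => ⟨subset_inter hY.2.1 hY.1, hY.2.2⟩)
  have p6 : ∀ᶠ Z in (U : Filter (Set K)), ∀ g : Set K → K,
      M Z {Y | g Y ∈ Y} → ∃ x, M Z {Y | g Y = x} := by
    refine laver_ae_all fun g => laver_ae_imp fun h => ?_
    obtain ⟨A, h1, h2⟩ := dec (fun Z => {Y | g Z Y ∈ Y}) h
    obtain ⟨x, -, hx⟩ := hW.normal' (R := fun Y x => ∀ᶠ Z in (U : Filter (Set K)), g Z Y = x) (by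
      filter_upwards [h1, hW.small] with Y h3 h4
      obtain ⟨a, -, ha⟩ := hU.normal' (R := fun Z a => a ∈ Y ∧ g Z Y = a) (by
        filter_upwards [h2, memD Y h4.2] with Z h5 h6
        exact ⟨_, h6.1 (h5 ⟨h3, h6⟩), h5 ⟨h3, h6⟩, rfl⟩)
      exact ⟨a, ha.exists.choose_spec.2.1, ha.mono fun _ h => h.2.2⟩)
    have h3 := hU.diag rfl
      (R := fun Z Y => (∀ᶠ Z in (U : Filter (Set K)), g Z Y = x) → g Z Y = x)
      fun Y _ => laver_ae_imp fun h => h.exists.choose_spec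
    exact (mk _ hx (fun Z => {Y | g Z Y = x})
      (h3.mono fun Z hZ Y hY => hZ Y hY.2.1 hY.2.2 hY.1.2)).mono fun _ h => ⟨x, h⟩
  have p7 := mk _ hG (fun Z => {Y | LGd l (al Z) Y}) (by
    filter_upwards [hal] with Z h1 Y ⟨⟨β, h2, h3, h4⟩, h5, h6⟩
    have h7 : Y ∩ Iio (al Z) = Iio β := by
      rw [← h3, ← h1.2, ← inter_assoc, inter_eq_self_of_subset_left h5]
    refine ⟨β, not_le.1 fun hc => ?_, h7, h4⟩
    rw [h1.2] at h6
    exact absurd (mk_le_mk_of_subset ((Iio_subset_Iio hc).trans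
      (h3.symm.subset.trans inter_subset_left))) (not_le.2 h6))
  filter_upwards [p1, p2, p3, p4, p5, p6, p7, hal, hU.ae_big rfl hl h0]
    with Z q1 q2 q3 q4 q5 q6 q7 h1 h2
  obtain ⟨V, hV⟩ := laver_mkUF h2.le (M Z)
    (fun A B ⟨C, h3, h4, h5, h6⟩ h => ⟨C, h3, h4, h5, h6.trans h⟩)
    (fun T h3 h4 => q1 T ⟨h3, h4⟩) q2 q3
  refine ⟨V, ?_, (hV _).2 q7⟩
  rw [← h1.2]
  exact ⟨fun T h3 h4 => (hV _).2 (q1 T ⟨h3, fun X hX => (hV _).1 (h4 X hX)⟩),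
    fun x hx => (hV _).2 (q4 x hx.1 hx.2), (hV _).2 q5,
    fun g hg => (q6 g ((hV _).1 hg)).imp fun x h => (hV _).2 h⟩

theorem laver_main (hU : NM #(Iio k) univ U) (h0 : ℵ₀ < #(Iio k))
    (hl : ∀ d < #(Iio k), 2 ^ d < #(Iio k)) (hk : ∀ x < k, #(Iio x) < #(Iio k))
    (hK : #(Iio k) < #K) (hS : ∀ μ : K, #(𝒫 (𝒫 (Iio μ))) ≤ #K) {b : K} (hb : b < k) :
    ∃ l : K → K, (∀ α, l α < k) ∧ LGM l k univ := by
  have h1 : ∀ s : Set K, ∃ m, (s.Nonempty → m ∈ s ∧ ∀ x ∈ s, m ≤ x) ∧ (¬ s.Nonempty → m = b) :=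
    fun s => by
      by_cases h : s.Nonempty
      · obtain ⟨m, h1, h2⟩ := wellFounded_lt.has_min s h
        exact ⟨m, fun _ => ⟨h1, fun x hx => not_lt.1 (h2 x hx)⟩, fun h' => absurd h h'⟩
      · exact ⟨b, fun h' => absurd h' h, fun _ => rfl⟩
  choose mn m1 m2 using h1
  obtain ⟨l, e⟩ := exists_rec b (fun α f => mn {μ | α ≤ μ ∧ μ < k ∧ ¬ LGM f α (Iio μ)})
    fun α f g h => congrArg mn (Set.ext fun μ => and_congr_right fun _ => and_congr_right fun _ =>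
      not_congr ⟨LGM.congr h, LGM.congr fun j hj => (h j hj).symm⟩)
  refine ⟨l, fun α => ?_, ?_⟩
  · rw [e]
    by_cases h : {μ | α ≤ μ ∧ μ < k ∧ ¬ LGM l α (Iio μ)}.Nonempty
    · exact (m1 _ h).1.2.1
    · rw [m2 _ h]; exact hb
  have h1 : ∀ Z : Set K, ∃ α, (∃ α < k, Z ∩ Iio k = Iio α) → α < k ∧ Z ∩ Iio k = Iio α :=
    fun Z => by
      by_cases h : ∃ α < k, Z ∩ Iio k = Iio α
      · exact h.imp fun _ h _ => h
      · exact ⟨b, fun h' => absurd h' h⟩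
  choose al h1 using h1
  have hal := (laver_trace hU hk).mono h1
  have h2 : ∀ Z : Set K, ∃ μ, ∃ f : K → K, #Z < #K → StrictMonoOn f Z ∧ f '' Z = Iio μ :=
    fun Z => by
      by_cases h : #Z < #K
      · obtain ⟨μ, f, h⟩ := laver_ot h
        exact ⟨μ, f, fun _ => h⟩
      · exact ⟨b, id, fun h' => absurd h' h⟩
  choose ot f h2 using h2
  have h3 : ∀ᶠ Z in (U : Filter (Set K)), StrictMonoOn (f Z) Z ∧ f Z '' Z = Iio (ot Z) ∧
      Iio (al Z) ⊆ Z ∧ al Z ≤ ot Z ∧ ot Z < k := by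
    filter_upwards [hal, hU.small] with Z h3 h4
    obtain ⟨h5, h6⟩ := h2 Z (h4.2.trans hK)
    have h7 : Iio (al Z) ⊆ Z := h3.2.symm.subset.trans inter_subset_left
    refine ⟨h5, h6, h7, not_lt.1 fun hc => ?_, not_le.1 fun hc => ?_⟩
    · exact absurd (h6.subset ⟨_, h7 hc, rfl⟩) (not_lt.2 (laver_le_apply (h5.mono h7) _ hc))
    · exact absurd ((mk_le_mk_of_subset (Iio_subset_Iio hc)).trans (Iso.mk_eq ⟨_, h5, h6⟩).ge)
        (not_le.2 h4.2)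
  rcases U.em (fun Z => LGM l (al Z) (Iio (ot Z))) with h | h
  · refine laver_glue hU hl hal ?_
    filter_upwards [h, h3] with Z h4 ⟨h5, h6, h7, h8, _⟩
    exact h4.iso (Iso.symm ⟨_, h5, h6⟩) (Iio_subset_Iio h8) h7
  have h4 : ∀ᶠ Z in (U : Filter (Set K)), al Z ≤ l (al Z) ∧ l (al Z) ≤ ot Z ∧
      ¬ LGM l (al Z) (Iio (l (al Z))) := by
    filter_upwards [h, h3] with Z h4 ⟨_, _, _, h8, h9⟩
    have := m1 {μ | al Z ≤ μ ∧ μ < k ∧ ¬ LGM l (al Z) (Iio μ)} ⟨_, h8, h9, h4⟩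
    rw [← e] at this
    exact ⟨this.1.1, this.2 _ ⟨h8, h9, h4⟩, this.1.2.2⟩
  rcases U.em (fun Z => l (al Z) = ot Z) with h' | h'
  · refine ⟨U, hU, ?_⟩
    filter_upwards [h', h3, hal] with Z h5 h6 h7
    exact ⟨al Z, h7.1, h7.2, _, h6.1, h5 ▸ h6.2.1⟩
  exfalso
  obtain ⟨μ, -, hμ⟩ := hU.normal' (R := fun Z μ => f Z μ = l (al Z)) (by
    filter_upwards [h', h3, h4] with Z h5 h6 h7
    exact h6.2.1.symm.subset (lt_of_le_of_ne h7.2.1 h5))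
  have h5 : ∀ᶠ Z in (U : Filter (Set K)),
      Iso (Z ∩ Iio μ) (Iio (l (al Z))) ∧ Iio (al Z) ⊆ Z ∩ Iio μ := by
    filter_upwards [hμ, h3, h4] with Z ⟨h5, h6⟩ ⟨h7, h8, h9, h10, _⟩ h11
    refine ⟨⟨f Z, h7.mono inter_subset_left, Subset.antisymm ?_ fun y hy => ?_⟩,
      subset_inter h9 (Iio_subset_Iio (not_lt.1 fun hc => ?_))⟩
    · rintro _ ⟨x, hx, rfl⟩
      exact h6 ▸ h7 hx.1 h5 hx.2
    · obtain ⟨x, hx, rfl⟩ := h8.symm.subset (hy.trans_le h11.2.1)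
      exact ⟨x, ⟨hx, (h7.lt_iff_lt hx h5).1 (h6.symm ▸ hy)⟩, rfl⟩
    · have := laver_fix h7 h9 (h8 ▸ Iio_subset_Iio h10) μ hc
      exact absurd (h11.1.trans (h6.symm.trans this).le) (not_le.2 hc)
  have h6 : LGM l k (Iio μ) := by
    have h6 := hU.map id (subset_univ (Iio μ))
    simp only [image_id] at h6
    refine ⟨_, h6, ?_⟩
    show ∀ᶠ Z in (U : Filter (Set K)), LGd l k (Z ∩ Iio μ)
    filter_upwards [h5, hal] with Z h7 h8
    refine ⟨al Z, h8.1, Subset.antisymm (fun x hx => h8.2.subset ⟨hx.1.1, hx.2⟩)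
      fun x hx => ⟨h7.2 hx, hx.trans h8.1⟩, h7.1⟩
  obtain ⟨Z, h7, h8, h9⟩ := ((laver_reflect hU h0 hl hal (hS μ) h6).and (h5.and h4)).exists
  exact h9.2.2 (h7.iso h8.1 h8.2 (Iio_subset_Iio h9.1))

end

theorem exists_LC {κ₀ κ₁ : Cardinal.{0}} (h : κ₀ < κ₁) (h₀ : Supercompact κ₀)
    (h₁ : Supercompact κ₁) :
    ∃ (K : Type) (_ : LinearOrder K) (_ : WellFoundedLT K) (_ : OrderBot K), Nonempty (LC K) := by
  let K := κ₁.ord.ToType
  have mkK : #K = κ₁ := by simp [K]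
  have hI : ∀ x : K, #(Iio x) < κ₁ := fun x => by simpa [K] using mk_Iio_lt x (by simp [K])
  obtain ⟨k, k1, k2⟩ := laver_ini (K := K) (mkK ▸ h)
  have hw : ℵ₁ < κ₀ := by
    rw [← succ_aleph0]
    exact (succ_le_of_lt (cantor _)).trans_lt (h₀.pow_lt h₀.1)
  obtain ⟨w, w1, w2⟩ := laver_ini (K := K) (mkK ▸ hw.trans h)
  have wk : w < k := not_le.1 fun hc =>
    absurd (mk_le_mk_of_subset (Iio_subset_Iio hc)) (not_le.2 (by rw [w1, k1]; exact hw))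
  have : Nonempty K := ⟨k⟩
  obtain ⟨U₀, a1, a2, a3, a4⟩ := h₀.2 K (mkK ▸ h.le)
  have r0 := h₀.isRegular
  have s0 : ∀ c < κ₀, 2 ^ c < κ₀ := fun c => h₀.pow_lt
  have z0 := h₀.1
  subst k1
  obtain ⟨l, l1, U, hU, hG⟩ := laver_main (U := U₀) ⟨a2, fun x _ => a3 x,
    Eventually.mono a1 fun _ h => ⟨subset_univ _, h⟩, a4⟩ z0 s0 k2 (h.trans_eq mkK.symm) (fun μ => by
      rw [mk_powerset, mk_powerset, mkK]
      exact (h₁.pow_lt (h₁.pow_lt (hI μ))).le) wk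
  have h1 : ∀ Z : Set K, ∃ β, LGd l k Z → β < k ∧ Z ∩ Iio k = Iio β ∧ Iso Z (Iio (l β)) :=
    fun Z => by
      by_cases h : LGd l k Z
      · exact h.imp fun _ h _ => h
      · exact ⟨k, fun h' => absurd h' h⟩
  choose al h1 using h1
  have h2 := hG.mono h1
  have h3 := laver_reg hU r0 z0 s0 k2 (h2.mono fun Z h => ⟨h.1, h.2.1⟩)
  refine ⟨K, inferInstance, inferInstance, WellFoundedLT.toOrderBot K, ⟨⟨_, κ₁, w, k, r0,
    h₁.isRegular, s0, fun c => h₁.pow_lt, h, mkK, hI, rfl, k2, w1, fun x hx => ?_, wk, l,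
    fun α _ => l1 α, U, hU.complete, fun x => hU.fine x trivial, hU.normal, al, ?_, fun ι => ?_⟩⟩⟩
  · exact le_aleph0_iff_set_countable.1 (lt_succ_iff.1 ((w2 x hx).trans_eq succ_aleph0.symm))
  · filter_upwards [h2, h3] with Z h4 h5
    exact ⟨h4.2.1, h4.1, h5.1, h5.2, h4.2.2.orderIso⟩
  · rcases lt_or_ge #ι κ₁ with hι | hι
    · refine ⟨pure univ, ?_, fun S _ hS => ?_, fun x => ?_⟩
      · simpa using hι
      · exact Ultrafilter.mem_pure.2 fun A hA => Ultrafilter.mem_pure.1 (hS A hA)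
      · simp
    · obtain ⟨V, b1, b2, b3, -⟩ := h₁.2 ι hι
      exact ⟨V, b1, b2, b3⟩

end Pool.Agent.Work.MP_d95c0d_gt
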