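import Pool.Agent.Work.MP_d95c0d_gt.Iface
import Pool.Agent.Work.MP_58a5a1_lc.Ctx

/-! Normal fine measures on small subsets of a set of ordinals; order isomorphisms. -/

namespace Pool.Agent.Work.MP_d95c0d_gt
open Set Cardinal Filter Order Pool.Agent.Work.MP_58a5a1_lc

/-- `V` is a `c`-complete fine normal measure on the subsets of `S` of size less than `c`. -/
structure NM {K : Type} (c : Cardinal.{0}) (S : Set K) (V : Ultrafilter (Set K)) : Prop where
  complete : ∀ T : Set (Set (Set K)), #T < c → (∀ A ∈ T, A ∈ V) → ⋂₀ T ∈ V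
  fine : ∀ x ∈ S, ∀ᶠ Y in (V : Filter (Set K)), x ∈ Y
  small : ∀ᶠ Y : Set K in (V : Filter (Set K)), Y ⊆ S ∧ #Y < c
  normal : ∀ g : Set K → K, (∀ᶠ Y in (V : Filter (Set K)), g Y ∈ Y) →
    ∃ x, ∀ᶠ Y in (V : Filter (Set K)), g Y = x

namespace NM
variable {K : Type} [Nonempty K] {c : Cardinal.{0}} {S : Set K} {V : Ultrafilter (Set K)}

omit [Nonempty K] in
theorem ae_sub (h : NM c S V) {s : Set K} (hS : s ⊆ S) (hs : #s < c) :
    ∀ᶠ Y in (V : Filter (Set K)), s ⊆ Y :=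
  ae_all_of h.complete hs fun a ha => h.fine a (hS ha)

theorem normal' (h : NM c S V) {R : Set K → K → Prop}
    (hR : ∀ᶠ Y in (V : Filter (Set K)), ∃ a ∈ Y, R Y a) :
    ∃ a ∈ S, ∀ᶠ Y in (V : Filter (Set K)), a ∈ Y ∧ R Y a := by
  classical
  let g : Set K → K := fun x => if h : ∃ a ∈ x, R x a then h.choose else Classical.arbitrary K
  have hg : ∀ x, (∃ a ∈ x, R x a) → g x ∈ x ∧ R x (g x) := fun x h => by
    simp only [g, dif_pos h]; exact h.choose_spec
  obtain ⟨a, ha⟩ := h.normal g (hR.mono fun x hx => (hg x hx).1)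
  have h1 : ∀ᶠ Y in (V : Filter (Set K)), a ∈ Y ∧ R Y a :=
    (ha.and hR).mono fun x hx => hx.1 ▸ hg x hx.2
  obtain ⟨Y, h2, h3⟩ := (h1.and h.small).exists
  exact ⟨a, h3.1 h2.1, h1⟩

theorem map (h : NM c S V) (f : K → K) {A : Set K} (hA : A ⊆ S) :
    NM c (f '' A) (V.map fun Y => f '' (Y ∩ A)) where
  complete T hT hV := by
    have := ae_all_of h.complete hT (p := fun B Y => f '' (Y ∩ A) ∈ B) hV
    exact this
  fine := by
    rintro _ ⟨x, hx, rfl⟩
    exact (h.fine x (hA hx)).mono fun Y hY => ⟨x, ⟨hY, hx⟩, rfl⟩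
  small := h.small.mono fun Y hY => ⟨image_mono inter_subset_right,
    (mk_image_le.trans (mk_le_mk_of_subset inter_subset_left)).trans_lt hY.2⟩
  normal g hg := by
    obtain ⟨a, -, ha⟩ := h.normal' (R := fun Y a => g (f '' (Y ∩ A)) = f a)
      (Eventually.mono hg fun Y hY => by
        obtain ⟨x, hx, e⟩ := hY
        exact ⟨x, hx.1, e.symm⟩)
    exact ⟨f a, ha.mono fun Y hY => hY.2⟩

theorem ae_closed (h : NM c univ V) (g : K → K) :
    ∀ᶠ Y in (V : Filter (Set K)), ∀ a ∈ Y, g a ∈ Y := by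
  by_contra hc
  rw [← Ultrafilter.eventually_not] at hc
  obtain ⟨a, -, ha⟩ := h.normal' (R := fun x a => g a ∉ x) (hc.mono fun x hx => by
    push Not at hx; exact hx)
  obtain ⟨x, h1, h2⟩ := (ha.and (h.fine (g a) trivial)).exists
  exact h1.2 h2

theorem exists_trace (h : NM c S V) {W : Set K → Set K}
    (hW : ∀ᶠ Y in (V : Filter (Set K)), W Y ⊆ Y) :
    ∃ T, ∀ᶠ Y in (V : Filter (Set K)), W Y = Y ∩ T := by
  refine ⟨{γ | ∀ᶠ x in (V : Filter (Set K)), γ ∈ W x}, by_contra fun hc => ?_⟩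
  rw [← Ultrafilter.eventually_not] at hc
  obtain ⟨γ, -, hγ⟩ := h.normal' (R := fun x γ =>
      ¬ (γ ∈ W x ↔ ∀ᶠ x in (V : Filter (Set K)), γ ∈ W x)) (by
    filter_upwards [hc, hW] with x h1 h2
    by_contra h3
    push Not at h3
    exact h1 (Set.ext fun γ => ⟨fun h4 => ⟨h2 h4, (h3 γ (h2 h4)).1 h4⟩,
      fun h4 => (h3 γ h4.1).2 h4.2⟩))
  rcases V.em (fun x => γ ∈ W x) with h1 | h1
  · obtain ⟨x, h2, h3⟩ := (hγ.and h1).exists
    exact h2.2 (iff_of_true h3 h1)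
  · obtain ⟨x, h2, h3⟩ := (hγ.and h1).exists
    exact h2.2 (iff_of_false h3 (Ultrafilter.eventually_not.1 h1))

theorem ae_le (h : NM c univ V) {A B : Set K} (hAB : #A ≤ #B) :
    ∀ᶠ Y in (V : Filter (Set K)), #(Y ∩ A : Set K) ≤ #(Y ∩ B : Set K) := by
  obtain ⟨g, h1, h2, -⟩ := exists_injOn hAB (Classical.arbitrary K)
  exact (h.ae_closed g).mono fun x hx => sm_inj g (h1.mono inter_subset_right)
    (fun a ha => show _ ∈ x ∩ B from ⟨hx a ha.1, h2 ha.2⟩) le_rfl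

/-- Very small subsets chosen regressively are almost everywhere constant. -/
theorem const_small (h : NM c univ V) {A : Set K} (hA : #A = c) {W : Set K → Set K}
    (hW : ∀ᶠ Y in (V : Filter (Set K)), W Y ⊆ Y ∧ #(W Y) < #(Y ∩ A : Set K)) :
    ∃ T : Set K, #T < c ∧ ∀ᶠ Y in (V : Filter (Set K)), W Y = T := by
  obtain ⟨T, hT⟩ := h.exists_trace (hW.mono fun _ h => h.1)
  rcases lt_or_ge #T c with h1 | h1
  · refine ⟨T, h1, ?_⟩
    filter_upwards [hT, h.ae_sub (subset_univ T) h1] with Y h2 h3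
    rw [h2, inter_eq_self_of_subset_right h3]
  · obtain ⟨Y, h2, h3, h4⟩ := (hW.and (hT.and (h.ae_le (hA.le.trans h1)))).exists
    rw [← h3] at h4
    exact absurd h2.2 (not_lt.2 h4)

theorem diag (h : NM c univ V) {A : Set K} (hA : #A = c) {R : Set K → Set K → Prop}
    (hR : ∀ T : Set K, #T < c → ∀ᶠ Y in (V : Filter (Set K)), R Y T) :
    ∀ᶠ Y in (V : Filter (Set K)), ∀ T : Set K, T ⊆ Y → #T < #(Y ∩ A : Set K) → R Y T := by
  by_contra hc
  rw [← Ultrafilter.eventually_not] at hc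
  have h1 : ∀ Y : Set K, ∃ T : Set K, ¬ (∀ T : Set K, T ⊆ Y → #T < #(Y ∩ A : Set K) → R Y T) →
      (T ⊆ Y ∧ #T < #(Y ∩ A : Set K)) ∧ ¬ R Y T := fun Y => by
    by_cases hY : ∀ T : Set K, T ⊆ Y → #T < #(Y ∩ A : Set K) → R Y T
    · exact ⟨∅, fun h => absurd hY h⟩
    · push Not at hY
      obtain ⟨T, h1, h2, h3⟩ := hY
      exact ⟨T, fun _ => ⟨⟨h1, h2⟩, h3⟩⟩
  choose W hW using h1
  obtain ⟨T, h1, h2⟩ := h.const_small hA (hc.mono fun Y hY => (hW Y hY).1)
  obtain ⟨Y, h3, h4, h5⟩ := (hc.and (h2.and (hR T h1))).exists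
  exact (hW Y h3).2 (h4 ▸ h5)

omit [Nonempty K] in
theorem ae_big (h : NM c univ V) {A : Set K} (hA : #A = c) (hl : ∀ d < c, 2 ^ d < c)
    {d : Cardinal.{0}} (hd : d < c) : ∀ᶠ Y in (V : Filter (Set K)), d < #(Y ∩ A : Set K) := by
  obtain ⟨T, h1, h2⟩ := le_mk_iff_exists_subset.1 ((hl d hd).le.trans hA.ge)
  filter_upwards [h.ae_sub (subset_univ T) (h2.trans_lt (hl d hd))] with Y hY
  exact (cantor d).trans_le (h2.ge.trans (mk_le_mk_of_subset (subset_inter hY h1)))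

theorem diag1 (h : NM c S V) {R : Set K → K → Prop}
    (hR : ∀ a ∈ S, ∀ᶠ Y in (V : Filter (Set K)), R Y a) :
    ∀ᶠ Y in (V : Filter (Set K)), ∀ a ∈ Y, R Y a := by
  by_contra hc
  rw [← Ultrafilter.eventually_not] at hc
  obtain ⟨a, h1, ha⟩ := h.normal' (R := fun x a => ¬ R x a) (hc.mono fun x hx => by
    push Not at hx; exact hx)
  obtain ⟨x, h2, h3⟩ := (ha.and (hR a h1)).exists
  exact h2.2 h3

end NM

theorem laver_ae_all {X ι : Type} [Nonempty ι] {V : Ultrafilter X} {P : X → ι → Prop}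
    (h : ∀ f : X → ι, ∀ᶠ x in (V : Filter X), P x (f x)) : ∀ᶠ x in (V : Filter X), ∀ i, P x i := by
  have h1 : ∀ x, ∃ i, P x i → ∀ j, P x j := fun x => by
    by_cases hx : ∀ j, P x j
    · exact ⟨Classical.arbitrary ι, fun _ => hx⟩
    · obtain ⟨i, hi⟩ := not_forall.1 hx
      exact ⟨i, fun h => absurd h hi⟩
  choose f hf using h1
  exact (h f).mono hf

theorem laver_ae_imp {X : Type} {V : Ultrafilter X} {P Q : X → Prop}
    (h : (∀ᶠ x in (V : Filter X), P x) → ∀ᶠ x in (V : Filter X), Q x) :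
    ∀ᶠ x in (V : Filter X), P x → Q x := by
  rcases V.em P with h1 | h1
  · exact (h h1).mono fun _ h _ => h
  · exact h1.mono fun _ h h' => absurd h' h

theorem laver_mkUF {X : Type} {c : Cardinal.{0}} (hc : ℵ₀ ≤ c) (M : Set X → Prop)
    (up : ∀ A B, M A → A ⊆ B → M B) (inter : ∀ T : Set (Set X), #T < c → (∀ A ∈ T, M A) → M (⋂₀ T))
    (ne : ¬ M ∅) (ult : ∀ A, M A ∨ M Aᶜ) : ∃ V : Ultrafilter X, ∀ A, A ∈ V ↔ M A := by
  have h2 : ∀ A B, M A → M B → M (A ∩ B) := fun A B hA hB => by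
    have := inter {A, B} ((lt_aleph0_of_finite _).trans_le hc) (by
      rintro C (rfl | rfl) <;> assumption)
    rwa [sInter_pair] at this
  let F : Filter X := ⟨{A | M A}, by
    have := inter ∅ (by simpa using aleph0_pos.trans_le hc) (by simp)
    rwa [sInter_empty] at this, fun hA hAB => up _ _ hA hAB, fun hA hB => h2 _ _ hA hB⟩
  refine ⟨Ultrafilter.ofComplNotMemIff F fun s => ⟨fun h => (ult s).resolve_right h,
    fun h h' => ne ?_⟩, fun A => Iff.rfl⟩
  have := h2 _ _ h h'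
  rwa [inter_compl_self] at this

section order
variable {K : Type} [LinearOrder K]

/-- `A` and `B` are order isomorphic. -/
def Iso (A B : Set K) : Prop := ∃ f : K → K, StrictMonoOn f A ∧ f '' A = B

theorem Iso.symm [Nonempty K] {A B : Set K} (h : Iso A B) : Iso B A := by
  obtain ⟨f, h1, rfl⟩ := h
  have h2 := h1.injOn.leftInvOn_invFunOn
  refine ⟨Function.invFunOn f A, ?_, h1.injOn.invFunOn_image Subset.rfl⟩
  rintro _ ⟨a, ha, rfl⟩ _ ⟨b, hb, rfl⟩ hab
  rw [h2 ha, h2 hb]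
  exact (h1.lt_iff_lt ha hb).1 hab

theorem Iso.trans {A B C : Set K} (h : Iso A B) (h' : Iso B C) : Iso A C := by
  obtain ⟨f, h1, rfl⟩ := h
  obtain ⟨g, h2, rfl⟩ := h'
  exact ⟨g ∘ f, h2.comp h1 (mapsTo_image f A), image_comp g f A⟩

theorem Iso.mk_eq {A B : Set K} (h : Iso A B) : #A = #B := by
  obtain ⟨f, h1, rfl⟩ := h
  exact (mk_image_eq_of_injOn f A h1.injOn).symm

theorem Iso.orderIso {A B : Set K} (h : Iso A B) : Nonempty (A ≃o B) := by
  obtain ⟨f, h1, rfl⟩ := h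
  exact ⟨h1.orderIso f A⟩

theorem Iso.of_orderIso {A B : Set K} (e : A ≃o B) : Iso A B := by
  classical
  refine ⟨fun x => if h : x ∈ A then (e ⟨x, h⟩).1 else x, fun a ha b hb hab => ?_, ?_⟩
  · simp only [dif_pos ha, dif_pos hb]
    exact e.strictMono (show (⟨a, ha⟩ : A) < ⟨b, hb⟩ from hab)
  · refine Subset.antisymm ?_ fun y hy => ⟨(e.symm ⟨y, hy⟩).1, (e.symm ⟨y, hy⟩).2, ?_⟩
    · rintro _ ⟨a, ha, rfl⟩
      simp only [dif_pos ha]; exact (e ⟨a, ha⟩).2
    · simp only [dif_pos (e.symm ⟨y, hy⟩).2]; simp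

variable [WellFoundedLT K]

theorem laver_le_apply {f : K → K} {α : K} (h : StrictMonoOn f (Iio α)) : ∀ x < α, x ≤ f x := by
  intro x
  induction x using WellFoundedLT.induction with
  | ind x ih =>
    intro hx
    by_contra hc
    have hc := not_le.1 hc
    exact absurd (h (hc.trans hx) hx hc) (not_lt.2 (ih _ hc (hc.trans hx)))

theorem laver_fix {f : K → K} {α : K} {A : Set K} (h : StrictMonoOn f A) (hA : Iio α ⊆ A)
    (hB : Iio α ⊆ f '' A) : ∀ x < α, f x = x := by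
  intro x
  induction x using WellFoundedLT.induction with
  | ind x ih =>
    intro hx
    refine le_antisymm ?_ (laver_le_apply (h.mono hA) x hx)
    obtain ⟨z, hz, e⟩ := hB hx
    rcases lt_or_ge z x with h1 | h1
    · rw [ih z h1 (h1.trans hx)] at e
      exact absurd e h1.ne
    · exact e ▸ h.monotoneOn (hA hx) hz h1

theorem laver_ot {Z : Set K} (h : #Z < #K) : ∃ μ : K, Iso Z (Iio μ) := by
  have h1 : Ordinal.type (α := Z) (· < ·) < Ordinal.type (α := K) (· < ·) :=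
    not_le.1 fun hc => absurd (Ordinal.card_le_card hc) (not_le.2 h)
  obtain ⟨μ, hμ⟩ := Ordinal.typein_surj _ h1
  have h2 : Ordinal.type (α := Z) (· < ·) = Ordinal.type (α := Iio μ) (· < ·) := hμ.symm
  obtain ⟨e⟩ := Ordinal.type_eq.1 h2
  exact ⟨μ, Iso.of_orderIso (OrderIso.ofRelIsoLT e)⟩

theorem laver_ini {c : Cardinal.{0}} (h : c < #K) :
    ∃ x : K, #(Iio x) = c ∧ ∀ y < x, #(Iio y) < c := by
  have h1 : c.ord < Ordinal.type (α := K) (· < ·) := not_le.1 fun hc => by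
    have := Ordinal.card_le_card hc
    rw [card_ord] at this
    exact absurd this (not_le.2 h)
  obtain ⟨x, hx⟩ := Ordinal.typein_surj _ h1
  refine ⟨x, ?_, fun y hy => ?_⟩
  · have : #(Iio x) = (Ordinal.typein (α := K) (· < ·) x).card := rfl
    rw [this, hx, card_ord]
  · have : #(Iio y) = (Ordinal.typein (α := K) (· < ·) y).card := rfl
    rw [this, ← lt_ord, ← hx]
    exact (Ordinal.typein_lt_typein _).2 hy

theorem laver_regular {α : K} (h0 : ℵ₀ ≤ #(Iio α)) (h1 : ∀ x < α, #(Iio x) < #(Iio α))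
    (h2 : ∀ s ⊆ Iio α, #s < #(Iio α) → ∃ γ < α, ∀ x ∈ s, x < γ) : (#(Iio α)).IsRegular := by
  refine ⟨h0, le_of_not_gt fun hc => ?_⟩
  have e : (#(Iio α)).ord = Ordinal.type (α := Iio α) (· < ·) := by
    refine le_antisymm (ord_le.2 le_rfl) (not_lt.1 fun h => ?_)
    obtain ⟨x, hx⟩ := Ordinal.typein_surj (α := K) (· < ·)
      (h.trans (Ordinal.typein_lt_type (α := K) (· < ·) α))
    have h3 : x < α := (Ordinal.typein_lt_typein (α := K) (· < ·)).1 (hx ▸ h)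
    have h4 : #(Iio x) = (Ordinal.typein (α := K) (· < ·) x).card := rfl
    have := h1 x h3
    rw [h4, hx, card_ord] at this
    exact lt_irrefl _ this
  rw [e, Ordinal.cof_type] at hc
  obtain ⟨s, hs1, hs2⟩ := Order.exists_cof_eq (Iio α)
  obtain ⟨γ, h3, h4⟩ := h2 (Subtype.val '' s) (by rintro _ ⟨x, -, rfl⟩; exact x.2)
    (mk_image_le.trans_lt (hs2 ▸ hc))
  obtain ⟨b, hb, h5⟩ := hs1 ⟨γ, h3⟩
  exact absurd (h4 _ ⟨b, hb, rfl⟩) (not_lt.2 h5)

omit [WellFoundedLT K] in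
theorem laver_bounded {k : K} (hr : (#(Iio k)).IsRegular) (hk : ∀ x < k, #(Iio x) < #(Iio k))
    {s : Set K} (hs : s ⊆ Iio k) (hc : #s < #(Iio k)) : ∃ γ < k, ∀ x ∈ s, x < γ := by
  by_contra hn
  push Not at hn
  have h1 : Iio k ⊆ ⋃ x ∈ s, Iic x := fun γ hγ => by
    obtain ⟨x, h1, h2⟩ := hn γ hγ
    exact mem_biUnion h1 h2
  have h2 : #(⋃ x ∈ s, Iic x) < #(Iio k) :=
    (card_biUnion_lt_iff_forall_of_isRegular (t := fun x _ => Iic x) hr hc).2 fun x hx => by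
      rw [← Iio_union_right]
      refine lt_union hr.aleph0_le (hk x (hs hx)) ?_
      rw [mk_singleton]; exact one_lt_aleph0.trans_le hr.aleph0_le
  exact absurd (mk_le_mk_of_subset h1) (not_le.2 h2)

end order

end Pool.Agent.Work.MP_d95c0d_gt
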