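import Pool.Agent.Work.MP_d95c0d_gt.Base

/-! The local part of the case of a tree with the `κ₀` chain condition: the rank function `Rho`
and the tree `Lt` on `ω₁` that it induces; this tree has no unbounded chain. -/

namespace Pool.Agent.Work.MP_d95c0d_gt
open Set

variable {K : Type} [LinearOrder K]

theorem exists_min [WellFoundedLT K] {Φ : K → Prop} (h : ∃ x, Φ x) : ∃ x, Φ x ∧ ∀ y < x, ¬ Φ y := by
  obtain ⟨x, h1, h2⟩ := (wellFounded_lt (α := K)).has_min {x | Φ x} h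
  exact ⟨x, h1, fun y hy h3 => h2 y h3 hy⟩

section
variable {Q : Type} [Preorder Q] (le : K → K → Q → Prop)

/-- `k` many nonempty sets of nodes that are mutually incomparable. -/
def Wide (k : K) (Sm : Q → Prop) : Prop :=
  ∃ p, Sm p ∧ ∃ Y : K → K → Q → Prop, (∀ i y, Mo (Y i y)) ∧
    (∀ i < k, ∀ r ≤ p, Sm r → ∃ r' ≤ r, Sm r' ∧ ∃ y < k, Y i y r') ∧ (∀ i y r, Y i y r → le y y r) ∧
    ∀ i i' y y' r, Sm r → r ≤ p → Y i y r → Y i' y' r → le y y' r → i = i'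

/-- A chain that is unbounded below `k`. -/
def Long (k : K) (Sm : Q → Prop) : Prop :=
  ∃ p, Sm p ∧ ∃ C : K → Q → Prop, (∀ y, Mo (C y)) ∧ (∀ y r, C y r → le y y r) ∧
    (∀ r ≤ p, Sm r → ∀ x y, C x r → C y r → ∃ r' ≤ r, le x y r' ∨ le y x r') ∧
    ∀ β < k, ∀ r ≤ p, Sm r → ∃ r' ≤ r, Sm r' ∧ ∃ y < k, β ≤ y ∧ C y r'

/-- The reflected tree. -/
structure TL (α : K) : Prop where
  mono : ∀ s t, Mo (le s t)
  left : ∀ {s t p}, le s t p → le s s p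
  right : ∀ {s t p}, le s t p → le t t p
  trans : ∀ {s t u p}, le s t p → le t u p → le s u p
  tree : ∀ {s t u p}, le s u p → le t u p → ∃ q ≤ p, le s t q ∨ le t s q
  lt : ∀ {s t p}, le s t p → s < α
  nW : ¬ Wide le α fun _ => True
  nL : ¬ Long le α fun _ => True

/-- `X` is a chain below `s`. -/
def Chn (X : K → Q → Prop) (s : Q) : Prop :=
  ∀ s' ≤ s, ∀ x y, X x s' → X y s' → ∃ s'' ≤ s', le x y s'' ∨ le y x s''

end

namespace LS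
variable {P : Type} [Preorder P] {w α : K} {Sm : P → Prop} (L : LS P K w α Sm)
  (le : K → K → L.Q1 → Prop)

/-- The value of the collapse at the index `i` is `v`. -/
def Vl (r : L.Q2) (i v : K) : Prop :=
  ∃ r₀, r ≤ r₀ ∧ i ∈ L.cs.dom r₀ ∧ L.cs.val r₀ i (L.cs.res r) v

/-- The set enumerated at `i` is a chain and `s` is below a member of it. -/
def Cov (i s : K) (r : L.Q2) : Prop :=
  ∃ v, L.Vl r i v ∧ Chn le (L.dec v) (L.cs.res r) ∧
    ∃ u, L.dec v u (L.cs.res r) ∧ le s u (L.cs.res r)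

/-- `i` is the first index that covers `s`. -/
def Rho (s i : K) (r : L.Q2) : Prop := L.Cov le i s r ∧ ∀ r' ≤ r, ∀ j < i, ¬ L.Cov le j s r'

/-- The induced tree on `ω₁`. -/
def Lt (i j : K) (r : L.Q2) : Prop :=
  i < j ∧ j < w ∧ ∃ s t, le s t (L.cs.res r) ∧ L.Rho le s i r ∧ L.Rho le t j r

variable {L le}

theorem Vl.mono {r r' : L.Q2} {i v : K} (h : L.Vl r i v) (h' : r' ≤ r) : L.Vl r' i v := by
  obtain ⟨r₀, a, b, c⟩ := h
  exact ⟨r₀, h'.trans a, b, L.cs.val_mono b c (L.cs.res_mono h')⟩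

theorem Vl.unique {r : L.Q2} {i v v' : K} (h : L.Vl r i v) (h' : L.Vl r i v') : v = v' := by
  obtain ⟨r₀, a, b, c⟩ := h
  obtain ⟨r₁, a', b', c'⟩ := h'
  obtain ⟨s, h1, u, h2⟩ := L.cs.val_tot (L.cs.dom_mono a b) (L.cs.res r)
  rw [L.cs.agree a b h1 (L.cs.val_mono b c h1) h2, L.cs.agree a' b' h1 (L.cs.val_mono b' c' h1) h2]

theorem Cov.lt {r : L.Q2} {i s : K} (h : L.Cov le i s r) : i < w := by
  obtain ⟨v, ⟨r₀, -, b, -⟩, -⟩ := h
  exact ((L.sd_iff _).1 (L.cs.sd_dom r₀)).2 i b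

theorem fresh (hw : ∀ C : Set K, C.Countable → (∀ x ∈ C, x < w) → ∃ β < w, ∀ x ∈ C, x < β)
    (X : K → L.Q1 → Prop) (hX : ∀ x, Mo (X x)) (hα : ∀ x s, X x s → x < α) (r : L.Q2) :
    ∃ r' ≤ r, L.cs.res r' = L.cs.res r ∧ ∃ i v, L.Vl r' i v ∧ ∀ x s, L.dec v x s ↔ X x s := by
  obtain ⟨v, h1, h2⟩ := L.code X hX hα
  obtain ⟨a, b⟩ := (L.sd_iff _).1 (L.cs.sd_dom r)
  obtain ⟨i, h3, h4⟩ := hw _ a b
  have h5 : i ∉ L.cs.dom r := fun h => lt_irrefl _ (h4 i h)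
  obtain ⟨r', c1, c2, c3, -, c4⟩ := L.cs.add r {i} (fun _ _ v' => v' = v)
    ((L.sd_iff _).2 ⟨countable_singleton i, fun j hj => by rw [hj]; exact h3⟩)
    fun j hj _ => h1 j (by rw [hj]; exact h3)
  refine ⟨r', c1, c2, i, v, ⟨r', le_rfl, c3 ▸ Or.inr rfl, ?_⟩, h2⟩
  rw [c4 i rfl h5]

section
variable (H : TL le α)
include H

theorem Cov.mono {r r' : L.Q2} {i s : K} (h : L.Cov le i s r) (h' : r' ≤ r) : L.Cov le i s r' := by
  obtain ⟨v, a, b, u, c, d⟩ := h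
  have h1 := L.cs.res_mono h'
  exact ⟨v, a.mono h', fun s' hs => b s' (hs.trans h1), u, L.dec_mono _ _ c h1, H.mono _ _ d h1⟩

theorem Rho.mono {r r' : L.Q2} {i s : K} (h : L.Rho le s i r) (h' : r' ≤ r) : L.Rho le s i r' :=
  ⟨h.1.mono H h', fun q hq => h.2 q (hq.trans h')⟩

theorem mono2 {r r' : L.Q2} {s t : K} (h : le s t (L.cs.res r)) (h' : r' ≤ r) :
    le s t (L.cs.res r') := H.mono _ _ h (L.cs.res_mono h')

theorem tree2 {r : L.Q2} {s t u : K} (h : le s u (L.cs.res r)) (h' : le t u (L.cs.res r)) :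
    ∃ r' ≤ r, le s t (L.cs.res r') ∨ le t s (L.cs.res r') := by
  obtain ⟨q, h1, h2⟩ := H.tree h h'
  obtain ⟨r', h3, h4, -⟩ := L.cs.am h1
  exact ⟨r', h3, h4 ▸ h2⟩

/-- Nodes below comparable nodes are comparable. -/
theorem tree3 {r : L.Q2} {s t u v : K} (h : le s u (L.cs.res r)) (h' : le t v (L.cs.res r))
    (h'' : le u v (L.cs.res r) ∨ le v u (L.cs.res r)) :
    ∃ r' ≤ r, le s t (L.cs.res r') ∨ le t s (L.cs.res r') := by
  rcases h'' with h1 | h1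
  · exact tree2 H (H.trans h h1) h'
  · exact tree2 H h (H.trans h' h1)

theorem Rho.le_of {r : L.Q2} {s t i j : K} (h : L.Rho le s i r) (h' : L.Cov le j t r)
    (hst : le s t (L.cs.res r)) : i ≤ j := by
  obtain ⟨v, a, b, u, c, d⟩ := h'
  exact not_lt.1 fun hj => h.2 r le_rfl j hj ⟨v, a, b, u, c, H.trans hst d⟩

theorem Cov.comp {r : L.Q2} {i s t : K} (h : L.Cov le i s r) (h' : L.Cov le i t r) :
    ∃ r' ≤ r, le s t (L.cs.res r') ∨ le t s (L.cs.res r') := by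
  obtain ⟨v, a, b, u, c, d⟩ := h
  obtain ⟨v', a', -, u', c', d'⟩ := h'
  obtain rfl := a.unique a'
  obtain ⟨q, h1, h2⟩ := b _ le_rfl u u' c c'
  obtain ⟨r₁, h3, h4, -⟩ := L.cs.am h1
  obtain ⟨r₂, h5, h6⟩ := tree3 H (mono2 H d h3) (mono2 H d' h3) (h4 ▸ h2)
  exact ⟨r₂, h5.trans h3, h6⟩

theorem rho_tot [WellFoundedLT K]
    (hw : ∀ C : Set K, C.Countable → (∀ x ∈ C, x < w) → ∃ β < w, ∀ x ∈ C, x < β)
    {r : L.Q2} {s : K} (h : le s s (L.cs.res r)) : ∃ r' ≤ r, ∃ i, L.Rho le s i r' := by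
  obtain ⟨r₁, a, b, i, v, c, d⟩ := fresh hw (fun x _ => x = s) (fun _ _ _ h _ => h)
    (fun x _ hx => hx ▸ H.lt h) r
  obtain ⟨j, ⟨r₂, h1, h2⟩, h3⟩ := exists_min (Φ := fun j => ∃ r' ≤ r, L.Cov le j s r')
    ⟨i, r₁, a, v, c, fun s' hs x y hx hy => ⟨s', le_rfl, Or.inl (by
      rw [(d _ _).1 hx, (d _ _).1 hy]; exact H.mono _ _ h (b ▸ hs))⟩, s, (d _ _).2 rfl, b ▸ h⟩
  exact ⟨r₂, h1, j, h2, fun r' hr i hi hc => h3 i hi ⟨r', hr.trans h1, hc⟩⟩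

theorem lt_mono (i j : K) : Mo (L.Lt le i j) := fun _ _ ⟨a, b, s, t, c, d, e⟩ h =>
  ⟨a, b, s, t, mono2 H c h, d.mono H h, e.mono H h⟩

theorem lt_tree {i j k : K} {r : L.Q2} (h : L.Lt le i k r) (h' : L.Lt le j k r) (hij : i < j) :
    ∃ r' ≤ r, L.Lt le i j r' := by
  obtain ⟨-, -, s, t, c, d, e⟩ := h
  obtain ⟨-, -, s', t', c', d', e'⟩ := h'
  obtain ⟨r₁, h1, h2⟩ := e.1.comp H e'.1
  obtain ⟨r₂, h3, h4⟩ := tree3 H (mono2 H c h1) (mono2 H c' h1) h2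
  have h5 := h3.trans h1
  rcases h4 with h4 | h4
  · exact ⟨r₂, h5, hij, d'.1.lt, s, s', h4, d.mono H h5, d'.mono H h5⟩
  · exact absurd ((d'.mono H h5).le_of H (d.1.mono H h5) h4) (not_le.2 hij)

end

end LS

end Pool.Agent.Work.MP_d95c0d_gt
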