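import Pool.Agent.Work.MP_d95c0d_gt.Phi1A

/-! The branch lemma: the collapse adds no chain on which the rank is unbounded, so the induced
tree on `ω₁` has no unbounded chain. -/

namespace Pool.Agent.Work.MP_d95c0d_gt
open Set

variable {K : Type} [LinearOrder K]

namespace LS
variable {P : Type} [Preorder P] {w α : K} {Sm : P → Prop} {L : LS P K w α Sm}
  {le : K → K → L.Q1 → Prop}

/-- `l` is an initial segment (in reverse order) of the `i`-th Cohen real. -/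
def On (L : LS P K w α Sm) (i : K) : List Bool → L.Q1 → Prop
  | [], _ => True
  | b :: l, s => L.bit i l.length b s ∧ On L i l s

theorem On.mono {i : K} {s s' : L.Q1} (h' : s' ≤ s) : ∀ {l}, L.On i l s → L.On i l s'
  | [], _ => trivial
  | _ :: _, h => ⟨L.bit_mono _ _ _ h.1 h', On.mono h' h.2⟩

theorem On.eq {i : K} {s : L.Q1} : ∀ {l l'}, L.On i l s → L.On i l' s → l.length = l'.length → l = l'
  | [], [], _, _, _ => rfl
  | [], _ :: _, _, _, h => by simp at h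
  | _ :: _, [], _, _, h => by simp at h
  | b :: l, b' :: l', h, h', e => by
    obtain rfl := On.eq h.2 h'.2 (by simpa using e)
    rw [L.bit_fun h.1 h'.1]

theorem On.node {i : K} {s : L.Q1} {nd : List Bool → L.Q2} (hn : ∀ b l, nd (b :: l) ≤ nd l) :
    ∀ {l' l}, L.On i l s → L.On i l' s → l.length ≤ l'.length → nd l' ≤ nd l
  | [], l, h, h', e => (congrArg nd (On.eq h' h (by simpa using e.antisymm' (Nat.zero_le _)))).le
  | b :: l', l, h, h', e => by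
    rcases e.eq_or_lt with e | e
    · exact (congrArg nd (On.eq h' h e.symm)).le
    · exact (hn b l').trans (On.node hn h h'.2 (by simpa [Nat.lt_succ_iff] using e))

theorem bit_tot {i : K} (hi : i < α) (s : L.Q1) (n : ℕ) : ∃ s' ≤ s, ∃ b, L.bit i n b s' := by
  by_cases h : ∃ b, L.bit i n b s
  · exact ⟨s, le_rfl, h⟩
  · obtain ⟨s', h1, h2, -⟩ := L.bit_add s i n true hi (not_exists.1 h)
    exact ⟨s', h1, _, h2⟩

theorem on_split {i i' : K} (hi : i < α) (hi' : i' < α) (hne : i ≠ i') (s : L.Q1) :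
    ∃ s' ≤ s, ∃ l b, L.On i (b :: l) s' ∧ L.On i' ((!b) :: l) s' := by
  obtain ⟨n, hn⟩ := ((L.bit_fin s).image Prod.snd).infinite_compl.nonempty
  obtain ⟨s₁, a1, a2, a3⟩ := L.bit_add s i n true hi fun b h => hn ⟨(i, n), ⟨b, h⟩, rfl⟩
  obtain ⟨s₂, b1, b2, -⟩ := L.bit_add s₁ i' n false hi' fun b h => by
    rcases a3 _ _ _ h with h | h
    · exact hn ⟨(i', n), ⟨b, h⟩, rfl⟩
    · exact hne h.1.symm
  have h : ∀ m, ∃ s' ≤ s₂, (∃ l, l.length = m ∧ L.On i l s' ∧ L.On i' l s') ∨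
      ∃ l b, L.On i (b :: l) s' ∧ L.On i' ((!b) :: l) s' := fun m => by
    induction m with
    | zero => exact ⟨s₂, le_rfl, Or.inl ⟨[], rfl, trivial, trivial⟩⟩
    | succ m ih =>
      obtain ⟨t, c1, ⟨l, c2, c3, c4⟩ | c2⟩ := ih
      · obtain ⟨t₁, d1, b, d2⟩ := bit_tot hi t l.length
        obtain ⟨t₂, d3, b', d4⟩ := bit_tot hi' t₁ l.length
        have d5 := d3.trans d1
        have d6 : L.On i (b :: l) t₂ := ⟨L.bit_mono _ _ _ d2 d3, c3.mono d5⟩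
        have d7 : L.On i' (b' :: l) t₂ := ⟨d4, c4.mono d5⟩
        refine ⟨t₂, d5.trans c1, ?_⟩
        by_cases e : b' = b
        · exact Or.inl ⟨b :: l, by simp [c2], d6, e ▸ d7⟩
        · exact Or.inr ⟨l, b, d6, (Bool.eq_not_iff.2 e) ▸ d7⟩
      · exact ⟨t, c1, Or.inr c2⟩
  obtain ⟨t, c1, ⟨l, c2, c3, c4⟩ | c2⟩ := h (n + 1)
  · obtain ⟨b, l, rfl⟩ := List.exists_cons_of_length_eq_add_one c2
    obtain rfl : l.length = n := by simpa using c2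
    have e1 := L.bit_fun c3.1 (L.bit_mono _ _ _ a2 (c1.trans b1))
    have e2 := L.bit_fun c4.1 (L.bit_mono _ _ _ b2 c1)
    simp [e1] at e2
  · exact ⟨t, c1.trans (b1.trans a1), c2⟩

/-- Below `s` the conditions `c b` decide incomparable members of `D` from the set `C₀`. -/
def Spl (le : K → K → L.Q1 → Prop) (D : K → L.Q2 → Prop) (c : Bool → L.Q2) (C₀ : Set K)
    (s : L.Q1) : Prop :=
  ∀ s' ≤ s, ∃ s'' ≤ s', ∃ x : Bool → K,
    (∀ b, x b ∈ C₀ ∧ ∀ r ≤ c b, L.cs.res r ≤ s'' → D (x b) r) ∧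
    ∀ b, ∀ t ≤ s'', ¬ le (x b) (x (!b)) t

section
variable (H : TL le α)
  (hw : ∀ C : Set K, C.Countable → (∀ x ∈ C, x < w) → ∃ β < w, ∀ x ∈ C, x < β)
  {D : K → L.Q2 → Prop} {p : L.Q2} (hm : ∀ x, Mo (D x)) (hT : ∀ x r, D x r → le x x (L.cs.res r))
  (hc : ∀ r ≤ p, ∀ x y, D x r → D y r → ∃ r' ≤ r, le x y (L.cs.res r') ∨ le y x (L.cs.res r'))
  (hu : ∀ r ≤ p, ∀ β < w, ∃ r' ≤ r, ∃ y j, D y r' ∧ L.Rho le y j r' ∧ β ≤ j)
include H hw hm hT hu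

theorem split0 {r : L.Q2} (hr : r ≤ p) : ∃ s ≤ L.cs.res r, ∃ (c : Bool → L.Q2) (x : Bool → K),
    (∀ b, c b ≤ r ∧ L.cs.res (c b) = s ∧ D (x b) (c b)) ∧
    ∀ b, ∀ t ≤ s, ¬ le (x b) (x (!b)) t := by
  by_contra hn
  obtain ⟨r₁, a1, a2, i, v, a3, a4⟩ := fresh hw (fun x s => ∃ r' ≤ r, s ≤ L.cs.res r' ∧ D x r')
    (fun x _ _ ⟨r', a, b, c⟩ h => ⟨r', a, h.trans b, c⟩) (fun x _ ⟨r', _, _, c⟩ => H.lt (hT x r' c)) r
  have h1 : ∀ s, Chn le (L.dec v) s := fun _ s _ x y hx hy => by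
    obtain ⟨r₀, b1, b2, b3⟩ := (a4 _ _).1 hx
    obtain ⟨r₀', c1, c2, c3⟩ := (a4 _ _).1 hy
    obtain ⟨q, d1, d2, -⟩ := L.cs.am b2
    obtain ⟨q', e1, e2, -⟩ := L.cs.am c2
    by_contra h
    refine hn ⟨s, b2.trans (L.cs.res_mono b1), fun b => cond b q q', fun b => cond b x y, ?_, ?_⟩
    · rintro (_ | _)
      · exact ⟨e1.trans c1, e2, hm _ c3 e1⟩
      · exact ⟨d1.trans b1, d2, hm _ b3 d1⟩
    · rintro (_ | _) t ht h'
      · exact h ⟨t, ht, Or.inr h'⟩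
      · exact h ⟨t, ht, Or.inl h'⟩
  have hi : i < w := by
    obtain ⟨r₀, -, b, -⟩ := a3
    exact ((L.sd_iff _).1 (L.cs.sd_dom r₀)).2 i b
  obtain ⟨β, b1, b2⟩ := hw {i} (countable_singleton i) fun j hj => by rw [hj]; exact hi
  obtain ⟨r₂, c1, y, j, c2, c3, c4⟩ := hu r₁ (a1.trans hr) β b1
  exact c3.2 r₂ le_rfl i ((b2 i rfl).trans_le c4) ⟨v, a3.mono c1, h1 _, y,
    (a4 _ _).2 ⟨r₂, c1.trans a1, le_rfl, c2⟩, hT _ _ c2⟩

theorem split1 {r : L.Q2} (hr : r ≤ p) {s₀ : L.Q1} (hs : s₀ ≤ L.cs.res r) :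
    ∃ s, L.aa1.st s s₀ ∧ ∃ (c : Bool → L.Q2) (C₀ : Set K), C₀.Countable ∧
      (∀ b, c b ≤ r ∧ s ≤ L.cs.res (c b)) ∧ Spl le D c C₀ s := by
  obtain ⟨s, a1, S, a2, a3, a4, a5⟩ := L.aa1.anti s₀ (fun a => ∃ (c : Bool → L.Q2) (x : Bool → K),
      (∀ b, c b ≤ r ∧ L.cs.res (c b) = a ∧ D (x b) (c b)) ∧ ∀ b, ∀ t ≤ a, ¬ le (x b) (x (!b)) t)
    fun q hq => by
      obtain ⟨r', b1, b2, -⟩ := L.cs.am (hq.trans hs)
      obtain ⟨t, c1, c, x, c2, c3⟩ := split0 H hw hm hT hu (b1.trans hr)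
      exact ⟨t, b2 ▸ c1, c, x, fun b => ⟨(c2 b).1.trans b1, (c2 b).2⟩, c3⟩
  choose c x b1 b2 using fun a : S => (a3 a.1 a.2).1
  choose g g1 g2 g3 using fun b => L.cs.mixA r ((L.aa1.st_le a1).trans hs) a2 a4 (fun a => c a b)
    fun a => ⟨(b1 a b).1, (b1 a b).2.1.ge⟩
  have := a2.to_subtype
  refine ⟨s, a1, g, ⋃ a, range (x a), countable_iUnion fun a => countable_range _,
    fun b => ⟨g1 b, (g2 b).ge⟩, fun s' hs' => ?_⟩
  obtain ⟨a, ha, t, c1, c2⟩ := a5 s' hs'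
  exact ⟨t, c1, x ⟨a, ha⟩, fun b => ⟨mem_iUnion.2 ⟨_, b, rfl⟩, fun q hq h =>
    hm _ (b1 ⟨a, ha⟩ b).2.2 (g3 b ⟨a, ha⟩ q hq (h.trans c2))⟩,
    fun b u hu => b2 ⟨a, ha⟩ b u (hu.trans c2)⟩

theorem split2 : ∃ (s : L.Q1) (nd : List Bool → L.Q2) (C₀ : Set K), C₀.Countable ∧
    (∀ l, nd l ≤ p ∧ s ≤ L.cs.res (nd l)) ∧ (∀ b l, nd (b :: l) ≤ nd l) ∧
    ∀ l, Spl le D (fun b => nd (b :: l)) C₀ s := by
  let St := {σ : L.Q1 × (List Bool → L.Q2) // ∀ l, σ.2 l ≤ p ∧ σ.1 ≤ L.cs.res (σ.2 l)}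
  have h1 : ∀ σ : St, ∃ σ' : St, L.aa1.st σ'.1.1 σ.1.1 ∧ ∃ C₀ : Set K, C₀.Countable ∧
      (∀ b l, σ'.1.2 (b :: l) ≤ σ.1.2 l) ∧ ∀ l, Spl le D (fun b => σ'.1.2 (b :: l)) C₀ σ'.1.1 :=
    fun σ => by
    obtain ⟨s, a1, a2⟩ := L.aa1.seq σ.1.1 (fun (l : List Bool) q => ∃ (c : Bool → L.Q2)
        (C₀ : Set K), C₀.Countable ∧ (∀ b, c b ≤ σ.1.2 l ∧ q ≤ L.cs.res (c b)) ∧ Spl le D c C₀ q)
      (fun l q q' ⟨c, C₀, b1, b2, b3⟩ h => ⟨c, C₀, b1,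
        fun b => ⟨(b2 b).1, (L.aa1.st_le h).trans (b2 b).2⟩,
        fun t ht => b3 t (ht.trans (L.aa1.st_le h))⟩)
      fun l q hq => split1 H hw hm hT hu (σ.2 l).1 ((L.aa1.st_le hq).trans (σ.2 l).2)
    choose c C b1 b2 b3 using a2
    refine ⟨⟨(s, fun l => List.casesOn l (σ.1.2 []) fun b l => c l b), ?_⟩, a1, ⋃ l, C l,
      countable_iUnion b1, fun b l => (b2 l b).1, fun l t ht => ?_⟩
    · rintro (_ | ⟨b, l⟩)
      · exact ⟨(σ.2 []).1, (L.aa1.st_le a1).trans (σ.2 []).2⟩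
      · exact ⟨(b2 l b).1.trans (σ.2 l).1, (b2 l b).2⟩
    · obtain ⟨t', c1, x, c2, c3⟩ := b3 l t ht
      exact ⟨t', c1, x, fun b => ⟨mem_iUnion.2 ⟨l, (c2 b).1⟩, (c2 b).2⟩, c3⟩
  choose nx h2 C h3 h4 h5 using h1
  let f : ℕ → St := fun n => Nat.rec ⟨(L.cs.res p, fun _ => p), fun _ => ⟨le_rfl, le_rfl⟩⟩
    (fun _ => nx) n
  obtain ⟨s, hs⟩ := L.aa1.closed (fun n => (f n).1.1) fun n => h2 (f n)
  refine ⟨s, fun l => (f l.length).1.2 l, ⋃ n, C (f n), countable_iUnion fun n => h3 _,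
    fun l => ⟨((f _).2 l).1, (L.aa1.st_le (hs _)).trans ((f _).2 l).2⟩,
    fun b l => h4 (f l.length) b l, fun l t ht => ?_⟩
  obtain ⟨t', c1, x, c2, c3⟩ := h5 (f l.length) l t (ht.trans (L.aa1.st_le (hs (l.length + 1))))
  exact ⟨t', c1, x, fun b => ⟨mem_iUnion.2 ⟨_, (c2 b).1⟩, (c2 b).2⟩, c3⟩

include hc in
theorem noD [WellFoundedLT K] : False := by
  obtain ⟨s₀, nd, C₀, a1, a2, a3, a4⟩ := split2 H hw hm hT hu
  refine H.nW ⟨s₀, trivial, fun i y s => i < α ∧ ∃ r, s ≤ L.cs.res r ∧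
    (∀ l, ∀ r' ≤ r, L.On i l (L.cs.res r') → r' ≤ nd l) ∧ D y r ∧
    ∀ r' ≤ r, ∀ x ∈ C₀, D x r' → ∃ r'' ≤ r', le x y (L.cs.res r''),
    fun i y _ _ ⟨b1, r, b2, b3⟩ h => ⟨b1, r, h.trans b2, b3⟩, fun i hi s hs _ => ?_,
    fun i y s ⟨_, r, b2, _, b3, _⟩ => H.mono _ _ (hT _ _ b3) b2, ?_⟩
  · have b0 : ∀ l, s ≤ L.cs.res (nd l) := fun l => hs.trans (a2 l).2
    obtain ⟨q, b1, b2, b3, b4⟩ := L.cs.am ((b0 []).trans (L.cs.res_mono (a2 []).1))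
    obtain ⟨g, g1, g2, -, g3, -⟩ := L.cs.mix q (fun l t => L.On i l t) nd ∅
      (L.cs.sd_sub (L.cs.sd_dom q) (empty_subset _)) (fun l => L.gd_all _ fun _ _ h h' => h.mono h')
      (fun l l' t ht h h' j hj hj' v v' c1 c2 => by
        rcases le_total l.length l'.length with e | e
        · exact L.cs.agree (On.node a3 h h' e) hj (ht.trans (b2 ▸ b0 l')) c1 c2
        · exact (L.cs.agree (On.node a3 h' h e) hj' (ht.trans (b2 ▸ b0 l)) c2 c1).symm)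
      fun l t ht _ => ⟨ht.trans (b2 ▸ b0 l), fun j hj _ v v' c1 c2 => by
        rw [b3] at hj
        rw [b4 j hj] at c1
        exact L.cs.agree (a2 l).1 hj (ht.trans (b2 ▸ b0 l)) c1 c2⟩
    have := a1.to_subtype
    obtain ⟨q₁, c1, C, c2, c3⟩ := L.aa2.cov g
      (fun (x : C₀) γ r => L.Rho le x γ r ∨ ∀ r' ≤ r, ¬ D x r')
      (fun x γ r r' h h' => h.imp (fun h => h.mono H h') fun h t ht => h t (ht.trans h'))
      fun x r _ => by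
        by_cases h : ∃ r' ≤ r, D x r'
        · obtain ⟨r', d1, d2⟩ := h
          obtain ⟨r'', d3, γ, d4⟩ := rho_tot H hw (hT _ _ d2)
          exact ⟨r'', d3.trans d1, γ, Or.inl d4⟩
        · exact ⟨r, le_rfl, w, Or.inr fun r' h1 h2 => h ⟨r', h1, h2⟩⟩
    have c4 := L.aa2.st_le c1
    obtain ⟨β, d1, d2⟩ := hw (C ∩ Iio w) (c2.mono inter_subset_left) fun x hx => hx.2
    obtain ⟨r, e1, y, j, e2, e3, e4⟩ := hu q₁ (c4.trans (g1.trans b1)) β d1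
    refine ⟨L.cs.res r, (L.cs.res_mono (e1.trans c4)).trans (g2.trans b2).le, trivial, y,
      H.lt (hT _ _ e2), hi, r, le_rfl, fun l r' hr => g3 l r' (hr.trans (e1.trans c4)), e2,
      fun r' hr x hx hD => ?_⟩
    obtain ⟨r₁, f1, γ, f2, f3 | f3⟩ := c3 ⟨x, hx⟩ r' (hr.trans e1)
    · obtain ⟨r₂, f4, f5 | f5⟩ := hc r₁ (f1.trans (hr.trans (e1.trans (c4.trans (g1.trans b1)))))
        x y (hm _ hD f1) (hm _ e2 (f1.trans hr))
      · exact ⟨r₂, f4.trans f1, f5⟩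
      · exact absurd ((e3.mono H (f4.trans (f1.trans hr))).le_of H (f3.1.mono H f4) f5)
          (not_le.2 ((d2 γ ⟨f2, f3.1.lt⟩).trans_le e4))
    · exact absurd (hm _ hD f1) (f3 r₁ le_rfl)
  · rintro i i' y y' s - hs ⟨b1, r, b2, b3, -, b4⟩ ⟨c1, r', c2, c3, -, c4⟩ h
    by_contra hne
    obtain ⟨s₁, d1, l, b, d2, d3⟩ := on_split b1 c1 hne s
    obtain ⟨s₂, e1, x, e2, e3⟩ := a4 l s₁ (d1.trans hs)
    obtain ⟨r₁, f1, f2, -⟩ := L.cs.am (e1.trans (d1.trans b2))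
    obtain ⟨r₂, f3, f4⟩ := b4 r₁ f1 _ (e2 b).1 ((e2 b).2 r₁ (b3 _ r₁ f1 (d2.mono (f2 ▸ e1))) f2.le)
    have f5 : L.cs.res r₂ ≤ s₂ := f2 ▸ L.cs.res_mono f3
    obtain ⟨r₃, g1, g2, -⟩ := L.cs.am (f5.trans (e1.trans (d1.trans c2)))
    obtain ⟨r₄, g3, g4⟩ := c4 r₃ g1 _ (e2 (!b)).1
      ((e2 (!b)).2 r₃ (c3 _ r₃ g1 (d3.mono (g2 ▸ f5.trans e1))) (g2 ▸ f5))
    have g5 : L.cs.res r₄ ≤ L.cs.res r₂ := g2 ▸ L.cs.res_mono g3
    obtain ⟨t, k1, k2 | k2⟩ := H.tree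
      (H.trans (H.mono _ _ f4 g5) (H.mono _ _ h (g5.trans (f5.trans (e1.trans d1))))) g4
    · exact e3 b t (k1.trans (g5.trans f5)) k2
    · exact e3 (!b) t (k1.trans (g5.trans f5)) (by rwa [Bool.not_not])

end

theorem good [WellFoundedLT K] (H : TL le α)
    (hw : ∀ C : Set K, C.Countable → (∀ x ∈ C, x < w) → ∃ β < w, ∀ x ∈ C, x < β) :
    Good w (L.Lt le) := by
  refine ⟨lt_mono H, fun h => ⟨h.1, h.2.1⟩, fun h h' => lt_tree H h h', fun C hm p hc => ?_⟩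
  by_contra hn
  have hu : ∀ q ≤ p, ∀ β < w, ∃ r ≤ q, ∃ i < w, C i r ∧ β ≤ i := fun q hq β hβ => by
    by_contra h
    exact hn ⟨q, hq, β, hβ, fun r hr i hi hC => not_le.1 fun h' => h ⟨r, hr, i, hi, hC, h'⟩⟩
  refine noD (p := p) (D := fun x r => ∃ y j, le x y (L.cs.res r) ∧ L.Rho le y j r ∧ C j r ∧
    ∃ i < j, L.Rho le x i r) H hw
    (fun x r r' ⟨y, j, a, b, c, i, d, e⟩ h => ⟨y, j, mono2 H a h, b.mono H h, hm _ c h, i, d,
      e.mono H h⟩) (fun x r ⟨y, j, a, _⟩ => H.left a) ?_ fun r hr β hβ => ?_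
  · have key : ∀ r ≤ p, ∀ x y j x' y' j' i, le x y (L.cs.res r) → L.Rho le y j r → C j r → i < j →
        L.Rho le x i r → le x' y' (L.cs.res r) → L.Rho le y' j' r → C j' r → j < j' →
        ∃ r' ≤ r, le x x' (L.cs.res r') ∨ le x' x (L.cs.res r') := by
      intro r hr x y j x' y' j' i a b c d e a' b' c' h
      obtain ⟨r₁, f1, -, -, s, t, f2, f3, f4⟩ := hc r hr j j' c c' h
      obtain ⟨r₂, g1, g2⟩ := (b.1.mono H f1).comp H f3.1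
      obtain ⟨r₃, g3, g4⟩ := tree3 H (mono2 H a (g1.trans f1)) (mono2 H (H.left f2) g1) g2
      have g5 := g3.trans g1
      rcases g4 with g4 | g4
      · obtain ⟨r₄, k1, k2⟩ := (f4.1.mono H g5).comp H (b'.1.mono H (g5.trans f1))
        obtain ⟨r₅, k3, k4⟩ := tree3 H (mono2 H (H.trans g4 (mono2 H f2 g5)) k1)
          (mono2 H a' (k1.trans (g5.trans f1))) k2
        exact ⟨r₅, k3.trans (k1.trans (g5.trans f1)), k4⟩
      · exact absurd ((f3.mono H g5).le_of H (e.1.mono H (g5.trans f1)) g4) (not_le.2 d)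
    rintro r hr x x' ⟨y, j, a, b, c, i, d, e⟩ ⟨y', j', a', b', c', i', d', e'⟩
    rcases lt_trichotomy j j' with h | rfl | h
    · exact key r hr x y j x' y' j' i a b c d e a' b' c' h
    · obtain ⟨r₁, f1, f2⟩ := b.1.comp H b'.1
      obtain ⟨r₂, f3, f4⟩ := tree3 H (mono2 H a f1) (mono2 H a' f1) f2
      exact ⟨r₂, f3.trans f1, f4⟩
    · obtain ⟨r', f1, f2⟩ := key r hr x' y' j' x y j i' a' b' c' d' e' a b c h
      exact ⟨r', f1, f2.symm⟩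
  · obtain ⟨r₁, a1, i, a2, a3, a4⟩ := hu r hr β hβ
    obtain ⟨γ, b1, b2⟩ := hw {i} (countable_singleton i) fun j hj => by rw [hj]; exact a2
    obtain ⟨r₂, c1, j, -, c2, c3⟩ := hu r₁ (a1.trans hr) γ b1
    have hij := (b2 i rfl).trans_le c3
    obtain ⟨r₃, d1, -, -, s, t, d2, d3, d4⟩ := hc r₂ (c1.trans (a1.trans hr)) i j (hm _ a3 c1) c2 hij
    exact ⟨r₃, d1.trans (c1.trans a1), s, i, ⟨t, j, d2, d4, hm _ c2 d1, i, hij, d3⟩, d3, a4⟩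

end LS

end Pool.Agent.Work.MP_d95c0d_gt
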