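import Pool.Agent.Work.MP_d95c0d_gt.Base

/-! Traces of families of conditions along a complete ultrafilter and the ultrafilter game. -/

namespace Pool.Agent.Work.MP_d95c0d_gt
open Set Cardinal Filter

variable {P K : Type} [Preorder P] [LinearOrder K] [OrderBot K]

theorem ev_ch {A B : Type} [h₀ : Nonempty B] {l : Filter A} {r : A → B → Prop}
    (h : ∀ᶠ x in l, ∃ y, r x y) : ∃ f : A → B, ∀ᶠ x in l, r x (f x) := by
  classical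
  exact ⟨fun x => if h : ∃ y, r x y then h.choose else h₀.some,
    h.mono fun x hx => by simp only [dif_pos hx]; exact hx.choose_spec⟩

/-- Completeness of an ultrafilter. -/
def Cpl {W : Type} (κ : Cardinal.{0}) (V : Ultrafilter W) : Prop :=
  ∀ S : Set (Set W), #S < κ → (∀ A ∈ S, A ∈ V) → ⋂₀ S ∈ V

namespace Cpl
variable {W : Type} {κ : Cardinal.{0}} {V : Ultrafilter W} (hV : Cpl κ V)
include hV

theorem all {β : Type} {T : Set β} (hT : #T < κ) {Φ : β → W → Prop}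
    (h : ∀ x ∈ T, ∀ᶠ z in (V : Filter W), Φ x z) : ∀ᶠ z in (V : Filter W), ∀ x ∈ T, Φ x z := by
  have h1 := hV ((fun x => {z | Φ x z}) '' T) (mk_image_le.trans_lt hT) (by
    rintro _ ⟨x, hx, rfl⟩; exact h x hx)
  filter_upwards [h1] with z hz x hx
  exact hz _ ⟨x, hx, rfl⟩

theorem ex {β : Type} {T : Set β} (hT : #T < κ) {Φ : β → W → Prop}
    (h : ∀ᶠ z in (V : Filter W), ∃ x ∈ T, Φ x z) : ∃ x ∈ T, ∀ᶠ z in (V : Filter W), Φ x z := by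
  by_contra hn
  have h1 := hV.all hT (Φ := fun x z => ¬ Φ x z) fun x hx =>
    Ultrafilter.eventually_not.2 fun h' => hn ⟨x, hx, h'⟩
  obtain ⟨z, ⟨x, a, b⟩, c⟩ := (h.and h1).exists
  exact c x a b

end Cpl

namespace Sys
variable (S : Sys P K)

theorem a1 : ℵ₀ < S.κ₁ := S.h0.trans S.h01

theorem cnt1 {β : Type} {T : Set β} (h : T.Countable) : #T < S.κ₁ :=
  (le_aleph0_iff_set_countable.2 h).trans_lt S.a1

theorem dom0 (p : P) : #(S.cs.dom p) < S.κ₀ := ((S.sd_iff _).1 (S.cs.sd_dom p)).1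

theorem dom1 (p : P) : #(S.cs.dom p) < S.κ₁ := (S.dom0 p).trans S.h01

theorem sd_empty : S.cs.SD ∅ := (S.sd_iff _).2 ⟨by simpa using aleph0_pos.trans S.h0, by simp⟩

theorem dom_bdd (p : P) : ∃ β < S.k, ∀ i ∈ S.cs.dom p, i.2 < β := by
  obtain ⟨β, a, b⟩ := S.bdd_k (Prod.snd '' S.cs.dom p) (mk_image_le.trans_lt (S.dom0 p)) (by
    rintro _ ⟨i, hi, rfl⟩; exact ((S.sd_iff _).1 (S.cs.sd_dom p)).2 i hi)
  exact ⟨β, a, fun i hi => b _ ⟨i, hi, rfl⟩⟩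

/-- A constant value at a new index. -/
theorem add1 (p : P) {i : K × K} {v : K} (hi : i ∉ S.cs.dom p) (h2 : i.2 < S.k) (hv : v < i.1) :
    ∃ p' ≤ p, i ∈ S.cs.dom p' ∧ ∀ s v', S.cs.val p' i s v' → v' = v := by
  obtain ⟨p', a, -, b, -, c⟩ := S.cs.add p {i} (fun _ _ v' => v' = v)
    ((S.sd_iff _).2 ⟨by simpa using one_lt_aleph0.trans S.h0, fun j hj => by rw [hj]; exact h2⟩)
    fun j hj _ => by rw [hj]; exact S.nm_const i v h2 hv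
  refine ⟨p', a, b ▸ Or.inr rfl, fun s v' h => ?_⟩
  rwa [c i rfl hi] at h

/-- The value at `i` is forced to be different from the default value. -/
def NZ (i : K × K) (r : P) : Prop :=
  i ∈ S.cs.dom r ∧ ∀ s ≤ S.cs.res r, ¬ S.cs.val r i s ⊥

theorem nz_mono (i : K × K) : Mo (S.NZ i) := fun r r' h hr =>
  ⟨S.cs.dom_mono hr h.1, fun s hs hv => by
    obtain ⟨s', a, v, b⟩ := S.cs.val_tot h.1 s
    have := S.cs.agree hr h.1 (a.trans hs) b (S.cs.val_mono (S.cs.dom_mono hr h.1) hv a)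
    exact h.2 s' (a.trans (hs.trans (S.cs.res_mono hr))) (this ▸ b)⟩

theorem not_nz {i : K × K} {g r : P} (hr : r ≤ g) (hi : i ∈ S.cs.dom g) {s : S.Q}
    (hs : s ≤ S.cs.res r) (hv : S.cs.val g i s ⊥) : ¬ S.NZ i r := fun h => by
  obtain ⟨s', a, v, b⟩ := S.cs.val_tot h.1 s
  have := S.cs.agree hr hi (a.trans hs) (S.cs.val_mono hi hv a) b
  exact h.2 s' (a.trans hs) (this ▸ b)

theorem not_nz' {i : K × K} {g r : P} (hr : r ≤ g) (hi : i ∈ S.cs.dom g)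
    (hv : ∀ s v, S.cs.val g i s v → v = ⊥) : ¬ S.NZ i r := by
  obtain ⟨s, a, v, b⟩ := S.cs.val_tot hi (S.cs.res r)
  exact S.not_nz hr hi a (hv _ _ b ▸ b)

variable {W : Type} (V : Ultrafilter W)

/-- `p` is the trace of the family `f`. -/
def Tr (p : P) (f : W → P) : Prop :=
  (∀ᶠ z in (V : Filter W), S.cs.res (f z) = S.cs.res p) ∧ ∀ i,
    (i ∈ S.cs.dom p → ∀ᶠ z in (V : Filter W),
      i ∈ S.cs.dom (f z) ∧ S.cs.val (f z) i = S.cs.val p i) ∧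
    (i ∉ S.cs.dom p → ∀ᶠ z in (V : Filter W), i ∉ S.cs.dom (f z))

theorem tr_const (p : P) : S.Tr V p fun _ => p :=
  ⟨Eventually.of_forall fun _ => rfl, fun _ => ⟨fun h => Eventually.of_forall fun _ => ⟨h, rfl⟩,
    fun h => Eventually.of_forall fun _ => h⟩⟩

theorem mk_names (x : K) :
    #{H : S.Q → K → Prop | ∀ s v, H s v → v < x ∨ v = ⊥} < S.κ₁ := by
  have h1 : #(insert ⊥ (Iio x) : Set K) < S.κ₁ :=
    mk_insert_le.trans_lt (add_lt_of_lt S.a1.le (S.mk_Iio x) (one_lt_aleph0.trans S.a1))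
  have h2 := S.slim _ (mul_lt_of_lt S.a1.le S.mkQ h1)
  refine lt_of_le_of_lt ?_ h2
  rw [mul_def, ← mk_set]
  refine mk_le_of_injective (f := fun H => {y | H.1 y.1 y.2.1}) fun H H' h => ?_
  ext s v
  constructor
  · intro h3
    exact (Set.ext_iff.1 h (s, ⟨v, (H.2 s v h3).symm⟩)).1 h3
  · intro h3
    exact (Set.ext_iff.1 h (s, ⟨v, (H'.2 s v h3).symm⟩)).2 h3

variable {S V}

theorem Tr.below {p q : P} {f : W → P} (h : S.Tr V p f) (hq : ∀ᶠ z in (V : Filter W), f z ≤ q) :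
    p ≤ q := by
  have hd : S.cs.dom q ⊆ S.cs.dom p := fun i hi => by_contra fun hn => by
    obtain ⟨z, a, b⟩ := (((h.2 i).2 hn).and hq).exists
    exact a (S.cs.dom_mono b hi)
  refine S.cs.le_iff.2 ⟨?_, hd, fun i hi s hs v v' a b => ?_⟩
  · obtain ⟨z, a, b⟩ := (h.1.and hq).exists
    exact a ▸ S.cs.res_mono b
  · obtain ⟨z, c, d, e⟩ := (h.1.and (hq.and ((h.2 i).1 (hd hi)))).exists
    exact S.cs.agree d hi (c ▸ hs) a (e.2 ▸ b)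

variable (hV : Cpl S.κ₁ V)
include hV

theorem exists_tr (f : W → P) : ∃ p, S.Tr V p f := by
  obtain ⟨s, -, hs⟩ := hV.ex (T := univ) (by simpa using S.mkQ)
    (Φ := fun s z => S.cs.res (f z) = s) (Eventually.of_forall fun z => ⟨_, trivial, rfl⟩)
  let D : Set (K × K) := {i | ∀ᶠ z in (V : Filter W), i ∈ S.cs.dom (f z)}
  have h1 : ∀ i, ∃ H : S.Q → K → Prop, i ∈ D →
      ∀ᶠ z in (V : Filter W), i ∈ S.cs.dom (f z) ∧ S.cs.val (f z) i = H := fun i => by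
    by_cases hi : i ∈ D
    · obtain ⟨H, -, hH⟩ := hV.ex (S.mk_names i.1)
        (Φ := fun H z => i ∈ S.cs.dom (f z) ∧ S.cs.val (f z) i = H)
        (Eventually.mono hi fun z hz => ⟨_, fun s v h => S.nm_lt (S.cs.nm_val hz) h, hz, rfl⟩)
      exact ⟨H, fun _ => hH⟩
    · exact ⟨fun _ _ => True, fun h => absurd h hi⟩
  choose H hH using h1
  have hD : S.cs.SD D := by
    refine (S.sd_iff _).2 ⟨not_le.1 fun hn => ?_, fun i hi => ?_⟩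
    · obtain ⟨D', a, b⟩ := le_mk_iff_exists_subset.1 hn
      obtain ⟨z, hz⟩ := (hV.all (b ▸ S.h01) fun i hi => a hi).exists
      exact absurd (b ▸ mk_le_mk_of_subset hz) (not_le.2 (S.dom0 (f z)))
    · obtain ⟨z, hz⟩ := Eventually.exists hi
      exact ((S.sd_iff _).1 (S.cs.sd_dom (f z))).2 i hz
  obtain ⟨p, a, b, c⟩ := S.cs.make s D H hD fun i hi => by
    obtain ⟨z, hz⟩ := (hH i hi).exists
    exact hz.2 ▸ S.cs.nm_val hz.1
  refine ⟨p, a ▸ hs, fun i => ⟨fun hi => ?_, fun hi => ?_⟩⟩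
  · rw [b] at hi
    rw [c i hi]; exact hH i hi
  · rw [b] at hi
    exact Ultrafilter.eventually_not.2 hi

theorem Tr.on {p : P} {f : W → P} (h : S.Tr V p f) (q : P) : ∀ᶠ z in (V : Filter W),
    S.cs.res (f z) = S.cs.res p ∧ ∀ i ∈ S.cs.dom q, i ∈ S.cs.dom (f z) →
      i ∈ S.cs.dom p ∧ S.cs.val (f z) i = S.cs.val p i := by
  refine h.1.and (hV.all (S.dom1 q) fun i _ => ?_)
  by_cases hi : i ∈ S.cs.dom p
  · exact ((h.2 i).1 hi).mono fun z hz _ => ⟨hi, hz.2⟩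
  · exact ((h.2 i).2 hi).mono fun z hz h' => absurd h' hz

theorem Tr.compat {p q : P} {f : W → P} (h : S.Tr V p f) (hq : q ≤ p) (I : W → Set (K × K))
    (hI : ∀ z, S.cs.SD (I z)) : ∀ᶠ z in (V : Filter W), ∃ g ≤ q, g ≤ f z ∧
      S.cs.dom g = S.cs.dom q ∪ (S.cs.dom (f z) ∪ I z) ∧
      ∀ i ∈ I z, i ∉ S.cs.dom q → i ∉ S.cs.dom (f z) → ∀ r ≤ g, ¬ S.NZ i r := by
  filter_upwards [h.on hV q] with z ⟨a, b⟩
  obtain ⟨g, g1, g2, g3, g4, g5⟩ := S.cs.mix q (J := Unit) (fun _ s => s ≤ S.cs.res q)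
    (fun _ => f z) (I z) (hI z) (fun _ => S.cs.gd_le _)
    (fun _ _ s _ _ _ i hi _ v v' c d => S.cs.val_fun hi c d)
    fun _ s hs _ => ⟨a ▸ hs.trans (S.cs.res_mono hq), fun i hi hi' v v' c d =>
      (S.cs.agree hq (b i hi hi').1 hs ((b i hi hi').2 ▸ d) c).symm⟩
  rw [iUnion_const] at g3
  have hd : ∀ i ∈ I z, i ∈ S.cs.dom g := fun i hi => g3 ▸ Or.inr (Or.inr hi)
  refine ⟨g, g1, g4 () g le_rfl g2.le, g3, fun i hi h1 h2 r hr => S.not_nz' hr (hd i hi)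
    fun s v hv => ?_⟩
  rcases g5 i (hd i hi) h1 s v hv with c | ⟨_, c, -⟩
  · exact c.trans S.dflt_eq
  · exact absurd c h2

theorem Tr.dense {p : P} {f : W → P} (h : S.Tr V p f) {X : P → Prop} (hm : Mo X)
    (hX : ∀ᶠ z in (V : Filter W), X (f z)) : ∀ q ≤ p, ∃ r ≤ q, X r := fun q hq => by
  obtain ⟨z, ⟨g, a, b, -⟩, c⟩ := ((h.compat hV hq _ fun _ => S.sd_empty).and hX).exists
  exact ⟨g, a, hm c b⟩

/-- The ultrafilter game. -/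
theorem ug {ι : Type} (T : NT0 P ι) (B : W → ι → ℕ → P → Prop) (J : W → ι → P → Prop)
    (f0 : W → P) (t0 : ι) (h0 : ∀ᶠ z in (V : Filter W), T.le t0 t0 (f0 z) ∧ J z t0 (f0 z))
    (step : ∀ n p t f q t', S.Tr V p f → (∀ᶠ z in (V : Filter W), J z t (f z)) → q ≤ p →
      T.le t t' q → ∃ t'', ∃ f'' : W → P, ∀ᶠ z in (V : Filter W), J z t'' (f'' z) ∧
        f'' z ≤ f z ∧ f'' z ≤ q ∧ T.le t' t'' (f'' z) ∧ B z t'' n (f'' z)) :
    ∃ t₁, ∃ D0 : Set (K × K), #D0 < S.κ₁ ∧ ∀ I : W → Set (K × K), (∀ z, S.cs.SD (I z)) →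
      ∀ᶠ z in (V : Filter W), ∃ g ≤ f0 z, T.le t₁ t₁ g ∧
        (∀ n, ∀ r ≤ g, ∃ r' ≤ r, ∃ t h, r' ≤ h ∧ B z t n h ∧ T.le t t₁ r') ∧
        ∀ i ∈ I z, i ∉ D0 → ∀ r ≤ g, S.NZ i r →
          ∃ r' ≤ r, ∃ t h, J z t h ∧ i ∈ S.cs.dom h ∧ r' ≤ h ∧ T.le t t₁ r' := by
  let St := {σ : P × ι × (W → P) // S.Tr V σ.1 σ.2.2 ∧ T.le σ.2.1 σ.2.1 σ.1 ∧
    ∀ᶠ z in (V : Filter W), J z σ.2.1 (σ.2.2 z)}
  obtain ⟨p0, hp0⟩ := exists_tr hV f0
  let σ0 : St := ⟨(p0, t0, f0), hp0,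
    T.reg (hp0.dense hV (T.mono _ _) (h0.mono fun _ h => h.1)), h0.mono fun _ h => h.2⟩
  obtain ⟨L, q, t₁, l0, -, l1, l2, l3⟩ := T.game (S := St) (fun σ => σ.1.1) (fun σ => σ.1.2.1)
    (fun n σ σ' => σ'.1.1 ≤ σ.1.1 ∧ T.le σ.1.2.1 σ'.1.2.1 σ'.1.1 ∧ ∀ᶠ z in (V : Filter W),
      σ'.1.2.2 z ≤ σ.1.2.2 z ∧ B z σ'.1.2.1 n (σ'.1.2.2 z)) (fun σ => σ.2.2.1)
    (fun n σ q hq t' ht' => by
      obtain ⟨t'', f'', h⟩ := step n _ _ _ q t' σ.2.1 σ.2.2.2 hq ht'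
      obtain ⟨p'', hp⟩ := exists_tr hV f''
      have a : p'' ≤ q := hp.below (h.mono fun _ h => h.2.2.1)
      have b : T.le t' t'' p'' := T.reg (hp.dense hV (T.mono _ _) (h.mono fun _ h => h.2.2.2.1))
      exact ⟨⟨(p'', t'', f''), hp, T.right b, h.mono fun _ h => h.1⟩,
        ⟨a.trans hq, T.trans (T.mono _ _ ht' a) b, h.mono fun _ h => ⟨h.2.1, h.2.2.2.2⟩⟩, a, b⟩) σ0
  have coh : ∀ n m, n ≤ m → ∀ σ ∈ L n, ∀ σ' ∈ L m, ∀ r, r ≤ σ.1.1 → r ≤ σ'.1.1 →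
      T.le σ.1.2.1 t₁ r → T.le σ'.1.2.1 t₁ r →
      ∀ᶠ z in (V : Filter W), σ'.1.2.2 z ≤ σ.1.2.2 z := by
    intro n m hnm σ hσ
    induction m, hnm using Nat.le_induction with
    | base =>
      intro σ' hσ' r a b c d
      obtain rfl := l2 n σ hσ σ' hσ' r a b c d
      exact Eventually.of_forall fun _ => le_rfl
    | succ m _ ih =>
      intro σ' hσ' r a b c d
      obtain ⟨σ'', e, e1, e2, e3⟩ := l1 m σ' hσ'
      filter_upwards [ih σ'' e r a (b.trans e1) c (T.trans (T.mono _ _ e2 b) d), e3] with z h1 h2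
      exact h2.1.trans h1
  obtain ⟨q', -, hq'⟩ := S.cs.fuse S.aaQ q
    (fun n c => ∃ σ ∈ L n, c ≤ σ.1.1 ∧ T.le σ.1.2.1 t₁ c) l3
  choose A a1 a2 a3 using hq'
  have := fun n => (a1 n).to_subtype
  choose sg s1 s2 s3 using fun j : Σ n, A n => (a2 j.1 j.2.1 j.2.2).1
  have a4 : ∀ j : Σ n, A n, ∀ r ≤ q', S.cs.res r ≤ S.cs.res j.2.1 → r ≤ j.2.1 :=
    fun j => (a2 j.1 j.2.1 j.2.2).2
  refine ⟨t₁, S.cs.dom q', S.dom1 q', fun I hI => ?_⟩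
  have e1 := hV.all (S.cnt1 (countable_univ (α := (Σ n, A n) × Σ n, A n)))
    (Φ := fun j z => (∃ r, r ≤ j.1.2.1 ∧ r ≤ j.2.2.1) → j.1.1 ≤ j.2.1 →
      (sg j.2).1.2.2 z ≤ (sg j.1).1.2.2 z) fun j _ => by
      by_cases h : (∃ r, r ≤ j.1.2.1 ∧ r ≤ j.2.2.1) ∧ j.1.1 ≤ j.2.1
      · obtain ⟨⟨r, a, b⟩, c⟩ := h
        exact (coh _ _ c _ (s1 j.1) _ (s1 j.2) r (a.trans (s2 _)) (b.trans (s2 _))
          (T.mono _ _ (s3 _) a) (T.mono _ _ (s3 _) b)).mono fun _ h _ _ => h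
      · exact Eventually.of_forall fun _ a b => absurd ⟨a, b⟩ h
  have e2 := hV.all (S.cnt1 (countable_univ (α := Σ n, A n))) fun j _ =>
    ((sg j).2.1.on hV q').and ((sg j).2.2.2.and (show ∀ᶠ z in (V : Filter W), ∀ n, j.1 = n + 1 →
      B z (sg j).1.2.1 n ((sg j).1.2.2 z) by
        obtain ⟨_ | n, c⟩ := j
        · exact Eventually.of_forall fun _ n h => by simp at h
        · obtain ⟨σ, -, -, -, h⟩ := l1 n _ (s1 ⟨n + 1, c⟩)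
          exact h.mono fun z hz m hm => by
            obtain rfl : n = m := by simpa using hm
            exact hz.2))
  filter_upwards [e1, e2] with z b1 b2
  have b3 : ∀ j : Σ n, A n, ∀ s ≤ S.cs.res j.2.1, s ≤ S.cs.res ((sg j).1.2.2 z) :=
    fun j s hs => (b2 j trivial).1.1 ▸ hs.trans (S.cs.res_mono (s2 j))
  obtain ⟨g, g1, g2, g3, g4, g5⟩ := S.cs.mix q' (fun (j : Σ n, A n) s => s ≤ S.cs.res j.2.1)
    (fun j => (sg j).1.2.2 z) (I z) (hI z) (fun _ => S.cs.gd_le _)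
    (fun j j' s hs c c' i hi hi' v v' d d' => by
      obtain ⟨r, k1, k2, -⟩ := S.cs.am hs
      have k3 := a4 j r k1 (k2 ▸ c)
      have k4 := a4 j' r k1 (k2 ▸ c')
      rcases le_total j.1 j'.1 with h | h
      · exact S.cs.agree (b1 (j, j') trivial ⟨r, k3, k4⟩ h) hi (b3 j' s c') d d'
      · exact (S.cs.agree (b1 (j', j) trivial ⟨r, k4, k3⟩ h) hi' (b3 j s c) d' d).symm)
    fun j s hs c => ⟨b3 j s c, fun i hi hi' v v' d d' => by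
      obtain ⟨r, k1, k2, -, k3⟩ := S.cs.am hs
      obtain ⟨k4, k5⟩ := (b2 j trivial).1.2 i hi hi'
      exact (S.cs.agree ((a4 j r k1 (k2 ▸ c)).trans (s2 j)) k4 k2.ge (k5 ▸ d')
        (k3 i hi ▸ d)).symm⟩
  have key : ∀ r ≤ g, ∀ (j : Σ n, A n), ∀ s ≤ S.cs.res r, s ≤ S.cs.res j.2.1 →
      ∃ r' ≤ r, r' ≤ (sg j).1.2.2 z ∧ T.le (sg j).1.2.1 t₁ r' := fun r hr j s hs hs' => by
    obtain ⟨r', k1, k2, -⟩ := S.cs.am hs
    exact ⟨r', k1, g4 j r' (k1.trans hr) (k2 ▸ hs'),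
      T.mono _ _ (s3 j) (a4 j r' (k1.trans (hr.trans g1)) (k2 ▸ hs'))⟩
  have key' : ∀ n, ∀ r ≤ g, ∃ c : A n, ∃ r' ≤ r, r' ≤ (sg ⟨n, c⟩).1.2.2 z ∧
      T.le (sg ⟨n, c⟩).1.2.1 t₁ r' := fun n r hr => by
    obtain ⟨c, hc, s, k1, k2⟩ := a3 n _ (S.cs.res_mono (hr.trans g1))
    exact ⟨⟨c, hc⟩, key r hr ⟨n, c, hc⟩ s k1 k2⟩
  obtain ⟨c, g', c1, c2, c3⟩ := key' 0 g le_rfl
  have c4 : sg ⟨0, c⟩ = σ0 := by
    have := s1 ⟨0, c⟩
    rwa [l0] at this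
  rw [c4] at c2
  refine ⟨g', c2, T.right c3, fun n r hr => ?_, fun i hi hi' r hr hz => ?_⟩
  · obtain ⟨c, r', d1, d2, d3⟩ := key' (n + 1) r (hr.trans c1)
    exact ⟨r', d1, _, _, d2, (b2 _ trivial).2.2 n rfl, d3⟩
  · have hd : i ∈ S.cs.dom g := g3 ▸ Or.inr (Or.inr hi)
    obtain ⟨s, d1, v, d2⟩ := S.cs.val_tot hd (S.cs.res r)
    rcases g5 i hd hi' s v d2 with d3 | ⟨j, d3, d4⟩
    · exact absurd hz (S.not_nz (hr.trans c1) hd d1 (S.dflt_eq ▸ d3 ▸ d2))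
    · obtain ⟨r', d5, d6, d7⟩ := key r (hr.trans c1) j s d1 d4
      exact ⟨r', d5, _, _, (b2 j trivial).2.1, d3, d6, d7⟩

end Sys

end Pool.Agent.Work.MP_d95c0d_gt
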