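import Pool.Agent.Work.MP_d95c0d_gt.Reindex
import Pool.Agent.Work.MP_d95c0d_gt.Phi1
import Pool.Agent.Work.MP_d95c0d_gt.Phi23

/-! There is no name for the tree of a counterexample. -/

namespace Pool.Agent.Work.MP_d95c0d_gt

variable {P K : Type} [Preorder P] [LinearOrder K] [WellFoundedLT K] [OrderBot K]

theorem psi (S : Sys P K) {ι : Type} (T : NT P ι) : False :=
  psi_of S.w_lt T (phi1 S) (phi2 S) (phi3 S T)

end Pool.Agent.Work.MP_d95c0d_gt
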