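import Pool.Agent.Work.MP_d95c0d_gt.SqDefs

-- merged part: Pool.Agent.Work.MP_d95c0d_gt.SqA
section
/-! Stationary sets, diamond and a square sequence avoiding a stationary set. -/

namespace Pool.Agent.Work.MP_d95c0d_gt.Sq
open Set Cardinal

universe u v

/-- Transfinite dependent choice. -/
theorem exists_rec {I : Type u} [LinearOrder I] [WellFoundedLT I] {D : Type v} [Nonempty D]
    (R : I → (I → D) → D → Prop)
    (hloc : ∀ α F F' d, (∀ β < α, F β = F' β) → R α F d → R α F' d)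
    (step : ∀ α F, (∀ β < α, R β F (F β)) → ∃ d, R α F d) : ∃ F : I → D, ∀ α, R α F (F α) := by
  classical
  let ext : (α : I) → ((β : I) → β < α → D) → I → D := fun α r β =>
    if h : β < α then r β h else Classical.arbitrary D
  let G : (α : I) → ((β : I) → β < α → D) → D := fun α r =>
    Classical.epsilon (R α (ext α r))
  let F : I → D := (wellFounded_lt (α := I)).fix G
  have hF : ∀ α, F α = G α (fun β _ => F β) := fun α => WellFounded.fix_eq _ _ _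
  refine ⟨F, fun α => ?_⟩
  induction α using WellFoundedLT.induction with
  | ind α ih =>
    have hag : ∀ β < α, F β = ext α (fun β _ => F β) β := fun β hβ => by simp [ext, hβ]
    obtain ⟨d, hd⟩ := step α F ih
    have h1 : ∃ d, R α (ext α (fun β _ => F β)) d := ⟨d, hloc α _ _ d hag hd⟩
    have h2 := Classical.epsilon_spec h1
    rw [hF α]
    exact hloc α _ _ _ (fun β hβ => (hag β hβ).symm) h2

/-- The standing hypotheses on the well-order `O` of type `κ⁺`. -/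
structure Ctx (O : Type u) [LinearOrder O] (κ : Cardinal.{u}) : Prop where
  bdd : ∀ S : Set O, #S ≤ κ → ∃ a, ∀ x ∈ S, x < a
  seg : ∀ a : O, #(Iio a) ≤ κ
  card : #O ≤ 2 ^ κ
  inf : ℵ₀ ≤ κ
  pw : κ ^ ℵ₀ = κ
  two : 2 ^ κ ≤ #O

variable {O : Type u} [LinearOrder O] [WellFoundedLT O] {κ : Cardinal.{u}}

/-- Cofinality `ω`. -/
def CofW (α : O) : Prop :=
  ∃ s : ℕ → O, StrictMono s ∧ (∀ n, s n < α) ∧ ∀ β < α, ∃ n, β < s n

/-- Stationarity through closure points. -/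
def Stat (E : Set O) : Prop := ∀ f : O → O, ∃ α ∈ E, ∀ β < α, f β < α

theorem CofW.lim {α : O} (h : CofW α) : AccBelow α univ := by
  obtain ⟨s, -, h1, h2⟩ := h
  exact ⟨⟨s 0, h1 0⟩, fun γ hγ => (h2 γ hγ).elim fun n hn => ⟨s n, trivial, hn, h1 n⟩⟩

theorem AccBelow.lim {α : O} {S : Set O} (h : AccBelow α S) : AccBelow α univ :=
  ⟨h.1, fun γ hγ => (h.2 γ hγ).elim fun δ hδ => ⟨δ, trivial, hδ.2⟩⟩

theorem Ctx.bdd_fun (c : Ctx O κ) {I : Type u} (hI : #I ≤ κ) (f : I → O) :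
    ∃ a, ∀ i, f i < a := by
  obtain ⟨a, ha⟩ := c.bdd (range f) (mk_range_le.trans hI)
  exact ⟨a, fun i => ha _ ⟨i, rfl⟩⟩

theorem Ctx.bdd_nat (c : Ctx O κ) (f : ℕ → O) : ∃ a, ∀ i, f i < a := by
  obtain ⟨a, ha⟩ := c.bdd (range f)
    ((le_aleph0_iff_set_countable.2 (countable_range f)).trans c.inf)
  exact ⟨a, fun i => ha _ ⟨i, rfl⟩⟩

theorem Ctx.gt (c : Ctx O κ) (a : O) : ∃ b, a < b :=
  (c.bdd_nat fun _ => a).imp fun _ h => h 0

theorem Ctx.nonempty (c : Ctx O κ) : Nonempty O :=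
  (c.bdd ∅ (by simp)).elim fun a _ => ⟨a⟩

theorem Ctx.seg_le (c : Ctx O κ) (a : O) : #(Iic a) ≤ κ := by
  obtain ⟨b, hb⟩ := c.gt a
  exact (mk_le_mk_of_subset fun x (hx : x ≤ a) => hx.trans_lt hb).trans (c.seg b)

/-- least strict upper bound of a strictly increasing sequence -/
theorem Ctx.exists_sup (c : Ctx O κ) {s : ℕ → O} (hs : StrictMono s) :
    ∃ α, (∀ n, s n < α) ∧ ∀ β < α, ∃ n, β < s n := by
  obtain ⟨α, hα, hmin⟩ := WellFounded.has_min (wellFounded_lt (α := O)) {a | ∀ i, s i < a}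
    (c.bdd_nat s)
  refine ⟨α, hα, fun β hβ => ?_⟩
  by_contra h
  push Not at h
  exact hmin β (fun i => (hs (Nat.lt_succ_self i)).trans_le (h _)) hβ

theorem Ctx.stat_cofW (c : Ctx O κ) : Stat {α : O | CofW α} := by
  intro f
  have h1 : ∀ a : O, ∃ b, a < b ∧ ∀ β ≤ a, f β < b := by
    intro a
    obtain ⟨b, hb⟩ := c.bdd_fun (c.seg_le a) (fun β : Iic a => f β)
    obtain ⟨b', hb'⟩ := c.gt (max a b)
    exact ⟨b', (le_max_left _ _).trans_lt hb', fun β hβ =>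
      (hb ⟨β, hβ⟩).trans ((le_max_right _ _).trans_lt hb')⟩
  choose nx hnx using h1
  obtain ⟨a0⟩ := c.nonempty
  let s : ℕ → O := fun n => nx^[n] a0
  have hs1 : ∀ n, s (n + 1) = nx (s n) := fun n => Function.iterate_succ_apply' _ _ _
  have hs : StrictMono s := strictMono_nat_of_lt_succ fun n => by rw [hs1]; exact (hnx _).1
  obtain ⟨α, h1, h2⟩ := c.exists_sup hs
  refine ⟨α, ⟨s, hs, h1, h2⟩, fun β hβ => ?_⟩
  obtain ⟨n, hn⟩ := h2 β hβ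
  exact ((hnx (s n)).2 β hn.le).trans (hs1 n ▸ h1 (n + 1))

theorem Ctx.pigeon (c : Ctx O κ) {E : Set O} (hE : Stat E) {I : Type u} (hI : #I ≤ κ)
    (ν : O → I) : ∃ i, Stat {α ∈ E | ν α = i} := by
  by_contra h
  simp only [Stat, not_exists, not_forall] at h
  choose f hf using h
  have h1 : ∀ β, ∃ b, ∀ i, f i β < b := fun β => c.bdd_fun hI fun i => f i β
  choose g hg using h1
  obtain ⟨α, hα, hg'⟩ := hE g
  exact hf (ν α) α ⟨⟨hα, rfl⟩, fun β hβ => (hg β _).trans (hg' β hβ)⟩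

/-- A coherent sequence whose limit points avoid `E`. -/
structure Avoid (C : O → Set O) (E : Set O) : Prop where
  unb : ∀ α, AccBelow α univ → AccBelow α (C α)
  coh : ∀ α, AccBelow α univ → ∀ β < α, AccBelow β (C α) → β ∉ E ∧ C β = C α ∩ Iio β
  cof : ∀ α ∈ E, CofW α
  stat : Stat E

theorem Ctx.exists_avoid (c : Ctx O κ) {K : Type u} [LinearOrder K] [WellFoundedLT K]
    (hK : #K ≤ κ) (C : O → Set O)
    (hC : ∀ α, AccBelow α univ → C α ⊆ Iio α ∧ AccBelow α (C α) ∧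
      (∃ f : O → K, StrictMonoOn f (C α)) ∧
      ∀ β < α, AccBelow β (C α) → β ∈ C α ∧ C β = C α ∩ Iio β) :
    ∃ (C' : O → Set O) (E : Set O), Avoid C' E := by
  classical
  let N : O → Set (WithTop K) := fun α =>
    {k | ∃ f : O → K, StrictMonoOn f (C α) ∧ ∀ γ ∈ C α, (f γ : WithTop K) < k}
  let ν : O → WithTop K := fun α =>
    if h : (N α).Nonempty then (wellFounded_lt (α := WithTop K)).min (N α) h else ⊤
  have hν : ∀ β β', AccBelow β' univ → β < β' → AccBelow β (C β') → ν β < ν β' := by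
    intro β β' hl hlt hacc
    obtain ⟨-, -, ⟨f0, hf0⟩, h4⟩ := hC β' hl
    obtain ⟨hmem, hcoh⟩ := h4 β hlt hacc
    have hne : (N β').Nonempty := ⟨⊤, f0, hf0, fun γ _ => WithTop.coe_lt_top _⟩
    have h1 : ν β' ∈ N β' := by simp only [ν, dif_pos hne]; exact WellFounded.min_mem _ _ _
    obtain ⟨f, hf, hlt'⟩ := h1
    have h2 : (f β : WithTop K) ∈ N β := by
      refine ⟨f, hf.mono (hcoh ▸ inter_subset_left), fun γ hγ => ?_⟩
      rw [hcoh] at hγ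
      exact WithTop.coe_lt_coe.2 (hf hγ.1 hmem hγ.2)
    have h3 : ν β ≤ f β := by
      have hne' : (N β).Nonempty := ⟨_, h2⟩
      simp only [ν, dif_pos hne']
      exact WellFounded.min_le _ h2
    exact h3.trans_lt (hlt' β hmem)
  have hcard : #(WithTop K) ≤ κ := by
    show #(Option K) ≤ κ
    rw [mk_option]
    exact (add_le_add hK (one_le_aleph0.trans c.inf)).trans_eq (add_eq_self c.inf)
  obtain ⟨i, hi⟩ := c.pigeon c.stat_cofW hcard ν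
  set E := {α ∈ {α : O | CofW α} | ν α = i} with hE
  have huniq : ∀ α, AccBelow α univ → ∀ β < α, ∀ β' < α, AccBelow β (C α) → AccBelow β' (C α) →
      β ∈ E → β' ∈ E → β = β' := by
    have key : ∀ α, AccBelow α univ → ∀ β, ∀ β' < α, β < β' → AccBelow β (C α) →
        AccBelow β' (C α) → β ∈ E → β' ∈ E → False := by
      intro α hα β β' hβ' hlt h1 h2 e1 e2
      have hc := ((hC α hα).2.2.2 β' hβ' h2).2
      have h3 : AccBelow β (C β') := by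
        refine ⟨h1.1, fun γ hγ => ?_⟩
        obtain ⟨δ, hδ, h4, h5⟩ := h1.2 γ hγ
        exact ⟨δ, hc ▸ ⟨hδ, h5.trans hlt⟩, h4, h5⟩
      have := hν β β' h2.lim hlt h3
      rw [e1.2, e2.2] at this
      exact lt_irrefl _ this
    intro α hα β hβ β' hβ' h1 h2 e1 e2
    rcases lt_trichotomy β β' with h | h | h
    · exact (key α hα β β' hβ' h h1 h2 e1 e2).elim
    · exact h
    · exact (key α hα β' β hβ h h2 h1 e2 e1).elim
  let C' : O → Set O := fun α => {γ ∈ C α | ∀ β < α, AccBelow β (C α) → β ∈ E → β < γ}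
  have hsub : ∀ α β, AccBelow β (C' α) → AccBelow β (C α) := fun α β h =>
    ⟨h.1, fun γ hγ => (h.2 γ hγ).elim fun δ hδ => ⟨δ, hδ.1.1, hδ.2⟩⟩
  refine ⟨C', E, ⟨fun α hα => ⟨hα.1, fun γ hγ => ?_⟩, fun α hα β hβ hacc => ?_,
    fun α hα => hα.1, hi⟩⟩
  · by_cases h : ∃ β < α, AccBelow β (C α) ∧ β ∈ E
    · obtain ⟨β, hβ, h1, h2⟩ := h
      obtain ⟨δ, hδ, h3, h4⟩ := (hC α hα).2.1.2 (max γ β) (max_lt hγ hβ)
      refine ⟨δ, ⟨hδ, fun β' hβ' h5 h6 => ?_⟩, (le_max_left _ _).trans_lt h3, h4⟩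
      rw [huniq α hα β' hβ' β hβ h5 h1 h6 h2]
      exact (le_max_right _ _).trans_lt h3
    · obtain ⟨δ, hδ, h3, h4⟩ := (hC α hα).2.1.2 γ hγ
      exact ⟨δ, ⟨hδ, fun β' hβ' h5 h6 => (h ⟨β', hβ', h5, h6⟩).elim⟩, h3, h4⟩
  · have h1 := hsub α β hacc
    have hc := ((hC α hα).2.2.2 β hβ h1).2
    have hlt : ∀ β' < α, AccBelow β' (C α) → β' ∈ E → β' < β := by
      intro β' hβ' h5 h6
      obtain ⟨γ, hγ⟩ := hacc.1
      obtain ⟨δ, hδ, -, h4⟩ := hacc.2 γ hγ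
      exact (hδ.2 β' hβ' h5 h6).trans h4
    refine ⟨fun he => lt_irrefl _ (hlt β hβ h1 he), ?_⟩
    ext γ
    simp only [C', mem_ofPred_eq, mem_inter_iff, mem_Iio, hc]
    constructor
    · rintro ⟨⟨h2, h3⟩, h4⟩
      refine ⟨⟨h2, fun β' hβ' h5 h6 => h4 β' (hlt β' hβ' h5 h6) ⟨h5.1, fun x hx => ?_⟩ h6⟩, h3⟩
      obtain ⟨δ, hδ, h7, h8⟩ := h5.2 x hx
      exact ⟨δ, ⟨hδ, h8.trans (hlt β' hβ' h5 h6)⟩, h7, h8⟩
    · rintro ⟨⟨h2, h4⟩, h3⟩
      refine ⟨⟨h2, h3⟩, fun β' hβ' h5 h6 => h4 β' (hβ'.trans hβ) ⟨h5.1, fun x hx => ?_⟩ h6⟩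
      obtain ⟨δ, hδ, h7⟩ := h5.2 x hx
      exact ⟨δ, hδ.1, h7⟩

/-- Diamond on a stationary set of cofinality `ω` points (Gregory, Kunen). -/
theorem Ctx.diamond (c : Ctx O κ) {E : Set O} (hE : Stat E) (hcof : ∀ α ∈ E, CofW α)
    {Z : Type u} (hZ : #Z ≤ 2 ^ κ) (ρ : Z → O) :
    ∃ G : O → Set Z, ∀ A : Set Z, (∀ β, #{z ∈ A | ρ z < β} ≤ κ) → ∀ f : O → O,
      ∃ α ∈ E, (∀ β < α, f β < α) ∧ G α = {z ∈ A | ρ z < α} := by
  classical
  let K := κ.out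
  have hK : #K = κ := mk_out κ
  have h2 : ℵ₀ ≤ 2 ^ κ := c.inf.trans (cantor κ).le
  have hW : #(K × Z) ≤ 2 ^ κ := by
    rw [mk_prod, lift_id, lift_id, hK]
    exact (mul_le_mul' (cantor κ).le hZ).trans_eq (mul_eq_self h2)
  have hS : #{t : Set (K × Z) // #t ≤ κ} ≤ #O := by
    refine (mk_bounded_set_le _ κ).trans (le_trans ?_ c.two)
    refine (power_le_power_right (max_le hW h2)).trans_eq ?_
    rw [← power_mul, mul_eq_self c.inf]
  obtain ⟨a0⟩ := c.nonempty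
  have : Nonempty {t : Set (K × Z) // #t ≤ κ} := ⟨⟨∅, by simp⟩⟩
  obtain ⟨Y, hY⟩ : ∃ Y : O → {t : Set (K × Z) // #t ≤ κ}, Function.Surjective Y := by
    obtain ⟨e⟩ := hS
    exact ⟨_, Function.invFun_surjective e.injective⟩
  have hq : ∀ α : O, ∃ q : K → ℕ → O, ∀ s : ℕ → O, (∀ n, s n < α) → ∃ i, q i = s := by
    intro α
    have h1 : #(ℕ → Iio α) ≤ #K := by
      rw [hK, ← c.pw]
      have : #(ℕ → Iio α) = #(Iio α) ^ ℵ₀ := by simp
      rw [this]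
      exact power_le_power_right (c.seg α)
    obtain ⟨e⟩ := h1
    refine ⟨fun i => if h : ∃ t, e t = i then fun n => (h.choose n : O) else fun _ => a0,
      fun s hs => ⟨e fun n => ⟨s n, hs n⟩, ?_⟩⟩
    have h : ∃ t, e t = e fun n => ⟨s n, hs n⟩ := ⟨_, rfl⟩
    refine (dif_pos h).trans ?_
    funext n
    rw [e.injective h.choose_spec]
  choose q hq using hq
  let G : K → O → Set Z := fun i α => {z | ∃ n, (i, z) ∈ (Y (q α i n)).1}
  by_contra hcon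
  simp only [not_exists, not_forall] at hcon
  have hcon' : ∀ i, ∃ A : Set Z, (∀ β, #{z ∈ A | ρ z < β} ≤ κ) ∧ ∃ f : O → O,
      ∀ α ∈ E, (∀ β < α, f β < α) → G i α ≠ {z ∈ A | ρ z < α} := by
    intro i
    obtain ⟨A, hA, f, hf⟩ := hcon (G i)
    exact ⟨A, hA, f, fun α hα h1 h2 => hf α ⟨hα, h1, h2⟩⟩
  choose A hA f hf using hcon'
  have hsmall : ∀ β, #{w : K × Z | w.2 ∈ A w.1 ∧ ρ w.2 < β} ≤ κ := by
    intro β
    have : {w : K × Z | w.2 ∈ A w.1 ∧ ρ w.2 < β} =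
        ⋃ i : K, (fun z => (i, z)) '' {z ∈ A i | ρ z < β} := by
      ext ⟨i, z⟩; simp
    rw [this]
    refine (mk_iUnion_le_sum_mk.trans (sum_le_sum _ (fun _ => κ) fun i =>
      mk_image_le.trans (hA i β))).trans_eq ?_
    rw [sum_const', hK, mul_eq_self c.inf]
  have hξ : ∀ β, ∃ ξ, (Y ξ).1 = {w : K × Z | w.2 ∈ A w.1 ∧ ρ w.2 < β} := fun β =>
    (hY ⟨_, hsmall β⟩).imp fun ξ h => by rw [h]
  choose ξ hξ using hξ
  have h1 : ∀ β, ∃ b, ξ β < b ∧ ∀ i, f i β < b := by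
    intro β
    obtain ⟨b, hb⟩ := c.bdd_fun hK.le fun i => f i β
    obtain ⟨b', hb'⟩ := c.gt (max (ξ β) b)
    exact ⟨b', (le_max_left _ _).trans_lt hb', fun i =>
      (hb i).trans ((le_max_right _ _).trans_lt hb')⟩
  choose g hg using h1
  obtain ⟨α, hα, hcl⟩ := hE g
  obtain ⟨s, -, hs1, hs2⟩ := hcof α hα
  obtain ⟨i, hi⟩ := hq α (fun n => ξ (s n)) fun n => (hg _).1.trans (hcl _ (hs1 n))
  refine hf i α hα (fun β hβ => ((hg β).2 i).trans (hcl β hβ)) ?_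
  ext z
  simp only [G, hi, hξ, mem_ofPred_eq]
  constructor
  · rintro ⟨n, h1, h2⟩
    exact ⟨h1, h2.trans (hs1 n)⟩
  · rintro ⟨h1, h2⟩
    exact (hs2 _ h2).imp fun n hn => ⟨h1, hn⟩

end Pool.Agent.Work.MP_d95c0d_gt.Sq
end

-- merged part: Pool.Agent.Work.MP_d95c0d_gt.SqB
section
/-! Gluing and limits of rank functions on binary trees. -/

namespace Pool.Agent.Work.MP_d95c0d_gt.Sq
open Set Cardinal

universe u v

variable {O : Type u} [LinearOrder O]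

theorem res_res (s : Set O) {β γ : O} (h : β ≤ γ) : s ∩ Iio γ ∩ Iio β = s ∩ Iio β := by
  rw [inter_assoc, Iio_inter_Iio, min_eq_right h]

/-- A branch of limit length whose tail is made of successor steps to the right. -/
structure Pt (L : O → Set (Set O)) (δ : O) (x : Set O) : Prop where
  lim : AccBelow δ univ
  sub : x ⊆ Iio δ
  mem : ∀ γ < δ, x ∩ Iio γ ∈ L γ
  tail : ∃ β < δ, ∀ γ, β < γ → γ < δ → γ ∈ x ∧ ¬ AccBelow γ univ

/-- The levels below `α` form a tree. -/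
def TreeTo (L : O → Set (Set O)) (α : O) : Prop :=
  ∀ γ < α, ∀ t ∈ L γ, t ⊆ Iio γ ∧ ∀ β ≤ γ, t ∩ Iio β ∈ L β

/-- Rank function and extension maps for the levels up to `δ`. -/
structure G2 (L : O → Set (Set O)) (δ : O) (h : O → Set O → ℕ) (ε : O → Set O → Set O) :
    Prop where
  mono : ∀ β γ, β ≤ γ → γ ≤ δ → ∀ t ∈ L γ, h β (t ∩ Iio β) ≤ h γ t
  ext : ∀ β ≤ δ, ∀ s ∈ L β, ε β s ∈ L δ ∧ ε β s ∩ Iio β = s ∧ h δ (ε β s) = h β s
  unb : ∀ δ' ≤ δ, ∀ x, Pt L δ' x → ∀ n, ∃ γ < δ', n ≤ h γ (x ∩ Iio γ)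

open Classical in
/-- glued rank function -/
noncomputable def glueH (γ : O) (h h' : O → Set O → ℕ) (β : O) (s : Set O) : ℕ :=
  if β ≤ γ then h β s else h γ (s ∩ Iio γ) + (h' β s - h' γ (s ∩ Iio γ))

open Classical in
/-- glued extension maps -/
noncomputable def glueE (γ : O) (ε ε' : O → Set O → Set O) (β : O) (s : Set O) : Set O :=
  if β ≤ γ then ε' γ (ε β s) else ε' β s

variable {L : O → Set (Set O)} {α : O}

theorem G2.glue {γ γ' : O} {h h' : O → Set O → ℕ} {ε ε' : O → Set O → Set O}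
    (hT : TreeTo L α) (hγ : γ < γ') (hγ' : γ' < α) (g : G2 L γ h ε) (g' : G2 L γ' h' ε') :
    G2 L γ' (glueH γ h h') (glueE γ ε ε') := by
  refine ⟨fun β δ hβ hδ t ht => ?_, fun β hβ s hs => ?_, fun δ hδ x hx n => ?_⟩
  · have hT' := hT δ (hδ.trans_lt hγ') t ht
    unfold glueH
    by_cases h1 : δ ≤ γ
    · rw [if_pos h1, if_pos (hβ.trans h1)]
      exact g.mono β δ hβ h1 t ht
    · rw [if_neg h1]
      push Not at h1
      split_ifs with h2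
      · have := g.mono β γ h2 le_rfl _ (hT'.2 γ h1.le)
        rw [res_res _ h2] at this
        omega
      · push Not at h2
        have := g'.mono β δ hβ hδ t ht
        rw [res_res _ h2.le]
        omega
  · unfold glueH glueE
    rw [if_neg hγ.not_ge]
    split_ifs with h1
    · obtain ⟨a1, a2, a3⟩ := g.ext β h1 s hs
      obtain ⟨b1, b2, b3⟩ := g'.ext γ hγ.le _ a1
      refine ⟨b1, by rw [← res_res _ h1, b2, a2], ?_⟩
      rw [b2, b3, a3]; omega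
    · push Not at h1
      obtain ⟨b1, b2, b3⟩ := g'.ext β hβ s hs
      refine ⟨b1, b2, ?_⟩
      rw [← res_res _ h1.le, b2, b3]
  · by_cases h1 : δ ≤ γ
    · obtain ⟨β, hβ, h2⟩ := g.unb δ h1 x hx n
      exact ⟨β, hβ, by unfold glueH; rwa [if_pos (hβ.le.trans h1)]⟩
    · push Not at h1
      obtain ⟨β, hβ, h2⟩ := g'.unb δ hδ x hx (n + h' γ (x ∩ Iio γ))
      obtain ⟨β', -, h3, h4⟩ := hx.lim.2 (max β γ) (max_lt hβ h1)
      have h5 := (le_max_right _ _).trans_lt h3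
      have h6 := (le_max_left _ _).trans h3.le
      refine ⟨β', h4, ?_⟩
      unfold glueH
      rw [if_neg h5.not_ge, res_res _ h5.le]
      have := g'.mono β β' h6 (h4.le.trans hδ) _ (hx.mem β' h4)
      rw [res_res _ h6] at this
      omega

/-- Rank function below a limit level and canonical branches. -/
structure Pre (L : O → Set (Set O)) (α : O) (h : O → Set O → ℕ) (b : O → Set O → Set O) :
    Prop where
  mono : ∀ β γ, β ≤ γ → γ < α → ∀ t ∈ L γ, h β (t ∩ Iio β) ≤ h γ t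
  br : ∀ β < α, ∀ s ∈ L β, b β s ⊆ Iio α ∧ (∀ γ < α, b β s ∩ Iio γ ∈ L γ) ∧ b β s ∩ Iio β = s ∧
    ∀ γ, β ≤ γ → γ < α → h γ (b β s ∩ Iio γ) = h β s
  unb : ∀ δ ≤ α, ∀ x, Pt L δ x → ∀ n, ∃ γ < δ, n ≤ h γ (x ∩ Iio γ)

theorem exists_pre (hT : TreeTo L α) {I : Type v} (lv : I → O) (h : I → O → Set O → ℕ)
    (ε : I → O → Set O → Set O) (hlt : ∀ i, lv i < α) (hcof : ∀ β < α, ∃ i, β ≤ lv i)
    (good : ∀ i, G2 L (lv i) (h i) (ε i))
    (coh : ∀ i j, lv i ≤ lv j → ∀ β ≤ lv i, ∀ s ∈ L β,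
      h j β s = h i β s ∧ ε j β s ∩ Iio (lv i) = ε i β s)
    (top : ∀ x, Pt L α x → ∀ n, ∃ i, n ≤ h i (lv i) (x ∩ Iio (lv i))) :
    ∃ h0 b, Pre L α h0 b ∧ ∀ i, ∀ β ≤ lv i, ∀ s ∈ L β,
      h0 β s = h i β s ∧ b β s ∩ Iio (lv i) = ε i β s := by
  classical
  let h0 : O → Set O → ℕ := fun β s => if hβ : β < α then h (hcof β hβ).choose β s else 0
  let b : O → Set O → Set O := fun β s => {x | ∃ i, β ≤ lv i ∧ x ∈ ε i β s}
  have ha : ∀ i, ∀ β ≤ lv i, ∀ s ∈ L β, h0 β s = h i β s := by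
    intro i β hβ s hs
    have hβ' := hβ.trans_lt (hlt i)
    simp only [h0, dif_pos hβ']
    have h1 := (hcof β hβ').choose_spec
    rcases le_total (lv i) (lv (hcof β hβ').choose) with h2 | h2
    · exact (coh _ _ h2 β hβ s hs).1
    · exact (coh _ _ h2 β h1 s hs).1.symm
  have hsub : ∀ i, ∀ β ≤ lv i, ∀ s ∈ L β, ε i β s ⊆ Iio (lv i) := fun i β hβ s hs =>
    (hT _ (hlt i) _ ((good i).ext β hβ s hs).1).1
  have hb : ∀ i, ∀ β ≤ lv i, ∀ s ∈ L β, b β s ∩ Iio (lv i) = ε i β s := by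
    intro i β hβ s hs
    refine Subset.antisymm ?_ fun x hx => ⟨⟨i, hβ, hx⟩, hsub i β hβ s hs hx⟩
    rintro x ⟨⟨j, hj, hx⟩, hx'⟩
    rcases le_total (lv i) (lv j) with h2 | h2
    · rw [← (coh _ _ h2 β hβ s hs).2]; exact ⟨hx, hx'⟩
    · rw [← (coh _ _ h2 β hj s hs).2] at hx; exact hx.1
  refine ⟨h0, b, ⟨fun β γ hβ hγ t ht => ?_, fun β hβ s hs => ⟨?_, fun γ hγ => ?_, ?_,
    fun γ h1 h2 => ?_⟩, fun δ hδ x hx n => ?_⟩, fun i β hβ s hs => ⟨ha i β hβ s hs, hb i β hβ s hs⟩⟩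
  · obtain ⟨i, hi⟩ := hcof γ hγ
    rw [ha i γ hi t ht, ha i β (hβ.trans hi) _ ((hT γ hγ t ht).2 β hβ)]
    exact (good i).mono β γ hβ hi t ht
  · rintro x ⟨i, hi, hx⟩
    exact (hsub i β hi s hs hx).trans (hlt i)
  · obtain ⟨i, hi⟩ := hcof (max β γ) (max_lt hβ hγ)
    have h1 := (le_max_left _ _).trans hi
    have h2 := (le_max_right _ _).trans hi
    rw [← res_res _ h2, hb i β h1 s hs]
    exact (hT _ (hlt i) _ ((good i).ext β h1 s hs).1).2 γ h2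
  · obtain ⟨i, hi⟩ := hcof β hβ
    rw [← res_res _ hi, hb i β hi s hs, ((good i).ext β hi s hs).2.1]
  · obtain ⟨i, hi⟩ := hcof γ h2
    obtain ⟨a1, a2, a3⟩ := (good i).ext β (h1.trans hi) s hs
    have a4 := (hT _ (hlt i) _ a1).2 γ hi
    rw [← res_res _ hi, hb i β (h1.trans hi) s hs, ha i γ hi _ a4, ha i β (h1.trans hi) s hs]
    have a5 := (good i).mono β γ h1 hi _ a4
    have a6 := (good i).mono γ _ hi le_rfl _ a1
    rw [res_res _ h1, a2] at a5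
    omega
  · rcases hδ.eq_or_lt with rfl | h1
    · obtain ⟨i, hi⟩ := top x hx n
      exact ⟨lv i, hlt i, by rwa [ha i _ le_rfl _ (hx.mem _ (hlt i))]⟩
    · obtain ⟨i, hi⟩ := hcof δ h1
      obtain ⟨γ, hγ, h2⟩ := (good i).unb δ hi x hx n
      exact ⟨γ, hγ, by rwa [ha i γ (hγ.le.trans hi) _ (hx.mem γ hγ)]⟩

/-- A new level `N` on top of the levels below `α`. -/
structure Lev (κ : Cardinal.{u}) (L : O → Set (Set O)) (α : O) (N : Set (Set O)) : Prop where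
  sub : ∀ s ∈ N, s ⊆ Iio α
  res : ∀ s ∈ N, ∀ β < α, s ∩ Iio β ∈ L β
  card : #N ≤ κ
  ne : N.Nonempty
  succ : ∀ η, η ⋖ α → ∀ s ∈ L η, s ∈ N ∧ insert η s ∈ N

/-- Rank function and extension maps with new top level `N`. -/
structure Good (L : O → Set (Set O)) (α : O) (N : Set (Set O)) (h : O → Set O → ℕ)
    (ε : O → Set O → Set O) : Prop where
  mono1 : ∀ β γ, β ≤ γ → γ < α → ∀ t ∈ L γ, h β (t ∩ Iio β) ≤ h γ t
  mono2 : ∀ β < α, ∀ t ∈ N, h β (t ∩ Iio β) ≤ h α t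
  ext : ∀ β < α, ∀ s ∈ L β, ε β s ∈ N ∧ ε β s ∩ Iio β = s ∧ h α (ε β s) = h β s
  top : ∀ s, ε α s = s
  unb : ∀ δ ≤ α, ∀ x, Pt L δ x → ∀ n, ∃ γ < δ, n ≤ h γ (x ∩ Iio γ)

theorem Good.g2 {κ : Cardinal.{u}} {h : O → Set O → ℕ} {ε : O → Set O → Set O}
    (g : Good L α (L α) h ε) (l : Lev κ L α (L α)) : G2 L α h ε := by
  refine ⟨fun β γ hβ hγ t ht => ?_, fun β hβ s hs => ?_, g.unb⟩
  · rcases hγ.eq_or_lt with rfl | h1
    · rcases hβ.eq_or_lt with rfl | h2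
      · rw [inter_eq_left.2 (l.sub t ht)]
      · exact g.mono2 β h2 t ht
    · exact g.mono1 β γ hβ h1 t ht
  · rcases hβ.eq_or_lt with rfl | h1
    · rw [g.top]; exact ⟨hs, inter_eq_left.2 (l.sub s hs), rfl⟩
    · exact g.ext β h1 s hs

theorem AccBelow.not_covBy {η : O} (hα : AccBelow α univ) : ¬ η ⋖ α := fun h => by
  obtain ⟨δ, -, h1, h2⟩ := hα.2 η h.1
  exact h.2 h1 h2

theorem Pre.close {κ : Cardinal.{u}} (c : Ctx O κ) {h0 : O → Set O → ℕ} {b : O → Set O → Set O}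
    (p : Pre L α h0 b) (hα : AccBelow α univ) (hT : TreeTo L α)
    (hL : ∀ β < α, #(L β) ≤ κ ∧ (L β).Nonempty) (U : O → Set O → Prop)
    (up : ∀ β γ, β ≤ γ → ∀ t, U β (t ∩ Iio β) → U γ (t ∩ Iio γ))
    (dense : ∀ β < α, ∀ s ∈ L β, ∃ γ, β ≤ γ ∧ γ < α ∧ ∃ t ∈ L γ, t ∩ Iio β = s ∧ U γ t) :
    ∃ N h ε, Lev κ L α N ∧ Good L α N h ε ∧ (∀ t ∈ N, ∃ β < α, U β (t ∩ Iio β)) ∧
      ∀ β < α, ∀ s ∈ L β, U β s → h β s = h0 β s ∧ ε β s = b β s := by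
  classical
  have hπ : ∀ β s, ∃ γ t, β < α → s ∈ L β → β ≤ γ ∧ γ < α ∧ t ∈ L γ ∧ t ∩ Iio β = s ∧ U γ t ∧
      (∀ γ' t', β ≤ γ' → γ' < α → t' ∈ L γ' → t' ∩ Iio β = s → U γ' t' → h0 γ t ≤ h0 γ' t') ∧
      (U β s → γ = β ∧ t = s) := by
    intro β s
    by_cases h : β < α ∧ s ∈ L β
    swap
    · exact ⟨β, s, fun h1 h2 => (h ⟨h1, h2⟩).elim⟩
    obtain ⟨hβ, hs⟩ := h
    by_cases hU : U β s
    · refine ⟨β, s, fun _ _ => ⟨le_rfl, hβ, hs, inter_eq_left.2 (hT β hβ s hs).1, hU,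
        fun γ' t' h1 h2 h3 h4 _ => ?_, fun _ => ⟨rfl, rfl⟩⟩⟩
      rw [← h4]; exact p.mono β γ' h1 h2 t' h3
    · have hex : ∃ n, ∃ γ t, (β ≤ γ ∧ γ < α ∧ t ∈ L γ ∧ t ∩ Iio β = s ∧ U γ t) ∧ h0 γ t = n := by
        obtain ⟨γ, h1, h2, t, h3, h4, h5⟩ := dense β hβ s hs
        exact ⟨_, γ, t, ⟨h1, h2, h3, h4, h5⟩, rfl⟩
      obtain ⟨γ, t, ⟨h1, h2, h3, h4, h5⟩, h6⟩ := Nat.find_spec hex
      refine ⟨γ, t, fun _ _ => ⟨h1, h2, h3, h4, h5, fun γ' t' a1 a2 a3 a4 a5 => ?_,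
        fun h => (hU h).elim⟩⟩
      rw [h6]
      exact Nat.find_min' hex ⟨γ', t', ⟨a1, a2, a3, a4, a5⟩, rfl⟩
  choose πl πt hπ using hπ
  let g1 : O → Set O → ℕ := fun β s => h0 (πl β s) (πt β s)
  let h : O → Set O → ℕ := fun β s =>
    if β < α then g1 β s else sInf {n | ∀ γ < α, g1 γ (s ∩ Iio γ) ≤ n}
  let ε : O → Set O → Set O := fun β s => if β < α then b (πl β s) (πt β s) else s
  let N : Set (Set O) := {t | ∃ β < α, ∃ s ∈ L β, t = b (πl β s) (πt β s)}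
  have hU : ∀ β < α, ∀ s ∈ L β, U β s → g1 β s = h0 β s := fun β hβ s hs hu => by
    obtain ⟨h1, h2⟩ := (hπ β s hβ hs).2.2.2.2.2.2 hu
    simp only [g1, h1, h2]
  have hge : ∀ β < α, ∀ s ∈ L β, h0 β s ≤ g1 β s := fun β hβ s hs => by
    obtain ⟨h1, h2, h3, h4, -⟩ := hπ β s hβ hs
    conv_lhs => rw [← h4]
    exact p.mono β _ h1 h2 _ h3
  have hbd : ∀ β < α, ∀ s ∈ L β, ∀ γ < α, g1 γ (b (πl β s) (πt β s) ∩ Iio γ) ≤ g1 β s := by
    intro β hβ s hs γ hγ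
    obtain ⟨h1, h2, h3, h4, h5, -⟩ := hπ β s hβ hs
    obtain ⟨-, b2, b3, b4⟩ := p.br _ h2 _ h3
    rcases le_total γ (πl β s) with h6 | h6
    · exact (hπ γ _ hγ (b2 γ hγ)).2.2.2.2.2.1 _ _ h6 h2 h3 (by rw [← res_res (b _ _) h6, b3]) h5
    · rw [hU γ hγ _ (b2 γ hγ) (up _ γ h6 _ (by rwa [b3])), b4 γ h6 hγ]
  have htop : ∀ β < α, ∀ s ∈ L β, h α (b (πl β s) (πt β s)) = g1 β s := by
    intro β hβ s hs
    simp only [h, if_neg (lt_irrefl α)]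
    refine le_antisymm (Nat.sInf_le (hbd β hβ s hs)) ?_
    have h7 := Nat.sInf_mem (s := {n | ∀ γ < α, g1 γ (b (πl β s) (πt β s) ∩ Iio γ) ≤ n})
      ⟨_, hbd β hβ s hs⟩
    obtain ⟨h1, h2, h3, h4, h5, -⟩ := hπ β s hβ hs
    have h8 := h7 _ h2
    rwa [(p.br _ h2 _ h3).2.2.1, hU _ h2 _ h3 h5] at h8
  refine ⟨N, h, ε, ⟨?_, ?_, ?_, ?_, fun η hη => (hα.not_covBy hη).elim⟩,
    ⟨fun β γ hβ hγ t ht => ?_, ?_, fun β hβ s hs => ?_, fun s => if_neg (lt_irrefl α),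
      fun δ hδ x hx n => ?_⟩, ?_, fun β hβ s hs hu => ?_⟩
  · rintro _ ⟨β, hβ, s, hs, rfl⟩
    obtain ⟨-, h2, h3, -⟩ := hπ β s hβ hs
    exact (p.br _ h2 _ h3).1
  · rintro _ ⟨β, hβ, s, hs, rfl⟩
    obtain ⟨-, h2, h3, -⟩ := hπ β s hβ hs
    exact (p.br _ h2 _ h3).2.1
  · have : N ⊆ ⋃ β : Iio α, (fun s => b (πl β s) (πt β s)) '' L β := by
      rintro _ ⟨β, hβ, s, hs, rfl⟩
      exact mem_iUnion.2 ⟨⟨β, hβ⟩, s, hs, rfl⟩
    refine (mk_le_mk_of_subset this).trans (mk_iUnion_le_sum_mk.trans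
      ((sum_le_sum _ (fun _ => κ) fun β : Iio α => mk_image_le.trans (hL β β.2).1).trans ?_))
    rw [sum_const']
    exact (mul_le_mul' (c.seg α) le_rfl).trans_eq (mul_eq_self c.inf)
  · obtain ⟨β, hβ⟩ := hα.1
    obtain ⟨s, hs⟩ := (hL β hβ).2
    exact ⟨_, β, hβ, s, hs, rfl⟩
  · simp only [h, if_pos hγ, if_pos (hβ.trans_lt hγ)]
    obtain ⟨h1, h2, h3, h4, h5, -⟩ := hπ γ t hγ ht
    exact (hπ β _ (hβ.trans_lt hγ) ((hT γ hγ t ht).2 β hβ)).2.2.2.2.2.1 _ _ (hβ.trans h1) h2 h3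
      (by rw [← res_res _ hβ, h4]) h5
  · rintro γ hγ _ ⟨β, hβ, s, hs, rfl⟩
    rw [htop β hβ s hs]
    simp only [h, if_pos hγ]
    exact hbd β hβ s hs γ hγ
  · simp only [ε, if_pos hβ]
    obtain ⟨h1, h2, h3, h4, -⟩ := hπ β s hβ hs
    refine ⟨⟨β, hβ, s, hs, rfl⟩, by rw [← res_res _ h1, (p.br _ h2 _ h3).2.2.1, h4], ?_⟩
    rw [htop β hβ s hs]
    simp only [h, if_pos hβ]
  · obtain ⟨γ, hγ, h1⟩ := p.unb δ hδ x hx n
    refine ⟨γ, hγ, ?_⟩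
    simp only [h, if_pos (hγ.trans_le hδ)]
    exact h1.trans (hge γ (hγ.trans_le hδ) _ (hx.mem γ hγ))
  · rintro _ ⟨β, hβ, s, hs, rfl⟩
    obtain ⟨-, h2, h3, -, h5, -⟩ := hπ β s hβ hs
    exact ⟨_, h2, by rwa [(p.br _ h2 _ h3).2.2.1]⟩
  · obtain ⟨h1, h2⟩ := (hπ β s hβ hs).2.2.2.2.2.2 hu
    simp only [h, ε, if_pos hβ, g1, h1, h2, and_self]

end Pool.Agent.Work.MP_d95c0d_gt.Sq
end

-- merged part: Pool.Agent.Work.MP_d95c0d_gt.SqC
section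
/-! The recursive construction of the tree. -/

namespace Pool.Agent.Work.MP_d95c0d_gt.Sq
open Set Cardinal

universe u v

/-- The data chosen at one level. -/
structure Dat (O : Type u) where
  L : Set (Set O)
  g : O → Set O → ℕ
  e : O → Set O → Set O

instance {O : Type u} : Nonempty (Dat O) := ⟨⟨∅, fun _ _ => 0, fun _ s => s⟩⟩

variable {O : Type u} [LinearOrder O] [WellFoundedLT O] {κ : Cardinal.{u}}

/-- `U` is dense in the part of the tree below `α`. -/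
def DenseTo (L : O → Set (Set O)) (α : O) (U : O → Set O → Prop) : Prop :=
  ∀ β < α, ∀ s ∈ L β, ∃ γ, β ≤ γ ∧ γ < α ∧ ∃ t ∈ L γ, t ∩ Iio β = s ∧ U γ t

/-- The induction hypothesis. -/
structure Inv (κ : Cardinal.{u}) (C : O → Set O) (E : Set O) (G : O → O → Set O → Prop)
    (α : O) (F : O → Dat O) (d : Dat O) : Prop where
  lev : Lev κ (fun β => (F β).L) α d.L
  good : Good (fun β => (F β).L) α d.L d.g d.e
  inc : ∀ η, η ⋖ α → ∀ s ∈ d.L, η ∈ s → d.g η (s ∩ Iio η) + 1 ≤ d.g α s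
  coh : AccBelow α univ → α ∉ E → ∀ δ < α, AccBelow δ (C α) → ∀ β ≤ δ, ∀ s ∈ (F β).L,
    d.g β s = (F δ).g β s ∧ d.e β s ∩ Iio δ = (F δ).e β s
  sl : α ∈ E → DenseTo (fun β => (F β).L) α (G α) → ∀ t ∈ d.L, ∃ β < α, G α β (t ∩ Iio β)

variable {C : O → Set O} {E : Set O} {G : O → O → Set O → Prop}

theorem Inv.congr (α : O) (F F' : O → Dat O) (d : Dat O) (h : ∀ β < α, F β = F' β)
    (i : Inv κ C E G α F d) : Inv κ C E G α F' d := by
  refine ⟨⟨i.lev.sub, fun s hs β hβ => h β hβ ▸ i.lev.res s hs β hβ, i.lev.card, i.lev.ne,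
    fun η hη s hs => i.lev.succ η hη s (by rwa [h η hη.1])⟩,
    ⟨fun β γ h1 h2 t ht => i.good.mono1 β γ h1 h2 t (by rwa [h γ h2]), i.good.mono2,
      fun β hβ s hs => i.good.ext β hβ s (by rwa [h β hβ]), i.good.top,
      fun δ hδ x hx => i.good.unb δ hδ x ⟨hx.lim, hx.sub, fun γ hγ => ?_, hx.tail⟩⟩, i.inc,
    fun h1 h2 δ hδ h3 β hβ s hs => ?_, fun h1 h2 => i.sl h1 fun β hβ s hs => ?_⟩
  · rw [h γ (hγ.trans_le hδ)]; exact hx.mem γ hγ
  · rw [← h δ hδ]; exact i.coh h1 h2 δ hδ h3 β hβ s (by rwa [h β (hβ.trans_lt hδ)])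
  · obtain ⟨γ, a1, a2, t, a3, a4⟩ := h2 β hβ s (show s ∈ (F' β).L from h β hβ ▸ hs)
    exact ⟨γ, a1, a2, t, show t ∈ (F γ).L from (h γ a2).symm ▸ a3, a4⟩

variable {α : O} {F : O → Dat O}

theorem treeTo (ih : ∀ β < α, Inv κ C E G β F (F β)) : TreeTo (fun β => (F β).L) α := by
  intro γ hγ t ht
  refine ⟨(ih γ hγ).lev.sub t ht, fun β hβ => ?_⟩
  rcases hβ.eq_or_lt with rfl | h
  · rwa [inter_eq_left.2 ((ih β hγ).lev.sub t ht)]
  · exact (ih γ hγ).lev.res t ht β h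

theorem Inv.g2 (i : Inv κ C E G α F (F α)) : G2 (fun β => (F β).L) α (F α).g (F α).e :=
  i.good.g2 i.lev

theorem step_bot (c : Ctx O κ) (a : Avoid C E) (hα : ∀ β, ¬ β < α) :
    ∃ d, Inv κ C E G α F d := by
  refine ⟨⟨{∅}, fun _ _ => 0, fun _ s => s⟩, ⟨?_, fun _ _ β hβ => (hα β hβ).elim, ?_,
    singleton_nonempty _, fun η hη => (hα η hη.1).elim⟩, ⟨fun _ γ _ h => (hα γ h).elim,
    fun β hβ => (hα β hβ).elim, fun β hβ => (hα β hβ).elim, fun _ => rfl, fun δ hδ x hx => ?_⟩,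
    fun η hη => (hα η hη.1).elim, fun _ _ β hβ => (hα β hβ).elim, fun h => ?_⟩
  · rintro _ rfl; exact empty_subset _
  · rw [mk_singleton]; exact one_le_aleph0.trans c.inf
  · obtain ⟨γ, hγ⟩ := hx.lim.1
    exact (hα γ (hγ.trans_le hδ)).elim
  · obtain ⟨γ, hγ⟩ := (a.cof α h).lim.1
    exact (hα γ hγ).elim

theorem step_succ (c : Ctx O κ) (a : Avoid C E) (ih : ∀ β < α, Inv κ C E G β F (F β))
    {η : O} (hη : η ⋖ α) : ∃ d, Inv κ C E G α F d := by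
  classical
  have hle : ∀ β, β < α ↔ β ≤ η := fun β =>
    ⟨fun h => not_lt.1 fun h' => hη.2 h' h, fun h => h.trans_lt hη.1⟩
  have hT := treeTo ih
  have i := ih η hη.1
  have g := i.g2
  have hna : ¬ α ≤ η := hη.1.not_ge
  have hnl : ¬ AccBelow α univ := fun h => h.not_covBy hη
  have hres : ∀ t ∈ (F η).L ∪ insert η '' (F η).L, t ∩ Iio η ∈ (F η).L := by
    rintro t (ht | ⟨s, hs, rfl⟩)
    · exact (hT η hη.1 t ht).2 η le_rfl
    · rw [insert_inter_of_notMem (show η ∉ Iio η from lt_irrefl η)]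
      exact (hT η hη.1 s hs).2 η le_rfl
  refine ⟨⟨(F η).L ∪ insert η '' (F η).L, fun γ s => if γ ≤ η then (F η).g γ s else
      (F η).g η (s ∩ Iio η) + if η ∈ s then 1 else 0,
      fun γ s => if γ ≤ η then (F η).e γ s else s⟩,
    ⟨?_, fun t ht β hβ => ?_, ?_, i.lev.ne.mono subset_union_left, fun η' hη' s hs => ?_⟩,
    ⟨fun β γ hβ hγ t ht => ?_, fun β hβ t ht => ?_, fun β hβ s hs => ?_, fun s => if_neg hna,
      fun δ hδ x hx n => ?_⟩, fun η' hη' s hs h => ?_, fun h => (hnl h).elim,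
    fun h => (hnl (a.cof α h).lim).elim⟩
  · rintro t (ht | ⟨s, hs, rfl⟩)
    · exact (i.lev.sub t ht).trans (Iio_subset_Iio hη.1.le)
    · exact insert_subset hη.1 ((i.lev.sub s hs).trans (Iio_subset_Iio hη.1.le))
  · rw [← res_res _ ((hle β).1 hβ)]
    exact (hT η hη.1 _ (hres t ht)).2 β ((hle β).1 hβ)
  · exact (mk_union_le _ _).trans
      ((add_le_add i.lev.card (mk_image_le.trans i.lev.card)).trans_eq (add_eq_self c.inf))
  · obtain rfl : η' = η := hη'.unique_left hη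
    exact ⟨Or.inl hs, Or.inr ⟨s, hs, rfl⟩⟩
  · rw [hle] at hγ
    simp only [if_pos hγ, if_pos (hβ.trans hγ)]
    exact g.mono β γ hβ hγ t ht
  · rw [hle] at hβ
    simp only [if_pos hβ, if_neg hna]
    have := g.mono β η hβ le_rfl _ (hres t ht)
    rw [res_res _ hβ] at this
    omega
  · rw [hle] at hβ
    simp only [if_pos hβ, if_neg hna]
    obtain ⟨a1, a2, a3⟩ := g.ext β hβ s hs
    have a4 := i.lev.sub _ a1
    refine ⟨Or.inl a1, a2, ?_⟩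
    rw [inter_eq_left.2 a4, a3, if_neg fun h => lt_irrefl η (a4 h), add_zero]
  · have hδ' : δ ≤ η := (hle δ).1 (lt_of_le_of_ne hδ fun h => hnl (h ▸ hx.lim))
    obtain ⟨γ, hγ, h⟩ := g.unb δ hδ' x hx n
    exact ⟨γ, hγ, by simp only [if_pos (hγ.le.trans hδ')]; exact h⟩
  · obtain rfl : η' = η := hη'.unique_left hη
    simp only [if_neg hna, if_pos h, le_refl, if_true]

theorem finish (c : Ctx O κ) (ih : ∀ β < α, Inv κ C E G β F (F β)) (hα : AccBelow α univ)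
    {h0 : O → Set O → ℕ} {b : O → Set O → Set O} (p : Pre (fun β => (F β).L) α h0 b)
    (hc : α ∉ E → ∀ δ < α, AccBelow δ (C α) → ∀ β ≤ δ, ∀ s ∈ (F β).L,
      h0 β s = (F δ).g β s ∧ b β s ∩ Iio δ = (F δ).e β s) : ∃ d, Inv κ C E G α F d := by
  have hT := treeTo ih
  have hL : ∀ β < α, #((F β).L) ≤ κ ∧ ((F β).L).Nonempty := fun β hβ =>
    ⟨(ih β hβ).lev.card, (ih β hβ).lev.ne⟩
  by_cases hs : α ∈ E ∧ DenseTo (fun β => (F β).L) α (G α)
  · obtain ⟨N, h, ε, a1, a2, a3, -⟩ := p.close c hα hT hL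
      (fun β s => ∃ β' ≤ β, G α β' (s ∩ Iio β'))
      (fun β γ hβ t ⟨β', h1, h2⟩ => ⟨β', h1.trans hβ, by
        rw [res_res _ h1] at h2; rwa [res_res _ (h1.trans hβ)]⟩)
      fun β hβ s hs' => by
        obtain ⟨γ, b1, b2, t, b3, b4, b5⟩ := hs.2 β hβ s hs'
        exact ⟨γ, b1, b2, t, b3, b4, γ, le_rfl, by rwa [inter_eq_left.2 (hT γ b2 t b3).1]⟩
    refine ⟨⟨N, h, ε⟩, a1, a2, fun η hη => (hα.not_covBy hη).elim, fun _ h => (h hs.1).elim,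
      fun _ _ t ht => ?_⟩
    obtain ⟨β, hβ, β', h1, h2⟩ := a3 t ht
    exact ⟨β', h1.trans_lt hβ, by rwa [res_res _ h1] at h2⟩
  · obtain ⟨N, h, ε, a1, a2, -, a4⟩ := p.close c hα hT hL (fun _ _ => True)
      (fun _ _ _ _ _ => trivial) fun β hβ s hs' =>
        ⟨β, le_rfl, hβ, s, hs', inter_eq_left.2 (hT β hβ s hs').1, trivial⟩
    refine ⟨⟨N, h, ε⟩, a1, a2, fun η hη => (hα.not_covBy hη).elim,
      fun _ h1 δ hδ h2 β hβ s hs' => ?_, fun h1 h2 => (hs ⟨h1, h2⟩).elim⟩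
    obtain ⟨b1, b2⟩ := a4 β (hβ.trans_lt hδ) s hs' trivial
    simp only [b1, b2]
    exact hc h1 δ hδ h2 β hβ s hs'

/-- coherence between two limit points -/
theorem coh_acc (a : Avoid C E) (ih : ∀ β < α, Inv κ C E G β F (F β)) (hα : AccBelow α univ)
    {δ δ' : O} (hδ' : δ' < α) (h1 : AccBelow δ (C α)) (h2 : AccBelow δ' (C α)) (hle : δ ≤ δ') :
    ∀ β ≤ δ, ∀ s ∈ (F β).L,
      (F δ').g β s = (F δ).g β s ∧ (F δ').e β s ∩ Iio δ = (F δ).e β s := by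
  intro β hβ s hs
  rcases hle.eq_or_lt with rfl | hlt
  · exact ⟨rfl, inter_eq_left.2 ((ih δ hδ').lev.sub _ ((ih δ hδ').g2.ext β hβ s hs).1)⟩
  · obtain ⟨h3, h4⟩ := a.coh α hα δ' hδ' h2
    refine (ih δ' hδ').coh h2.lim h3 δ hlt ⟨h1.1, fun γ hγ => ?_⟩ β hβ s hs
    obtain ⟨x, hx, h5, h6⟩ := h1.2 γ hγ
    exact ⟨x, h4 ▸ ⟨hx, h6.trans hlt⟩, h5, h6⟩

theorem step_A (c : Ctx O κ) (a : Avoid C E) (ih : ∀ β < α, Inv κ C E G β F (F β))
    (hα : AccBelow α univ) (hA : ∀ β < α, ∃ δ, β ≤ δ ∧ δ < α ∧ AccBelow δ (C α)) :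
    ∃ d, Inv κ C E G α F d := by
  obtain ⟨h0, b, p, hp⟩ := exists_pre (treeTo ih) (I := {δ // δ < α ∧ AccBelow δ (C α)})
    Subtype.val (fun i => (F i).g) (fun i => (F i).e) (fun i => i.2.1)
    (fun β hβ => (hA β hβ).elim fun δ h => ⟨⟨δ, h.2⟩, h.1⟩) (fun i => (ih i i.2.1).g2)
    (fun i j h => coh_acc a ih hα j.2.1 i.2.2 j.2.2 h) fun x hx => by
      obtain ⟨β, hβ, h⟩ := hx.tail
      obtain ⟨β', -, h1, h2⟩ := hα.2 β hβ
      obtain ⟨δ, h3, h4, h5⟩ := hA β' h2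
      exact ((h δ (h1.trans_le h3) h4).2 h5.lim).elim
  exact finish c ih hα p fun _ δ hδ h => hp ⟨δ, hδ, h⟩

theorem exists_covBy {β γ : O} (h : β < γ) : ∃ β', β ⋖ β' ∧ β' ≤ γ := by
  obtain ⟨β', h1, h2⟩ := WellFounded.has_min (wellFounded_lt (α := O)) {x | β < x} ⟨γ, h⟩
  exact ⟨β', ⟨h1, fun x h3 h4 => h2 x h3 h4⟩, not_lt.1 (h2 γ h)⟩

theorem step_B (c : Ctx O κ) (ih : ∀ β < α, Inv κ C E G β F (F β)) (hα : CofW α)
    {γ0 : O} (h0 : γ0 < α) (hc : α ∉ E → ∀ δ < α, AccBelow δ (C α) → δ ≤ γ0 ∧ ∀ β ≤ δ,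
      ∀ s ∈ (F β).L, (F γ0).g β s = (F δ).g β s ∧ (F γ0).e β s ∩ Iio δ = (F δ).e β s) :
    ∃ d, Inv κ C E G α F d := by
  have hl := hα.lim
  have hT := treeTo ih
  obtain ⟨s, -, hs1, hs2⟩ := hα
  have h1 : ∀ (n : ℕ) (x : O), ∃ y, x < α → y < α ∧ s n < y ∧ ∃ η, x ≤ η ∧ η ⋖ y := by
    intro n x
    by_cases hx : x < α
    · obtain ⟨z, -, h2, h3⟩ := hl.2 _ (max_lt hx (hs1 n))
      obtain ⟨y, h4, h5⟩ := exists_covBy h2
      exact ⟨y, fun _ => ⟨h5.trans_lt h3, (le_max_right _ _).trans_lt h4.1, _,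
        le_max_left _ _, h4⟩⟩
    · exact ⟨x, fun h => (hx h).elim⟩
  choose nx hnx using h1
  let γ : ℕ → O := fun n => Nat.rec γ0 (fun n x => nx n x) n
  have hγ : ∀ n, γ n < α := fun n => by
    induction n with
    | zero => exact h0
    | succ n ih => exact (hnx n _ ih).1
  have hγ1 : ∀ n, ∃ η, γ n ≤ η ∧ η ⋖ γ (n + 1) := fun n => (hnx n _ (hγ n)).2.2
  have hγ2 : ∀ n, γ n < γ (n + 1) := fun n => (hγ1 n).elim fun η h => h.1.trans_lt h.2.1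
  have hm : StrictMono γ := strictMono_nat_of_lt_succ hγ2
  have hcof : ∀ β < α, ∃ n, β < γ n := fun β hβ =>
    (hs2 β hβ).elim fun n hn => ⟨n + 1, hn.trans (hnx n _ (hγ n)).2.1⟩
  let h : ℕ → O → Set O → ℕ := fun n =>
    Nat.rec (F γ0).g (fun n x => glueH (γ n) x (F (γ (n + 1))).g) n
  let ε : ℕ → O → Set O → Set O := fun n =>
    Nat.rec (F γ0).e (fun n x => glueE (γ n) x (F (γ (n + 1))).e) n
  have hh : ∀ n, h (n + 1) = glueH (γ n) (h n) (F (γ (n + 1))).g := fun _ => rfl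
  have hε : ∀ n, ε (n + 1) = glueE (γ n) (ε n) (F (γ (n + 1))).e := fun _ => rfl
  have good : ∀ n, G2 (fun β => (F β).L) (γ n) (h n) (ε n) := fun n => by
    induction n with
    | zero => exact (ih γ0 h0).g2
    | succ n ihn => exact ihn.glue hT (hγ2 n) (hγ (n + 1)) (ih _ (hγ (n + 1))).g2
  have coh : ∀ i j, i ≤ j → ∀ β ≤ γ i, ∀ s ∈ (F β).L,
      h j β s = h i β s ∧ ε j β s ∩ Iio (γ i) = ε i β s := by
    intro i j hij β hβ t ht
    induction j, hij using Nat.le_induction with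
    | base => exact ⟨rfl, inter_eq_left.2 (hT _ (hγ i) _ ((good i).ext β hβ t ht).1).1⟩
    | succ j hij ihj =>
      have h1 := hm.monotone hij
      have h2 := hβ.trans h1
      rw [hh, hε]
      unfold glueH glueE
      rw [if_pos h2, if_pos h2, ← res_res _ h1,
        ((ih _ (hγ (j + 1))).g2.ext _ (hγ2 j).le _ ((good j).ext β h2 t ht).1).2.1]
      exact ihj
  obtain ⟨g0, b, p, hp⟩ := exists_pre hT γ h ε hγ
    (fun β hβ => (hcof β hβ).imp fun _ h => h.le) good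
    (fun i j hij => coh i j (hm.le_iff_le.1 hij)) fun x hx n => by
      obtain ⟨β, hβ, h1⟩ := hx.tail
      obtain ⟨m, hm'⟩ := hcof β hβ
      refine ⟨m + n, ?_⟩
      induction n with
      | zero => exact Nat.zero_le _
      | succ n ihn =>
        obtain ⟨η, a1, a2⟩ := hγ1 (m + n)
        have a3 : η < α := a2.1.trans (hγ (m + n + 1))
        have a4 : η ∈ x := (h1 η (hm'.trans_le ((hm.monotone (Nat.le_add_right m n)).trans a1)) a3).1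
        have a5 := (ih _ (hγ (m + n + 1))).inc η a2 _ (hx.mem _ (hγ (m + n + 1))) ⟨a4, a2.1⟩
        have a6 := (ih _ (hγ (m + n + 1))).g2.mono _ η a1 a2.1.le _ (hx.mem η a3)
        rw [res_res _ a2.1.le] at a5
        rw [res_res _ a1] at a6
        rw [← add_assoc, hh]
        unfold glueH
        rw [if_neg (hγ2 _).not_ge, res_res _ (hγ2 _).le]
        omega
  refine finish c ih hl p fun hE δ hδ hacc β hβ t ht => ?_
  obtain ⟨a1, a2⟩ := hc hE δ hδ hacc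
  obtain ⟨a3, a4⟩ := hp 0 β (hβ.trans a1) t ht
  obtain ⟨a5, a6⟩ := a2 β hβ t ht
  exact ⟨a3.trans a5, by rw [← res_res _ a1, ← a6]; exact congrArg (· ∩ Iio δ) a4⟩

theorem step_all (c : Ctx O κ) (a : Avoid C E) (α : O) (F : O → Dat O)
    (ih : ∀ β < α, Inv κ C E G β F (F β)) : ∃ d, Inv κ C E G α F d := by
  by_cases h0 : ∃ β, β < α
  swap
  · exact step_bot c a fun β hβ => h0 ⟨β, hβ⟩
  by_cases hα : AccBelow α univ
  swap
  · simp only [AccBelow, h0, true_and, not_forall] at hα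
    obtain ⟨η, hη, h⟩ := hα
    exact step_succ c a ih ⟨hη, fun x h1 h2 => h ⟨x, trivial, h1, h2⟩⟩
  obtain ⟨β1, hβ1⟩ := h0
  by_cases hE : α ∈ E
  · exact step_B c ih (a.cof α hE) hβ1 fun h => (h hE).elim
  by_cases hA : ∀ β < α, ∃ δ, β ≤ δ ∧ δ < α ∧ AccBelow δ (C α)
  · exact step_A c a ih hα hA
  push Not at hA
  obtain ⟨β0, hβ0, hA⟩ := hA
  have hcof : CofW α := by
    have h1 : ∀ x, ∃ y, x < α → y ∈ C α ∧ x < y ∧ y < α := fun x => by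
      by_cases hx : x < α
      · exact ((a.unb α hα).2 x hx).imp fun y hy _ => hy
      · exact ⟨x, fun h => (hx h).elim⟩
    choose nx hnx using h1
    let s : ℕ → O := fun n => nx^[n] β0
    have hs1 : ∀ n, s (n + 1) = nx (s n) := fun n => Function.iterate_succ_apply' _ _ _
    have hs2 : ∀ n, s n < α := fun n => by
      induction n with
      | zero => exact hβ0
      | succ n ihn => rw [hs1]; exact (hnx _ ihn).2.2
    have hs : StrictMono s := strictMono_nat_of_lt_succ fun n => by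
      rw [hs1]; exact (hnx _ (hs2 n)).2.1
    obtain ⟨σ, h1, h2⟩ := c.exists_sup hs
    have h3 : σ ≤ α := not_lt.1 fun h => (h2 α h).elim fun n hn => hn.not_gt (hs2 n)
    rcases h3.eq_or_lt with rfl | h4
    · exact ⟨s, hs, h1, h2⟩
    · refine (hA σ (h1 0).le h4 ⟨⟨_, h1 0⟩, fun x hx => ?_⟩).elim
      obtain ⟨n, hn⟩ := h2 x hx
      exact ⟨s (n + 1), hs1 n ▸ (hnx _ (hs2 n)).1, hn.trans (hs (Nat.lt_succ_self n)), h1 _⟩
  by_cases hS : ∃ δ < α, AccBelow δ (C α)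
  swap
  · exact step_B c ih hcof hβ1 fun _ δ hδ h => (hS ⟨δ, hδ, h⟩).elim
  obtain ⟨γ0, h1, h2⟩ := WellFounded.has_min (wellFounded_lt (α := O))
    {x | ∀ δ < α, AccBelow δ (C α) → δ ≤ x}
    ⟨β0, fun δ hδ h => (not_le.1 fun h' => hA δ h' hδ h).le⟩
  have h3 : γ0 < α := lt_of_le_of_lt
    (not_lt.1 (h2 β0 fun δ hδ h => (not_le.1 fun h' => hA δ h' hδ h).le)) hβ0
  have h4 : AccBelow γ0 (C α) := by
    obtain ⟨δ, hδ, h⟩ := hS
    refine ⟨h.1.imp fun _ h' => h'.trans_le (h1 δ hδ h), fun x hx => ?_⟩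
    have h5 : ¬ ∀ δ < α, AccBelow δ (C α) → δ ≤ x := fun h' => h2 x h' hx
    push Not at h5
    obtain ⟨δ', a1, a2, a3⟩ := h5
    obtain ⟨y, b1, b2, b3⟩ := a2.2 x a3
    exact ⟨y, b1, b2, b3.trans_le (h1 δ' a1 a2)⟩
  exact step_B c ih hcof h3 fun _ δ hδ h =>
    ⟨h1 δ hδ h, coh_acc a ih hα h3 h h4 (h1 δ hδ h)⟩

/-- The finished tree. -/
structure Tree (L : O → Set (Set O)) (g : O → O → Set O → ℕ) (e : O → O → Set O → Set O) :
    Prop where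
  sub : ∀ γ, ∀ t ∈ L γ, t ⊆ Iio γ
  res : ∀ γ, ∀ t ∈ L γ, ∀ β ≤ γ, t ∩ Iio β ∈ L β
  ne : ∀ γ, (L γ).Nonempty
  succ : ∀ η α, η ⋖ α → ∀ s ∈ L η, s ∈ L α ∧ insert η s ∈ L α
  g2 : ∀ α, G2 L α (g α) (e α)
  sous : ∀ U : O → Set O → Prop,
    (∀ β, ∀ s ∈ L β, ∃ γ, β ≤ γ ∧ ∃ t ∈ L γ, t ∩ Iio β = s ∧ U γ t) →
    ∃ α, ∀ t ∈ L α, ∃ β < α, U β (t ∩ Iio β)

theorem Ctx.exists_tree (c : Ctx O κ) (a : Avoid C E) :
    ∃ (L : O → Set (Set O)) (g : O → O → Set O → ℕ) (e : O → O → Set O → Set O), Tree L g e := by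
  classical
  have h2 : ℵ₀ ≤ 2 ^ κ := c.inf.trans (cantor κ).le
  have hZ : #(Σ β : O, Set (Iio β)) ≤ 2 ^ κ := by
    rw [mk_sigma]
    refine (sum_le_sum _ (fun _ => 2 ^ κ) fun β => ?_).trans ?_
    · rw [mk_set]; exact power_le_power_left two_ne_zero (c.seg β)
    · rw [sum_const']; exact (mul_le_mul' c.card le_rfl).trans_eq (mul_eq_self h2)
  obtain ⟨G0, hG0⟩ := c.diamond a.stat a.cof hZ Sigma.fst
  let G : O → O → Set O → Prop := fun α β s => ⟨β, Subtype.val ⁻¹' s⟩ ∈ G0 α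
  obtain ⟨F, hF⟩ := exists_rec (Inv κ C E G) Inv.congr (step_all c a)
  have hT : ∀ γ, ∀ t ∈ (F γ).L, t ⊆ Iio γ ∧ ∀ β ≤ γ, t ∩ Iio β ∈ (F β).L := fun γ =>
    (c.gt γ).elim fun α hα => treeTo (fun β _ => hF β) γ hα
  refine ⟨fun β => (F β).L, fun β => (F β).g, fun β => (F β).e, fun γ t ht => (hT γ t ht).1,
    fun γ t ht => (hT γ t ht).2, fun γ => (hF γ).lev.ne, fun η α => (hF α).lev.succ η,
    fun α => (hF α).g2, fun U hU => ?_⟩
  choose! ht1 ht2 ht3 ht4 ht5 ht6 using hU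
  have hf : ∀ β, ∃ b, ∀ s ∈ (F β).L, ht1 β s < b := fun β =>
    (c.bdd_fun (hF β).lev.card fun s : (F β).L => ht1 β s).imp fun b hb s hs => hb ⟨s, hs⟩
  choose f hf using hf
  let A : Set (Σ β : O, Set (Iio β)) :=
    {z | ∃ s ∈ (F z.1).L, U z.1 s ∧ z.2 = Subtype.val ⁻¹' s}
  obtain ⟨α, hE, hcl, hG⟩ := hG0 A (fun β => by
    have : {z ∈ A | z.1 < β} ⊆ ⋃ γ : Iio β, (fun s => ⟨γ, Subtype.val ⁻¹' s⟩) '' (F γ).L := by
      rintro ⟨γ, w⟩ ⟨⟨s, hs, -, hw⟩, hγ⟩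
      obtain rfl : w = Subtype.val ⁻¹' s := hw
      exact mem_iUnion.2 ⟨⟨γ, hγ⟩, s, hs, rfl⟩
    refine (mk_le_mk_of_subset this).trans (mk_iUnion_le_sum_mk.trans
      ((sum_le_sum _ (fun _ => κ) fun γ : Iio β => mk_image_le.trans (hF γ).lev.card).trans ?_))
    rw [sum_const']
    exact (mul_le_mul' (c.seg β) le_rfl).trans_eq (mul_eq_self c.inf)) f
  refine ⟨α, fun t ht => ?_⟩
  obtain ⟨β, hβ, h⟩ := (hF α).sl hE (fun β hβ s hs => by
    have h1 := (hf β s hs).trans (hcl β hβ)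
    refine ⟨_, ht2 β s hs, h1, _, ht4 β s hs, ht5 β s hs, ?_⟩
    simp only [G, hG]
    exact ⟨⟨_, ht4 β s hs, ht6 β s hs, rfl⟩, h1⟩) t ht
  simp only [G, hG] at h
  obtain ⟨⟨s, hs, h1, h2⟩, -⟩ := h
  refine ⟨β, hβ, ?_⟩
  replace h2 : (Subtype.val ⁻¹' (t ∩ Iio β) : Set (Iio β)) = Subtype.val ⁻¹' s := h2
  have : t ∩ Iio β = s := by
    ext x
    constructor
    · intro hx
      have : (⟨x, hx.2⟩ : Iio β) ∈ Subtype.val ⁻¹' (t ∩ Iio β) := hx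
      rwa [h2] at this
    · intro hx
      have : (⟨x, (hT β s hs).1 hx⟩ : Iio β) ∈ Subtype.val ⁻¹' s := hx
      rwa [← h2] at this
  rwa [this]

end Pool.Agent.Work.MP_d95c0d_gt.Sq
end

-- merged part: Pool.Agent.Work.MP_d95c0d_gt.SqD
section
/-! The branch space and its properties. -/

namespace Pool.Agent.Work.MP_d95c0d_gt.Sq
open Set Cardinal TopologicalSpace

universe u

variable {O : Type u} [LinearOrder O] [WellFoundedLT O] {κ : Cardinal.{u}}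

/-- The points. -/
structure Sp (L : O → Set (Set O)) where
  len : O
  val : Set O
  pt : Pt L len val

variable {L : O → Set (Set O)} {g : O → O → Set O → ℕ} {e : O → O → Set O → Set O}

/-- Basic open sets. -/
def Bs (L : O → Set (Set O)) (β : O) (s : Set O) : Set (Sp L) :=
  {p | β < p.len ∧ p.val ∩ Iio β = s}

instance : TopologicalSpace (Sp L) := generateFrom {U | ∃ β s, U = Bs L β s}

omit [WellFoundedLT O] in
theorem Bs_sub {β γ : O} {s t : Set O} (h : β ≤ γ) (ht : t ∩ Iio β = s) :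
    Bs L γ t ⊆ Bs L β s := fun _ hp =>
  ⟨h.trans_lt hp.1, by rw [← res_res _ h, hp.2, ht]⟩

omit [WellFoundedLT O] in
theorem Bs_sub' {β γ : O} {s t : Set O} {p : Sp L} (h : β ≤ γ) (h1 : p ∈ Bs L β s)
    (h2 : p ∈ Bs L γ t) : Bs L γ t ⊆ Bs L β s :=
  Bs_sub h (by rw [← h2.2, res_res _ h, h1.2])

omit [WellFoundedLT O] in
theorem Bs_comp {U V : Set (Sp L)} {p : Sp L} (hU : ∃ β s, U = Bs L β s)
    (hV : ∃ β s, V = Bs L β s) (h1 : p ∈ U) (h2 : p ∈ V) : U ⊆ V ∨ V ⊆ U := by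
  obtain ⟨β, s, rfl⟩ := hU
  obtain ⟨γ, t, rfl⟩ := hV
  rcases le_total β γ with h | h
  · exact Or.inr (Bs_sub' h h1 h2)
  · exact Or.inl (Bs_sub' h h2 h1)

omit [WellFoundedLT O] in
theorem basis : IsTopologicalBasis {U : Set (Sp L) | ∃ β s, U = Bs L β s} := by
  refine ⟨fun U hU V hV p hp => ?_, eq_univ_of_forall fun p => ?_, rfl⟩
  · rcases Bs_comp hU hV hp.1 hp.2 with h | h
    · exact ⟨U, hU, hp.1, subset_inter subset_rfl h⟩
    · exact ⟨V, hV, hp.2, subset_inter h subset_rfl⟩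
  · obtain ⟨β, hβ⟩ := p.pt.lim.1
    exact ⟨_, ⟨β, _, rfl⟩, hβ, rfl⟩

omit [WellFoundedLT O] in
theorem isOpen_Bs (β : O) (s : Set O) : IsOpen (Bs L β s) := basis.isOpen ⟨β, s, rfl⟩

omit [WellFoundedLT O] in
theorem nhd {U : Set (Sp L)} (hU : IsOpen U) {p : Sp L} (hp : p ∈ U) {γ : O} (hγ : γ < p.len) :
    ∃ β, γ ≤ β ∧ β < p.len ∧ Bs L β (p.val ∩ Iio β) ⊆ U := by
  obtain ⟨_, ⟨β, s, rfl⟩, h1, h2⟩ := basis.exists_subset_of_mem_open hp hU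
  exact ⟨max β γ, le_max_right _ _, max_lt h1.1 hγ,
    (Bs_sub' (le_max_left _ _) h1 ⟨max_lt h1.1 hγ, rfl⟩).trans h2⟩

omit [WellFoundedLT O] in
theorem normal : NormalSpace (Sp L) := by
  refine ⟨fun A B hA hB hd => ⟨⋃₀ {U | (∃ β s, U = Bs L β s) ∧ (U ∩ A).Nonempty ∧ Disjoint U B},
    ⋃₀ {U | (∃ β s, U = Bs L β s) ∧ (U ∩ B).Nonempty ∧ Disjoint U A},
    isOpen_sUnion fun U hU => basis.isOpen hU.1, isOpen_sUnion fun U hU => basis.isOpen hU.1,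
    fun p hp => ?_, fun p hp => ?_, disjoint_left.2 ?_⟩⟩
  · obtain ⟨U, h1, h2, h3⟩ := basis.exists_subset_of_mem_open (disjoint_left.1 hd hp)
      hB.isOpen_compl
    exact ⟨U, ⟨h1, ⟨p, h2, hp⟩, subset_compl_iff_disjoint_right.1 h3⟩, h2⟩
  · obtain ⟨U, h1, h2, h3⟩ := basis.exists_subset_of_mem_open (disjoint_right.1 hd hp)
      hA.isOpen_compl
    exact ⟨U, ⟨h1, ⟨p, h2, hp⟩, subset_compl_iff_disjoint_right.1 h3⟩, h2⟩
  · rintro p ⟨U, ⟨h1, ⟨x, h2⟩, h3⟩, h4⟩ ⟨V, ⟨h5, ⟨y, h6⟩, h7⟩, h8⟩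
    rcases Bs_comp h1 h5 h4 h8 with h | h
    · exact disjoint_left.1 h7 (h h2.1) h2.2
    · exact disjoint_left.1 h3 (h h6.1) h6.2

omit [WellFoundedLT O] in
theorem Tree.not_mem (T : Tree L g e) (p : Sp L) : p.val ∉ L p.len := fun h => by
  obtain ⟨γ, hγ, h1⟩ := (T.g2 p.len).unb _ le_rfl _ p.pt (g p.len p.len p.val + 1)
  have := (T.g2 p.len).mono γ _ hγ.le le_rfl _ h
  omega

omit [WellFoundedLT O] in
theorem Tree.t1 (T : Tree L g e) : T1Space (Sp L) := by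
  refine t1Space_iff_exists_open.2 fun p q hne => ?_
  by_contra hc
  push Not at hc
  have h1 : ∀ β < p.len, β < q.len ∧ q.val ∩ Iio β = p.val ∩ Iio β := fun β hβ =>
    hc _ (isOpen_Bs β _) ⟨hβ, rfl⟩
  have h2 : p.len ≤ q.len := not_lt.1 fun h => lt_irrefl _ (h1 _ h).1
  have h3 : q.val ∩ Iio p.len = p.val := by
    ext x
    constructor
    · rintro ⟨h4, h5⟩
      obtain ⟨β, -, h6, h7⟩ := p.pt.lim.2 x h5
      exact ((h1 β h7).2.subset ⟨h4, h6⟩).1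
    · intro h4
      obtain ⟨β, -, h6, h7⟩ := p.pt.lim.2 x (p.pt.sub h4)
      exact ⟨((h1 β h7).2.symm.subset ⟨h4, h6⟩).1, p.pt.sub h4⟩
  rcases h2.eq_or_lt with h | h
  · obtain ⟨a, x, hx⟩ := p
    obtain ⟨b, y, hy⟩ := q
    obtain rfl : a = b := h
    obtain rfl : y = x := (inter_eq_left.2 hy.sub).symm.trans h3
    exact hne rfl
  · exact T.not_mem p (h3 ▸ q.pt.mem _ h)

theorem Tree.dense (c : Ctx O κ) (T : Tree L g e) {β : O} {s : Set O} (hs : s ∈ L β) :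
    ∃ p : Sp L, p ∈ Bs L β s := by
  have h1 : ∀ x : O, ∃ y, x ⋖ y := fun x => (c.gt x).elim fun y hy =>
    (exists_covBy hy).imp fun _ h => h.1
  choose nx hnx using h1
  let a : ℕ → O := fun n => nx^[n] β
  have ha : ∀ n, a n ⋖ a (n + 1) := fun n => by
    simp only [a, Function.iterate_succ_apply']; exact hnx _
  have hm : StrictMono a := strictMono_nat_of_lt_succ fun n => (ha n).1
  obtain ⟨δ, h1, h2⟩ := c.exists_sup hm
  have hsub := T.sub β s hs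
  have hlev : ∀ n, (s ∪ Ico β δ) ∩ Iio (a n) ∈ L (a n) := fun n => by
    induction n with
    | zero =>
      have : (s ∪ Ico β δ) ∩ Iio (a 0) = s := by
        refine Subset.antisymm ?_ fun x hx => ⟨Or.inl hx, hsub hx⟩
        rintro x ⟨h | h, h'⟩
        · exact h
        · exact (h.1.not_gt h').elim
      rwa [this]
    | succ n ih =>
      have : (s ∪ Ico β δ) ∩ Iio (a (n + 1)) = insert (a n) ((s ∪ Ico β δ) ∩ Iio (a n)) := by
        refine Subset.antisymm (fun x hx => ?_) (insert_subset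
          ⟨Or.inr ⟨hm.monotone (Nat.zero_le n), h1 n⟩, (ha n).1⟩
          (inter_subset_inter_right _ (Iio_subset_Iio (ha n).1.le)))
        rcases (not_lt.1 fun h => (ha n).2 h hx.2 : x ≤ a n).eq_or_lt with h | h
        · exact Or.inl h
        · exact Or.inr ⟨hx.1, h⟩
      rw [this]
      exact (T.succ _ _ (ha n) _ ih).2
  refine ⟨⟨δ, s ∪ Ico β δ, CofW.lim ⟨a, hm, h1, h2⟩,
    union_subset (hsub.trans (Iio_subset_Iio (h1 0).le)) Ico_subset_Iio_self, fun γ hγ => ?_,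
    β, h1 0, fun γ h3 h4 => ⟨Or.inr ⟨h3.le, h4⟩, fun hl => ?_⟩⟩, h1 0, ?_⟩
  · obtain ⟨n, hn⟩ := h2 γ hγ
    rw [← res_res _ hn.le]
    exact T.res _ _ (hlev n) γ hn.le
  · have : ∀ n, a n < γ := fun n => by
      induction n with
      | zero => exact h3
      | succ n ih =>
        obtain ⟨y, -, h5, h6⟩ := hl.2 _ ih
        exact (not_lt.1 fun h => (ha n).2 h5 h : a (n + 1) ≤ y).trans_lt h6
    obtain ⟨n, hn⟩ := h2 γ h4
    exact hn.not_gt (this n)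
  · refine Subset.antisymm ?_ fun x hx => ⟨Or.inl hx, hsub hx⟩
    rintro x ⟨h | h, h'⟩
    · exact h
    · exact (h.1.not_gt h').elim

theorem Tree.split (c : Ctx O κ) (T : Tree L g e) {γ a : O} {t w : Set O} (ht : t ∈ L γ)
    (h : γ < a) : ¬ Bs L γ t ⊆ Bs L a w := fun hsub => by
  obtain ⟨γ', h1, h2⟩ := exists_covBy h
  obtain ⟨h3, h4⟩ := T.succ _ _ h1 t ht
  have h5 := T.sub _ _ ht
  obtain ⟨p, hp⟩ := T.dense c h3
  obtain ⟨q, hq⟩ := T.dense c h4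
  have hp' := (hsub (Bs_sub h1.1.le (inter_eq_left.2 h5) hp)).2
  have hq' := (hsub (Bs_sub h1.1.le (by
    rw [insert_inter_of_notMem (show γ ∉ Iio γ from lt_irrefl γ), inter_eq_left.2 h5]) hq)).2
  have h6 : γ ∈ q.val := (hq.2.symm.subset (mem_insert _ _)).1
  have h7 : γ ∈ p.val := ((hq'.trans hp'.symm).subset ⟨h6, h⟩).1
  exact lt_irrefl γ (h5 (hp.2.subset ⟨h7, h1.1⟩))

/-- The Souslin property read in the space. -/
theorem Tree.level (c : Ctx O κ) (T : Tree L g e) (U : O → Set O → Prop)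
    (hU : ∀ p : Sp L, ∀ β < p.len, ∃ γ, β ≤ γ ∧ γ < p.len ∧ U γ (p.val ∩ Iio γ)) :
    ∃ α, ∀ t ∈ L α, ∃ β < α, U β (t ∩ Iio β) := by
  refine T.sous U fun β s hs => ?_
  obtain ⟨p, hp⟩ := T.dense c hs
  obtain ⟨γ, h1, h2, h3⟩ := hU p β hp.1
  exact ⟨γ, h1, _, p.pt.mem γ h2, by rw [res_res _ h1, hp.2], h3⟩

theorem Tree.gdelta (c : Ctx O κ) (T : Tree L g e) {A : Set (Sp L)} (hA : IsClosed A) :
    IsGδ A := by
  obtain ⟨α, hα⟩ := T.sous (fun γ t => Bs L γ t ⊆ Aᶜ ∨ Bs L γ t ⊆ A) fun β s hs => by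
    by_cases h : Bs L β s ⊆ A
    · exact ⟨β, le_rfl, s, hs, inter_eq_left.2 (T.sub β s hs), Or.inr h⟩
    · obtain ⟨p, hp, hpA⟩ := not_subset.1 h
      obtain ⟨γ, h1, h2, h3⟩ := nhd hA.isOpen_compl hpA hp.1
      exact ⟨γ, h1, _, p.pt.mem γ h2, by rw [res_res _ h1, hp.2], Or.inl h3⟩
  have hdec : ∀ p : Sp L, α < p.len →
      Bs L α (p.val ∩ Iio α) ⊆ Aᶜ ∨ Bs L α (p.val ∩ Iio α) ⊆ A := fun p hp => by
    obtain ⟨β, hβ, h⟩ := hα _ (p.pt.mem α hp)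
    exact h.imp (Bs_sub hβ.le rfl).trans (Bs_sub hβ.le rfl).trans
  let W : ℕ → Set (Sp L) := fun n => ⋃₀ {U | (∃ β s, U = Bs L β s) ∧ (U ⊆ A ∨
    ∃ p ∈ A, ∃ γ < p.len, γ ≤ α ∧ n ≤ g α γ (p.val ∩ Iio γ) ∧ U = Bs L γ (p.val ∩ Iio γ))}
  have hW : A = ⋂ n, W n := by
    refine Subset.antisymm (fun p hp => mem_iInter.2 fun n => ?_) fun q hq => ?_
    · rcases lt_or_ge α p.len with h | h
      · exact ⟨_, ⟨⟨α, _, rfl⟩, Or.inl ((hdec p h).resolve_left fun h' => h' ⟨h, rfl⟩ hp)⟩, h, rfl⟩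
      · obtain ⟨γ, h1, h2⟩ := (T.g2 α).unb _ h _ p.pt n
        exact ⟨_, ⟨⟨γ, _, rfl⟩, Or.inr ⟨p, hp, γ, h1, h1.le.trans h, h2, rfl⟩⟩, h1, rfl⟩
    · by_contra hqA
      obtain ⟨β, h1, h2, h3⟩ : ∃ β, β ≤ α ∧ β < q.len ∧ Bs L β (q.val ∩ Iio β) ⊆ Aᶜ := by
        rcases lt_or_ge α q.len with h | h
        · exact ⟨α, le_rfl, h, (hdec q h).resolve_right fun h' => hqA (h' ⟨h, rfl⟩)⟩
        · obtain ⟨γ, hγ⟩ := q.pt.lim.1
          obtain ⟨β, -, h2, h3⟩ := nhd hA.isOpen_compl hqA hγ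
          exact ⟨β, h2.le.trans h, h2, h3⟩
      obtain ⟨U, ⟨-, h4 | ⟨p, hp, γ, a1, a2, a3, rfl⟩⟩, h5⟩ :=
        mem_iInter.1 hq (g α β (q.val ∩ Iio β) + 1)
      · exact hqA (h4 h5)
      · rcases le_total γ β with h | h
        · have := (T.g2 α).mono γ β h h1 _ (q.pt.mem β h2)
          rw [res_res _ h, h5.2] at this
          omega
        · exact h3 (Bs_sub' h ⟨h2, rfl⟩ h5 ⟨a1, rfl⟩) hp
  rw [hW]
  exact IsGδ.iInter_of_isOpen fun n => isOpen_sUnion fun U hU => basis.isOpen hU.1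

theorem Tree.not_metrizable (c : Ctx O κ) (T : Tree L g e) : ¬ MetrizableSpace (Sp L) := by
  intro hm
  letI := metrizableSpaceMetric (Sp L)
  have h1 : ∀ n : ℕ, ∃ α, ∀ t ∈ L α, ∃ β < α, ∃ p : Sp L,
      Bs L β (t ∩ Iio β) ⊆ Metric.ball p (1 / (n + 1)) := fun n =>
    T.level c (fun γ t => ∃ p : Sp L, Bs L γ t ⊆ Metric.ball p (1 / (n + 1))) fun p β hβ =>
      (nhd Metric.isOpen_ball (Metric.mem_ball_self Nat.one_div_pos_of_nat) hβ).imp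
        fun _ h => ⟨h.1, h.2.1, p, h.2.2⟩
  choose a ha using h1
  obtain ⟨δ, hδ⟩ := c.bdd_nat a
  obtain ⟨s, hs⟩ := T.ne δ
  obtain ⟨p, hp⟩ := T.dense c hs
  have h2 : Bs L δ s ⊆ {p} := fun q hq => by
    refine dist_le_zero.1 (le_of_forall_pos_le_add fun ε hε => ?_)
    obtain ⟨n, hn⟩ := exists_nat_one_div_lt (half_pos hε)
    obtain ⟨β, h3, r, h4⟩ := ha n _ (T.res δ s hs _ (hδ n).le)
    rw [res_res _ h3.le] at h4
    have h5 := (Bs_sub (h3.le.trans (hδ n).le) rfl).trans h4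
    have := dist_triangle_right q p r
    linarith [Metric.mem_ball.1 (h5 hp), Metric.mem_ball.1 (h5 hq)]
  obtain ⟨γ, -, h3, h4⟩ := p.pt.lim.2 δ hp.1
  exact T.split c hs h3 (h2.trans (singleton_subset_iff.2 ⟨h4, rfl⟩))

theorem Tree.not_pcb (c : Ctx O κ) (T : Tree L g e) : ¬ HasPointCountableBase (Sp L) := by
  rintro ⟨B, hB, hpc⟩
  have h1 : ∀ a : O, ∃ α, ∀ t ∈ L α, ∃ β < α, a ≤ β ∧
      ∃ U ∈ B, Bs L β (t ∩ Iio β) ⊆ U ∧ U ⊆ Bs L a (t ∩ Iio β ∩ Iio a) := fun a => by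
    refine T.sous (fun γ t => a ≤ γ ∧ ∃ U ∈ B, Bs L γ t ⊆ U ∧ U ⊆ Bs L a (t ∩ Iio a))
      fun β s hs => ?_
    obtain ⟨b1, b2, -⟩ := (T.g2 (max β a)).ext β (le_max_left _ _) s hs
    obtain ⟨p, hp⟩ := T.dense c b1
    have ha : a < p.len := (le_max_right _ _).trans_lt hp.1
    obtain ⟨U, hU, h1, h2⟩ := hB.exists_subset_of_mem_open
      (show p ∈ Bs L a (p.val ∩ Iio a) from ⟨ha, rfl⟩) (isOpen_Bs _ _)
    obtain ⟨γ, h3, h4, h5⟩ := nhd (hB.isOpen hU) h1 hp.1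
    have h6 := (le_max_left _ _).trans h3
    have h7 := (le_max_right _ _).trans h3
    exact ⟨γ, h6, _, p.pt.mem γ h4, by
      rw [res_res _ h6, ← res_res _ (le_max_left β a), hp.2, b2], h7, U, hU, h5, by
      rwa [res_res _ h7]⟩
  choose φ hφ using h1
  have hω : (ℵ₁ : Cardinal.{u}) ≤ κ := by
    rw [← succ_aleph0, Order.succ_le_iff, ← c.pw]
    exact (cantor _).trans_le (power_le_power_right ((nat_lt_aleph0 2).le.trans c.inf))
  have hI : #((ℵ₁ : Cardinal.{u}).ord.ToType) ≤ κ := (mk_ord_toType _).trans_le hω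
  haveI := c.nonempty
  obtain ⟨a, ha⟩ := exists_rec (I := (ℵ₁ : Cardinal.{u}).ord.ToType) (D := O)
    (fun ξ F d => ∀ η < ξ, φ (F η) < d) (fun ξ F F' d h h' η hη => h η hη ▸ h' η hη)
    fun ξ F _ => (c.bdd_fun hI fun η => φ (F η)).imp fun _ h η _ => h η
  obtain ⟨δ, hδ⟩ := c.bdd_fun hI fun η => φ (a η)
  obtain ⟨s, hs⟩ := T.ne δ
  obtain ⟨p, hp⟩ := T.dense c hs
  choose β h1 h2 U h3 h4 h5 using fun ξ => hφ (a ξ) _ (T.res δ s hs _ (hδ ξ).le)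
  have hne : ∀ ξ η, ξ < η → U ξ ≠ U η := fun ξ η h he =>
    T.split c (T.res _ _ (T.res δ s hs _ (hδ ξ).le) _ (h1 ξ).le) ((h1 ξ).trans (ha η ξ h))
      ((h4 ξ).trans (he ▸ h5 η))
  have hinj : Function.Injective fun ξ => (⟨U ξ, h3 ξ, h4 ξ
      (Bs_sub ((h1 ξ).le.trans (hδ ξ).le) (res_res _ (h1 ξ).le).symm hp)⟩ :
        {U ∈ B | p ∈ U}) := fun ξ η h => by
    have h' : U ξ = U η := congrArg Subtype.val h
    rcases lt_trichotomy ξ η with h6 | h6 | h6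
    · exact (hne _ _ h6 h').elim
    · exact h6
    · exact (hne _ _ h6 h'.symm).elim
  have := (mk_le_of_injective hinj).trans (le_aleph0_iff_set_countable.2 (hpc p))
  rw [mk_ord_toType] at this
  exact aleph0_lt_aleph_one.not_ge this

theorem ctx (h0 : ℵ₀ ≤ κ) (h1 : κ ^ ℵ₀ = κ) (h2 : 2 ^ κ = Order.succ κ) :
    Ctx (Order.succ κ).ord.ToType κ := by
  refine ⟨fun S hS => ?_, fun a => ?_, by rw [mk_ord_toType, h2], h0, h1,
    by rw [mk_ord_toType, h2]⟩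
  · by_contra h
    push Not at h
    have := Order.cof_le (s := S) fun a => (h a).imp fun x hx => ⟨hx.1, hx.2⟩
    rw [Ordinal.cof_toType, (isRegular_succ h0).cof_ord] at this
    exact (Order.lt_succ κ).not_ge (this.trans hS)
  · have := mk_Iio_lt a (by simp)
    rw [mk_ord_toType] at this
    exact Order.lt_succ_iff.1 this

theorem main (h0 : ℵ₀ ≤ κ) (h1 : κ ^ ℵ₀ = κ) (h2 : 2 ^ κ = Order.succ κ) (h3 : Square κ) :
    ∃ (X : Type u) (_ : TopologicalSpace X), T1Space X ∧ NonArchimedean X ∧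
      PerfectlyNormalSpace X ∧ ¬ MetrizableSpace X ∧ ¬ HasPointCountableBase X := by
  have c := ctx h0 h1 h2
  obtain ⟨C, hC⟩ := h3
  obtain ⟨C', E, a⟩ := c.exists_avoid (mk_ord_toType κ).le C hC
  obtain ⟨L, g, e, T⟩ := c.exists_tree a
  exact ⟨Sp L, inferInstance, T.t1, ⟨_, basis, fun p U hU V hV => Bs_comp hU hV⟩,
    { normal with closed_gdelta := fun _ h => T.gdelta c h }, T.not_metrizable c, T.not_pcb c⟩

end Pool.Agent.Work.MP_d95c0d_gt.Sq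
end
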