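import Mathlib

/-! Definitions for the statement about the square principle and non-archimedean spaces. -/

namespace Pool.Agent.Work.MP_d95c0d_gt.Sq
open Set

universe u

/-- `β` is a limit point of `S` from below: `β` is not the least element and `S ∩ β` is
unbounded in `β`. -/
def AccBelow {O : Type u} [LinearOrder O] (β : O) (S : Set O) : Prop :=
  (∃ γ, γ < β) ∧ ∀ γ < β, ∃ δ ∈ S, γ < δ ∧ δ < β

/-- Jensen's principle `□_κ`, on the well-order of type `κ⁺`: for each limit `α < κ⁺` a closed
unbounded `C α ⊆ α` of order type at most `κ`, with `C β = C α ∩ β` for limit points `β < α`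
of `C α`. -/
def Square (κ : Cardinal.{u}) : Prop :=
  ∃ C : (Order.succ κ).ord.ToType → Set (Order.succ κ).ord.ToType,
    ∀ α, AccBelow α univ →
      C α ⊆ Iio α ∧ AccBelow α (C α) ∧
      (∃ f : (Order.succ κ).ord.ToType → κ.ord.ToType, StrictMonoOn f (C α)) ∧
      ∀ β < α, AccBelow β (C α) → β ∈ C α ∧ C β = C α ∩ Iio β

/-- A base of rank 1: the members containing a given point are totally ordered by inclusion. -/
def NonArchimedean (X : Type u) [TopologicalSpace X] : Prop :=
  ∃ B : Set (Set X), TopologicalSpace.IsTopologicalBasis B ∧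
    ∀ p : X, ∀ U ∈ B, ∀ V ∈ B, p ∈ U → p ∈ V → U ⊆ V ∨ V ⊆ U

/-- Some base has every point in only countably many members. -/
def HasPointCountableBase (X : Type u) [TopologicalSpace X] : Prop :=
  ∃ B : Set (Set X), TopologicalSpace.IsTopologicalBasis B ∧
    ∀ p : X, {U ∈ B | p ∈ U}.Countable

end Pool.Agent.Work.MP_d95c0d_gt.Sq
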